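import Pool.Agent.Lib.MP_108739_an.F.Ent1

set_option autoImplicit false

/-! Activity of a cell: few selected items sit in a fibre that is concentrated next to them. -/

namespace Pool.Agent.Lib.MP_d308c3_co.Act

open Finset Pool.Agent.Lib.MP_108739_an.F
open Classical

variable {Ω α β γ ι : Type} [Fintype Ω] {w : Ω → ℝ}

/-- an event with conditional mass at most `η` on every fibre -/
theorem tot_le_fib (hw : Nn w) (O : Ω → α) (F : Ω → Prop) {η : ℝ}
    (h : ∀ o, 0 < w o → tot (res w fun o' => O o' = O o ∧ F o') ≤ η * ms w O o) :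
    tot (res w F) ≤ η * tot w := by
  rw [← E_ind, ← E_fib hw O]
  refine E_le_const hw fun o ho => ?_
  rw [E_ind, res_res, div_le_iff₀ (ms_pos hw O ho)]
  exact h o ho

/-- bounded multiplicity -/
theorem sum_le_mult (hw : Nn w) (S : Finset ι) (Y : ι → Ω → Prop) (F : Ω → Prop) {K : ℝ}
    (hK : ∀ o, 0 < w o → (#(S.filter fun i => Y i o) : ℝ) ≤ K) :
    ∑ i ∈ S, tot (res w fun o => F o ∧ Y i o) ≤ K * tot (res w F) := by
  simp only [← res_res, ← E_ind (w := res w F)]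
  rw [← E_sum]
  refine E_le_const (hw.res F) fun o ho => ?_
  rw [sum_boole]
  exact hK o (res_pos ho).2

/-- (ACTIVE)  every label `i` has two sets `Y1 i`, `Y2 i`, not much lighter than the set of its own items,
inside the fibre of `O`, and no point of the fibre is near to both. -/
theorem act (hw : Nn w) (O : Ω → α) (R : Ω → Ω → Prop) (S : Finset ι) (own Y1 Y2 : ι → Ω → Prop)
    (Good : Ω → Prop) {θ η K : ℝ} (hθ : 0 ≤ θ) (hη : 0 ≤ η)
    (h1 : ∀ i ∈ S, θ * tot (res w (own i)) ≤ tot (res w (Y1 i)))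
    (h2 : ∀ i ∈ S, θ * tot (res w (own i)) ≤ tot (res w (Y2 i)))
    (hK : ∀ o, 0 < w o → (#(S.filter fun i => Y1 i o ∨ Y2 i o) : ℝ) ≤ K) (hK0 : 0 ≤ K)
    (hO : ∀ i ∈ S, ∀ o o', 0 < w o → 0 < w o' → own i o → Good o → Y1 i o' ∨ Y2 i o' → O o' = O o)
    (hR : ∀ i ∈ S, ∀ o p o1 o2, 0 < w o → 0 < w p → 0 < w o1 → 0 < w o2 → own i o → Good o →
      O p = O o → Y1 i o1 → Y2 i o2 → R p o1 ∨ R p o2) :
    θ * tot (res w fun o => (∃ i ∈ S, own i o) ∧ Good o ∧
      ¬ η * ms w O o ≤ tot (res w fun o' => O o' = O o ∧ R o o')) ≤ K * η * tot w := by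
  set Bad : Ω → Prop := fun o => ¬ η * ms w O o ≤ tot (res w fun o' => O o' = O o ∧ R o o')
    with hBad
  set Ex : α → Prop := fun v => ∃ p, 0 < w p ∧ Bad p ∧ O p = v with hEx
  set F : Ω → Prop := fun o => ∃ h : Ex (O o), R h.choose o with hF
  have hF1 : tot (res w F) ≤ η * tot w := by
    refine tot_le_fib hw O F fun o ho => ?_
    by_cases h : Ex (O o)
    · obtain ⟨_, b, e⟩ := h.choose_spec
      have b' := (not_le.1 b).le
      rw [ms_det O _ _ e] at b'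
      refine le_trans (tot_res_mono hw fun o' _ h' => ?_) b'
      obtain ⟨e', h3, h4⟩ := h'
      refine ⟨e'.trans e.symm, ?_⟩
      have : h3.choose = h.choose := by congr 1; simp only [e']
      rwa [← this]
    · refine le_trans (tot_res_mono hw (B := fun _ => False) fun o' _ h' => ?_) ?_
      · obtain ⟨e', h3, _⟩ := h'
        exact h (e' ▸ h3)
      · have : tot (res w fun _ => False) = 0 := by simp [tot, res]
        rw [this]
        exact mul_nonneg hη (ms_nonneg hw O o)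
  set S' := S.filter fun i => ∃ o, 0 < w o ∧ own i o ∧ Good o ∧ Bad o with hS'
  have a1 : tot (res w fun o => (∃ i ∈ S, own i o) ∧ Good o ∧ Bad o) ≤
      ∑ i ∈ S', tot (res w (own i)) := by
    refine le_trans (tot_res_mono hw fun o ho h => ?_) (tot_res_exists hw S' own)
    obtain ⟨⟨i, hi, h3⟩, h4, h5⟩ := h
    exact ⟨i, mem_filter.2 ⟨hi, o, ho, h3, h4, h5⟩, h3⟩
  have a2 : ∀ i ∈ S', θ * tot (res w (own i)) ≤ tot (res w fun o => F o ∧ (Y1 i o ∨ Y2 i o)) := by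
    intro i hi
    obtain ⟨hiS, o, ho, h3, h4, h5⟩ := mem_filter.1 hi
    have ex : Ex (O o) := ⟨o, ho, h5, rfl⟩
    obtain ⟨pp, _, pe⟩ := ex.choose_spec
    have key : ∀ o', 0 < w o' → Y1 i o' ∨ Y2 i o' → R ex.choose o' → F o' := by
      intro o' ho' hy hr
      have e' := hO i hiS o o' ho ho' h3 h4 hy
      have ex' : Ex (O o') := e' ▸ ex
      refine ⟨ex', ?_⟩
      have : ex'.choose = ex.choose := by congr 1; simp only [e']
      rwa [this]
    by_cases c : ∀ o1, 0 < w o1 → Y1 i o1 → R ex.choose o1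
    · exact (h1 i hiS).trans (tot_res_mono hw fun o' ho' hy =>
        ⟨key o' ho' (Or.inl hy) (c o' ho' hy), Or.inl hy⟩)
    · simp only [not_forall] at c
      obtain ⟨o1, ho1, hy1, hn⟩ := c
      exact (h2 i hiS).trans (tot_res_mono hw fun o' ho' hy => ⟨key o' ho' (Or.inr hy)
        ((hR i hiS o _ o1 o' ho pp ho1 ho' h3 h4 pe hy1 hy).resolve_left hn), Or.inr hy⟩)
  have a3 := sum_le_mult hw S' (fun i o => Y1 i o ∨ Y2 i o) F (K := K) fun o ho =>
    le_trans (Nat.cast_le.2 (card_le_card fun i hi => by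
      simp only [hS', mem_filter] at hi ⊢
      exact ⟨hi.1.1, hi.2⟩)) (hK o ho)
  have a4 := sum_le_sum a2
  rw [← mul_sum] at a4
  have a5 := mul_le_mul_of_nonneg_left a1 hθ
  have a6 := mul_le_mul_of_nonneg_left hF1 hK0
  linarith

/-- (t-ACTIVE)  `c` is the child, `Φ` a finer fibre on which a marked item sees both sides -/
theorem act_t (hw : Nn w) (O : Ω → α) (Φ : Ω → β) (c : Ω → γ) (hΦ : Det Φ O) (Mark : Ω → Prop)
    {θ η : ℝ} (hθ : 0 ≤ θ) (hη : 0 ≤ η)
    (hM : ∀ o, 0 < w o → Mark o →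
      θ * ms w Φ o ≤ tot (res w fun o' => Φ o' = Φ o ∧ c o' = c o) ∧
      θ * ms w Φ o ≤ tot (res w fun o' => Φ o' = Φ o ∧ c o' ≠ c o)) :
    θ * tot (res w fun o => Mark o ∧
      ¬ η * ms w O o ≤ tot (res w fun o' => O o' = O o ∧ c o' ≠ c o)) ≤ η * tot w := by
  set Ex : β → Prop := fun v => ∃ p, 0 < w p ∧ Mark p ∧ Φ p = v with hEx
  set S := (univ.filter fun o => 0 < w o ∧ Mark o).image Φ with hS
  have hSE : ∀ v ∈ S, Ex v := by
    intro v hv
    obtain ⟨o, ho, e⟩ := mem_image.1 hv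
    exact ⟨o, (mem_filter.1 ho).2.1, (mem_filter.1 ho).2.2, e⟩
  have := act hw O (fun o o' => c o' ≠ c o) S (fun v o => Φ o = v)
    (fun v o => Φ o = v ∧ ∃ h : Ex v, c o = c h.choose)
    (fun v o => Φ o = v ∧ ∃ h : Ex v, c o ≠ c h.choose) Mark (K := 1) hθ hη
    (fun v hv => by
      obtain ⟨p1, p2, p3⟩ := (hSE v hv).choose_spec
      have := (hM _ p1 p2).1
      rw [ms_eq_tot, p3] at this
      exact this.trans (tot_res_mono hw fun o _ h => ⟨h.1, hSE v hv, h.2⟩))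
    (fun v hv => by
      obtain ⟨p1, p2, p3⟩ := (hSE v hv).choose_spec
      have := (hM _ p1 p2).2
      rw [ms_eq_tot, p3] at this
      exact this.trans (tot_res_mono hw fun o _ h => ⟨h.1, hSE v hv, h.2⟩))
    (fun o _ => by
      have : (S.filter fun v => (Φ o = v ∧ ∃ h : Ex v, c o = c h.choose) ∨
          (Φ o = v ∧ ∃ h : Ex v, c o ≠ c h.choose)) ⊆ {Φ o} := by
        intro v hv
        rcases (mem_filter.1 hv).2 with h | h <;> exact mem_singleton.2 h.1.symm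
      exact_mod_cast card_le_card this) zero_le_one
    (fun v _ o o' _ _ e _ h => hΦ o' o (by rcases h with h | h <;> exact h.1.trans e.symm))
    (fun v _ o p o1 o2 _ _ _ _ _ _ _ h1 h2 => by
      obtain ⟨_, x1, y1⟩ := h1
      obtain ⟨_, x2, y2⟩ := h2
      by_contra hn
      simp only [not_or, not_not] at hn
      exact y2 (hn.2.trans (hn.1.symm.trans y1)))
  rw [one_mul] at this
  refine le_trans (mul_le_mul_of_nonneg_left (tot_res_mono hw fun o ho h => ?_) hθ) this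
  exact ⟨⟨Φ o, mem_image_of_mem Φ (mem_filter.2 ⟨mem_univ _, ho, h.1⟩), rfl⟩, h.1, h.2⟩

/-- (x-ACTIVE)  the two sets of a label are `2 r` apart in `a` -/
theorem act_x (hw : Nn w) (O : Ω → α) (a r : Ω → ℝ) (hr : Det O r) (S : Finset ι)
    (own Y1 Y2 : ι → Ω → Prop) (Good : Ω → Prop) {θ η K : ℝ} (hθ : 0 ≤ θ) (hη : 0 ≤ η)
    (h1 : ∀ i ∈ S, θ * tot (res w (own i)) ≤ tot (res w (Y1 i)))
    (h2 : ∀ i ∈ S, θ * tot (res w (own i)) ≤ tot (res w (Y2 i)))
    (hK : ∀ o, 0 < w o → (#(S.filter fun i => Y1 i o ∨ Y2 i o) : ℝ) ≤ K) (hK0 : 0 ≤ K)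
    (hO : ∀ i ∈ S, ∀ o o', 0 < w o → 0 < w o' → own i o → Good o → Y1 i o' ∨ Y2 i o' → O o' = O o)
    (hs : ∀ i ∈ S, ∀ o o1 o2, 0 < w o → 0 < w o1 → 0 < w o2 → own i o → Good o →
      Y1 i o1 → Y2 i o2 → 2 * r o ≤ |a o1 - a o2|) :
    θ * tot (res w fun o => (∃ i ∈ S, own i o) ∧ Good o ∧
      ¬ η * ms w O o ≤ tot (res w fun o' => O o' = O o ∧ r o ≤ |a o' - a o|)) ≤ K * η * tot w := by
  refine act hw O (fun o o' => r o ≤ |a o' - a o|) S own Y1 Y2 Good hθ hη h1 h2 hK hK0 hO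
    fun i hi o p o1 o2 ho _ ho1 ho2 h3 h4 e y1 y2 => ?_
  have b1 := hs i hi o o1 o2 ho ho1 ho2 h3 h4 y1 y2
  rw [hr p o e]
  by_contra hn
  simp only [not_or, not_le] at hn
  have b2 := abs_sub_le (a o1) (a p) (a o2)
  rw [abs_sub_comm (a p)] at b2
  linarith [hn.1, hn.2]

end Pool.Agent.Lib.MP_d308c3_co.Act
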