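import Pool.Agent.Lib.MP_d308c3_co.Basic

namespace Pool.Agent.Lib.MP_d308c3_co

open Finset

def bs : Fin 8 → ℚ := ![15 / 10, 4 / 10, 10 / 10, 1 / 10, 2 / 10, 6 / 10, 0, 18 / 10]
def bc : Fin 8 → ℚ := ![4 / 40, 11 / 40, 8 / 40, 10 / 40, 18 / 40, 12 / 40, 10 / 40, 2 / 40]
def bcol : Fin 8 → Bool := ![true, false, false, true, false, true, false, false]
def bz1 : Fin 9 → ℚ := ![7 / 44, 1 / 5, 1 / 6, -1 / 12, -1 / 8, 1 / 18, 1 / 4, 0, 3 / 8]
def bz2 : Fin 9 → ℚ :=
  ![149 / 440, 2 / 5, 7 / 20, 29 / 120, 9 / 40, 23 / 90, 9 / 20, 1 / 4, 21 / 40]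
def ba : Fin 9 → Fin 8 := ![0, 0, 0, 3, 5, 3, 5, 3, 5]
def bb : Fin 9 → Fin 8 := ![1, 2, 7, 1, 1, 2, 2, 6, 4]
def bslot : Fin 9 → Fin 3 := ![0, 1, 2, 0, 0, 1, 1, 2, 2]
def bf (k : Fin 8) (t : Fin 9) : ℚ := bz2 t - bs k * bz1 t - bc k

noncomputable def baseCfg : Cfg (Fin 8) (Fin 9) (Fin 3) where
  s k := bs k
  c k := bc k
  col := bcol
  z t := (bz1 t, bz2 t)
  a := ba
  b := bb
  slot := bslot

theorem base_f (k : Fin 8) (t : Fin 9) : baseCfg.f k (baseCfg.z t) = bf k t := by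
  simp [Cfg.f, baseCfg, bf]

theorem sg_cast (q : ℚ) : sg q = if 0 < q then 1 else if q < 0 then -1 else 0 := by
  simp [sg]

theorem base_plain : baseCfg.Plain 2 (1 / 512) := by
  have h1 : ∀ k, |bs k| ≤ 2 := by decide +kernel
  have h2 : ∀ k, |bc k| ≤ 3 * 2 := by decide +kernel
  have h3 : ∀ k, |bz1 k| ≤ 2 := by decide +kernel
  have h4 : ∀ k, |bz2 k| ≤ 2 := by decide +kernel
  have h5 : ∀ t, bf (ba t) t = 0 := by decide +kernel
  have h6 : ∀ t, bf (bb t) t = 0 := by decide +kernel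
  have h7 : ∀ t, 1 / 512 ≤ |bs (ba t) - bs (bb t)| := by decide +kernel
  have h8 : ∀ t k, k ≠ ba t → k ≠ bb t → 1 / 512 ≤ |bf k t| := by decide +kernel
  have h9 : ∀ t, ∑ k, (if 0 < bf k t then (1 : ℤ) else if bf k t < 0 then -1 else 0) = 0 := by
    decide +kernel
  have hc : ∀ {p q : ℚ}, p ≤ q → (p : ℝ) ≤ q := fun h => by exact_mod_cast h
  exact
    { s_le := fun k => by simpa [baseCfg] using hc (h1 k)
      c_le := fun k => by simpa [baseCfg] using hc (h2 k)
      z1 := fun k => by simpa [baseCfg] using hc (h3 k)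
      z2 := fun k => by simpa [baseCfg] using hc (h4 k)
      fa := fun t => by rw [base_f]; exact_mod_cast h5 t
      fb := fun t => by rw [base_f]; exact_mod_cast h6 t
      sep := fun t => by simpa [baseCfg] using hc (h7 t)
      ca := by decide +kernel
      cb := by decide +kernel
      far := fun t k a b => by rw [base_f]; simpa using hc (h8 t k a b)
      inj_slot := by decide +kernel
      inj_ab := by decide +kernel
      ev := by decide +kernel
      bal := fun t => by simp only [base_f, sg_cast]; exact h9 t }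

theorem base_ex : PlainEx 2 (1 / 512) 8 9 3 :=
  ⟨_, _, _, inferInstance, inferInstance, inferInstance, _, base_plain, by simp, by simp, by simp⟩

end Pool.Agent.Lib.MP_d308c3_co
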