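import Mathlib

namespace Pool.Agent.Lib.MP_d308c3_co

open Finset

/-- sign as an integer -/
noncomputable def sg (x : ℝ) : ℤ := if 0 < x then 1 else if x < 0 then -1 else 0

theorem sg_pos {x : ℝ} (h : 0 < x) : sg x = 1 := by simp [sg, h]

theorem sg_neg {x : ℝ} (h : x < 0) : sg x = -1 := by simp [sg, h, not_lt.2 h.le]

@[simp] theorem sg_zero : sg 0 = 0 := by simp [sg]

theorem sg_mul (x y : ℝ) : sg (x * y) = sg x * sg y := by
  rcases lt_trichotomy x 0 with hx | hx | hx <;> rcases lt_trichotomy y 0 with hy | hy | hy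
  · rw [sg_pos (mul_pos_of_neg_of_neg hx hy), sg_neg hx, sg_neg hy]; rfl
  · simp [hy]
  · rw [sg_neg (mul_neg_of_neg_of_pos hx hy), sg_neg hx, sg_pos hy]; rfl
  · simp [hx]
  · simp [hx]
  · simp [hx]
  · rw [sg_neg (mul_neg_of_pos_of_neg hx hy), sg_pos hx, sg_neg hy]; rfl
  · simp [hy]
  · rw [sg_pos (mul_pos hx hy), sg_pos hx, sg_pos hy]; rfl

theorem sg_mul_pos {x y : ℝ} (hx : 0 < x) : sg (x * y) = sg y := by
  rw [sg_mul, sg_pos hx, one_mul]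

theorem sg_of_mul {A x y : ℝ} (hA : 0 < A) (h : A * x = y) : sg x = sg y := by
  rw [← h, sg_mul_pos hA]

theorem sg_neg_eq (x : ℝ) : sg (-x) = -sg x := by
  rw [← neg_one_mul, sg_mul, sg_neg (by norm_num : (-1 : ℝ) < 0)]; ring

theorem abs_sg_le (x : ℝ) : |(sg x : ℝ)| ≤ 1 := by
  unfold sg; split_ifs <;> simp

/-- a value close to `x` has the sign of `x` and stays large -/
theorem close {x y m d : ℝ} (hm : m ≤ |x|) (hd : |y - x| ≤ d) (h : d < m) :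
    sg y = sg x ∧ m - d ≤ |y| := by
  obtain ⟨h1, h2⟩ := abs_le.1 hd
  have hd0 : 0 ≤ d := (abs_nonneg _).trans hd
  rcases le_abs'.1 hm with h3 | h3
  · rw [sg_neg (by linarith : y < 0), sg_neg (by linarith : x < 0), abs_of_neg (by linarith)]
    exact ⟨rfl, by linarith⟩
  · rw [sg_pos (by linarith : 0 < y), sg_pos (by linarith : 0 < x), abs_of_pos (by linarith)]
    exact ⟨rfl, by linarith⟩

theorem le_abs_of_mul {A x y m g : ℝ} (hA : 0 < A) (h : A * x = y) (hm : m ≤ |y|)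
    (hg : g * A ≤ m) : g ≤ |x| := by
  rw [← h, abs_mul, abs_of_pos hA] at hm
  exact le_of_mul_le_mul_right (by linarith [mul_comm A |x|]) hA

theorem sum_lt_ite (n x : ℕ) (hx : x ≤ n) :
    ∑ i : Fin n, (if (i : ℕ) < x then (1 : ℤ) else -1) = 2 * x - n := by
  rw [Fin.sum_univ_eq_sum_range (fun i => if i < x then (1 : ℤ) else -1)]
  induction n, hx using Nat.le_induction with
  | base =>
    rw [sum_congr rfl (g := fun _ => (1 : ℤ)) fun i hi => if_pos (mem_range.1 hi)]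
    simp; ring
  | succ n hn ih => rw [sum_range_succ, ih, if_neg (by omega)]; push_cast; ring

/-- A family of non-vertical lines `y = s θ + c` with marked points. -/
structure Cfg (L τ σ : Type) where
  s : L → ℝ
  c : L → ℝ
  col : L → Bool
  z : τ → ℝ × ℝ
  a : τ → L
  b : τ → L
  slot : τ → σ

variable {L τ σ β : Type}

def Cfg.f (G : Cfg L τ σ) (k : L) (p : ℝ × ℝ) : ℝ := p.2 - G.s k * p.1 - G.c k

structure Cfg.Good (G : Cfg L τ σ) (ρ γ : ℝ) : Prop where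
  s_le : ∀ k, |G.s k| ≤ ρ
  c_le : ∀ k, |G.c k| ≤ 3 * ρ
  z1 : ∀ t, |(G.z t).1| ≤ ρ
  z2 : ∀ t, |(G.z t).2| ≤ ρ
  fa : ∀ t, G.f (G.a t) (G.z t) = 0
  fb : ∀ t, G.f (G.b t) (G.z t) = 0
  sep : ∀ t, γ ≤ |G.s (G.a t) - G.s (G.b t)|
  ca : ∀ t, G.col (G.a t) = true
  cb : ∀ t, G.col (G.b t) = false
  far : ∀ t k, k ≠ G.a t → k ≠ G.b t → γ ≤ |G.f k (G.z t)|
  inj_slot : ∀ t t', G.a t = G.a t' → G.slot t = G.slot t' → t = t'
  inj_ab : ∀ t t', G.a t = G.a t' → G.b t = G.b t' → t = t'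

structure Cfg.Plain [Fintype L] (G : Cfg L τ σ) (ρ γ : ℝ) : Prop extends G.Good ρ γ where
  ev : Even (Fintype.card L)
  bal : ∀ t, ∑ k, sg (G.f k (G.z t)) = 0

structure Cfg.Gad [Fintype L] [Fintype β] (G : Cfg L τ σ) (P Q : β → ℝ) (ρ γ : ℝ) : Prop
    extends G.Good ρ γ where
  ev : Even (Fintype.card L)
  s_ge : ∀ k, 1 / (2 * ρ) ≤ |G.s k|
  s_sum : ∑ k, sg (G.s k) = 0
  P_le : ∀ p, |P p| ≤ 3 * ρ
  Q_le : ∀ p, |Q p| ≤ 3 * ρ
  P_far : ∀ t p, γ ≤ |(G.z t).2 - P p|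
  Q_far : ∀ t p, γ ≤ |(G.z t).1 - Q p|
  bal : ∀ t, ∑ k, sg (G.f k (G.z t)) + ∑ p, sg ((G.z t).2 - P p) + ∑ p, sg ((G.z t).1 - Q p) = 0

theorem Cfg.Good.mono {G : Cfg L τ σ} {ρ γ ρ' γ' : ℝ} (h : G.Good ρ γ) (h1 : ρ ≤ ρ')
    (h2 : γ' ≤ γ) : G.Good ρ' γ' :=
  { h with
    s_le := fun k => (h.s_le k).trans h1
    c_le := fun k => (h.c_le k).trans (by linarith)
    z1 := fun k => (h.z1 k).trans h1
    z2 := fun k => (h.z2 k).trans h1
    sep := fun t => h2.trans (h.sep t)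
    far := fun t k a b => h2.trans (h.far t k a b) }

theorem Cfg.Good.ne {G : Cfg L τ σ} {ρ γ : ℝ} (h : G.Good ρ γ) (t t' : τ) : G.a t ≠ G.b t' :=
  fun e => by have := h.ca t; rw [e, h.cb] at this; exact Bool.noConfusion this

def PlainEx (ρ γ : ℝ) (n m Δ : ℕ) : Prop :=
  ∃ (L τ σ : Type) (_ : Fintype L) (_ : Fintype τ) (_ : Fintype σ) (G : Cfg L τ σ),
    G.Plain ρ γ ∧ Fintype.card L = n ∧ Fintype.card τ = m ∧ Fintype.card σ = Δ

def GadEx (ρ γ : ℝ) (w l m Δ : ℕ) : Prop :=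
  ∃ (L τ σ β : Type) (_ : Fintype L) (_ : Fintype τ) (_ : Fintype σ) (_ : Fintype β)
    (G : Cfg L τ σ) (P Q : β → ℝ),
    G.Gad P Q ρ γ ∧ Fintype.card β = w ∧ Fintype.card L = l ∧ Fintype.card τ = m ∧
      Fintype.card σ = Δ

theorem PlainEx.mono {ρ γ γ' : ℝ} {n m Δ : ℕ} (h : PlainEx ρ γ n m Δ) (h2 : γ' ≤ γ) :
    PlainEx ρ γ' n m Δ := by
  obtain ⟨L, τ, σ, i1, i2, i3, G, hG, h⟩ := h
  exact ⟨L, τ, σ, i1, i2, i3, G, { hG with toGood := hG.toGood.mono le_rfl h2 }, h⟩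

theorem GadEx.mono {ρ γ ρ' γ' : ℝ} {w l m Δ : ℕ} (h : GadEx ρ γ w l m Δ) (h0 : 0 < ρ)
    (h1 : ρ ≤ ρ') (h2 : γ' ≤ γ) : GadEx ρ' γ' w l m Δ := by
  obtain ⟨L, τ, σ, β, i1, i2, i3, i4, G, P, Q, hG, h⟩ := h
  refine ⟨L, τ, σ, β, i1, i2, i3, i4, G, P, Q, { hG with
    toGood := hG.toGood.mono h1 h2
    s_ge := fun k => le_trans ?_ (hG.s_ge k)
    P_le := fun k => (hG.P_le k).trans (by linarith)
    Q_le := fun k => (hG.Q_le k).trans (by linarith)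
    P_far := fun t p => h2.trans (hG.P_far t p)
    Q_far := fun t p => h2.trans (hG.Q_far t p) }, h⟩
  gcongr

end Pool.Agent.Lib.MP_d308c3_co
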