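import Mathlib

set_option autoImplicit false

/-! Smoothing on the integers, l1 calculus and the density lemma (DENS). -/

namespace Pool.Agent.Lib.MP_d308c3_co.Dens

open Finset

/-- smoothing by the uniform law on `[0,J)` -/
noncomputable def sm (J : ℕ) (ν : ℤ → ℝ) (z : ℤ) : ℝ := (∑ i ∈ range J, ν (z - i)) / J

/-- mass of `[a,b)` -/
noncomputable def mass (ν : ℤ → ℝ) (a b : ℤ) : ℝ := ∑ z ∈ Ico a b, ν z

/-- translate by `D` -/
def shift (f : ℤ → ℝ) (D : ℤ) (z : ℤ) : ℝ := f (z - D)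

/-- l1 distance at most `τ` -/
def Near (f g : ℤ → ℝ) (τ : ℝ) : Prop := ∀ T : Finset ℤ, ∑ z ∈ T, |f z - g z| ≤ τ

theorem Near.nonneg {f g : ℤ → ℝ} {τ : ℝ} (h : Near f g τ) : 0 ≤ τ := by
  simpa using h ∅

theorem Near.refl (f : ℤ → ℝ) : Near f f 0 := by
  intro T; simp

theorem Near.symm {f g : ℤ → ℝ} {τ : ℝ} (h : Near f g τ) : Near g f τ := by
  intro T
  have := h T
  simpa [abs_sub_comm] using this

theorem Near.mono {f g : ℤ → ℝ} {τ σ : ℝ} (h : Near f g τ) (hs : τ ≤ σ) : Near f g σ :=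
  fun T => (h T).trans hs

theorem Near.trans {f g k : ℤ → ℝ} {τ σ : ℝ} (h : Near f g τ) (h2 : Near g k σ) :
    Near f k (τ + σ) := by
  intro T
  calc ∑ z ∈ T, |f z - k z| ≤ ∑ z ∈ T, (|f z - g z| + |g z - k z|) :=
        sum_le_sum fun z _ => abs_sub_le _ _ _
    _ = ∑ z ∈ T, |f z - g z| + ∑ z ∈ T, |g z - k z| := sum_add_distrib
    _ ≤ τ + σ := add_le_add (h T) (h2 T)

theorem shift_shift (f : ℤ → ℝ) (D E : ℤ) : shift (shift f D) E = shift f (D + E) := by
  funext z; simp only [shift]; congr 1; ring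

theorem shift_zero (f : ℤ → ℝ) : shift f 0 = f := by
  funext z; simp [shift]

theorem Near.shift {f g : ℤ → ℝ} {τ : ℝ} (h : Near f g τ) (D : ℤ) :
    Near (Dens.shift f D) (Dens.shift g D) τ := by
  intro T
  have := h (T.image fun z => z - D)
  rw [sum_image (by intro a _ b _ hab; simpa using hab)] at this
  simpa [Dens.shift] using this

theorem near_mul {f : ℤ → ℝ} {D : ℤ} {τ : ℝ} (h : Near f (shift f D) τ) (k : ℕ) :
    Near f (shift f (k * D)) (k * τ) := by
  induction k with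
  | zero => simpa [shift_zero] using Near.refl f
  | succ k ih =>
    have h2 := h.shift (k * D)
    rw [shift_shift] at h2
    have h3 := ih.trans h2
    have e1 : D + (k : ℤ) * D = ((k + 1 : ℕ) : ℤ) * D := by push_cast; ring
    have e2 : (k : ℝ) * τ + τ = ((k + 1 : ℕ) : ℝ) * τ := by push_cast; ring
    rwa [e1, e2] at h3

theorem sm_shift (J : ℕ) (ν : ℤ → ℝ) (D : ℤ) : sm J (shift ν D) = shift (sm J ν) D := by
  funext z
  simp only [sm, shift]
  congr 1
  refine sum_congr rfl fun i _ => ?_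
  congr 1; ring

theorem sm_nonneg (J : ℕ) {ν : ℤ → ℝ} (h : ∀ z, 0 ≤ ν z) (z : ℤ) : 0 ≤ sm J ν z :=
  div_nonneg (sum_nonneg fun _ _ => h _) (Nat.cast_nonneg _)

/-- smoothing does not increase the l1 distance -/
theorem Near.sm {f g : ℤ → ℝ} {τ : ℝ} (h : Near f g τ) (J : ℕ) :
    Near (Dens.sm J f) (Dens.sm J g) τ := by
  intro T
  rcases Nat.eq_zero_or_pos J with rfl | hJ
  · simpa [Dens.sm] using h.nonneg
  have hJ' : (0 : ℝ) < J := by exact_mod_cast hJ
  calc ∑ z ∈ T, |Dens.sm J f z - Dens.sm J g z|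
      ≤ ∑ z ∈ T, (∑ i ∈ range J, |f (z - i) - g (z - i)|) / J := by
        refine sum_le_sum fun z _ => ?_
        rw [Dens.sm, Dens.sm, ← sub_div, ← sum_sub_distrib, abs_div, abs_of_pos hJ']
        exact div_le_div_of_nonneg_right (abs_sum_le_sum_abs _ _) hJ'.le
    _ = (∑ i ∈ range J, ∑ z ∈ T, |f (z - i) - g (z - i)|) / J := by
        rw [← sum_div, sum_comm]
    _ ≤ (∑ _i ∈ range J, τ) / J := by
        refine div_le_div_of_nonneg_right (sum_le_sum fun i _ => ?_) hJ'.le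
        exact (h.shift i) T
    _ = τ := by
        rw [sum_const, card_range, nsmul_eq_mul]; field_simp

theorem mass_nonneg {ν : ℤ → ℝ} (h : ∀ z, 0 ≤ ν z) (a b : ℤ) : 0 ≤ mass ν a b :=
  sum_nonneg fun _ _ => h _

theorem mass_mono {ν : ℤ → ℝ} (h : ∀ z, 0 ≤ ν z) {a b a' b' : ℤ} (ha : a' ≤ a) (hb : b ≤ b') :
    mass ν a b ≤ mass ν a' b' :=
  sum_le_sum_of_subset_of_nonneg (Ico_subset_Ico ha hb) fun _ _ _ => h _

theorem mass_add (ν : ℤ → ℝ) {a b c : ℤ} (h1 : a ≤ b) (h2 : b ≤ c) :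
    mass ν a b + mass ν b c = mass ν a c := by
  unfold mass
  rw [← sum_union (Ico_disjoint_Ico_consecutive a b c), Ico_union_Ico_eq_Ico h1 h2]

theorem mass_shift (ν : ℤ → ℝ) (D a b : ℤ) : mass (shift ν D) a b = mass ν (a - D) (b - D) := by
  unfold mass shift
  refine sum_bij (fun z _ => z - D) ?_ ?_ ?_ ?_
  · intro z hz; simp only [mem_Ico] at hz ⊢; omega
  · intro x _ y _ hxy; simpa using hxy
  · intro w hw
    refine ⟨w + D, ?_, by ring⟩
    simp only [mem_Ico] at hw ⊢; omega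
  · intro z _; rfl

theorem mass_sm (J : ℕ) (ν : ℤ → ℝ) (a b : ℤ) :
    mass (sm J ν) a b = (∑ i ∈ range J, mass ν (a - i) (b - i)) / J := by
  have : ∀ i : ℕ, mass ν (a - i) (b - i) = ∑ z ∈ Ico a b, ν (z - i) := fun i =>
    (mass_shift ν i a b).symm
  simp only [this]
  rw [sum_comm, sum_div]; rfl

theorem mass_le_sm {J : ℕ} (hJ : 1 ≤ J) {ν : ℤ → ℝ} (h : ∀ z, 0 ≤ ν z) (a b : ℤ) :
    mass ν a b ≤ mass (sm J ν) a (b + J) := by
  have hJ' : (0 : ℝ) < J := by exact_mod_cast hJ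
  rw [mass_sm, le_div_iff₀ hJ']
  calc mass ν a b * J = ∑ _i ∈ range J, mass ν a b := by
        rw [sum_const, card_range, nsmul_eq_mul, mul_comm]
    _ ≤ _ := sum_le_sum fun i hi => by
        have := mem_range.1 hi
        exact mass_mono h (by omega) (by omega)

theorem sm_le_mass {J : ℕ} (hJ : 1 ≤ J) {ν : ℤ → ℝ} (h : ∀ z, 0 ≤ ν z) (a b : ℤ) :
    mass (sm J ν) a b ≤ mass ν (a - J) b := by
  have hJ' : (0 : ℝ) < J := by exact_mod_cast hJ
  rw [mass_sm, div_le_iff₀ hJ']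
  calc ∑ i ∈ range J, mass ν (a - i) (b - i) ≤ ∑ _i ∈ range J, mass ν (a - J) b :=
        sum_le_sum fun i hi => by
          have := mem_range.1 hi
          exact mass_mono h (by omega) (by omega)
    _ = _ := by rw [sum_const, card_range, nsmul_eq_mul, mul_comm]

/-- disjoint blocks -/
theorem blocks {g : ℤ → ℝ} {K : ℝ} (hK : ∀ T : Finset ℤ, ∑ z ∈ T, g z ≤ K) {l : ℤ} (hl : 0 < l)
    (r : ℤ) (Y : Finset ℤ) : ∑ y ∈ Y, mass g ((y + r) * l) ((y + r + 1) * l) ≤ K := by
  have := hK (Y.biUnion fun y => Ico ((y + r) * l) ((y + r + 1) * l))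
  rw [sum_biUnion] at this
  · exact this
  · intro x _ y _ hxy
    rw [Function.onFun, disjoint_left]
    intro z hz hz'
    simp only [mem_Ico] at hz hz'
    rcases lt_or_gt_of_ne hxy with h | h
    · have : (x + r + 1) * l ≤ (y + r) * l := mul_le_mul_of_nonneg_right (by omega) hl.le
      omega
    · have : (y + r + 1) * l ≤ (x + r) * l := mul_le_mul_of_nonneg_right (by omega) hl.le
      omega

theorem blocks4 {g : ℤ → ℝ} {K : ℝ} (hK : ∀ T : Finset ℤ, ∑ z ∈ T, g z ≤ K) {l : ℤ} (hl : 0 < l)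
    (Y : Finset ℤ) : ∑ y ∈ Y, mass g ((y - 1) * l) ((y + 3) * l) ≤ 4 * K := by
  have e : ∀ y : ℤ, mass g ((y - 1) * l) ((y + 3) * l) =
      mass g ((y + -1) * l) ((y + -1 + 1) * l) + mass g ((y + 0) * l) ((y + 0 + 1) * l) +
      mass g ((y + 1) * l) ((y + 1 + 1) * l) + mass g ((y + 2) * l) ((y + 2 + 1) * l) := by
    intro y
    have m : ∀ a b : ℤ, a ≤ b → a * l ≤ b * l := fun a b h => mul_le_mul_of_nonneg_right h hl.le
    rw [show y + -1 + 1 = y + 0 by ring, show y + 0 + 1 = y + 1 by ring,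
      show y + 1 + 1 = y + 2 by ring, show y + 2 + 1 = y + 3 by ring, show y + -1 = y - 1 by ring,
      mass_add g (m _ _ (by omega)) (m _ _ (by omega)),
      mass_add g (m _ _ (by omega)) (m _ _ (by omega)),
      mass_add g (m _ _ (by omega)) (m _ _ (by omega))]
  simp only [e, sum_add_distrib]
  have h1 := blocks hK hl (-1) Y
  have h2 := blocks hK hl 0 Y
  have h3 := blocks hK hl 1 Y
  have h4 := blocks hK hl 2 Y
  linarith

/-- `n` translates of an interval of length at most `|E|` are disjoint -/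
theorem translates {f : ℤ → ℝ} (hf : ∀ z, 0 ≤ f z) {a b E : ℤ} (hE : b - a ≤ |E|) (n : ℕ) :
    ∑ j ∈ range n, mass (shift f (j * E)) a b ≤ mass f (a - n * |E|) (b + n * |E|) := by
  have h1 : ∑ j ∈ range n, mass (shift f (j * E)) a b =
      ∑ x ∈ range n ×ˢ Ico a b, f (x.2 - x.1 * E) := by
    rw [sum_product]; rfl
  rw [h1, ← sum_image (s := range n ×ˢ Ico a b) (g := fun x : ℕ × ℤ => x.2 - x.1 * E) (f := f)]
  · refine sum_le_sum_of_subset_of_nonneg ?_ fun _ _ _ => hf _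
    intro w hw
    obtain ⟨⟨j, z⟩, hx, rfl⟩ := mem_image.1 hw
    simp only [mem_product, mem_range, mem_Ico] at hx ⊢
    have h2 : |(j : ℤ) * E| ≤ n * |E| := by
      rw [abs_mul, abs_of_nonneg (by positivity : (0 : ℤ) ≤ j)]
      exact mul_le_mul_of_nonneg_right (by omega) (abs_nonneg _)
    have h3 := abs_le.1 h2
    omega
  · rintro ⟨j, z⟩ hx ⟨j', z'⟩ hx' hh
    simp only [coe_product, Set.mem_prod, mem_coe, mem_range, mem_Ico] at hx hx' hh
    have hj : j = j' := by
      by_contra hne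
      have h4 : ((j : ℤ) - j') * E = z - z' := by linear_combination -hh
      have h5 : 1 ≤ |(j : ℤ) - j'| := Int.one_le_abs (by omega)
      have h6 : |E| ≤ |z - z'| := by
        rw [← h4, abs_mul]
        nlinarith [abs_nonneg E]
      have h7 : |z - z'| < b - a := by rw [abs_lt]; omega
      omega
    subst hj
    have : z = z' := by omega
    rw [this]

/-- (DENS)  `c |D|` lies in `[4 l, 5 l]`, for instance `c = ceil (4 l / |D|)`. -/
theorem dens {ν : ℤ → ℝ} (hν : ∀ z, 0 ≤ ν z) {J : ℕ} (hJ : 1 ≤ J) {D l : ℤ} {τ : ℝ}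
    (hnear : Near (sm J ν) (shift (sm J ν) D) τ) (hl : (J : ℤ) ≤ l) {c n : ℕ}
    (hc1 : 4 * l ≤ c * |D|) (hc2 : c * |D| ≤ 5 * l) (hn : 1 ≤ n) (Y : Finset ℤ)
    (hbad : ∀ y ∈ Y, 2 / (n : ℝ) * mass ν (y * l - 5 * l * (n + 1)) (y * l + 5 * l * (n + 1)) ≤
      mass ν ((y - 1) * l) ((y + 2) * l)) :
    ∑ y ∈ Y, mass ν ((y - 1) * l) ((y + 2) * l) ≤ 4 * n * c * τ := by
  have hl0 : 0 < l := by omega
  have hn' : (0 : ℝ) < n := by exact_mod_cast hn
  have hτ := hnear.nonneg
  set f := sm J ν with hf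
  have hf0 : ∀ z, 0 ≤ f z := sm_nonneg J hν
  set E : ℤ := c * D with hE
  have hEa : |E| = c * |D| := by
    rw [hE, abs_mul, abs_of_nonneg (by positivity : (0 : ℤ) ≤ c)]
  have hnE : Near f (shift f E) (c * τ) := near_mul hnear c
  set δ : ℕ → ℤ → ℝ := fun j y =>
    mass (fun z => |f z - shift f (j * E) z|) ((y - 1) * l) ((y + 3) * l) with hδ
  have h1 : ∀ y ∈ Y, mass ν ((y - 1) * l) ((y + 2) * l) ≤ 2 / n * ∑ j ∈ range n, δ j y := by
    intro y hy
    have a1 : mass ν ((y - 1) * l) ((y + 2) * l) ≤ mass f ((y - 1) * l) ((y + 3) * l) :=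
      (mass_le_sm hJ hν _ _).trans (mass_mono hf0 le_rfl (by nlinarith))
    have a2 : ∀ j ∈ range n, mass f ((y - 1) * l) ((y + 3) * l) ≤
        mass (shift f (j * E)) ((y - 1) * l) ((y + 3) * l) + δ j y := by
      intro j _
      simp only [hδ, mass, ← sum_add_distrib]
      refine sum_le_sum fun z _ => ?_
      have := le_abs_self (f z - shift f (j * E) z)
      linarith
    have a3 := translates hf0 (a := (y - 1) * l) (b := (y + 3) * l) (E := E)
      (by rw [hEa]; nlinarith) n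
    have hnE' : (n : ℤ) * |E| ≤ n * (5 * l) := by
      rw [hEa]; exact mul_le_mul_of_nonneg_left hc2 (by positivity)
    have a4 : mass f ((y - 1) * l - n * |E|) ((y + 3) * l + n * |E|) ≤
        mass ν (y * l - 5 * l * (n + 1)) (y * l + 5 * l * (n + 1)) :=
      (sm_le_mass hJ hν _ _).trans (mass_mono hν (by nlinarith) (by nlinarith))
    have a5 := sum_le_sum a2
    rw [sum_const, card_range, nsmul_eq_mul, sum_add_distrib] at a5
    have a6 := hbad y hy
    set A := mass ν ((y - 1) * l) ((y + 2) * l)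
    set N := mass ν (y * l - 5 * l * (n + 1)) (y * l + 5 * l * (n + 1))
    set S := ∑ j ∈ range n, δ j y
    have a7 : n * A ≤ N + S := by nlinarith
    have a8 : 2 * N ≤ n * A := by
      rw [div_mul_eq_mul_div, div_le_iff₀ hn'] at a6; linarith
    rw [div_mul_eq_mul_div, le_div_iff₀ hn']
    linarith
  have h2 : ∀ j ∈ range n, ∑ y ∈ Y, δ j y ≤ 4 * (j * (c * τ)) := fun j _ =>
    blocks4 (near_mul hnE j) hl0 Y
  have h3 : ∑ j ∈ range n, 4 * ((j : ℝ) * (c * τ)) ≤ 2 * n * n * (c * τ) := by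
    have : ∀ m : ℕ, ∑ j ∈ range m, (j : ℝ) ≤ m * m / 2 := by
      intro m
      induction m with
      | zero => simp
      | succ m ih => rw [sum_range_succ]; push_cast; nlinarith
    have h4 := this n
    have h5 : (0 : ℝ) ≤ c * τ := by positivity
    rw [← mul_sum, ← sum_mul]
    nlinarith
  calc ∑ y ∈ Y, mass ν ((y - 1) * l) ((y + 2) * l)
      ≤ ∑ y ∈ Y, 2 / (n : ℝ) * ∑ j ∈ range n, δ j y := sum_le_sum h1
    _ = 2 / (n : ℝ) * ∑ j ∈ range n, ∑ y ∈ Y, δ j y := by rw [← mul_sum, sum_comm]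
    _ ≤ 2 / (n : ℝ) * (2 * n * n * (c * τ)) :=
        mul_le_mul_of_nonneg_left ((sum_le_sum h2).trans h3) (by positivity)
    _ = 4 * n * c * τ := by field_simp; ring

/-- the step count: `c = ceil (4 l / |D|)` -/
theorem ex_step {D l : ℤ} (hD : D ≠ 0) (hl : |D| ≤ l) :
    ∃ c : ℕ, 4 * l ≤ c * |D| ∧ c * |D| ≤ 5 * l ∧ ((c : ℤ) - 1) * |D| < 4 * l := by
  have hD' : 0 < |D| := abs_pos.2 hD
  set d := |D|
  have h1 := Int.emod_add_mul_ediv (4 * l + d - 1) d
  have h2 := Int.emod_nonneg (4 * l + d - 1) hD'.ne'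
  have h3 := Int.emod_lt_of_pos (4 * l + d - 1) hD'
  have h4 : 0 ≤ (4 * l + d - 1) / d := Int.ediv_nonneg (by omega) hD'.le
  refine ⟨((4 * l + d - 1) / d).toNat, ?_, ?_, ?_⟩ <;> rw [Int.toNat_of_nonneg h4] <;> nlinarith

/-- small translates of a smoothed probability: `|e| ≤ k` costs `2 k / J` -/
theorem near_small {ν : ℤ → ℝ} (hν : ∀ z, 0 ≤ ν z) {M : ℝ} (hM : ∀ T : Finset ℤ, ∑ z ∈ T, ν z ≤ M)
    {J : ℕ} (hJ : 1 ≤ J) (e : ℤ) : Near (sm J ν) (shift (sm J ν) e) (|(e : ℝ)| * (2 * M / J)) := by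
  have hJ' : (0 : ℝ) < J := by exact_mod_cast hJ
  have one : Near (sm J ν) (shift (sm J ν) 1) (2 * M / J) := by
    intro T
    have e1 : ∀ z : ℤ, sm J ν z - shift (sm J ν) 1 z = (ν z - ν (z - J)) / J := by
      intro z
      simp only [sm, shift]
      rw [← sub_div]
      congr 1
      have := sum_range_sub' (fun i : ℕ => ν (z - i)) J
      simp only [Nat.cast_zero, sub_zero] at this
      rw [← this, ← sum_sub_distrib]
      refine sum_congr rfl fun i _ => ?_
      congr 2; push_cast; ring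
    calc ∑ z ∈ T, |sm J ν z - shift (sm J ν) 1 z| ≤ ∑ z ∈ T, (ν z + ν (z - J)) / J := by
          refine sum_le_sum fun z _ => ?_
          rw [e1, abs_div, abs_of_pos hJ']
          refine div_le_div_of_nonneg_right ?_ hJ'.le
          have := hν z; have := hν (z - J)
          rw [abs_le]; constructor <;> linarith
      _ = (∑ z ∈ T, ν z + ∑ z ∈ T, ν (z - J)) / J := by rw [← sum_div, sum_add_distrib]
      _ ≤ 2 * M / J := by
          refine div_le_div_of_nonneg_right ?_ hJ'.le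
          have h1 := hM T
          have h2 := hM (T.image fun z => z - J)
          rw [sum_image (by intro a _ b _ hab; simpa using hab)] at h2
          linarith
  rcases le_total 0 e with he | he
  · obtain ⟨k, rfl⟩ := Int.eq_ofNat_of_zero_le he
    have := near_mul one k
    simpa using this
  · obtain ⟨k, hk⟩ := Int.eq_ofNat_of_zero_le (neg_nonneg.2 he)
    have h1 := (near_mul one k).shift e
    rw [shift_shift, show (k : ℤ) * 1 + e = 0 by omega, shift_zero] at h1
    have h2 : |(e : ℝ)| = k := by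
      have : (e : ℝ) = -k := by exact_mod_cast (by omega : e = -(k : ℤ))
      rw [this, abs_neg, abs_of_nonneg (Nat.cast_nonneg _)]
    rw [h2]
    exact h1.symm

/-- (RECT, four edges)  two laws `al`, `al'` and two laws `be`, `be'`, every pair matched by a translate. -/
theorem rect {al al' be be' : ℤ → ℝ} {s11 s12 s21 s22 : ℤ} {e11 e12 e21 e22 : ℝ}
    (h11 : Near (shift al s11) be e11) (h12 : Near (shift al' s12) be e12)
    (h21 : Near (shift al s21) be' e21) (h22 : Near (shift al' s22) be' e22) :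
    Near al (shift al (s11 - s12 - s21 + s22)) (e11 + e12 + e21 + e22) := by
  have a := (h11.trans h12.symm).shift (s22 - s12)
  have b := (h22.trans h21.symm)
  rw [shift_shift, shift_shift, show s12 + (s22 - s12) = s22 by ring] at a
  have c := (a.trans b).shift (-s21)
  rw [shift_shift, shift_shift, show s21 + -s21 = 0 by ring, shift_zero,
    show s11 + (s22 - s12) + -s21 = s11 - s12 - s21 + s22 by ring] at c
  exact c.symm.mono (by linarith)

end Pool.Agent.Lib.MP_d308c3_co.Dens
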