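import Pool.Agent.Lib.MP_108739_an.F.Ent2
import Pool.Agent.Lib.MP_108739_an.F.Ent3
import Pool.Agent.Lib.MP_d308c3_co.Dens

/-! Column path, part A: greedy choice of options, the neighbourhood ratio, spread heights. -/

set_option autoImplicit false

namespace Pool.Agent.Lib.MP_d308c3_co.Col

open Finset Pool.Agent.Lib.MP_108739_an.F
open Classical

/-- every block that does not fail pays for itself or is paid by the next block -/
theorem greedy (nb : ℕ) (z : ℕ → ℝ) {β c0 c1 : ℝ} (hβ : 0 ≤ β) (hc0 : 0 ≤ c0) (hc1 : 0 ≤ c1)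
    (fail : ℕ → Prop) (Us : ℕ → ℝ → Prop) (hdown : ∀ j x y, Us j x → y ≤ x → Us j y)
    (h0 : ∀ j, Us j 0)
    (hopt : ∀ j < nb, ¬ fail j → j + 1 < nb ∧ ∃ ζ, z (j + 1) - c0 ≤ ζ ∧ ζ ≤ z (j + 2) ∧
      Us j (min (z (j + 1)) ζ - max (z j) (ζ - 3 * β) - c1) ∧
      Us (j + 1) (min (z (j + 2)) ζ - max (z (j + 1)) (ζ - 3 * β) - c1)) :
    ∃ v : ℕ → ℝ, (∀ j, Us j (v j)) ∧
      ∑ j ∈ range nb, (min (z (j + 1) - z j) β - (if fail j then β else 0)) - (c0 + c1) * nb ≤
        ∑ j ∈ range nb, v j := by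
  let A : ℕ → Prop := fun j => Us j (min (z (j + 1) - z j) β - c0 - c1)
  let B : ℕ → Prop := fun j => ∃ i, j = i + 1 ∧ i < nb ∧ ¬ fail i ∧ ¬ A i
  have hB : ∀ j, B j → j < nb ∧ Us j (2 * β - c1) := by
    rintro j ⟨i, rfl, hi, hf, hA⟩
    obtain ⟨h1, ζ, h2, h3, h4, h5⟩ := hopt i hi hf
    refine ⟨h1, ?_⟩
    by_cases hc : ζ - 3 * β ≤ z (i + 1) - β
    · refine absurd (hdown _ _ _ h4 ?_) hA
      have e1 : z (i + 1) - c0 ≤ min (z (i + 1)) ζ := le_min (by linarith) h2
      have e2 : max (z i) (ζ - 3 * β) ≤ z (i + 1) - min (z (i + 1) - z i) β :=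
        max_le (by linarith [min_le_left (z (i + 1) - z i) β])
          (by linarith [min_le_right (z (i + 1) - z i) β])
      linarith
    · refine hdown _ _ _ h5 ?_
      rw [min_eq_right h3]
      have e2 : max (z (i + 1)) (ζ - 3 * β) ≤ ζ - 2 * β := max_le (by linarith) (by linarith)
      linarith
  let v : ℕ → ℝ := fun j =>
    if B j then 2 * β - c1 else if A j then min (z (j + 1) - z j) β - c0 - c1 else 0
  let χ : ℕ → ℝ := fun j => if B j then β else 0
  refine ⟨v, fun j => ?_, ?_⟩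
  · simp only [v]
    split_ifs with h1 h2
    exacts [(hB j h1).2, h2, h0 j]
  have key : ∀ j ∈ range nb, (min (z (j + 1) - z j) β - (if fail j then β else 0)) - (c0 + c1) +
      (χ j - χ (j + 1)) ≤ v j := by
    intro j hj
    have hx := min_le_right (z (j + 1) - z j) β
    have h1 : 0 ≤ χ (j + 1) := by simp only [χ]; split_ifs <;> linarith
    have h2 : 0 ≤ (if fail j then β else 0) := by split_ifs <;> linarith
    by_cases hb : B j
    · simp only [v, χ, if_pos hb] at h1 ⊢
      linarith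
    by_cases ha : A j
    · simp only [v, χ, if_neg hb, if_pos ha] at h1 ⊢
      linarith
    by_cases hf : fail j
    · simp only [v, χ, if_neg hb, if_neg ha, if_pos hf] at h1 ⊢
      linarith
    · have hb' : B (j + 1) := ⟨j, rfl, mem_range.1 hj, hf, ha⟩
      simp only [v, χ, if_neg hb, if_neg ha, if_neg hf, if_pos hb']
      linarith
  have hs := sum_le_sum key
  rw [sum_add_distrib, sum_sub_distrib, sum_range_sub', sum_const, card_range, nsmul_eq_mul] at hs
  have e0 : χ 0 = 0 := if_neg (by rintro ⟨i, h, _⟩; omega)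
  have e1 : χ nb = 0 := if_neg fun h => lt_irrefl _ (hB nb h).1
  rw [e0, e1] at hs
  linarith

variable {Ω α β γ : Type} [Fintype Ω] {w : Ω → ℝ}

/-- mass of the part of the fibre of `G` where `Y` is within `2` of its value at `o` -/
noncomputable def nbh (w : Ω → ℝ) (G : Ω → γ) (Y : Ω → ℤ) (o : Ω) : ℝ :=
  tot (res w fun o' => G o' = G o ∧ |Y o' - Y o| ≤ 2)

theorem nbh_nonneg (hw : Nn w) (G : Ω → γ) (Y : Ω → ℤ) (o : Ω) : 0 ≤ nbh w G Y o :=
  tot_nonneg (hw.res _)

theorem ratio_nbh (hw : Nn w) (G : Ω → γ) (Y : Ω → ℤ) :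
    E w (fun o => nbh w G Y o / (5 * ms w (pr Y G) o)) ≤ tot w := by
  let Q : ℤ → Ω → ℝ := fun v o =>
    tot (res w fun o' => G o' = G o ∧ |Y o' - v| ≤ 2) / (5 * ms w G o)
  have hQ : ∀ v, Det G (Q v) := fun v o o' e => by
    simp only [Q, ms, e]
  have h := E_ker' hw Y G Q hQ fun o ho => by
    have hm := ms_pos hw G ho
    simp only [Q]
    rw [← sum_div, div_le_one (by positivity)]
    unfold tot res ms
    rw [sum_comm, mul_sum]
    refine sum_le_sum fun o' _ => ?_
    by_cases e : G o' = G o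
    · simp only [e, true_and, if_true]
      rw [← sum_filter, sum_const, nsmul_eq_mul]
      refine mul_le_mul_of_nonneg_right ?_ (hw o')
      have : (vals w Y G o).filter (fun v => |Y o' - v| ≤ 2) ⊆ Icc (Y o' - 2) (Y o' + 2) := by
        intro v hv
        have := abs_le.1 (mem_filter.1 hv).2
        exact mem_Icc.2 ⟨by linarith, by linarith⟩
      have h2 := card_le_card this
      rw [Int.card_Icc, show Y o' + 2 + 1 - (Y o' - 2) = 5 by ring] at h2
      exact_mod_cast h2
    · simp [e]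
  refine le_trans (le_of_eq (E_congr hw fun o ho => ?_)) h
  have hm := ms_pos hw G ho
  simp only [Q, nbh]
  field_simp

/-- mass of the part of the fibre of `G` where `V` is within `r` of its value at `o` -/
noncomputable def ball (w : Ω → ℝ) (G : Ω → γ) (V : Ω → ℝ) (r : ℝ) (o : Ω) : ℝ :=
  tot (res w fun o' => G o' = G o ∧ |V o' - V o| ≤ r)

/-- on the fibre of `G` the height `V` is spread between the scales `small` and `big` -/
def Fine (w : Ω → ℝ) (G : Ω → γ) (V : Ω → ℝ) (u big small J : ℝ) (o : Ω) : Prop :=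
  min big (J * u) / (96 * max small u) ≤ 1 ∨
    min big (J * u) / (96 * max small u) * ball w G V (2 * max small u) o ≤ 2 * ball w G V big o

/-- the smoothed law of `Y` on the fibre of `G` is almost invariant under a shift of size about `P` -/
def Sat (w : Ω → ℝ) (G : Ω → γ) (Y : Ω → ℤ) (Jb : ℕ) (P Λ τ : ℝ) (o : Ω) : Prop :=
  ∃ D : ℤ, P / Λ ≤ |(D : ℝ)| ∧ |(D : ℝ)| ≤ P + 2 ∧
    Dens.Near (Dens.sm Jb (lw w Y G o)) (Dens.shift (Dens.sm Jb (lw w Y G o)) D) τ

theorem mass_lw (Y : Ω → ℤ) (G : Ω → γ) (o : Ω) (a b : ℤ) :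
    Dens.mass (lw w Y G o) a b =
      tot (res w fun o' => G o' = G o ∧ a ≤ Y o' ∧ Y o' < b) / ms w G o := by
  unfold Dens.mass
  rw [sum_congr rfl fun v _ => lw_apply Y G o v, ← sum_div]
  congr 1
  unfold tot res
  rw [sum_comm]
  refine sum_congr rfl fun o' _ => ?_
  by_cases e : G o' = G o
  · simp only [e, and_true, true_and, sum_ite_eq, mem_Ico]
  · simp [e]

theorem dens_fibre (hw : Nn w) (G : Ω → γ) (V : Ω → ℝ) {u big small J P Λ τ σ : ℝ} {Jb : ℕ}
    (hu : 0 < u) (hJ : 0 < J) (hP : 1 ≤ P) (hΛ : 0 < Λ) (hJb : 1 ≤ Jb) (hJP : (Jb : ℝ) ≤ P)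
    (Y : Ω → ℤ) {o0 : Ω} (ho0 : 0 < w o0)
    (hY : ∀ o, G o = G o0 → Y o = ⌊V o / (u / P) + σ⌋) (hs : Sat w G Y Jb P Λ τ o0) :
    tot (res w fun o => G o = G o0 ∧ ¬ Fine w G V u big small J o) ≤
      2 * J * Λ * τ * ms w G o0 := by
  obtain ⟨D, hD1, hD2, hnear⟩ := hs
  have hτ : 0 ≤ τ := hnear.nonneg
  have hm := ms_pos hw G ho0
  set M := max small u with hM
  have huM : u ≤ M := le_max_right _ _
  have hM0 : 0 < M := hu.trans_le huM
  set x := min big (J * u) / (96 * M) with hx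
  by_cases hx1 : x ≤ 1
  · have : tot (res w fun o => G o = G o0 ∧ ¬ Fine w G V u big small J o) ≤
        tot (res w fun _ => False) := tot_res_mono hw fun o _ h => h.2 (Or.inl hx1)
    have e : tot (res w fun _ => False) = 0 := by simp [tot, res]
    rw [e] at this
    exact this.trans (by positivity)
  push Not at hx1
  set rf := u / P with hrf
  have hP0 : 0 < P := by linarith
  have hrf0 : 0 < rf := div_pos hu hP0
  set l : ℤ := ⌈2 * M / rf⌉ + 1 with hl
  have hq : 2 * P ≤ 2 * M / rf := by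
    rw [le_div_iff₀ hrf0, hrf]
    have : 2 * P * (u / P) = 2 * u := by field_simp
    linarith
  have hl1 : 2 * M / rf + 1 ≤ (l : ℝ) := by
    rw [hl]; push_cast; linarith [Int.le_ceil (2 * M / rf)]
  have hl2 : (l : ℝ) ≤ 2 * (2 * M / rf) := by
    rw [hl]; push_cast; linarith [Int.ceil_lt_add_one (2 * M / rf)]
  have hl0 : 0 < l := by
    have : (0 : ℝ) < l := by linarith
    exact_mod_cast this
  set n : ℕ := ⌊2 * x⌋₊ with hn
  have hn1 : x ≤ n := by linarith [Nat.lt_floor_add_one (2 * x)]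
  have hn2 : (n : ℝ) ≤ 2 * x := Nat.floor_le (by linarith)
  have hn0 : 1 ≤ n := by
    have : (1 : ℝ) ≤ n := by linarith
    exact_mod_cast this
  have hD0 : D ≠ 0 := by
    rintro rfl
    have : 0 < P / Λ := div_pos hP0 hΛ
    simp at hD1
    linarith
  have hDl : |D| ≤ l := by
    have : ((|D| : ℤ) : ℝ) ≤ l := by push_cast; linarith
    exact_mod_cast this
  obtain ⟨c, hc1, hc2, -⟩ := Dens.ex_step hD0 hDl
  have hJl : (Jb : ℤ) ≤ l := by
    have : ((Jb : ℤ) : ℝ) ≤ l := by push_cast; linarith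
    exact_mod_cast this
  have hlrf : (l : ℝ) * rf ≤ 4 * M := by
    have := mul_le_mul_of_nonneg_right hl2 hrf0.le
    have e : 2 * (2 * M / rf) * rf = 4 * M := by field_simp; ring
    linarith
  have hxb : 96 * M * x ≤ big := by
    rw [hx, mul_div_cancel₀ _ (by positivity)]; exact min_le_left _ _
  have hxJ : 96 * M * x ≤ J * u := by
    rw [hx, mul_div_cancel₀ _ (by positivity)]; exact min_le_right _ _
  let S := univ.filter fun o => 0 < w o ∧ G o = G o0 ∧ ¬ Fine w G V u big small J o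
  have hfl : ∀ o, G o = G o0 →
      (Y o : ℝ) ≤ V o / rf + σ ∧ V o / rf + σ < Y o + 1 := fun o e => by
    rw [hY o e]; exact ⟨Int.floor_le _, Int.lt_floor_add_one _⟩
  have hbad := Dens.dens (ν := lw w Y G o0) (lw_nonneg hw Y G o0) hJb hnear hJl hc1 hc2 hn0
    (S.image fun o => Y o / l) (by
      intro y hy
      obtain ⟨o, ho, rfl⟩ := mem_image.1 hy
      obtain ⟨hwo, e, hf⟩ := (mem_filter.1 ho).2
      have y1 : Y o / l * l ≤ Y o := Int.ediv_mul_le _ hl0.ne'
      have y2 : Y o < (Y o / l + 1) * l := Int.lt_ediv_add_one_mul_self _ hl0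
      obtain ⟨f1, f2⟩ := hfl o e
      rw [mass_lw, mass_lw]
      have hnf : 2 * ball w G V big o < x * ball w G V (2 * M) o := by
        by_contra hc
        exact hf (Or.inr (not_lt.1 hc))
      have a1 : ball w G V (2 * M) o ≤ tot (res w fun o' => G o' = G o0 ∧
          (Y o / l - 1) * l ≤ Y o' ∧ Y o' < (Y o / l + 2) * l) := by
        refine tot_res_mono hw fun o' _ h => ?_
        have e' : G o' = G o0 := h.1.trans e
        obtain ⟨g1, g2⟩ := hfl o' e'
        have k := abs_le.1 h.2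
        have k1 : V o' / rf - V o / rf ≤ 2 * M / rf := by
          rw [← sub_div]; exact div_le_div_of_nonneg_right k.2 hrf0.le
        have k2 : V o / rf - V o' / rf ≤ 2 * M / rf := by
          rw [← sub_div]; exact div_le_div_of_nonneg_right (by linarith [k.1]) hrf0.le
        have m1 : Y o' - Y o < l := by
          have : ((Y o' - Y o : ℤ) : ℝ) < l := by push_cast; linarith
          exact_mod_cast this
        have m2 : Y o - Y o' < l := by
          have : ((Y o - Y o' : ℤ) : ℝ) < l := by push_cast; linarith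
          exact_mod_cast this
        exact ⟨e', by linarith, by linarith⟩
      have a2 : tot (res w fun o' => G o' = G o0 ∧ Y o / l * l - 5 * l * (n + 1) ≤ Y o' ∧
          Y o' < Y o / l * l + 5 * l * (n + 1)) ≤ ball w G V big o := by
        refine tot_res_mono hw fun o' _ h => ⟨h.1.trans e.symm, ?_⟩
        obtain ⟨g1, g2⟩ := hfl o' h.1
        have m1 : ((Y o' - Y o : ℤ) : ℝ) ≤ ((5 * l * (n + 1) : ℤ) : ℝ) := by
          have : Y o' - Y o ≤ 5 * l * (n + 1) := by linarith [h.2.2]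
          exact_mod_cast this
        have m2 : ((Y o - Y o' : ℤ) : ℝ) ≤ ((5 * l * (n + 1) + l - 1 : ℤ) : ℝ) := by
          have : Y o - Y o' ≤ 5 * l * (n + 1) + l - 1 := by linarith [h.2.1]
          exact_mod_cast this
        push_cast at m1 m2
        have hn' : (1 : ℝ) ≤ n := by exact_mod_cast hn0
        have hl' : (1 : ℝ) ≤ l := by linarith
        have t1 : 5 * (l : ℝ) * (n + 1) + l ≤ 12 * n * l := by nlinarith
        have t2 : 12 * (n : ℝ) * l * rf ≤ big := by
          have : 12 * (n : ℝ) * (l * rf) ≤ 12 * (2 * x) * (4 * M) :=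
            mul_le_mul (by linarith) hlrf (by positivity) (by linarith)
          linarith
        have t3 : |V o' / rf - V o / rf| ≤ 12 * n * l := abs_le.2 ⟨by linarith, by linarith⟩
        rw [← sub_div, abs_div, abs_of_pos hrf0, div_le_iff₀ hrf0] at t3
        linarith
      have hb0 : 0 ≤ ball w G V (2 * M) o := tot_nonneg (hw.res _)
      have hnp : (0 : ℝ) < n := by linarith
      rw [← mul_div_assoc]
      refine div_le_div_of_nonneg_right ?_ hm.le
      rw [div_mul_eq_mul_div, div_le_iff₀ hnp]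
      nlinarith)
  have h1 : tot (res w fun o => G o = G o0 ∧ ¬ Fine w G V u big small J o) ≤
      tot (res w fun o' => ∃ y ∈ S.image fun o => Y o / l,
        G o' = G o0 ∧ (y - 1) * l ≤ Y o' ∧ Y o' < (y + 2) * l) := by
    refine tot_res_mono hw fun o ho h => ⟨Y o / l, mem_image_of_mem _
      (mem_filter.2 ⟨mem_univ _, ho, h⟩), h.1, ?_, ?_⟩
    · linarith [Int.ediv_mul_le (Y o) hl0.ne']
    · linarith [Int.lt_ediv_add_one_mul_self (Y o) hl0]
  refine h1.trans ((tot_res_exists hw _ _).trans ?_)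
  rw [sum_congr rfl fun y _ => mass_lw Y G o0 _ _, ← sum_div, div_le_iff₀ hm] at hbad
  refine hbad.trans (mul_le_mul_of_nonneg_right (mul_le_mul_of_nonneg_right ?_ hτ) hm.le)
  have hc3 : (c : ℝ) * |(D : ℝ)| ≤ 5 * l := by exact_mod_cast hc2
  have hc4 : (c : ℝ) * P ≤ 5 * l * Λ := by
    have := mul_le_mul_of_nonneg_left hD1 (Nat.cast_nonneg (α := ℝ) c)
    rw [← mul_div_assoc, div_le_iff₀ hΛ] at this
    nlinarith
  have hc5 : (c : ℝ) * u ≤ 20 * M * Λ := by
    have e : (c : ℝ) * u = c * P * rf := by rw [hrf]; field_simp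
    have := mul_le_mul_of_nonneg_right hc4 hrf0.le
    nlinarith
  have hc6 : 4 * (n : ℝ) * c * u ≤ 2 * J * Λ * u := by
    have k1 : (n : ℝ) * (c * u) ≤ 2 * x * (20 * M * Λ) :=
      mul_le_mul hn2 hc5 (by positivity) (by linarith)
    have k2 := mul_le_mul_of_nonneg_right hxJ hΛ.le
    have k3 : 0 ≤ J * u * Λ := by positivity
    nlinarith
  exact le_of_mul_le_mul_right hc6 hu

/-- saturated items are spread, up to a small mass -/
theorem dens_real (hw : Nn w) (G : Ω → γ) (V u big small : Ω → ℝ) {J P Λ τ σ : ℝ} {Jb : ℕ}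
    (du : Det G u) (db : Det G big) (ds : Det G small) (hu : ∀ o, 0 < u o) (hJ : 0 < J)
    (hP : 1 ≤ P) (hΛ : 0 < Λ) (hτ : 0 ≤ τ) (hJb : 1 ≤ Jb) (hJP : (Jb : ℝ) ≤ P) :
    tot (res w fun o => Sat w G (fun o => ⌊V o / (u o / P) + σ⌋) Jb P Λ τ o ∧
      ¬ Fine w G V (u o) (big o) (small o) J o) ≤ 2 * J * Λ * τ * tot w := by
  rw [← E_ind, ← E_fib hw G]
  refine E_le_const hw fun o0 ho0 => ?_
  have hm := ms_pos hw G ho0
  rw [div_le_iff₀ hm, E_ind, res_res]
  by_cases hs : Sat w G (fun o => ⌊V o / (u o / P) + σ⌋) Jb P Λ τ o0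
  · refine le_trans (tot_res_mono hw fun o _ h => ⟨h.1, ?_⟩)
      (dens_fibre hw G V (big := big o0) (small := small o0) (σ := σ) (hu o0) hJ hP hΛ hJb hJP _
        ho0 (fun o e => by rw [du o o0 e]) hs)
    rw [← du o o0 h.1, ← db o o0 h.1, ← ds o o0 h.1]
    exact h.2.2
  · have : tot (res w fun o => G o = G o0 ∧ Sat w G (fun o => ⌊V o / (u o / P) + σ⌋) Jb P Λ τ o ∧
        ¬ Fine w G V (u o) (big o) (small o) J o) ≤ tot (res w fun _ => False) :=
      tot_res_mono hw fun o _ h => hs (by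
        have := h.2.1
        unfold Sat at this ⊢
        rwa [lw_det _ G o o0 h.1] at this)
    have e : tot (res w fun _ => False) = 0 := by simp [tot, res]
    rw [e] at this
    exact this.trans (by positivity)

end Pool.Agent.Lib.MP_d308c3_co.Col
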