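import Pool.Agent.Lib.MP_d308c3_co.ColA

/-! Column path, part B: the chain of height cells and its lower bound. -/

set_option autoImplicit false

namespace Pool.Agent.Lib.MP_d308c3_co.Col

open Finset Pool.Agent.Lib.MP_108739_an.F
open Classical

/-- nested windows `wd j`, a point `pt` with coordinates `a`, `b`, a slope cell `[x0, x0 + U]` -/
structure Path (Ω ω β π : Type) where
  nb : ℕ
  pt : Ω → π
  a : Ω → ℝ
  b : Ω → ℝ
  wd : ℕ → Ω → ω
  t : ω → ℝ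
  len : ω → ℝ
  N : ω → ℝ
  base : Ω → β
  x0 : Ω → ℝ
  U : Ω → ℝ

variable {Ω ω β π γ ι κ δ : Type} [Fintype Ω] {w : Ω → ℝ}

theorem card_vals_le {α : Type} {f : Ω → α} {g : Ω → β} {o : Ω} {s : Finset α} {K : ℕ}
    (h : ∀ o', 0 < w o' → g o' = g o → f o' ∈ s) (hs : s.card ≤ K) :
    (#(vals w f g o) : ℝ) ≤ K := by
  have : vals w f g o ⊆ s := fun v hv => by
    obtain ⟨o', h1, h2, rfl⟩ := mem_vals.1 hv
    exact h o' h1 h2
  exact_mod_cast (card_le_card this).trans hs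

theorem ms_un_pr {α : Type} (g : Ω → α) : ms w (pr un g) = ms w g :=
  ms_congr Det.snd (Det.pr Det.un Det.rfl)

theorem lg_min {x y : ℝ} (hx : 0 < x) (hy : 0 < y) : lg (min x y) = min (lg x) (lg y) := by
  rcases le_total x y with h | h
  · rw [min_eq_left h, min_eq_left (lg_mono hx h)]
  · rw [min_eq_right h, min_eq_right (lg_mono hy h)]

theorem lg_max {x y : ℝ} (hx : 0 < x) (hy : 0 < y) : lg (max x y) = max (lg x) (lg y) := by
  rcases le_total x y with h | h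
  · rw [max_eq_right h, max_eq_right (lg_mono hx h)]
  · rw [max_eq_left h, max_eq_left (lg_mono hy h)]

theorem lg_le_nat {x : ℝ} (n : ℕ) (hx : 0 < x) (h : x ≤ 2 ^ n) : lg x ≤ n :=
  (lg_mono hx h).trans_eq (lg_two_pow n)

namespace Path

variable (c : Path Ω ω β π)

structure Ok (w : Ω → ℝ) : Prop where
  nest : ∀ j < c.nb, Det (c.wd (j + 1)) (c.wd j)
  dbase : Det (pr (c.wd 0) c.pt) c.base
  da : Det c.pt c.a
  db : Det c.pt c.b
  dx : Det c.base c.x0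
  dU : Det c.base c.U
  U_pos : ∀ o, 0 < w o → 0 < c.U o
  near : ∀ o, 0 < w o → c.x0 o ≤ c.a o ∧ c.a o ≤ c.x0 o + c.U o
  len_pos : ∀ j ≤ c.nb, ∀ o, 0 < w o → 0 < c.len (c.wd j o)
  N_pos : ∀ j ≤ c.nb, ∀ o, 0 < w o → 0 < c.N (c.wd j o)
  sub : ∀ j < c.nb, ∀ o, 0 < w o → c.t (c.wd j o) ≤ c.t (c.wd (j + 1) o) ∧
    c.t (c.wd (j + 1) o) + c.len (c.wd (j + 1) o) ≤ c.t (c.wd j o) + c.len (c.wd j o)
  sum_len : ∀ j < c.nb, ∀ o, 0 < w o →
    ∑ v ∈ vals w (c.wd (j + 1)) (c.wd j) o, c.len v ≤ c.len (c.wd j o)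
  sum_N : ∀ j < c.nb, ∀ o, 0 < w o →
    ∑ v ∈ vals w (c.wd (j + 1)) (c.wd j) o, c.N v ≤ c.N (c.wd j o)

/-- height at the time `t0` -/
def hv (t0 : Ω → ℝ) (o : Ω) : ℝ := c.b o + t0 o * (c.a o - c.x0 o)

/-- height at the first time of the window `j` -/
def ht (j : ℕ) : Ω → ℝ := c.hv fun o => c.t (c.wd j o)

def R (j : ℕ) (o : Ω) : ℝ := c.len (c.wd j o) * c.U o

noncomputable def Y (j : ℕ) (o : Ω) : ℤ := ⌊c.ht j o / c.R j o⌋

noncomputable def F (j : ℕ) : Ω → ℤ × ω × β := pr (c.Y j) (pr (c.wd j) c.base)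

/-- the cell `G` with time scale `lam` is a good option for block `j` at the item `o` -/
def Opt (w : Ω → ℝ) (G : Ω → γ) (j : ℕ) (lam J : ℝ) (o : Ω) : Prop :=
  ∃ t0 : Ω → ℝ, Det G t0 ∧ c.t (c.wd j o) ≤ t0 o ∧ t0 o ≤ c.t (c.wd j o) + c.len (c.wd j o) ∧
    |c.t (c.wd (j + 1) o) - t0 o| ≤ max (c.len (c.wd (j + 1) o)) lam ∧
    Fine w G (c.hv t0) (lam * c.U o) (c.R j o) (c.R (j + 1) o) J o

/-- block `j` can be credited `v` bits -/
def Us (w : Ω → ℝ) (T : Finset ι) (G : ℕ → ι → Ω → γ) (o : Ω) (j : ℕ) (v : ℝ) : Prop :=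
  v ≤ 0 ∨ ∃ τ ∈ T, (2 : ℝ) ^ v * ms w (pr (c.Y (j + 1)) (G j τ)) o ≤ 2 * nbh w (G j τ) (c.Y j) o

variable {c}

theorem Ok.nest_le (h : c.Ok w) {j : ℕ} (hj : j ≤ c.nb) : Det (c.wd j) (c.wd 0) := by
  induction j with
  | zero => exact Det.rfl
  | succ j ih => exact (h.nest j (by omega)).trans (ih (by omega))

theorem Ok.R_pos (h : c.Ok w) {j : ℕ} (hj : j ≤ c.nb) {o : Ω} (ho : 0 < w o) : 0 < c.R j o :=
  mul_pos (h.len_pos j hj o ho) (h.U_pos o ho)

theorem Ok.det_F (h : c.Ok w) {j : ℕ} (hj : j ≤ c.nb) : Det (pr (c.wd j) c.pt) (c.F j) := by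
  have hb : Det (pr (c.wd j) c.pt) c.base :=
    Det.trans (Det.pr (Det.fst.trans (h.nest_le hj)) Det.snd) h.dbase
  refine Det.pr (fun o o' e => ?_) (Det.pr Det.fst hb)
  have e1 : c.wd j o = c.wd j o' := Det.fst _ _ e
  have e2 : c.pt o = c.pt o' := Det.snd _ _ e
  have e3 := hb _ _ e
  simp only [Y, ht, hv, R, e1, h.da _ _ e2, h.db _ _ e2, h.dx _ _ e3, h.dU _ _ e3]

theorem Us.down (hw : Nn w) {T : Finset ι} {G : ℕ → ι → Ω → γ} {o : Ω} (j : ℕ) (x y : ℝ)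
    (h : c.Us w T G o j x) (hy : y ≤ x) : c.Us w T G o j y := by
  rcases h with h | ⟨τ, hτ, h⟩
  · exact Or.inl (hy.trans h)
  · exact Or.inr ⟨τ, hτ, le_trans (mul_le_mul_of_nonneg_right
      (Real.rpow_le_rpow_of_exponent_le one_le_two hy) (ms_nonneg hw _ _)) h⟩

theorem Ok.us_of_opt (h : c.Ok w) (hw : Nn w) {T : Finset ι} {G : ℕ → ι → Ω → γ} {j : ℕ}
    (hj : j < c.nb) {τ : ι} (hτ : τ ∈ T) (d1 : Det (G j τ) c.base)
    (d2 : Det (G j τ) (c.wd (j + 1))) {lam LJ : ℝ} (hl : 0 < lam) {o : Ω} (ho : 0 < w o)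
    (hO : c.Opt w (G j τ) j lam (2 ^ LJ) o) :
    c.Us w T G o j (min (-lg (c.len (c.wd (j + 1) o))) (-lg lam) -
      max (-lg (c.len (c.wd j o))) (-lg lam - LJ) - 7) := by
  obtain ⟨t0, dt, h1, h2, h3, hf⟩ := hO
  have hU := h.U_pos o ho
  have hl0 := h.len_pos j hj.le o ho
  have hl1 := h.len_pos (j + 1) hj o ho
  have hJ : (0 : ℝ) < 2 ^ LJ := Real.rpow_pos_of_pos two_pos _
  set M := max (c.len (c.wd (j + 1) o)) lam with hM
  have hM0 : 0 < M := hl.trans_le (le_max_right _ _)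
  have eM : max (c.R (j + 1) o) (lam * c.U o) = M * c.U o := by
    rw [hM, max_mul_of_nonneg _ _ hU.le]; rfl
  set x := min (c.len (c.wd j o)) (2 ^ LJ * lam) / (96 * M) with hx
  have hmin : 0 < min (c.len (c.wd j o)) (2 ^ LJ * lam) := lt_min hl0 (mul_pos hJ hl)
  have hx0 : 0 < x := div_pos hmin (by positivity)
  have ex : min (c.R j o) (2 ^ LJ * (lam * c.U o)) / (96 * (M * c.U o)) = x := by
    rw [← mul_assoc, R, ← min_mul_of_nonneg _ _ hU.le, hx]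
    field_simp
  have hlg : min (-lg (c.len (c.wd (j + 1) o))) (-lg lam) -
      max (-lg (c.len (c.wd j o))) (-lg lam - LJ) - 7 ≤ lg x := by
    rw [hx, lg_div hmin (by positivity), lg_mul (by norm_num) hM0, lg_min hl0 (mul_pos hJ hl),
      lg_mul hJ hl, lg_two_rpow, hM, lg_max hl1 hl]
    have k1 : lg 96 ≤ (7 : ℕ) := lg_le_nat 7 (by norm_num) (by norm_num)
    rw [min_neg_neg, show -lg lam - LJ = -(LJ + lg lam) by ring, max_neg_neg]
    push_cast at k1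
    linarith
  unfold Fine at hf
  rw [eM, ex] at hf
  rcases hf with hf | hf
  · refine Or.inl (hlg.trans ?_)
    rw [← lg_one]; exact lg_mono hx0 hf
  refine Or.inr ⟨τ, hτ, ?_⟩
  have fib : ∀ o', G j τ o' = G j τ o → c.wd (j + 1) o' = c.wd (j + 1) o ∧ c.wd j o' = c.wd j o ∧
      c.x0 o' = c.x0 o ∧ c.U o' = c.U o ∧ t0 o' = t0 o := fun o' e =>
    ⟨d2 _ _ e, h.nest j hj _ _ (d2 _ _ e), h.dx _ _ (d1 _ _ e), h.dU _ _ (d1 _ _ e), dt _ _ e⟩
  have da : ∀ o', 0 < w o' → G j τ o' = G j τ o → |c.a o' - c.a o| ≤ c.U o := fun o' ho' e => by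
    obtain ⟨-, -, e3, e4, -⟩ := fib o' e
    have n1 := h.near o ho
    have n2 := h.near o' ho'
    rw [e3, e4] at n2
    exact abs_le.2 ⟨by linarith [n1.1, n1.2, n2.1, n2.2], by linarith [n1.1, n1.2, n2.1, n2.2]⟩
  have a1 : ms w (pr (c.Y (j + 1)) (G j τ)) o ≤ ball w (G j τ) (c.hv t0) (2 * (M * c.U o)) o := by
    rw [ms_eq_tot]
    refine tot_res_mono hw fun o' ho' e => ?_
    have eG : G j τ o' = G j τ o := congrArg Prod.snd e
    have eY : c.Y (j + 1) o' = c.Y (j + 1) o := congrArg Prod.fst e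
    obtain ⟨e1, -, e3, e4, e5⟩ := fib o' eG
    refine ⟨eG, ?_⟩
    have hR := h.R_pos (j := j + 1) hj ho
    have eR : c.R (j + 1) o' = c.R (j + 1) o := by simp only [R, e1, e4]
    have k1 := Int.abs_sub_lt_one_of_floor_eq_floor eY
    rw [eR, ← sub_div, abs_div, abs_of_pos hR, div_lt_one hR] at k1
    have k2 : c.hv t0 o' - c.hv t0 o = (c.ht (j + 1) o' - c.ht (j + 1) o) -
        (c.t (c.wd (j + 1) o) - t0 o) * (c.a o' - c.a o) := by
      simp only [ht, hv, e1, e3, e5]; ring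
    have k3 : |(c.t (c.wd (j + 1) o) - t0 o) * (c.a o' - c.a o)| ≤ M * c.U o := by
      rw [abs_mul]
      exact mul_le_mul h3 (da o' ho' eG) (abs_nonneg _) hM0.le
    have k4 : c.R (j + 1) o ≤ M * c.U o := by rw [← eM]; exact le_max_left _ _
    rw [k2]
    refine (abs_sub _ _).trans ?_
    linarith
  have a2 : ball w (G j τ) (c.hv t0) (c.R j o) o ≤ nbh w (G j τ) (c.Y j) o := by
    refine tot_res_mono hw fun o' ho' e => ⟨e.1, ?_⟩
    obtain ⟨-, e2, e3, e4, e5⟩ := fib o' e.1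
    have hR := h.R_pos hj.le ho
    have eR : c.R j o' = c.R j o := by simp only [R, e2, e4]
    have k2 : c.ht j o' - c.ht j o = (c.hv t0 o' - c.hv t0 o) +
        (c.t (c.wd j o) - t0 o) * (c.a o' - c.a o) := by
      simp only [ht, hv, e2, e3, e5]; ring
    have k3 : |(c.t (c.wd j o) - t0 o) * (c.a o' - c.a o)| ≤ c.R j o := by
      rw [abs_mul]
      exact mul_le_mul (abs_le.2 ⟨by linarith, by linarith⟩) (da o' ho' e.1) (abs_nonneg _) hl0.le
    have k4 : |c.ht j o' / c.R j o - c.ht j o / c.R j o| ≤ 2 := by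
      rw [← sub_div, abs_div, abs_of_pos hR, div_le_iff₀ hR, k2]
      refine (abs_add_le _ _).trans ?_
      linarith [e.2]
    have k5 := abs_le.1 k4
    have f1 := Int.floor_le (c.ht j o' / c.R j o)
    have f2 := Int.lt_floor_add_one (c.ht j o' / c.R j o)
    have f3 := Int.floor_le (c.ht j o / c.R j o)
    have f4 := Int.lt_floor_add_one (c.ht j o / c.R j o)
    have m1 : ⌊c.ht j o' / c.R j o⌋ - ⌊c.ht j o / c.R j o⌋ < 3 := by
      have : ((⌊c.ht j o' / c.R j o⌋ - ⌊c.ht j o / c.R j o⌋ : ℤ) : ℝ) < 3 := by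
        push_cast; linarith
      exact_mod_cast this
    have m2 : ⌊c.ht j o / c.R j o⌋ - ⌊c.ht j o' / c.R j o⌋ < 3 := by
      have : ((⌊c.ht j o / c.R j o⌋ - ⌊c.ht j o' / c.R j o⌋ : ℤ) : ℝ) < 3 := by
        push_cast; linarith
      exact_mod_cast this
    simp only [Y, eR]
    exact abs_le.2 ⟨by omega, by omega⟩
  have a3 : (2 : ℝ) ^ (min (-lg (c.len (c.wd (j + 1) o))) (-lg lam) -
      max (-lg (c.len (c.wd j o))) (-lg lam - LJ) - 7) ≤ x :=
    (Real.rpow_le_rpow_of_exponent_le one_le_two hlg).trans_eq (two_rpow_lg hx0)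
  calc _ ≤ x * ball w (G j τ) (c.hv t0) (2 * (M * c.U o)) o :=
        mul_le_mul a3 a1 (ms_nonneg hw _ _) hx0.le
    _ ≤ _ := hf.trans (by linarith)

/-- the coarser height cell has at most two values given the finer one -/
theorem Ok.card_F (h : c.Ok w) {j : ℕ} (hj : j < c.nb) (o : Ω) (ho : 0 < w o) :
    (#(vals w (c.F j) (c.F (j + 1)) o) : ℝ) ≤ (2 : ℕ) := by
  set lo := (c.Y (j + 1) o : ℝ) * c.R (j + 1) o -
    (c.t (c.wd (j + 1) o) - c.t (c.wd j o)) * c.U o with hlo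
  refine card_vals_le (s := {(⌊lo / c.R j o⌋, c.wd j o, c.base o),
    (⌊lo / c.R j o⌋ + 1, c.wd j o, c.base o)}) (fun o' ho' e => ?_) card_le_two
  have eY : c.Y (j + 1) o' = c.Y (j + 1) o := congrArg Prod.fst e
  have e1 : c.wd (j + 1) o' = c.wd (j + 1) o := congrArg (fun x => x.2.1) e
  have eb : c.base o' = c.base o := congrArg (fun x => x.2.2) e
  have e2 := h.nest j hj _ _ e1
  have e3 := h.dx _ _ eb
  have e4 := h.dU _ _ eb
  have hR := h.R_pos hj.le ho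
  have hR' := h.R_pos (j := j + 1) hj ho
  have eR : c.R j o' = c.R j o := by simp only [R, e2, e4]
  have eR' : c.R (j + 1) o' = c.R (j + 1) o := by simp only [R, e1, e4]
  have f1 : (c.Y (j + 1) o' : ℝ) ≤ c.ht (j + 1) o' / c.R (j + 1) o' := Int.floor_le _
  have f2 : c.ht (j + 1) o' / c.R (j + 1) o' < c.Y (j + 1) o' + 1 := Int.lt_floor_add_one _
  rw [eY, eR', le_div_iff₀ hR'] at f1
  rw [eY, eR', div_lt_iff₀ hR'] at f2
  have k2 : c.ht j o' = c.ht (j + 1) o' -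
      (c.t (c.wd (j + 1) o) - c.t (c.wd j o)) * (c.a o' - c.x0 o) := by
    simp only [ht, hv, e1, e2, e3]; ring
  have n2 := h.near o' ho'
  rw [e3, e4] at n2
  obtain ⟨s1, s2⟩ := h.sub j hj o ho
  have hU := h.U_pos o ho
  have k3 : 0 ≤ (c.t (c.wd (j + 1) o) - c.t (c.wd j o)) * (c.a o' - c.x0 o) :=
    mul_nonneg (by linarith) (by linarith [n2.1])
  have k4 : (c.t (c.wd (j + 1) o) - c.t (c.wd j o)) * (c.a o' - c.x0 o) ≤
      (c.t (c.wd (j + 1) o) - c.t (c.wd j o)) * c.U o :=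
    mul_le_mul_of_nonneg_left (by linarith [n2.2]) (by linarith)
  have k5 : (c.t (c.wd (j + 1) o) - c.t (c.wd j o)) * c.U o + c.R (j + 1) o ≤ c.R j o := by
    simp only [R]; nlinarith
  have g1 : ⌊lo / c.R j o⌋ ≤ c.Y j o' := by
    simp only [Y, eR]
    exact Int.floor_le_floor (div_le_div_of_nonneg_right (by linarith) hR.le)
  have g2 : c.Y j o' ≤ ⌊lo / c.R j o⌋ + 1 := by
    simp only [Y, eR]
    rw [← Int.floor_add_one]
    refine Int.floor_le_floor ?_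
    rw [div_add_one hR.ne']
    exact div_le_div_of_nonneg_right (by linarith) hR.le
  simp only [F, pr, e2, eb, mem_insert, mem_singleton, Prod.mk.injEq, and_true]
  omega

variable (c)

noncomputable def r1 (w : Ω → ℝ) (j : ℕ) (o : Ω) : ℝ :=
  ms w (pr (c.wd (j + 1)) (c.F j)) o * ms w (pr (c.wd j) c.pt) o /
    (ms w (c.F j) o * ms w (pr (c.wd (j + 1)) c.pt) o)

noncomputable def r2 (w : Ω → ℝ) (G : Ω → γ) (j : ℕ) (o : Ω) : ℝ :=
  ms w (pr (c.Y (j + 1)) (pr (c.wd (j + 1)) (c.F j))) o * ms w (pr (c.Y j) G) o /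
    (ms w (pr (c.wd (j + 1)) (c.F j)) o * ms w (pr (c.Y (j + 1)) (pr (c.Y j) G)) o)

noncomputable def r3 (w : Ω → ℝ) (j : ℕ) (o : Ω) : ℝ :=
  ms w (c.F (j + 1)) o / (2 * ms w (pr (c.Y (j + 1)) (pr (c.wd (j + 1)) (c.F j))) o)

noncomputable def r4 (w : Ω → ℝ) (G : Ω → γ) (j : ℕ) (o : Ω) : ℝ :=
  nbh w G (c.Y j) o / (5 * ms w (pr (c.Y j) G) o)

noncomputable def err (w : Ω → ℝ) (T : Finset ι) (G : ℕ → ι → Ω → γ) (j : ℕ) (o : Ω) : ℝ :=
  max 0 (lg (c.r1 w j o)) + max 0 (lg (c.r3 w j o)) + (mx T fun τ => lg (c.r2 w (G j τ) j o)) +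
    mx T fun τ => lg (c.r4 w (G j τ) j o)

/-- bits gained by the point between the windows `i` and `j` -/
noncomputable def gain (w : Ω → ℝ) (i j : ℕ) (o : Ω) : ℝ :=
  lg (ms w (pr (c.wd i) c.pt) o / ms w (pr (c.wd j) c.pt) o)

variable {c}

theorem err_nonneg (T : Finset ι) (G : ℕ → ι → Ω → γ) (j : ℕ) (o : Ω) : 0 ≤ c.err w T G j o := by
  have h1 := mx_nonneg T fun τ => lg (c.r2 w (G j τ) j o)
  have h2 := mx_nonneg T fun τ => lg (c.r4 w (G j τ) j o)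
  have h3 := le_max_left 0 (lg (c.r1 w j o))
  have h4 := le_max_left 0 (lg (c.r3 w j o))
  unfold err
  linarith

theorem Ok.E_err (h : c.Ok w) (hw : Nn w) {T : Finset ι} {G : ℕ → ι → Ω → γ} {j : ℕ}
    (hj : j < c.nb) (d1 : ∀ τ ∈ T, Det (G j τ) c.base)
    (d2 : ∀ τ ∈ T, Det (G j τ) (c.wd (j + 1))) :
    E w (c.err w T G j) ≤ (2 + 2 * lg (#T + 1)) * tot w := by
  have n := fun {α : Type} (f : Ω → α) (o : Ω) => ms_nonneg hw f o
  have e1 : E w (c.r1 w j) ≤ tot w := by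
    have k := ratio_coarse hw (g := c.F j) (g' := pr (c.wd j) c.pt) (b := un)
      (c := c.wd (j + 1)) (h.det_F hj.le) Det.un
    rw [ms_un_pr, ms_un_pr, ms_congr (g := pr (c.wd (j + 1)) (pr (c.wd j) c.pt))
      (f := pr (c.wd (j + 1)) c.pt) (Det.pr Det.fst (Det.snd.trans Det.snd))
      (Det.pr Det.fst (Det.pr (Det.fst.trans (h.nest j hj)) Det.snd))] at k
    exact k
  have e3 : E w (c.r3 w j) ≤ tot w := by
    have k := ratio_card hw (f := c.F j) (g := c.F (j + 1)) (K := 2) two_pos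
      fun o ho => by simpa using h.card_F hj o ho
    rw [ms_congr (g := pr (c.F j) (c.F (j + 1)))
      (f := pr (c.Y (j + 1)) (pr (c.wd (j + 1)) (c.F j)))
      (Det.pr (Det.snd.trans Det.fst) (Det.pr (Det.snd.trans (Det.snd.trans Det.fst)) Det.fst))
      (Det.pr (Det.snd.trans Det.snd) (Det.pr Det.fst (Det.pr (Det.snd.trans Det.fst)
        (Det.snd.trans (Det.snd.trans (Det.snd.trans Det.snd))))))] at k
    exact k
  have e2 : ∀ τ ∈ T, E w (c.r2 w (G j τ) j) ≤ tot w := fun τ hτ => by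
    have k := ratio_coarse hw (g := pr (c.wd (j + 1)) (c.F j)) (g' := pr (c.Y j) (G j τ))
      (b := un) (c := c.Y (j + 1)) (Det.pr (Det.snd.trans (d2 τ hτ)) (Det.pr Det.fst
        (Det.pr (Det.snd.trans ((d2 τ hτ).trans (h.nest j hj))) (Det.snd.trans (d1 τ hτ))))) Det.un
    rw [ms_un_pr, ms_un_pr] at k
    exact k
  have l1 := ls_one hw (c.r1 w j)
    (fun o => div_nonneg (mul_nonneg (n _ _) (n _ _)) (mul_nonneg (n _ _) (n _ _))) e1
  have l3 := ls_one hw (c.r3 w j)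
    (fun o => div_nonneg (n _ _) (mul_nonneg zero_le_two (n _ _))) e3
  have l2 := ls hw T (fun τ => c.r2 w (G j τ) j)
    (fun τ _ o => div_nonneg (mul_nonneg (n _ _) (n _ _)) (mul_nonneg (n _ _) (n _ _))) e2
  have l4 := ls hw T (fun τ => c.r4 w (G j τ) j)
    (fun τ _ o => div_nonneg (nbh_nonneg hw _ _ _) (mul_nonneg (by norm_num) (n _ _)))
    fun τ _ => ratio_nbh hw (G j τ) (c.Y j)
  unfold err
  rw [E_add, E_add, E_add]
  linarith

theorem step (hw : Nn w) {T : Finset ι} {G : ℕ → ι → Ω → γ} {j : ℕ} {o : Ω} (ho : 0 < w o) {v : ℝ}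
    (hv : c.Us w T G o j v) :
    c.gain w j (j + 1) o + v ≤
      lg (ms w (c.F j) o) - lg (ms w (c.F (j + 1)) o) + 5 + c.err w T G j o := by
  have p := fun {α : Type} (f : Ω → α) => ms_pos hw f ho
  have h1 : lg (c.r1 w j o) = lg (ms w (pr (c.wd (j + 1)) (c.F j)) o) +
      lg (ms w (pr (c.wd j) c.pt) o) -
      (lg (ms w (c.F j) o) + lg (ms w (pr (c.wd (j + 1)) c.pt) o)) := by
    rw [r1, lg_div (mul_pos (p _) (p _)) (mul_pos (p _) (p _)), lg_mul (p _) (p _),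
      lg_mul (p _) (p _)]
  have h3 : lg (c.r3 w j o) = lg (ms w (c.F (j + 1)) o) -
      (1 + lg (ms w (pr (c.Y (j + 1)) (pr (c.wd (j + 1)) (c.F j))) o)) := by
    rw [r3, lg_div (p _) (mul_pos two_pos (p _)), lg_mul two_pos (p _), lg_two]
  have g1 := le_max_right 0 (lg (c.r1 w j o))
  have g3 := le_max_right 0 (lg (c.r3 w j o))
  have g2 := mx_nonneg T fun τ => lg (c.r2 w (G j τ) j o)
  have g4 := mx_nonneg T fun τ => lg (c.r4 w (G j τ) j o)
  have h0 : lg (ms w (pr (c.Y (j + 1)) (pr (c.wd (j + 1)) (c.F j))) o) ≤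
      lg (ms w (pr (c.wd (j + 1)) (c.F j)) o) := lg_mono (p _) (ms_mono hw Det.snd o)
  unfold gain err
  rw [lg_div (p _) (p _)]
  rcases hv with hv | ⟨τ, hτ, hv⟩
  · linarith
  have k2 := le_mx (fun τ => lg (c.r2 w (G j τ) j o)) hτ
  have k4 := le_mx (fun τ => lg (c.r4 w (G j τ) j o)) hτ
  have hp : (0 : ℝ) < 2 ^ v := Real.rpow_pos_of_pos two_pos _
  have hnb : 0 < nbh w (G j τ) (c.Y j) o := by
    have := mul_pos hp (p (pr (c.Y (j + 1)) (G j τ)))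
    linarith
  have h2 : lg (c.r2 w (G j τ) j o) =
      lg (ms w (pr (c.Y (j + 1)) (pr (c.wd (j + 1)) (c.F j))) o) +
      lg (ms w (pr (c.Y j) (G j τ)) o) - (lg (ms w (pr (c.wd (j + 1)) (c.F j)) o) +
        lg (ms w (pr (c.Y (j + 1)) (pr (c.Y j) (G j τ))) o)) := by
    rw [r2, lg_div (mul_pos (p _) (p _)) (mul_pos (p _) (p _)), lg_mul (p _) (p _),
      lg_mul (p _) (p _)]
  have h4 : lg (c.r4 w (G j τ) j o) = lg (nbh w (G j τ) (c.Y j) o) -
      (lg 5 + lg (ms w (pr (c.Y j) (G j τ)) o)) := by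
    rw [r4, lg_div hnb (mul_pos (by norm_num) (p _)), lg_mul (by norm_num) (p _)]
  have h5 : lg 5 ≤ (3 : ℕ) := lg_le_nat 3 (by norm_num) (by norm_num)
  have h6 : lg (ms w (pr (c.Y (j + 1)) (pr (c.Y j) (G j τ))) o) ≤
      lg (ms w (pr (c.Y (j + 1)) (G j τ)) o) :=
    lg_mono (p _) (ms_mono hw (Det.pr Det.fst (Det.snd.trans Det.snd)) o)
  have h7 := lg_mono (mul_pos hp (p _)) hv
  rw [lg_mul hp (p _), lg_two_rpow, lg_mul two_pos hnb, lg_two] at h7
  push_cast at h5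
  linarith

end Path

end Pool.Agent.Lib.MP_d308c3_co.Col
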