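import Pool.Agent.Lib.MP_d308c3_co.ColB

/-! Column path, part C: upper bound and the result for one column. -/

set_option autoImplicit false

namespace Pool.Agent.Lib.MP_d308c3_co.Col

open Finset Pool.Agent.Lib.MP_108739_an.F
open Classical

variable {Ω ω β π γ ι κ δ : Type} [Fintype Ω] {w : Ω → ℝ}

theorem vals_res_sub {α : Type} (A : Ω → Prop) (f : Ω → α) (g : Ω → β) (o : Ω) :
    vals (res w A) f g o ⊆ vals w f g o := fun v hv => by
  obtain ⟨o', h1, h2, h3⟩ := mem_vals.1 hv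
  exact mem_vals.2 ⟨o', (res_pos h1).2, h2, h3⟩

namespace Path

variable {c : Path Ω ω β π}

theorem gain_sum (hw : Nn w) {o : Ω} (ho : 0 < w o) (n : ℕ) :
    ∑ j ∈ range n, c.gain w j (j + 1) o = c.gain w 0 n o := by
  have e : ∀ i j, c.gain w i j o =
      lg (ms w (pr (c.wd i) c.pt) o) - lg (ms w (pr (c.wd j) c.pt) o) := fun i j =>
    lg_div (ms_pos hw _ ho) (ms_pos hw _ ho)
  simp only [e]
  exact sum_range_sub' (fun j => lg (ms w (pr (c.wd j) c.pt) o)) n

/-- code length of the next window on an event -/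
theorem Ok.H_wd (h : c.Ok w) (hw : Nn w) (Ev : Ω → Prop) {j : ℕ} (hj : j < c.nb) :
    H (res w Ev) (c.wd (j + 1)) (c.wd j) ≤ E (res w Ev) fun o =>
      1 + min (lg (c.len (c.wd j o)) - lg (c.len (c.wd (j + 1) o)))
        (lg (c.N (c.wd j o) / c.N (c.wd (j + 1) o))) := by
  have hE := hw.res Ev
  refine (gibbs' hE (c.wd (j + 1)) (c.wd j)
    (fun v o => c.len v / (2 * c.len (c.wd j o)) + c.N v / (2 * c.N (c.wd j o)))
    (fun v o o' e => by simp only [e]) (fun o ho => ?_) (fun o ho => ?_)).trans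
    (E_mono hE fun o ho => ?_)
  · have ho' := (res_pos ho).2
    have := h.len_pos j hj.le o ho'
    have := h.len_pos (j + 1) hj o ho'
    have := h.N_pos j hj.le o ho'
    have := h.N_pos (j + 1) hj o ho'
    positivity
  · have ho' := (res_pos ho).2
    have l0 := h.len_pos j hj.le o ho'
    have n0 := h.N_pos j hj.le o ho'
    have s1 : ∑ v ∈ vals (res w Ev) (c.wd (j + 1)) (c.wd j) o, c.len v ≤ c.len (c.wd j o) :=
      (sum_le_sum_of_subset_of_nonneg (vals_res_sub Ev _ _ o) fun v hv _ => by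
        obtain ⟨o', h1, -, rfl⟩ := mem_vals.1 hv
        exact (h.len_pos (j + 1) hj o' h1).le).trans (h.sum_len j hj o ho')
    have s2 : ∑ v ∈ vals (res w Ev) (c.wd (j + 1)) (c.wd j) o, c.N v ≤ c.N (c.wd j o) :=
      (sum_le_sum_of_subset_of_nonneg (vals_res_sub Ev _ _ o) fun v hv _ => by
        obtain ⟨o', h1, -, rfl⟩ := mem_vals.1 hv
        exact (h.N_pos (j + 1) hj o' h1).le).trans (h.sum_N j hj o ho')
    rw [sum_add_distrib, ← sum_div, ← sum_div]
    have a1 : (∑ v ∈ vals (res w Ev) (c.wd (j + 1)) (c.wd j) o, c.len v) /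
        (2 * c.len (c.wd j o)) ≤ 1 / 2 := by
      rw [div_le_iff₀ (by positivity)]; linarith
    have a2 : (∑ v ∈ vals (res w Ev) (c.wd (j + 1)) (c.wd j) o, c.N v) /
        (2 * c.N (c.wd j o)) ≤ 1 / 2 := by
      rw [div_le_iff₀ (by positivity)]; linarith
    linarith
  · have ho' := (res_pos ho).2
    have l0 := h.len_pos j hj.le o ho'
    have l1 := h.len_pos (j + 1) hj o ho'
    have n0 := h.N_pos j hj.le o ho'
    have n1 := h.N_pos (j + 1) hj o ho'
    have p1 : 0 < c.len (c.wd (j + 1) o) / (2 * c.len (c.wd j o)) := by positivity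
    have p2 : 0 < c.N (c.wd (j + 1) o) / (2 * c.N (c.wd j o)) := by positivity
    have a1 := lg_mono p1 (le_add_of_nonneg_right p2.le)
    have a2 := lg_mono p2 (le_add_of_nonneg_left p1.le)
    rw [lg_div l1 (by positivity), lg_mul two_pos l0, lg_two] at a1
    rw [lg_div n1 (by positivity), lg_mul two_pos n0, lg_two] at a2
    rw [lg_div n0 n1]
    rcases le_total (lg (c.len (c.wd j o)) - lg (c.len (c.wd (j + 1) o)))
      (lg (c.N (c.wd j o)) - lg (c.N (c.wd (j + 1) o))) with k | k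
    · rw [min_eq_left k]; linarith
    · rw [min_eq_right k]; linarith

theorem H_wd_chain {w' : Ω → ℝ} (hw : Nn w') (n : ℕ) :
    H w' (c.wd n) (c.wd 0) ≤ ∑ j ∈ range n, H w' (c.wd (j + 1)) (c.wd j) := by
  induction n with
  | zero => rw [H_det hw Det.rfl]; simp
  | succ n ih =>
    rw [sum_range_succ]
    have h1 := H_tri hw (c.wd (n + 1)) (c.wd n) (c.wd 0)
    have h2 : H w' (c.wd (n + 1)) (pr (c.wd n) (c.wd 0)) ≤ H w' (c.wd (n + 1)) (c.wd n) :=
      H_mono hw Det.fst Det.fst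
    linarith

/-- UPPER -/
theorem Ok.upper (h : c.Ok w) (hw : Nn w) (Ev : Ω → Prop) {n0 : Ω → δ} (hn1 : Det c.base n0)
    (hn2 : Det n0 (c.wd 0)) (lab : Ω → κ)
    (pin : ∀ o o', 0 < w o → 0 < w o' → Ev o → Ev o' → lab o = lab o' →
      c.wd c.nb o = c.wd c.nb o' → n0 o = n0 o' →
      c.base o = c.base o' ∧ |c.ht c.nb o - c.ht c.nb o'| ≤ c.R c.nb o) :
    E (res w Ev) (fun o => lg (ms w (c.F 0) o) - lg (ms w (c.F c.nb) o)) ≤
      tot w + H (res w Ev) (c.wd c.nb) (c.wd 0) + H (res w Ev) lab (pr (c.wd c.nb) n0) +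
        2 * tot (res w Ev) := by
  have hE := hw.res Ev
  have u1 : E (res w Ev) (fun o => lg (ms w (c.F 0) o) - lg (ms w (c.F c.nb) o)) ≤
      E (res w Ev) (fun o => lg (ms w n0 o / ms (res w Ev) n0 o)) +
        H (res w Ev) (c.F c.nb) n0 := by
    unfold H
    rw [← E_add]
    refine E_mono hE fun o ho => ?_
    have ho' := (res_pos ho).2
    rw [lg_div (ms_pos hw _ ho') (ms_pos hE _ ho), lg_div (ms_pos hE _ ho) (ms_pos hE _ ho)]
    have a1 : lg (ms w (c.F 0) o) ≤ lg (ms w n0 o) :=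
      lg_mono (ms_pos hw _ ho') (ms_mono hw ((Det.snd.trans Det.snd).trans hn1) o)
    have a2 : lg (ms (res w Ev) (pr (c.F c.nb) n0) o) ≤ lg (ms w (c.F c.nb) o) :=
      lg_mono (ms_pos hE _ ho) ((ms_res_le hw _ _ o).trans (ms_mono hw Det.fst o))
    linarith
  have u2 := cost_event hw Ev n0
  have u3 := H_tri hE (c.F c.nb) (c.wd c.nb) n0
  have u4 := H_tri hE (c.F c.nb) lab (pr (c.wd c.nb) n0)
  have u5 : H (res w Ev) (c.wd c.nb) n0 ≤ H (res w Ev) (c.wd c.nb) (c.wd 0) :=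
    H_mono hE Det.fst hn2
  have u6 : H (res w Ev) (c.F c.nb) (pr lab (pr (c.wd c.nb) n0)) ≤
      lg (3 : ℕ) * tot (res w Ev) := by
    refine H_le_card hE (by norm_num) fun o ho => ?_
    refine card_vals_le (s := {(c.Y c.nb o - 1, c.wd c.nb o, c.base o),
      (c.Y c.nb o, c.wd c.nb o, c.base o), (c.Y c.nb o + 1, c.wd c.nb o, c.base o)})
      (fun o' ho' e => ?_) card_le_three
    have e1 : lab o' = lab o := congrArg Prod.fst e
    have e2 : c.wd c.nb o' = c.wd c.nb o := congrArg (fun x => x.2.1) e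
    have e3 : n0 o' = n0 o := congrArg (fun x => x.2.2) e
    obtain ⟨eb, k⟩ := pin o o' (res_pos ho).2 (res_pos ho').2 (res_pos ho).1 (res_pos ho').1
      e1.symm e2.symm e3.symm
    have hR := h.R_pos le_rfl (res_pos ho).2
    have eR : c.R c.nb o' = c.R c.nb o := by simp only [R, e2, h.dU _ _ eb]
    have k1 := abs_le.1 k
    have g1 : c.Y c.nb o' ≤ c.Y c.nb o + 1 := by
      simp only [Y, eR]
      rw [← Int.floor_add_one]
      refine Int.floor_le_floor ?_
      rw [div_add_one hR.ne']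
      exact div_le_div_of_nonneg_right (by linarith) hR.le
    have g2 : c.Y c.nb o ≤ c.Y c.nb o' + 1 := by
      simp only [Y, eR]
      rw [← Int.floor_add_one]
      refine Int.floor_le_floor ?_
      rw [div_add_one hR.ne']
      exact div_le_div_of_nonneg_right (by linarith) hR.le
    simp only [F, pr, e2, ← eb, mem_insert, mem_singleton, Prod.mk.injEq, and_true]
    omega
  have u7 : lg (3 : ℕ) ≤ (2 : ℕ) := lg_le_nat 2 (by norm_num) (by norm_num)
  have u8 := mul_le_mul_of_nonneg_right u7 (tot_nonneg hE)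
  push_cast at u8 u6
  linarith

/-- RESULT for one column: on the event `Ev` the gain is paid by failing blocks, overshoots and
the code of the label -/
theorem Ok.column (h : c.Ok w) (hw : Nn w) (Ev : Ω → Prop) {n0 : Ω → δ} (hn1 : Det c.base n0)
    (hn2 : Det n0 (c.wd 0)) (lab : Ω → κ)
    (pin : ∀ o o', 0 < w o → 0 < w o' → Ev o → Ev o' → lab o = lab o' →
      c.wd c.nb o = c.wd c.nb o' → n0 o = n0 o' →
      c.base o = c.base o' ∧ |c.ht c.nb o - c.ht c.nb o'| ≤ c.R c.nb o)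
    (T : Finset ι) (G : ℕ → ι → Ω → γ) (d1 : ∀ j < c.nb, ∀ τ ∈ T, Det (G j τ) c.base)
    (d2 : ∀ j < c.nb, ∀ τ ∈ T, Det (G j τ) (c.wd (j + 1))) {bt c0 : ℝ} (hb : 0 ≤ bt)
    (hc0 : 0 ≤ c0) (ov : ℕ → Ω → ℝ) (hov0 : ∀ j < c.nb, ∀ o, 0 < w o → Ev o → 0 ≤ ov j o)
    (hov : ∀ j < c.nb, ∀ o, 0 < w o → Ev o →
      lg (c.N (c.wd j o) / c.N (c.wd (j + 1) o)) ≤ bt + ov j o)
    (fail : ℕ → Ω → Prop)
    (hopt : ∀ o, 0 < w o → Ev o → ∀ j < c.nb, ¬ fail j o → j + 1 < c.nb ∧ ∃ lam : ℝ,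
      c.len (c.wd (j + 2) o) ≤ lam ∧ lam ≤ 2 ^ c0 * c.len (c.wd (j + 1) o) ∧
      (∃ τ ∈ T, c.Opt w (G j τ) j lam (2 ^ (3 * bt)) o) ∧
      ∃ τ ∈ T, c.Opt w (G (j + 1) τ) (j + 1) lam (2 ^ (3 * bt)) o) :
    E (res w Ev) (fun o => c.gain w 0 c.nb o - ∑ j ∈ range c.nb, if fail j o then bt else 0) ≤
      E (res w Ev) (fun o => ∑ j ∈ range c.nb, ov j o) + H (res w Ev) lab (pr (c.wd c.nb) n0) +
        ((c0 + 13) * c.nb + 2) * tot (res w Ev) + (1 + c.nb * (2 + 2 * lg (#T + 1))) * tot w := by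
  have hE := hw.res Ev
  let D : ℕ → Ω → ℝ := fun j o =>
    min (-lg (c.len (c.wd (j + 1) o)) - -lg (c.len (c.wd j o))) bt
  have low : ∀ o, 0 < res w Ev o →
      c.gain w 0 c.nb o - (∑ j ∈ range c.nb, if fail j o then bt else 0) +
        ∑ j ∈ range c.nb, D j o ≤ (lg (ms w (c.F 0) o) - lg (ms w (c.F c.nb) o)) +
          (c0 + 12) * c.nb + ∑ j ∈ range c.nb, c.err w T G j o := by
    intro o ho
    obtain ⟨hev, ho'⟩ := res_pos ho
    obtain ⟨v, hv, hs⟩ := greedy c.nb (fun j => -lg (c.len (c.wd j o))) hb hc0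
      (show (0 : ℝ) ≤ 7 by norm_num) (fun j => fail j o) (c.Us w T G o) (Us.down hw)
      (fun j => Or.inl le_rfl) (fun j hj hf => by
        obtain ⟨h1, lam, h2, h3, ⟨τ, hτ, h4⟩, τ', hτ', h5⟩ := hopt o ho' hev j hj hf
        have l2 := h.len_pos (j + 2) h1 o ho'
        have l1 := h.len_pos (j + 1) hj o ho'
        have hl : 0 < lam := l2.trans_le h2
        refine ⟨h1, -lg lam, ?_, neg_le_neg (lg_mono l2 h2),
          h.us_of_opt hw hj hτ (d1 j hj τ hτ) (d2 j hj τ hτ) hl ho' h4,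
          h.us_of_opt hw h1 hτ' (d1 _ h1 τ' hτ') (d2 _ h1 τ' hτ') hl ho' h5⟩
        have := lg_mono hl h3
        rw [lg_mul (Real.rpow_pos_of_pos two_pos _) l1, lg_two_rpow] at this
        linarith)
    have st := sum_le_sum (s := range c.nb) fun j _ => step hw ho' (hv j)
    rw [sum_add_distrib, gain_sum hw ho', sum_add_distrib, sum_add_distrib,
      sum_range_sub' (fun j => lg (ms w (c.F j) o)), sum_const, card_range, nsmul_eq_mul] at st
    rw [sum_sub_distrib] at hs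
    simp only [D]
    linarith
  have a1 := E_mono hE low
  rw [E_add, E_add, E_add, E_const, E_sum, E_sum] at a1
  have a2 := h.upper hw Ev hn1 hn2 lab pin
  have a3 : H (res w Ev) (c.wd c.nb) (c.wd 0) ≤ ∑ j ∈ range c.nb,
      (tot (res w Ev) + E (res w Ev) (D j) + E (res w Ev) (ov j)) := by
    refine (H_wd_chain hE c.nb).trans (sum_le_sum fun j hj => ?_)
    have hj' := mem_range.1 hj
    refine (h.H_wd hw Ev hj').trans ?_
    rw [← one_mul (tot (res w Ev)), ← E_const, ← E_add, ← E_add]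
    refine E_mono hE fun o ho => ?_
    obtain ⟨hev, ho'⟩ := res_pos ho
    have k1 := hov0 j hj' o ho' hev
    have k2 := hov j hj' o ho' hev
    have m1 := min_le_left (lg (c.len (c.wd j o)) - lg (c.len (c.wd (j + 1) o)))
      (lg (c.N (c.wd j o) / c.N (c.wd (j + 1) o)))
    have m2 := min_le_right (lg (c.len (c.wd j o)) - lg (c.len (c.wd (j + 1) o)))
      (lg (c.N (c.wd j o) / c.N (c.wd (j + 1) o)))
    have : min (lg (c.len (c.wd j o)) - lg (c.len (c.wd (j + 1) o)))
        (lg (c.N (c.wd j o) / c.N (c.wd (j + 1) o))) - ov j o ≤ D j o :=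
      le_min (by linarith) (by linarith)
    linarith
  rw [sum_add_distrib, sum_add_distrib, sum_const, card_range, nsmul_eq_mul] at a3
  have a4 : ∑ j ∈ range c.nb, E (res w Ev) (c.err w T G j) ≤
      ∑ _j ∈ range c.nb, (2 + 2 * lg (#T + 1)) * tot w := sum_le_sum fun j hj =>
    (E_res_le hw Ev fun o _ => err_nonneg T G j o).trans
      (h.E_err hw (mem_range.1 hj) (d1 j (mem_range.1 hj)) (d2 j (mem_range.1 hj)))
  rw [sum_const, card_range, nsmul_eq_mul] at a4
  rw [E_sum]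
  linarith

end Path

/-- `Fine` does not see a restriction to an event that the cell determines -/
theorem fine_res {G : Ω → γ} {L : Ω → Prop} (hL : Det G L) {o : Ω} (ho : L o) (V : Ω → ℝ)
    (u big small J : ℝ) : Fine (res w L) G V u big small J o ↔ Fine w G V u big small J o := by
  have e : ∀ r, ball (res w L) G V r o = ball w G V r o := fun r => by
    unfold ball
    rw [res_res]
    exact congrArg tot (res_congr fun o' =>
      ⟨fun k => k.2, fun k => ⟨(hL o' o k.1).symm ▸ ho, k⟩⟩)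
  unfold Fine
  rw [e, e]

/-- `Fine` only depends on the fibre of the cell through the item and on the heights on it -/
theorem fine_congr {γ' : Type} {G : Ω → γ} {G' : Ω → γ'} {V V' : Ω → ℝ} {o : Ω}
    (hG : ∀ o', G o' = G o ↔ G' o' = G' o) (hV : ∀ o', G o' = G o → V o' = V' o')
    (u big small J : ℝ) : Fine w G V u big small J o ↔ Fine w G' V' u big small J o := by
  have e : ∀ r, ball w G V r o = ball w G' V' r o := fun r => by
    unfold ball
    refine congrArg tot (res_congr fun o' => ⟨fun k => ⟨(hG o').1 k.1, ?_⟩, fun k =>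
      ⟨(hG o').2 k.1, ?_⟩⟩)
    · rw [← hV o' k.1, ← hV o rfl]; exact k.2
    · rw [hV o' ((hG o').2 k.1), hV o rfl]; exact k.2
  unfold Fine
  rw [e, e]

end Pool.Agent.Lib.MP_d308c3_co.Col
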