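import Mathlib

/-! Cores, timelike points and the spacelike rest of a finite weighted planar set. -/

namespace Pool.Agent.MP_d308c3_co.Cores

open Finset

variable {I : Type*}

/-- Quantile of a finite weight along a real function. -/
theorem quantile (Q : Finset I) (w f : I → ℝ) (th : ℝ) (h0 : 0 < th)
    (h1 : th ≤ ∑ q ∈ Q, w q) :
    ∃ q ∈ Q, th ≤ ∑ x ∈ Q.filter (fun x => f x ≤ f q), w x ∧
      ∑ x ∈ Q.filter (fun x => f x < f q), w x < th := by
  classical
  have hQ : Q.Nonempty := by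
    rcases Q.eq_empty_or_nonempty with h | h
    · rw [h, sum_empty] at h1; linarith
    · exact h
  obtain ⟨m, hm, hmax⟩ := exists_max_image Q f hQ
  have hne : (Q.filter (fun q => th ≤ ∑ x ∈ Q.filter (fun x => f x ≤ f q), w x)).Nonempty := by
    refine ⟨m, mem_filter.2 ⟨hm, ?_⟩⟩
    rw [filter_true_of_mem hmax]; exact h1
  obtain ⟨q, hq, hmin⟩ := exists_min_image _ f hne
  refine ⟨q, (mem_filter.1 hq).1, (mem_filter.1 hq).2, ?_⟩
  rcases (Q.filter (fun x => f x < f q)).eq_empty_or_nonempty with h | h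
  · rw [h, sum_empty]; exact h0
  · obtain ⟨y, hy, hymax⟩ := exists_max_image _ f h
    have hy' := mem_filter.1 hy
    by_contra hc
    push Not at hc
    have e : Q.filter (fun x => f x ≤ f y) = Q.filter (fun x => f x < f q) := by
      ext x
      simp only [mem_filter]
      constructor
      · rintro ⟨a, b⟩; exact ⟨a, lt_of_le_of_lt b hy'.2⟩
      · rintro ⟨a, b⟩; exact ⟨a, hymax x (mem_filter.2 ⟨a, b⟩)⟩
    have := hmin y (mem_filter.2 ⟨hy'.1, by rw [e]; exact hc⟩)
    linarith [hy'.2]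

/-- Greedy choice by increasing radius. -/
theorem greedy [DecidableEq I] (B : I → Finset I) (r : I → ℝ) (A : Finset I) :
    ∃ Z : Finset I, Z ⊆ A ∧ (∀ z ∈ Z, ∀ z' ∈ Z, z ≠ z' → Disjoint (B z) (B z')) ∧
      ∀ p ∈ A, ∃ z ∈ Z, r z ≤ r p ∧ (z = p ∨ ¬ Disjoint (B p) (B z)) := by
  classical
  induction A using Finset.induction_on_max_value r with
  | empty => exact ⟨∅, Subset.refl _, by simp, by simp⟩
  | insert a s ha hmax ih =>
    obtain ⟨Z, hZ, hd, hc⟩ := ih
    by_cases h : ∀ z ∈ Z, Disjoint (B a) (B z)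
    · refine ⟨insert a Z, insert_subset_insert _ hZ, ?_, ?_⟩
      · intro z hz z' hz' hne
        rcases mem_insert.1 hz with rfl | hz1
        · rcases mem_insert.1 hz' with rfl | hz2
          · exact absurd rfl hne
          · exact h _ hz2
        · rcases mem_insert.1 hz' with rfl | hz2
          · exact (h _ hz1).symm
          · exact hd _ hz1 _ hz2 hne
      · intro p hp
        rcases mem_insert.1 hp with rfl | hp1
        · exact ⟨p, mem_insert_self _ _, le_rfl, Or.inl rfl⟩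
        · obtain ⟨z, hz, h1, h2⟩ := hc p hp1
          exact ⟨z, mem_insert_of_mem hz, h1, h2⟩
    · push Not at h
      obtain ⟨z, hz, hnd⟩ := h
      refine ⟨Z, hZ.trans (subset_insert _ _), hd, ?_⟩
      intro p hp
      rcases mem_insert.1 hp with rfl | hp1
      · exact ⟨z, hz, hmax z (hZ hz), Or.inr hnd⟩
      · exact hc p hp1

/-- The distance `|du| + |dv|`. -/
def dd (u v : I → ℝ) (p q : I) : ℝ := |u p - u q| + |v p - v q|

theorem dd_nonneg (u v : I → ℝ) (p q : I) : 0 ≤ dd u v p q :=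
  add_nonneg (abs_nonneg _) (abs_nonneg _)

theorem dd_comm (u v : I → ℝ) (p q : I) : dd u v p q = dd u v q p := by
  unfold dd; rw [abs_sub_comm (u p), abs_sub_comm (v p)]

theorem dd_self (u v : I → ℝ) (p : I) : dd u v p p = 0 := by simp [dd]

theorem dd_tri (u v : I → ℝ) (p q x : I) : dd u v p x ≤ dd u v p q + dd u v q x := by
  unfold dd
  have h1 := abs_sub_le (u p) (u q) (u x)
  have h2 := abs_sub_le (v p) (v q) (v x)
  linarith

theorem dy_le (u v : I → ℝ) (p q : I) : |(v p - u p) - (v q - u q)| ≤ dd u v p q := by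
  unfold dd
  rw [abs_le]
  have h1 := le_abs_self (u p - u q)
  have h2 := neg_abs_le (u p - u q)
  have h3 := le_abs_self (v p - v q)
  have h4 := neg_abs_le (v p - v q)
  constructor <;> linarith

/-- If `|dy| < d` then `d = |ds|`. -/
theorem dd_eq (u v : I → ℝ) (p q : I) (h : |(v p - u p) - (v q - u q)| < dd u v p q) :
    dd u v p q = |(u p + v p) - (u q + v q)| := by
  unfold dd at *
  rcases abs_cases (u p - u q) with ⟨a, a'⟩ | ⟨a, a'⟩ <;>
  rcases abs_cases (v p - v q) with ⟨b, b'⟩ | ⟨b, b'⟩ <;>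
  rcases abs_cases ((v p - u p) - (v q - u q)) with ⟨c, c'⟩ | ⟨c, c'⟩ <;>
  rcases abs_cases ((u p + v p) - (u q + v q)) with ⟨e, e'⟩ | ⟨e, e'⟩ <;> linarith

theorem sum_mono {P A B : Finset I} {w : I → ℝ} (hw : ∀ p ∈ P, 0 ≤ w p) (hB : B ⊆ P)
    (h : A ⊆ B) : ∑ p ∈ A, w p ≤ ∑ p ∈ B, w p :=
  sum_le_sum_of_subset_of_nonneg h (fun i hi _ => hw i (hB hi))

/-- Groups of a set on which every `s`-window of radius `rr p` has weight below `th`. -/
theorem groups (F : Finset I) (w s rr : I → ℝ) (hw : ∀ p ∈ F, 0 ≤ w p) (th : ℝ) (h0 : 0 < th)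
    (hr : ∀ p ∈ F, 0 < rr p)
    (hl : ∀ p ∈ F, ∑ q ∈ F.filter (fun q => |s p - s q| < rr p), w q < th) :
    ∃ G : I → ℕ, (∀ p ∈ F, (G p : ℝ) * th ≤ ∑ q ∈ F, w q) ∧
      (∀ a, ∑ p ∈ F.filter (fun p => G p = a), w p < 2 * th) ∧
      (∀ p ∈ F, ∀ q ∈ F, s p ≤ s q → G p ≤ G q) ∧
      ∀ p ∈ F, ∀ q ∈ F, G p + 2 ≤ G q → rr p ≤ s q - s p := by
  classical
  set c : I → ℝ := fun p => ∑ q ∈ F.filter (fun q => s q < s p), w q with hc
  have c0 : ∀ p, 0 ≤ c p := fun p => sum_nonneg (fun i hi => hw i (mem_filter.1 hi).1)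
  have cm : ∀ p q, s p ≤ s q → c p ≤ c q := by
    intro p q h
    refine sum_mono hw (filter_subset _ _) ?_
    intro x hx
    exact mem_filter.2 ⟨(mem_filter.1 hx).1, lt_of_lt_of_le (mem_filter.1 hx).2 h⟩
  have cd : ∀ p q, s p ≤ s q →
      c q = c p + ∑ x ∈ F.filter (fun x => s p ≤ s x ∧ s x < s q), w x := by
    intro p q h
    simp only [hc]
    rw [← sum_union]
    · refine sum_congr ?_ (fun _ _ => rfl)
      ext x
      simp only [mem_union, mem_filter]
      constructor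
      · rintro ⟨a, b⟩
        by_cases hx : s x < s p
        · exact Or.inl ⟨a, hx⟩
        · exact Or.inr ⟨a, not_lt.1 hx, b⟩
      · rintro (⟨a, b⟩ | ⟨a, _, b⟩)
        · exact ⟨a, lt_of_lt_of_le b h⟩
        · exact ⟨a, b⟩
    · rw [disjoint_left]
      intro x h1 h2
      have := (mem_filter.1 h1).2
      have := (mem_filter.1 h2).2.1
      linarith
  have g1 : ∀ p, (⌊c p / th⌋₊ : ℝ) * th ≤ c p := by
    intro p
    have := Nat.floor_le (div_nonneg (c0 p) h0.le)
    rwa [le_div_iff₀ h0] at this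
  have g2 : ∀ p, c p < ((⌊c p / th⌋₊ : ℝ) + 1) * th := by
    intro p
    have := Nat.lt_floor_add_one (c p / th)
    rwa [div_lt_iff₀ h0] at this
  have gm : ∀ p q, s p ≤ s q → ⌊c p / th⌋₊ ≤ ⌊c q / th⌋₊ := fun p q h =>
    Nat.floor_le_floor (div_le_div_of_nonneg_right (cm p q h) h0.le)
  refine ⟨fun p => ⌊c p / th⌋₊, ?_, ?_, fun p _ q _ h => gm p q h, ?_⟩
  · intro p _
    exact (g1 p).trans (sum_mono hw (Subset.refl _) (filter_subset _ _))
  · intro a
    rcases (F.filter (fun p => ⌊c p / th⌋₊ = a)).eq_empty_or_nonempty with h | h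
    · rw [h, sum_empty]; linarith
    · obtain ⟨p, hp, hpm⟩ := exists_min_image _ s h
      obtain ⟨q, hq, hqm⟩ := exists_max_image _ s h
      have hp' := mem_filter.1 hp
      have hq' := mem_filter.1 hq
      have hpq : s p ≤ s q := hpm q hq
      have e1 := cd p q hpq
      have e2 := g1 p
      have e3 := g2 q
      rw [hp'.2] at e2
      rw [hq'.2] at e3
      have e4 := hl q hq'.1
      have hsub : F.filter (fun p => ⌊c p / th⌋₊ = a) ⊆
          F.filter (fun x => s p ≤ s x ∧ s x < s q) ∪ F.filter (fun x => |s q - s x| < rr q) := by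
        intro x hx
        have hx' := mem_filter.1 hx
        rcases (hqm x hx).lt_or_eq with h1 | h1
        · exact mem_union_left _ (mem_filter.2 ⟨hx'.1, hpm x hx, h1⟩)
        · refine mem_union_right _ (mem_filter.2 ⟨hx'.1, ?_⟩)
          rw [h1, sub_self, abs_zero]; exact hr q hq'.1
      have e5 := sum_mono hw (union_subset (filter_subset _ _) (filter_subset _ _)) hsub
      have e6 := sum_union_inter (s₁ := F.filter (fun x => s p ≤ s x ∧ s x < s q))
        (s₂ := F.filter (fun x => |s q - s x| < rr q)) (f := w)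
      have e7 : 0 ≤ ∑ x ∈ F.filter (fun x => s p ≤ s x ∧ s x < s q) ∩
          F.filter (fun x => |s q - s x| < rr q), w x :=
        sum_nonneg (fun i hi => hw i (mem_filter.1 (mem_inter.1 hi).1).1)
      nlinarith
  · intro p hp q hq h
    have hpq : s p ≤ s q := by
      by_contra hc'
      have := gm q p (not_le.1 hc').le
      simp only at h
      omega
    by_contra hlt
    push Not at hlt
    have e1 := cd p q hpq
    have e2 := g1 q
    have e3 := g2 p
    have e4 := hl p hp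
    have hsub : F.filter (fun x => s p ≤ s x ∧ s x < s q) ⊆
        F.filter (fun x => |s p - s x| < rr p) := by
      intro x hx
      have hx' := mem_filter.1 hx
      refine mem_filter.2 ⟨hx'.1, ?_⟩
      rw [abs_lt]
      constructor <;> linarith [hx'.2.1, hx'.2.2, hr p hp]
    have e5 := sum_mono hw (filter_subset _ _) hsub
    have e6 : ((⌊c p / th⌋₊ : ℝ) + 2) ≤ (⌊c q / th⌋₊ : ℝ) := by exact_mod_cast h
    nlinarith

/-- CORES.  `Z` centres, `r` radii, `yh` medians of `y = v - u`, `F` the spacelike rest,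
`G` its groups. -/
theorem cores [DecidableEq I] (P : Finset I) (u v w : I → ℝ) (hw : ∀ p ∈ P, 0 ≤ w p)
    (th : ℝ) (h0 : 0 < th) (h1 : th ≤ ∑ p ∈ P, w p) :
    ∃ (Z F : Finset I) (r yh : I → ℝ) (G : I → ℕ),
      Z ⊆ P ∧ F ⊆ P ∧ (Z.card : ℝ) * th ≤ ∑ p ∈ P, w p ∧
      (∀ z ∈ Z, 0 ≤ r z ∧ |(v z - u z) - yh z| ≤ r z ∧
        th / 2 ≤ ∑ q ∈ P.filter (fun q => dd u v z q ≤ r z ∧ v q - u q ≤ yh z), w q ∧
        th / 2 ≤ ∑ q ∈ P.filter (fun q => dd u v z q ≤ r z ∧ yh z ≤ v q - u q), w q) ∧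
      (∀ p ∈ P, p ∈ F ∨ (∃ z ∈ Z, u p = u z ∧ v p = v z) ∨
        ∃ z ∈ Z, max (dd u v z p) (r z) < 10 * |(v p - u p) - yh z|) ∧
      (∀ p ∈ F, ∀ z ∈ Z, 10 * |(v p - u p) - yh z| ≤ max (dd u v z p) (r z)) ∧
      (∀ p ∈ F, (G p : ℝ) * th ≤ ∑ q ∈ P, w q) ∧
      (∀ a, ∑ p ∈ F.filter (fun p => G p = a), w p < 2 * th) ∧
      ∀ p ∈ F, ∀ q ∈ F, G p + 2 ≤ G q → u p < u q ∧ v p < v q := by
  classical
  have hq : ∀ p, ∃ r : ℝ, 0 ≤ r ∧ th ≤ ∑ x ∈ P.filter (fun x => dd u v p x ≤ r), w x ∧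
      ∑ x ∈ P.filter (fun x => dd u v p x < r), w x < th := by
    intro p
    obtain ⟨q, _, a, b⟩ := quantile P w (dd u v p) th h0 h1
    exact ⟨_, dd_nonneg u v p q, a, b⟩
  choose r r0 r1 r2 using hq
  have hm : ∀ z, ∃ yh : ℝ, |(v z - u z) - yh| ≤ r z ∧
      th / 2 ≤ ∑ q ∈ P.filter (fun q => dd u v z q ≤ r z ∧ v q - u q ≤ yh), w q ∧
      th / 2 ≤ ∑ q ∈ P.filter (fun q => dd u v z q ≤ r z ∧ yh ≤ v q - u q), w q := by
    intro z
    obtain ⟨q, hq, a, b⟩ := quantile (P.filter (fun x => dd u v z x ≤ r z)) w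
      (fun x => v x - u x) (th / 2) (by linarith) (by linarith [r1 z])
    refine ⟨v q - u q, (dy_le u v z q).trans (mem_filter.1 hq).2, ?_, ?_⟩
    · rwa [filter_filter] at a
    · have e := sum_filter_add_sum_filter_not (P.filter (fun x => dd u v z x ≤ r z))
        (fun x => v x - u x < v q - u q) w
      have e2 : (P.filter (fun x => dd u v z x ≤ r z)).filter
          (fun x => ¬ (v x - u x < v q - u q)) =
          P.filter (fun x => dd u v z x ≤ r z ∧ v q - u q ≤ v x - u x) := by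
        rw [filter_filter]
        exact filter_congr (fun x _ => by rw [not_lt])
      rw [e2] at e
      linarith [r1 z]
  choose yh y0 y1 y2 using hm
  obtain ⟨Z, hZ, hd, hc⟩ := greedy (fun p => P.filter (fun x => dd u v p x ≤ r p)) r P
  have hz : ∀ p ∈ P, ∃ z ∈ Z, r z ≤ r p ∧ dd u v z p ≤ 2 * r p := by
    intro p hp
    obtain ⟨z, hz, a, b⟩ := hc p hp
    refine ⟨z, hz, a, ?_⟩
    rcases b with rfl | b
    · rw [dd_self]; linarith [r0 z]
    · rw [not_disjoint_iff] at b
      obtain ⟨x, x1, x2⟩ := b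
      have t := dd_tri u v z x p
      rw [dd_comm u v x p] at t
      linarith [(mem_filter.1 x1).2, (mem_filter.1 x2).2]
  set F := P.filter (fun p => 0 < r p ∧
    ∀ z ∈ Z, 10 * |(v p - u p) - yh z| ≤ max (dd u v z p) (r z)) with hF
  have hFP : F ⊆ P := filter_subset _ _
  have key : ∀ p ∈ F, ∀ q ∈ F, r p / 2 ≤ dd u v p q →
      |(v p - u p) - (v q - u q)| < dd u v p q := by
    intro p hp q hq h
    have hp' := mem_filter.1 hp
    have hq' := mem_filter.1 hq
    obtain ⟨z, hz, a, b⟩ := hz p hp'.1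
    have e1 := hp'.2.2 z hz
    have e2 := hq'.2.2 z hz
    have t := dd_tri u v z p q
    have m1 : max (dd u v z p) (r z) ≤ 4 * dd u v p q := max_le (by linarith) (by linarith [r0 p])
    have m2 : max (dd u v z q) (r z) ≤ 5 * dd u v p q := max_le (by linarith) (by linarith [r0 p])
    have t2 := abs_sub_le (v p - u p) (yh z) (v q - u q)
    rw [abs_sub_comm (yh z)] at t2
    linarith [hp'.2.1]
  obtain ⟨G, G1, G2, _, G4⟩ := groups F w (fun p => u p + v p) (fun p => r p / 2)
    (fun p hp => hw p (hFP hp)) th h0 (fun p hp => by linarith [(mem_filter.1 hp).2.1]) (by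
      intro p hp
      refine lt_of_le_of_lt (sum_mono hw (filter_subset _ _) ?_) (r2 p)
      intro q hq
      have hq' := mem_filter.1 hq
      refine mem_filter.2 ⟨hFP hq'.1, ?_⟩
      by_contra hc'
      have a : r p / 2 ≤ dd u v p q := by linarith [not_lt.1 hc', r0 p]
      have b := dd_eq u v p q (key p hp q hq'.1 a)
      linarith [hq'.2])
  refine ⟨Z, F, r, yh, G, hZ, hFP, ?_, fun z _ => ⟨r0 z, y0 z, y1 z, y2 z⟩, ?_,
    fun p hp => (mem_filter.1 hp).2.2, ?_, G2, ?_⟩
  · have e : ∑ x ∈ Z.biUnion (fun p => P.filter (fun x => dd u v p x ≤ r p)), w x =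
        ∑ z ∈ Z, ∑ x ∈ P.filter (fun x => dd u v z x ≤ r z), w x :=
      sum_biUnion (fun z hz z' hz' hne => hd z hz z' hz' hne)
    have e2 : ∑ x ∈ Z.biUnion (fun p => P.filter (fun x => dd u v p x ≤ r p)), w x ≤
        ∑ p ∈ P, w p :=
      sum_mono hw (Subset.refl _) (biUnion_subset.2 (fun z _ => filter_subset _ _))
    have e3 : ∑ _z ∈ Z, th ≤ ∑ z ∈ Z, ∑ x ∈ P.filter (fun x => dd u v z x ≤ r z), w x :=
      sum_le_sum (fun z _ => r1 z)
    rw [sum_const, nsmul_eq_mul] at e3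
    linarith
  · intro p hp
    by_cases a : 0 < r p
    · by_cases b : ∀ z ∈ Z, 10 * |(v p - u p) - yh z| ≤ max (dd u v z p) (r z)
      · exact Or.inl (mem_filter.2 ⟨hp, a, b⟩)
      · push Not at b
        exact Or.inr (Or.inr b)
    · obtain ⟨z, hz, _, b⟩ := hz p hp
      refine Or.inr (Or.inl ⟨z, hz, ?_⟩)
      unfold dd at b
      have b1 := abs_nonneg (u z - u p)
      have b2 := abs_nonneg (v z - v p)
      have c1 : |u z - u p| = 0 := by linarith [not_lt.1 a]
      have c2 : |v z - v p| = 0 := by linarith [not_lt.1 a]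
      rw [abs_eq_zero] at c1 c2
      constructor <;> linarith
  · intro p hp
    exact (G1 p hp).trans (sum_mono hw (Subset.refl _) hFP)
  · intro p hp q hq h
    have a := G4 p hp q hq h
    have hp' := (mem_filter.1 hp).2.1
    have a1 : |(u p + v p) - (u q + v q)| = (u q + v q) - (u p + v p) := by
      rw [abs_sub_comm, abs_of_nonneg (by linarith)]
    have a2 : (u q + v q) - (u p + v p) ≤ dd u v p q := by
      unfold dd
      linarith [neg_abs_le (u p - u q), neg_abs_le (v p - v q)]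
    have b := key p hp q hq (by linarith)
    have c := dd_eq u v p q b
    rw [c, a1, abs_lt] at b
    constructor <;> linarith [b.1, b.2]

end Pool.Agent.MP_d308c3_co.Cores
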