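import Mathlib

/-!
Abstract cut lemmas for a sequence of membership predicates `U k` (states) on a finite set `Y`.
Window = pair of state indices `k0 ≤ k1`; step `k` goes from state `k` to state `k + 1`.
-/

namespace Pool.Agent.Lib.MP_d308c3_co.Cut

open Finset
open scoped Classical

variable {I : Type*}

/-- number of points of `Y` in state `k` -/
noncomputable def cnt (U : ℕ → I → Prop) (Y : Finset I) (k : ℕ) : ℕ := (Y.filter (U k)).card

/-- points of `Y` in state `k` and not in state `l` -/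
noncomputable def out (U : ℕ → I → Prop) (Y : Finset I) (k l : ℕ) : Finset I :=
  Y.filter fun p => U k p ∧ ¬ U l p

/-- total size change (drivers) on the window `[k0, k1]` -/
noncomputable def Dr (U : ℕ → I → Prop) (Y : Finset I) (k0 k1 : ℕ) : ℕ :=
  ∑ k ∈ Ico k0 k1, ((cnt U Y (k + 1) : ℤ) - cnt U Y k).natAbs

/-- points of `Y` whose membership is not constant on the window `[k0, k1]` -/
noncomputable def Ch (U : ℕ → I → Prop) (Y : Finset I) (k0 k1 : ℕ) : Finset I :=
  Y.filter fun p => ∃ k l, k0 ≤ k ∧ k ≤ k1 ∧ k0 ≤ l ∧ l ≤ k1 ∧ U k p ∧ ¬ U l p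

/-- `Phi = #Ch + Dr` -/
noncomputable def Phi (U : ℕ → I → Prop) (Y : Finset I) (k0 k1 : ℕ) : ℕ :=
  (Ch U Y k0 k1).card + Dr U Y k0 k1

/-- flux of `L` on the window -/
noncomputable def flux (U : ℕ → I → Prop) (Y : Finset I) (L : I → Prop) (k0 k1 : ℕ) : ℕ :=
  ∑ k ∈ Ico k0 k1, min ((out U Y k (k + 1)).filter L).card
    ((out U Y (k + 1) k).filter fun p => ¬ L p).card

/-- (TP): a point that leaves and a point that enters between two states of the window are `R`-related -/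
def TP (U : ℕ → I → Prop) (Y : Finset I) (R : I → I → Prop) (k0 k1 : ℕ) : Prop :=
  ∀ k l, k0 ≤ k → k < l → l ≤ k1 → ∀ p ∈ Y, ∀ q ∈ Y, U k p → ¬ U l p → U l q → ¬ U k q → R p q

/-- down set of `R` inside `Y` -/
def Down (Y : Finset I) (R : I → I → Prop) (L : I → Prop) : Prop :=
  ∀ p ∈ Y, ∀ q ∈ Y, R p q → L q → L p

variable {U : ℕ → I → Prop} {Y Z : Finset I} {R : I → I → Prop} {L : I → Prop} {k0 k1 k2 : ℕ}

theorem mem_out {k l : ℕ} {p : I} : p ∈ out U Y k l ↔ p ∈ Y ∧ U k p ∧ ¬ U l p := by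
  simp [out]

theorem mem_Ch {p : I} : p ∈ Ch U Y k0 k1 ↔
    p ∈ Y ∧ ∃ k l, k0 ≤ k ∧ k ≤ k1 ∧ k0 ≤ l ∧ l ≤ k1 ∧ U k p ∧ ¬ U l p := by
  simp [Ch]

theorem TP.mono (h : TP U Y R k0 k1) (hZ : Z ⊆ Y) {l0 l1 : ℕ} (h0 : k0 ≤ l0) (h1 : l1 ≤ k1) :
    TP U Z R l0 l1 :=
  fun k l a b c p hp q hq => h k l (h0.trans a) b (c.trans h1) p (hZ hp) q (hZ hq)

theorem TP.imp (h : TP U Y R k0 k1) {R' : I → I → Prop} (hR : ∀ p ∈ Y, ∀ q ∈ Y, R p q → R' p q) :
    TP U Y R' k0 k1 :=
  fun k l a b c p hp q hq d e f g => hR p hp q hq (h k l a b c p hp q hq d e f g)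

theorem Down.mono (h : Down Y R L) (hZ : Z ⊆ Y) : Down Z R L :=
  fun p hp q hq => h p (hZ hp) q (hZ hq)

theorem cnt_sub (U : ℕ → I → Prop) (Y : Finset I) (k l : ℕ) :
    (cnt U Y l : ℤ) - cnt U Y k = (out U Y l k).card - (out U Y k l).card := by
  have h1 : cnt U Y l = (Y.filter fun p => U l p ∧ U k p).card + (out U Y l k).card := by
    unfold cnt out
    rw [← card_filter_add_card_filter_not (s := Y.filter (U l)) (U k), filter_filter, filter_filter]
  have h2 : cnt U Y k = (Y.filter fun p => U l p ∧ U k p).card + (out U Y k l).card := by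
    unfold cnt out
    rw [← card_filter_add_card_filter_not (s := Y.filter (U k)) (U l), filter_filter, filter_filter]
    congr 2
    ext p; simp [and_comm]
  rw [h1, h2]; push_cast; ring

theorem out_filter (U : ℕ → I → Prop) (Y : Finset I) (L : I → Prop) [DecidablePred L] (k l : ℕ) :
    out U (Y.filter L) k l = (out U Y k l).filter L := by
  ext p; simp only [mem_out, mem_filter]; tauto

theorem Ch_filter (U : ℕ → I → Prop) (Y : Finset I) (L : I → Prop) [DecidablePred L] (k0 k1 : ℕ) :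
    Ch U (Y.filter L) k0 k1 = (Ch U Y k0 k1).filter L := by
  ext p; simp only [mem_Ch, mem_filter]; exact and_right_comm

theorem Ch_subset : Ch U Y k0 k1 ⊆ Y := filter_subset _ _

theorem Ch_mono (hZ : Z ⊆ Y) {l0 l1 : ℕ} (h0 : k0 ≤ l0) (h1 : l1 ≤ k1) :
    Ch U Z l0 l1 ⊆ Ch U Y k0 k1 := by
  intro p hp
  obtain ⟨hp, k, l, a, b, c, d, e⟩ := mem_Ch.1 hp
  exact mem_Ch.2 ⟨hZ hp, k, l, h0.trans a, b.trans h1, h0.trans c, d.trans h1, e⟩

theorem out_subset_Ch {k l : ℕ} (a : k0 ≤ k) (b : k ≤ k1) (c : k0 ≤ l) (d : l ≤ k1) :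
    out U Y k l ⊆ Ch U Y k0 k1 := by
  intro p hp
  obtain ⟨hp, e⟩ := mem_out.1 hp
  exact mem_Ch.2 ⟨hp, k, l, a, b, c, d, e⟩

/-- a point that changes in `[k0, k2]` changes in one of the two halves -/
theorem Ch_subset_union (h01 : k0 ≤ k1) (h12 : k1 ≤ k2) :
    Ch U Y k0 k2 ⊆ Ch U Y k0 k1 ∪ Ch U Y k1 k2 := by
  intro p hp
  obtain ⟨hp, k, l, a, b, c, d, e, f⟩ := mem_Ch.1 hp
  rw [mem_union, mem_Ch, mem_Ch]
  by_cases h : U k1 p
  · rcases le_total l k1 with h' | h'
    · exact Or.inl ⟨hp, k1, l, h01, le_rfl, c, h', h, f⟩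
    · exact Or.inr ⟨hp, k1, l, le_rfl, h12, h', d, h, f⟩
  · rcases le_total k k1 with h' | h'
    · exact Or.inl ⟨hp, k, k1, a, h', h01, le_rfl, e, h⟩
    · exact Or.inr ⟨hp, k, k1, h', b, le_rfl, h12, e, h⟩

theorem Dr_add (h01 : k0 ≤ k1) (h12 : k1 ≤ k2) :
    Dr U Y k0 k1 + Dr U Y k1 k2 = Dr U Y k0 k2 := sum_Ico_consecutive _ h01 h12

theorem flux_add (h01 : k0 ≤ k1) (h12 : k1 ≤ k2) :
    flux U Y L k0 k1 + flux U Y L k1 k2 = flux U Y L k0 k2 := sum_Ico_consecutive _ h01 h12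

theorem Dr_mono {l0 l1 : ℕ} (h0 : k0 ≤ l0) (h1 : l1 ≤ k1) : Dr U Y l0 l1 ≤ Dr U Y k0 k1 :=
  sum_le_sum_of_subset (Ico_subset_Ico h0 h1)

theorem flux_mono {l0 l1 : ℕ} (h0 : k0 ≤ l0) (h1 : l1 ≤ k1) :
    flux U Y L l0 l1 ≤ flux U Y L k0 k1 :=
  sum_le_sum_of_subset (Ico_subset_Ico h0 h1)

theorem Phi_mono {l0 l1 : ℕ} (h0 : k0 ≤ l0) (h1 : l1 ≤ k1) : Phi U Y l0 l1 ≤ Phi U Y k0 k1 :=
  add_le_add (card_le_card (Ch_mono Subset.rfl h0 h1)) (Dr_mono h0 h1)

theorem Phi_le_add (h01 : k0 ≤ k1) (h12 : k1 ≤ k2) :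
    Phi U Y k0 k2 ≤ Phi U Y k0 k1 + Phi U Y k1 k2 := by
  have h := (card_le_card (Ch_subset_union (U := U) (Y := Y) h01 h12)).trans (card_union_le _ _)
  have h' := Dr_add (U := U) (Y := Y) h01 h12
  unfold Phi; omega

theorem natAbs_cnt_le_of_le (h : k0 ≤ k1) :
    ((cnt U Y k1 : ℤ) - cnt U Y k0).natAbs ≤ Dr U Y k0 k1 := by
  induction k1, h using Nat.le_induction with
  | base => simp
  | succ n hn ih =>
    unfold Dr at ih ⊢
    rw [sum_Ico_succ_top hn]
    omega

/-- the size changes by at most `Dr` between two states of the window -/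
theorem cnt_le_cnt_add {k l : ℕ} (a : k0 ≤ k) (b : k ≤ k1) (c : k0 ≤ l) (d : l ≤ k1) :
    cnt U Y k ≤ cnt U Y l + Dr U Y k0 k1 := by
  rcases le_total k l with h | h
  · have h1 := natAbs_cnt_le_of_le (U := U) (Y := Y) h
    have h2 := Dr_mono (U := U) (Y := Y) a d
    omega
  · have h1 := natAbs_cnt_le_of_le (U := U) (Y := Y) h
    have h2 := Dr_mono (U := U) (Y := Y) c b
    omega

theorem card_out_le {k l : ℕ} (a : k0 ≤ k) (b : k ≤ k1) (c : k0 ≤ l) (d : l ≤ k1) :
    (out U Y k l).card ≤ (out U Y l k).card + Dr U Y k0 k1 := by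
  have h1 := cnt_le_cnt_add (U := U) (Y := Y) a b c d
  have h2 := cnt_sub U Y k l
  omega

/-- all of `Y` inside at one state and outside at another: `#Y ≤ Dr` (middle boxes) -/
theorem card_le_Dr {k l : ℕ} (a : k0 ≤ k) (b : k ≤ k1) (c : k0 ≤ l) (d : l ≤ k1)
    (hk : ∀ p ∈ Y, U k p) (hl : ∀ p ∈ Y, ¬ U l p) : Y.card ≤ Dr U Y k0 k1 := by
  have h1 := cnt_le_cnt_add (U := U) (Y := Y) a b c d
  have h2 : cnt U Y k = Y.card := by unfold cnt; rw [filter_true_of_mem hk]
  have h3 : cnt U Y l = 0 := by unfold cnt; rw [filter_false_of_mem hl, card_empty]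
  omega

/-- singletons -/
theorem card_Ch_le_Dr_of_subsingleton (h : Y.card ≤ 1) : (Ch U Y k0 k1).card ≤ Dr U Y k0 k1 := by
  rcases (Ch U Y k0 k1).eq_empty_or_nonempty with h0 | ⟨p, hp⟩
  · simp [h0]
  · obtain ⟨hp, k, l, a, b, c, d, e, f⟩ := mem_Ch.1 hp
    refine (card_le_card Ch_subset).trans (card_le_Dr a b c d ?_ ?_)
    · intro q hq; rwa [card_le_one.1 h q hq p hp]
    · intro q hq; rwa [card_le_one.1 h q hq p hp]

/-- one step of (F1) -/
theorem flux_step (hT : TP U Y R k0 k1) (hL : Down Y R L) {k : ℕ} (a : k0 ≤ k) (b : k + 1 ≤ k1) :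
    ((min ((out U Y k (k + 1)).filter L).card ((out U Y (k + 1) k).filter fun p => ¬ L p).card : ℕ) : ℤ)
      ≤ (cnt U (Y.filter L) k : ℤ) - cnt U (Y.filter L) (k + 1)
        + (((cnt U Y (k + 1) : ℤ) - cnt U Y k).natAbs : ℤ) := by
  have h1 := cnt_sub U (Y.filter L) k (k + 1)
  rw [out_filter, out_filter] at h1
  have h2 := cnt_sub U Y k (k + 1)
  have h3 := card_filter_add_card_filter_not (s := out U Y (k + 1) k) L
  rcases ((out U Y (k + 1) k).filter L).eq_empty_or_nonempty with h0 | ⟨q, hq⟩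
  · rw [h0, card_empty] at h1
    omega
  · obtain ⟨hq, hLq⟩ := mem_filter.1 hq
    obtain ⟨hq, e, f⟩ := mem_out.1 hq
    have h4 : (out U Y k (k + 1)).filter L = out U Y k (k + 1) := by
      refine filter_true_of_mem fun p hp => ?_
      obtain ⟨hp, e', f'⟩ := mem_out.1 hp
      exact hL p hp q hq (hT k (k + 1) a (Nat.lt_succ_self k) b p hp q hq e' f' e f) hLq
    rw [h4] at h1 ⊢
    omega

/-- (F1), first form -/
theorem flux_le (hT : TP U Y R k0 k1) (hL : Down Y R L) (h : k0 ≤ k1) :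
    flux U Y L k0 k1 + ((out U Y k1 k0).filter L).card
      ≤ ((out U Y k0 k1).filter L).card + Dr U Y k0 k1 := by
  have key : ∀ n, k0 ≤ n → n ≤ k1 → (flux U Y L k0 n : ℤ)
      ≤ (cnt U (Y.filter L) k0 : ℤ) - cnt U (Y.filter L) n + Dr U Y k0 n := by
    intro n hn
    induction n, hn using Nat.le_induction with
    | base => intro _; simp [flux, Dr]
    | succ n hn ih =>
      intro hb
      have h1 := ih (by omega)
      have h2 := flux_step hT hL hn hb
      unfold flux Dr at h1 ⊢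
      rw [sum_Ico_succ_top hn, sum_Ico_succ_top hn]
      push_cast at h1 h2 ⊢
      linarith
  have h1 := key k1 h le_rfl
  have h2 := cnt_sub U (Y.filter L) k0 k1
  rw [out_filter, out_filter] at h2
  omega

/-- (F1), leaving side -/
theorem flux_le_out (hT : TP U Y R k0 k1) (hL : Down Y R L) (h : k0 ≤ k1) :
    flux U Y L k0 k1 ≤ ((out U Y k0 k1).filter L).card + Dr U Y k0 k1 :=
  le_trans (Nat.le_add_right _ _) (flux_le hT hL h)

/-- (F1), entering side -/
theorem flux_le_in (hT : TP U Y R k0 k1) (hL : Down Y R L) (h : k0 ≤ k1) :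
    flux U Y L k0 k1 ≤ ((out U Y k1 k0).filter fun p => ¬ L p).card + 2 * Dr U Y k0 k1 := by
  have h1 := flux_le hT hL h
  have h2 := card_out_le (U := U) (Y := Y) le_rfl h h le_rfl
  have h3 := card_filter_add_card_filter_not (s := out U Y k1 k0) L
  have h4 := card_filter_le (out U Y k0 k1) L
  omega

/-- (F1): flux of a down set is at most `Phi` -/
theorem flux_le_Phi (hT : TP U Y R k0 k1) (hL : Down Y R L) : flux U Y L k0 k1 ≤ Phi U Y k0 k1 := by
  rcases le_total k0 k1 with h | h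
  · have h1 := flux_le_out hT hL h
    have h2 := (card_filter_le (out U Y k0 k1) L).trans
      (card_le_card (out_subset_Ch (U := U) (Y := Y) le_rfl h h le_rfl))
    unfold Phi; omega
  · simp [flux, Ico_eq_empty_of_le h]

/-- one step of (CUT): match leaving and entering points in any way -/
theorem cut_step {Λ ι : Type*} [DecidableEq Λ] (π : I → Λ) (T : Finset Λ) (s : Finset ι) (L : ι → I → Prop) :
    ∀ (n : ℕ) (O N : Finset I), O.card = n →
      (∀ p ∈ O, ∀ q ∈ N, π p ≠ π q → ∃ i ∈ s, L i p ∧ ¬ L i q) →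
      ∑ c ∈ T, (((N.filter fun p => π p = c).card : ℤ) - (O.filter fun p => π p = c).card).natAbs
        ≤ ((N.card : ℤ) - O.card).natAbs
          + 2 * ∑ i ∈ s, min (O.filter (L i)).card (N.filter fun p => ¬ L i p).card := by
  have one : ∀ X : Finset I, ∑ c ∈ T, (X.filter fun p => π p = c).card ≤ X.card := by
    intro X
    rw [← card_biUnion]
    · exact card_le_card (biUnion_subset.2 fun c _ => filter_subset _ _)
    · intro c _ d _ hcd
      exact disjoint_left.2 fun p hp hq => hcd ((mem_filter.1 hp).2.symm.trans (mem_filter.1 hq).2)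
  intro n
  induction n with
  | zero =>
    intro O N hO _
    rw [card_eq_zero] at hO
    subst hO
    simpa using one N
  | succ n ih =>
    intro O N hO h
    rcases N.eq_empty_or_nonempty with rfl | ⟨q, hq⟩
    · simpa using one O
    obtain ⟨p, hp⟩ : O.Nonempty := card_pos.1 (by omega)
    have hO' : (O.erase p).card = n := by rw [card_erase_of_mem hp]; omega
    have h1 := ih (O.erase p) (N.erase q) hO' fun p' hp' q' hq' =>
      h p' (mem_of_mem_erase hp') q' (mem_of_mem_erase hq')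
    have er : ∀ (X : Finset I) (x : I), x ∈ X → ∀ (P : I → Prop) [DecidablePred P],
        (X.filter P).card = ((X.erase x).filter P).card + if P x then 1 else 0 := by
      intro X x hx P _
      conv_lhs => rw [← insert_erase hx, filter_insert]
      split_ifs with hP
      · rw [card_insert_of_notMem (by simp)]
      · rfl
    have hN' : (N.erase q).card + 1 = N.card := card_erase_add_one hq
    have e0 : (((N.erase q).card : ℤ) - (O.erase p).card).natAbs = ((N.card : ℤ) - O.card).natAbs := by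
      congr 1; omega
    rw [e0] at h1
    have mono : ∀ i, min ((O.erase p).filter (L i)).card ((N.erase q).filter fun p => ¬ L i p).card
        + (if L i p ∧ ¬ L i q then 1 else 0)
        ≤ min (O.filter (L i)).card (N.filter fun p => ¬ L i p).card := by
      intro i
      rw [er O p hp (L i), er N q hq fun p => ¬ L i p]
      by_cases h1 : L i p <;> by_cases h2 : L i q <;> simp [h1, h2]
    have hs := sum_le_sum fun i (_ : i ∈ s) => mono i
    rw [sum_add_distrib] at hs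
    have cell : ∀ c, (((N.filter fun p => π p = c).card : ℤ) - (O.filter fun p => π p = c).card).natAbs
        ≤ ((((N.erase q).filter fun p => π p = c).card : ℤ)
            - ((O.erase p).filter fun p => π p = c).card).natAbs
          + (if π p ≠ π q then ((if π p = c then 1 else 0) + if π q = c then 1 else 0) else 0) := by
      intro c
      rw [er O p hp fun p => π p = c, er N q hq fun p => π p = c]
      by_cases h3 : π p = π q
      · rw [if_neg (not_not.2 h3), ← h3]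
        push_cast
        split_ifs <;> omega
      · rw [if_pos h3]
        push_cast
        split_ifs <;> omega
    have hc := sum_le_sum fun c (_ : c ∈ T) => cell c
    rw [sum_add_distrib] at hc
    by_cases hpq : π p = π q
    · simp only [hpq, ne_eq, not_true_eq_false, if_false, sum_const_zero] at hc
      omega
    · obtain ⟨i, hi, hLi⟩ := h p hp q hq hpq
      have a1 : 1 ≤ ∑ i ∈ s, (if L i p ∧ ¬ L i q then 1 else 0) := by
        refine le_trans ?_ (single_le_sum (f := fun i => if L i p ∧ ¬ L i q then 1 else 0)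
          (fun _ _ => Nat.zero_le _) hi)
        simp [hLi]
      have a2 : ∑ c ∈ T, (if π p ≠ π q then
          ((if π p = c then 1 else 0) + if π q = c then 1 else 0) else 0) ≤ 2 := by
        simp only [ne_eq, hpq, not_false_eq_true, if_true, sum_add_distrib, sum_ite_eq]
        split_ifs <;> omega
      omega

/-- (CUT) -/
theorem cut {Λ ι : Type*} [DecidableEq Λ] (hT : TP U Y R k0 k1) (π : I → Λ) (T : Finset Λ) (s : Finset ι)
    (L : ι → I → Prop)
    (h : ∀ p ∈ Y, ∀ q ∈ Y, R p q → π p ≠ π q → ∃ i ∈ s, L i p ∧ ¬ L i q) :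
    ∑ c ∈ T, Dr U (Y.filter fun p => π p = c) k0 k1
      ≤ Dr U Y k0 k1 + 2 * ∑ i ∈ s, flux U Y (L i) k0 k1 := by
  unfold Dr flux
  rw [sum_comm, sum_comm (s := s), mul_sum, ← sum_add_distrib]
  refine sum_le_sum fun k hk => ?_
  obtain ⟨a, b⟩ := mem_Ico.1 hk
  simp only [cnt_sub, out_filter]
  refine cut_step π T s L _ _ _ rfl fun p hp q hq => ?_
  obtain ⟨hp, e, f⟩ := mem_out.1 hp
  obtain ⟨hq, e', f'⟩ := mem_out.1 hq
  exact h p hp q hq (hT k (k + 1) a (Nat.lt_succ_self k) b p hp q hq e f e' f')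

theorem sum_card_Ch_le {Λ : Type*} [DecidableEq Λ] (π : I → Λ) (T : Finset Λ) :
    ∑ c ∈ T, (Ch U (Y.filter fun p => π p = c) k0 k1).card ≤ (Ch U Y k0 k1).card := by
  simp only [Ch_filter]
  rw [← card_biUnion]
  · exact card_le_card (biUnion_subset.2 fun c _ => filter_subset _ _)
  · intro c _ d _ hcd
    exact disjoint_left.2 fun p hp hq => hcd ((mem_filter.1 hp).2.symm.trans (mem_filter.1 hq).2)

/-- (CUT) for `Phi` -/
theorem cut_Phi {Λ ι : Type*} [DecidableEq Λ] (hT : TP U Y R k0 k1) (π : I → Λ) (T : Finset Λ) (s : Finset ι)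
    (L : ι → I → Prop)
    (h : ∀ p ∈ Y, ∀ q ∈ Y, R p q → π p ≠ π q → ∃ i ∈ s, L i p ∧ ¬ L i q) :
    ∑ c ∈ T, Phi U (Y.filter fun p => π p = c) k0 k1
      ≤ Phi U Y k0 k1 + 2 * ∑ i ∈ s, flux U Y (L i) k0 k1 := by
  have h1 := cut hT π T s L h
  have h2 := sum_card_Ch_le (U := U) (Y := Y) (k0 := k0) (k1 := k1) π T
  unfold Phi
  rw [sum_add_distrib]
  omega

/-- (CUT) for `Phi` with down sets of the same window: cost `2 Phi` per down set -/
theorem cut_Phi_down {Λ ι : Type*} [DecidableEq Λ] (hT : TP U Y R k0 k1) (π : I → Λ) (T : Finset Λ) (s : Finset ι)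
    (L : ι → I → Prop) (hL : ∀ i ∈ s, Down Y R (L i))
    (h : ∀ p ∈ Y, ∀ q ∈ Y, R p q → π p ≠ π q → ∃ i ∈ s, L i p ∧ ¬ L i q) :
    ∑ c ∈ T, Phi U (Y.filter fun p => π p = c) k0 k1 ≤ (1 + 2 * s.card) * Phi U Y k0 k1 := by
  have h1 := cut_Phi hT π T s L h
  have h2 : ∑ i ∈ s, flux U Y (L i) k0 k1 ≤ s.card * Phi U Y k0 k1 := by
    simpa using sum_le_card_nsmul s _ _ fun i hi => flux_le_Phi hT (hL i hi)
  nlinarith

/-- cut by one predicate `L` closed downwards: drivers -/
theorem half_Dr [DecidablePred L] (hT : TP U Y R k0 k1) (hL : Down Y R L) :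
    Dr U (Y.filter L) k0 k1 + Dr U (Y.filter fun p => ¬ L p) k0 k1
      ≤ Dr U Y k0 k1 + 2 * flux U Y L k0 k1 := by
  have h := cut hT (fun p => L p) {True, False} {()} (fun _ => L) (by
    intro p hp q hq hR hne
    refine ⟨(), mem_singleton_self _, ?_⟩
    have := hL p hp q hq hR
    by_cases h1 : L q
    · exact absurd (propext ⟨fun _ => h1, this⟩) hne
    · exact ⟨by_contra fun h2 => hne (propext ⟨fun h => absurd h h2, fun h => absurd h h1⟩), h1⟩)
  rw [sum_pair (by simp), sum_singleton] at h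
  simpa using h

/-- (HALF): a down set and its complement have `Phi ≤ 3 Phi` together -/
theorem half_Phi [DecidablePred L] (hT : TP U Y R k0 k1) (hL : Down Y R L) :
    Phi U (Y.filter L) k0 k1 + Phi U (Y.filter fun p => ¬ L p) k0 k1 ≤ 3 * Phi U Y k0 k1 := by
  have h1 := half_Dr hT hL
  have h2 := flux_le_Phi hT hL
  have h3 := card_filter_add_card_filter_not (s := Ch U Y k0 k1) L
  rw [← Ch_filter, ← Ch_filter] at h3
  unfold Phi at *
  omega

/-- one step, any predicate: the two parts have drivers at most `#Ch` -/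
theorem step_half_Dr [DecidablePred L] (k : ℕ) :
    Dr U (Y.filter L) k (k + 1) + Dr U (Y.filter fun p => ¬ L p) k (k + 1)
      ≤ (Ch U Y k (k + 1)).card := by
  have h1 := card_filter_add_card_filter_not (s := out U Y k (k + 1)) L
  have h2 := card_filter_add_card_filter_not (s := out U Y (k + 1) k) L
  have h3 : (out U Y k (k + 1)).card + (out U Y (k + 1) k).card ≤ (Ch U Y k (k + 1)).card := by
    rw [← card_union_of_disjoint]
    · exact card_le_card (union_subset
        (out_subset_Ch le_rfl (Nat.le_succ k) (Nat.le_succ k) le_rfl)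
        (out_subset_Ch (Nat.le_succ k) le_rfl le_rfl (Nat.le_succ k)))
    · exact disjoint_left.2 fun p hp hq => (mem_out.1 hp).2.2 (mem_out.1 hq).2.1
  simp only [Dr, Nat.Ico_succ_singleton, sum_singleton, cnt_sub, out_filter]
  omega

/-- cut by a predicate whose complement is a down set up to state `j` and which is a down set from
state `j + 1` on -/
theorem split_Phi [DecidablePred L] {R' : I → I → Prop} {j : ℕ} (h0 : k0 ≤ j) (h1 : j + 1 ≤ k1)
    (hT : TP U Y R k0 j) (hL : Down Y R fun p => ¬ L p)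
    (hT' : TP U Y R' (j + 1) k1) (hL' : Down Y R' L) :
    Phi U (Y.filter L) k0 k1 + Phi U (Y.filter fun p => ¬ L p) k0 k1 ≤ 6 * Phi U Y k0 k1 := by
  have a1 := half_Dr hT hL
  rw [show (Y.filter fun p => ¬ ¬ L p) = Y.filter L from filter_congr fun _ _ => not_not] at a1
  have a2 := flux_le_Phi hT hL
  have a3 := half_Dr hT' hL'
  have a4 := flux_le_Phi hT' hL'
  have a5 := step_half_Dr (U := U) (Y := Y) (L := L) j
  have b1 := card_le_card (Ch_mono (U := U) (Y := Y) Subset.rfl (le_refl k0) (show j ≤ k1 by omega))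
  have b2 := card_le_card (Ch_mono (U := U) (Y := Y) Subset.rfl (show k0 ≤ j + 1 by omega) (le_refl k1))
  have b3 := card_le_card (Ch_mono (U := U) (Y := Y) Subset.rfl h0 h1)
  have c : ∀ Z : Finset I, Dr U Z k0 j + Dr U Z j (j + 1) + Dr U Z (j + 1) k1 = Dr U Z k0 k1 := by
    intro Z
    rw [Dr_add h0 (Nat.le_succ j), Dr_add (by omega) h1]
  have c1 := c Y
  have c2 := c (Y.filter L)
  have c3 := c (Y.filter fun p => ¬ L p)
  have h3 := card_filter_add_card_filter_not (s := Ch U Y k0 k1) L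
  rw [← Ch_filter, ← Ch_filter] at h3
  unfold Phi at *
  omega

section chain

variable {α : Type*} {π : I → Option α}

/-- first down set of (CHAIN): a labelled point or a point `R`-below a labelled point -/
def chain1 (Y : Finset I) (R : I → I → Prop) (π : I → Option α) (p : I) : Prop :=
  π p ≠ none ∨ ∃ h ∈ Y, π h ≠ none ∧ R p h

/-- second down set of (CHAIN) -/
def chain2 (Y : Finset I) (R : I → I → Prop) (π : I → Option α) (p : I) : Prop :=
  chain1 Y R π p ∧ π p = none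

/-- labelled cells are `R`-convex and pairwise `R`-unrelated, `R` is transitive -/
structure IsChain (Y : Finset I) (R : I → I → Prop) (π : I → Option α) : Prop where
  trans : ∀ p ∈ Y, ∀ q ∈ Y, ∀ r ∈ Y, R p q → R q r → R p r
  anti : ∀ p ∈ Y, ∀ q ∈ Y, R p q → π p ≠ none → π q ≠ none → π p = π q
  conv : ∀ p ∈ Y, ∀ q ∈ Y, ∀ r ∈ Y, R p q → R q r → π p ≠ none → π p = π r → π q = π p

theorem IsChain.down1 (h : IsChain Y R π) : Down Y R (chain1 Y R π) := by
  intro p hp q hq hR hq1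
  rcases hq1 with h1 | ⟨r, hr, h1, h2⟩
  · exact Or.inr ⟨q, hq, h1, hR⟩
  · exact Or.inr ⟨r, hr, h1, h.trans p hp q hq r hr hR h2⟩

theorem IsChain.down2 (h : IsChain Y R π) : Down Y R (chain2 Y R π) := by
  intro p hp q hq hR hq2
  refine ⟨h.down1 p hp q hq hR hq2.1, by_contra fun hn => ?_⟩
  rcases hq2.1 with h1 | ⟨r, hr, h1, h2⟩
  · exact h1 hq2.2
  · have h3 := h.anti p hp r hr (h.trans p hp q hq r hr hR h2) hn h1
    exact hn ((h.conv p hp q hq r hr hR h2 hn h3).symm.trans hq2.2)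

theorem IsChain.sep (h : IsChain Y R π) {p q : I} (hp : p ∈ Y) (hq : q ∈ Y) (hR : R p q)
    (hne : π p ≠ π q) :
    (chain1 Y R π p ∧ ¬ chain1 Y R π q) ∨ (chain2 Y R π p ∧ ¬ chain2 Y R π q) := by
  by_cases h1 : π p = none
  · have h2 : π q ≠ none := fun e => hne (h1.trans e.symm)
    exact Or.inr ⟨⟨Or.inr ⟨q, hq, h2, hR⟩, h1⟩, fun e => h2 e.2⟩
  · refine Or.inl ⟨Or.inl h1, ?_⟩
    rintro (h2 | ⟨r, hr, h2, h3⟩)
    · exact hne (h.anti p hp q hq hR h1 h2)
    · have h4 := h.anti p hp r hr (h.trans p hp q hq r hr hR h3) h1 h2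
      exact hne (h.conv p hp q hq r hr hR h3 h1 h4).symm

/-- (CHAIN): drivers of all cells (the rest is the cell `none`), two down sets -/
theorem IsChain.cut_Dr [DecidableEq α] (h : IsChain Y R π) (hT : TP U Y R k0 k1) (T : Finset (Option α)) :
    ∑ c ∈ T, Dr U (Y.filter fun p => π p = c) k0 k1
      ≤ Dr U Y k0 k1 + 2 * (flux U Y (chain1 Y R π) k0 k1 + flux U Y (chain2 Y R π) k0 k1) := by
  have h1 := cut hT π T (univ : Finset Bool)
    (fun i => if i then chain1 Y R π else chain2 Y R π) (by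
      intro p hp q hq hR hne
      rcases h.sep hp hq hR hne with h1 | h1
      · exact ⟨true, mem_univ _, by simpa using h1⟩
      · exact ⟨false, mem_univ _, by simpa only [Bool.false_eq_true, if_false] using h1⟩)
  simpa using h1

/-- (CHAIN): `5 Phi` -/
theorem IsChain.cut_Phi [DecidableEq α] (h : IsChain Y R π) (hT : TP U Y R k0 k1) (T : Finset (Option α)) :
    ∑ c ∈ T, Phi U (Y.filter fun p => π p = c) k0 k1 ≤ 5 * Phi U Y k0 k1 := by
  have h1 := h.cut_Dr hT T
  have h2 := sum_card_Ch_le (U := U) (Y := Y) (k0 := k0) (k1 := k1) π T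
  have h3 := flux_le_Phi hT h.down1
  have h4 := flux_le_Phi hT h.down2
  unfold Phi at *
  rw [sum_add_distrib]
  omega

/-- boxes in the coordinates `u, v`, pairwise strictly ordered in both: a chain for every transitive
relation contained in the cone order -/
theorem isChain_box {u v : I → ℝ}
    (hR : ∀ p ∈ Y, ∀ q ∈ Y, R p q → u q ≤ u p ∧ v p ≤ v q)
    (tr : ∀ p ∈ Y, ∀ q ∈ Y, ∀ r ∈ Y, R p q → R q r → R p r)
    (ord : ∀ p ∈ Y, ∀ q ∈ Y, π p ≠ none → π q ≠ none → π p ≠ π q →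
      (u p < u q ∧ v p < v q) ∨ (u q < u p ∧ v q < v p))
    (box : ∀ p ∈ Y, ∀ q ∈ Y, ∀ r ∈ Y, π p ≠ none → π p = π r → u r ≤ u q → u q ≤ u p →
      v p ≤ v q → v q ≤ v r → π q = π p) : IsChain Y R π := by
  refine ⟨tr, fun p hp q hq h h1 h2 => by_contra fun hne => ?_, fun p hp q hq r hr h h' h1 h2 => ?_⟩
  · have := hR p hp q hq h
    rcases ord p hp q hq h1 h2 hne with e | e
    · exact absurd e.1 (not_lt.2 this.1)
    · exact absurd e.2 (not_lt.2 this.2)
  · exact box p hp q hq r hr h1 h2 (hR q hq r hr h').1 (hR p hp q hq h).1 (hR p hp q hq h).2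
      (hR q hq r hr h').2

/-- one marked point is a chain for every transitive irreflexive relation -/
theorem isChain_point (z : I) (tr : ∀ p ∈ Y, ∀ q ∈ Y, ∀ r ∈ Y, R p q → R q r → R p r)
    (irr : ∀ p ∈ Y, ¬ R p p) : IsChain Y R fun p => if p = z then some () else none := by
  refine ⟨tr, fun p _ q _ _ h1 h2 => ?_, fun p hp q hq r hr h h' h1 h2 => ?_⟩
  · by_cases a : p = z <;> by_cases b : q = z <;> simp_all
  · have a : p = z := by by_contra a; simp [a] at h1
    have b : r = z := by by_contra b; simp [a, b] at h2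
    exact absurd (tr p hp q hq r hr h h') (by rw [a, b]; exact irr z (a ▸ hp))

end chain

/-- MIDDLE: a touched set below `H` and a touched set above `H` force `#H ≤ Dr` -/
theorem middle {A H B : Finset I} (hA : (Ch U A k0 k1).Nonempty) (hB : (Ch U B k0 k1).Nonempty)
    (lo : ∀ k, k0 ≤ k → k ≤ k1 → ∀ p ∈ A, ∀ q ∈ H, U k p → U k q)
    (hi : ∀ k, k0 ≤ k → k ≤ k1 → ∀ q ∈ H, ∀ r ∈ B, U k q → U k r) :
    H.card ≤ Dr U H k0 k1 := by
  obtain ⟨p, hp⟩ := hA
  obtain ⟨r, hr⟩ := hB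
  obtain ⟨hp, k, -, a, b, -, -, e, -⟩ := mem_Ch.1 hp
  obtain ⟨hr, -, l, -, -, c, d, -, f⟩ := mem_Ch.1 hr
  exact card_le_Dr a b c d (fun q hq => lo k a b p hp q hq e) fun q hq hu => f (hi l c d q hq r hr hu)

section lines

variable (a b : I → ℝ) (t m : ℕ → ℝ)

/-- the states of a run: `p` lies above the point `(t k, m k)` -/
def St (k : ℕ) (p : I) : Prop := m k < b p + t k * a p

/-- strict cone order of the time interval `[s0, s1]` -/
def coneLt (s0 s1 : ℝ) (p q : I) : Prop :=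
  a p < a q ∧ b q + s0 * a q < b p + s0 * a p ∧ b p + s1 * a p < b q + s1 * a q

/-- weak cone order of the time interval `[s0, s1]` -/
def coneLe (s0 s1 : ℝ) (p q : I) : Prop :=
  b q + s0 * a q ≤ b p + s0 * a p ∧ b p + s1 * a p ≤ b q + s1 * a q

variable {a b t m}

/-- raw (TP) for two states -/
theorem tp_raw {s0 s1 tk tl mk ml : ℝ} {p q : I} (h0 : s0 ≤ tk) (h : tk ≤ tl) (h1 : tl ≤ s1)
    (e1 : mk < b p + tk * a p) (e2 : ¬ ml < b p + tl * a p) (e3 : ml < b q + tl * a q)
    (e4 : ¬ mk < b q + tk * a q) : tk < tl ∧ coneLt a b s0 s1 p q := by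
  push Not at e2 e4
  have k1 : 0 < (tl - tk) * (a q - a p) := by nlinarith
  have k2 : 0 < tl - tk := by
    rcases (sub_nonneg.2 h).eq_or_lt with e | e
    · rw [← e] at k1; simp at k1
    · exact e
  have k3 : 0 < a q - a p := (mul_pos_iff_of_pos_left k2).1 k1
  refine ⟨by linarith, by linarith, ?_, ?_⟩
  · nlinarith [mul_nonneg (sub_nonneg.2 h0) k3.le]
  · nlinarith [mul_nonneg (sub_nonneg.2 h1) k3.le]

/-- (TP) for lines, strict cone order of any interval containing the times of the window -/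
theorem tp_lines {s0 s1 : ℝ} (hm : ∀ k l, k0 ≤ k → k ≤ l → l ≤ k1 → t k ≤ t l)
    (h0 : s0 ≤ t k0) (h1 : t k1 ≤ s1) (Y : Finset I) :
    TP (St a b t m) Y (coneLt a b s0 s1) k0 k1 := by
  intro k l ha hb hc p _ q _ e1 e2 e3 e4
  exact (tp_raw (h0.trans (hm k0 k le_rfl ha (hb.le.trans hc))) (hm k l ha hb.le hc)
    ((hm l k1 (ha.trans hb.le) hc le_rfl).trans h1) e1 e2 e3 e4).2

theorem tp_lines_le {s0 s1 : ℝ} (hm : ∀ k l, k0 ≤ k → k ≤ l → l ≤ k1 → t k ≤ t l)
    (h0 : s0 ≤ t k0) (h1 : t k1 ≤ s1) (Y : Finset I) :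
    TP (St a b t m) Y (coneLe a b s0 s1) k0 k1 :=
  (tp_lines hm h0 h1 Y).imp fun _ _ _ _ h => ⟨h.2.1.le, h.2.2.le⟩

theorem coneLt_trans {s0 s1 : ℝ} {p q r : I} (h : coneLt a b s0 s1 p q) (h' : coneLt a b s0 s1 q r) :
    coneLt a b s0 s1 p r := ⟨h.1.trans h'.1, h'.2.1.trans h.2.1, h.2.2.trans h'.2.2⟩

theorem coneLe_trans {s0 s1 : ℝ} {p q r : I} (h : coneLe a b s0 s1 p q) (h' : coneLe a b s0 s1 q r) :
    coneLe a b s0 s1 p r := ⟨h'.1.trans h.1, h.2.trans h'.2⟩

/-- below at both ends of the interval means below at every time of the interval -/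
theorem below_of_ends {s0 s1 s : ℝ} {p q : I} (h0 : s0 ≤ s) (h1 : s ≤ s1)
    (e0 : b p + s0 * a p ≤ b q + s0 * a q) (e1 : b p + s1 * a p ≤ b q + s1 * a q) :
    b p + s * a p ≤ b q + s * a q := by
  rcases le_total (a p) (a q) with h | h
  · nlinarith [mul_nonneg (sub_nonneg.2 h0) (sub_nonneg.2 h)]
  · nlinarith [mul_nonneg (sub_nonneg.2 h1) (sub_nonneg.2 h)]

/-- `{c < p(s)}` is a down set for `s ≤ s0` -/
theorem down_early {s0 s1 s c : ℝ} (hs : s ≤ s0) (Y : Finset I) :
    Down Y (coneLt a b s0 s1) fun p => c < b p + s * a p := by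
  intro p _ q _ h e
  nlinarith [mul_nonneg (sub_nonneg.2 hs) (sub_nonneg.2 h.1.le), h.2.1]

/-- `{p(s) ≤ c}` is a down set for `s1 ≤ s` -/
theorem down_late {s0 s1 s c : ℝ} (hs : s1 ≤ s) (Y : Finset I) :
    Down Y (coneLt a b s0 s1) fun p => b p + s * a p ≤ c := by
  intro p _ q _ h e
  nlinarith [mul_nonneg (sub_nonneg.2 hs) (sub_nonneg.2 h.1.le), h.2.2]

theorem down_lt {s0 s1 x : ℝ} (Y : Finset I) : Down Y (coneLt a b s0 s1) fun p => a p < x :=
  fun _ _ _ _ h e => h.1.trans e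

theorem down_le {s0 s1 x : ℝ} (Y : Finset I) : Down Y (coneLt a b s0 s1) fun p => a p ≤ x :=
  fun _ _ _ _ h e => h.1.le.trans e

theorem down_early_le {s0 s1 s c : ℝ} (hs : s ≤ s0) (Y : Finset I) :
    Down Y (coneLt a b s0 s1) fun p => c ≤ b p + s * a p := by
  intro p _ q _ h e
  nlinarith [mul_nonneg (sub_nonneg.2 hs) (sub_nonneg.2 h.1.le), h.2.1]

theorem down_late_lt {s0 s1 s c : ℝ} (hs : s1 ≤ s) (Y : Finset I) :
    Down Y (coneLt a b s0 s1) fun p => b p + s * a p < c := by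
  intro p _ q _ h e
  nlinarith [mul_nonneg (sub_nonneg.2 hs) (sub_nonneg.2 h.1.le), h.2.2]

/-- cut by ANY non vertical line: `L` is closed upwards for the height at time `s` -/
theorem line_Phi [DecidablePred L] {s : ℝ} (hm : ∀ k l, k0 ≤ k → k ≤ l → l ≤ k1 → t k ≤ t l)
    (hL : ∀ p ∈ Y, ∀ q ∈ Y, b q + s * a q ≤ b p + s * a p → L q → L p) :
    Phi (St a b t m) (Y.filter L) k0 k1 + Phi (St a b t m) (Y.filter fun p => ¬ L p) k0 k1
      ≤ 6 * Phi (St a b t m) Y k0 k1 := by
  have early : ∀ s0 s1, s ≤ s0 → Down Y (coneLt a b s0 s1) L := by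
    intro s0 s1 hs p hp q hq h e
    refine hL p hp q hq ?_ e
    nlinarith [mul_nonneg (sub_nonneg.2 hs) (sub_nonneg.2 h.1.le), h.2.1]
  have late : ∀ s0 s1, s1 ≤ s → Down Y (coneLt a b s0 s1) fun p => ¬ L p := by
    intro s0 s1 hs p hp q hq h e e'
    refine e (hL q hq p hp ?_ e')
    nlinarith [mul_nonneg (sub_nonneg.2 hs) (sub_nonneg.2 h.1.le), h.2.2]
  by_cases e0 : s ≤ t k0
  · have := half_Phi (tp_lines (a := a) (b := b) (m := m) hm le_rfl le_rfl Y) (early _ _ e0)
    omega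
  by_cases e1 : t k1 ≤ s
  · have := half_Phi (tp_lines (a := a) (b := b) (m := m) hm le_rfl le_rfl Y) (late _ _ e1)
    rw [show (Y.filter fun p => ¬ ¬ L p) = Y.filter L from filter_congr fun _ _ => not_not] at this
    omega
  rcases lt_or_ge k1 k0 with h | h
  · have z : ∀ Z : Finset I, Phi (St a b t m) Z k0 k1 = 0 := by
      intro Z
      have : Ch (St a b t m) Z k0 k1 = ∅ := by
        refine eq_empty_of_forall_notMem fun p hp => ?_
        obtain ⟨-, k, -, c, d, -⟩ := mem_Ch.1 hp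
        omega
      simp [Phi, this, Dr, Ico_eq_empty_of_le h.le]
    simp [z]
  have ex : ∃ j, k0 ≤ j ∧ j + 1 ≤ k1 ∧ t j ≤ s ∧ s ≤ t (j + 1) := by
    by_contra hn
    push Not at hn
    have : ∀ j, k0 ≤ j → j ≤ k1 → t j ≤ s := by
      intro j hj
      induction j, hj using Nat.le_induction with
      | base => intro _; exact (not_le.1 e0).le
      | succ n hn' ih => intro hb; exact (hn n hn' hb (ih (by omega))).le
    exact e1 (this k1 h le_rfl)
  obtain ⟨j, c, d, e, f⟩ := ex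
  exact split_Phi c d
    (tp_lines (fun k l x y z => hm k l x y (by omega)) le_rfl le_rfl Y) (late _ _ e)
    (tp_lines (fun k l x y z => hm k l (by omega) y z) le_rfl le_rfl Y) (early _ _ f)

end lines

end Pool.Agent.Lib.MP_d308c3_co.Cut
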