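import Pool.Agent.Lib.MP_d308c3_co.Pin

/-!
More cut lemmas: flux of cells, order-free cut, chains of windows.
-/

namespace Pool.Agent.Lib.MP_d308c3_co.Cut

open Finset
open scoped Classical

variable {I : Type*} {U : ℕ → I → Prop} {Y Z : Finset I} {R : I → I → Prop} {L : I → Prop}
  {k0 k1 : ℕ}

theorem sum_card_cells_le {Λ : Type*} [DecidableEq Λ] (π : I → Λ) (T : Finset Λ) (X : Finset I) :
    ∑ c ∈ T, (X.filter fun p => π p = c).card ≤ X.card := by
  rw [← card_biUnion]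
  · exact card_le_card (biUnion_subset.2 fun c _ => filter_subset _ _)
  · intro c _ d _ hcd
    exact disjoint_left.2 fun p hp hq => hcd ((mem_filter.1 hp).2.symm.trans (mem_filter.1 hq).2)

theorem out_mono (hZ : Z ⊆ Y) (k l : ℕ) : out U Z k l ⊆ out U Y k l := fun _ hp =>
  mem_out.2 ⟨hZ (mem_out.1 hp).1, (mem_out.1 hp).2⟩

/-- flux is monotone in the point set -/
theorem flux_mono_set (hZ : Z ⊆ Y) : flux U Z L k0 k1 ≤ flux U Y L k0 k1 := by
  unfold flux
  refine sum_le_sum fun k _ => min_le_min ?_ ?_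
  · exact card_le_card (filter_subset_filter _ (out_mono hZ _ _))
  · exact card_le_card (filter_subset_filter _ (out_mono hZ _ _))

/-- the fluxes of the cells of a labelling add up to at most the flux of the whole set -/
theorem flux_cells {Λ : Type*} [DecidableEq Λ] (π : I → Λ) (T : Finset Λ) :
    ∑ c ∈ T, flux U (Y.filter fun p => π p = c) L k0 k1 ≤ flux U Y L k0 k1 := by
  unfold flux
  rw [sum_comm]
  refine sum_le_sum fun k _ => le_min ?_ ?_
  · refine le_trans (sum_le_sum fun c _ => min_le_left _ _) ?_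
    simp only [out_filter, filter_comm (fun p => π p = _) L]
    exact sum_card_cells_le π T _
  · refine le_trans (sum_le_sum fun c _ => min_le_right _ _) ?_
    simp only [out_filter, filter_comm (fun p => π p = _) fun p => ¬ L p]
    exact sum_card_cells_le π T _

/-- drivers of a union of cells -/
theorem Dr_filter_mem_le {Λ : Type*} [DecidableEq Λ] (π : I → Λ) (T : Finset Λ) :
    Dr U (Y.filter fun p => π p ∈ T) k0 k1 ≤ ∑ c ∈ T, Dr U (Y.filter fun p => π p = c) k0 k1 := by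
  unfold Dr
  rw [sum_comm]
  refine sum_le_sum fun k _ => ?_
  have key : ∀ k, (cnt U (Y.filter fun p => π p ∈ T) k : ℤ)
      = ∑ c ∈ T, (cnt U (Y.filter fun p => π p = c) k : ℤ) := by
    intro k
    unfold cnt
    rw [← Nat.cast_sum, card_eq_sum_card_fiberwise (f := π) (t := T)
      (s := (Y.filter fun p => π p ∈ T).filter (U k))
      (fun p hp => mem_coe.2 (mem_filter.1 (mem_filter.1 (mem_coe.1 hp)).1).2)]
    congr 1
    refine sum_congr rfl fun c hc => ?_
    congr 1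
    ext p
    simp only [mem_filter]
    exact ⟨fun h => ⟨⟨h.1.1.1, h.2⟩, h.1.2⟩, fun h => ⟨⟨⟨h.1.1, h.1.2 ▸ hc⟩, h.2⟩, h.1.2⟩⟩
  rw [key, key, ← sum_sub_distrib]
  exact Int.natAbs_sum_le _ _

/-- order-free (CUT): a pair may be split by `L i` in either direction -/
theorem cut_free {Λ ι : Type*} [DecidableEq Λ] (π : I → Λ) (T : Finset Λ) (s : Finset ι)
    (L : ι → I → Prop)
    (h : ∀ k, k0 ≤ k → k < k1 → ∀ p ∈ out U Y k (k + 1), ∀ q ∈ out U Y (k + 1) k, π p ≠ π q →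
      ∃ i ∈ s, ¬ (L i p ↔ L i q)) :
    ∑ c ∈ T, Dr U (Y.filter fun p => π p = c) k0 k1
      ≤ Dr U Y k0 k1
        + 2 * ∑ i ∈ s, (flux U Y (L i) k0 k1 + flux U Y (fun p => ¬ L i p) k0 k1) := by
  have e : ∑ i ∈ s, (flux U Y (L i) k0 k1 + flux U Y (fun p => ¬ L i p) k0 k1)
      = ∑ x ∈ s ×ˢ (univ : Finset Bool),
        flux U Y (if x.2 then L x.1 else fun p => ¬ L x.1 p) k0 k1 := by
    rw [sum_product]
    refine sum_congr rfl fun i _ => ?_
    simp
  rw [e]
  unfold Dr flux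
  rw [sum_comm, sum_comm (s := s ×ˢ _), mul_sum, ← sum_add_distrib]
  refine sum_le_sum fun k hk => ?_
  obtain ⟨a, b⟩ := mem_Ico.1 hk
  simp only [cnt_sub, out_filter]
  refine cut_step π T _ (fun x : ι × Bool => if x.2 then L x.1 else fun p => ¬ L x.1 p) _ _ _ rfl
    fun p hp q hq hne => ?_
  obtain ⟨i, hi, hL⟩ := h k a b p hp q hq hne
  by_cases e : L i p
  · exact ⟨(i, true), by simp [hi], by simp only [if_true]; tauto⟩
  · exact ⟨(i, false), by simp [hi], by simp only [Bool.false_eq_true, if_false]; tauto⟩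

/-- an up set of `R` has no flux -/
theorem flux_eq_zero_of_up (hT : TP U Y R k0 k1) (hL : Down Y R fun p => ¬ L p) :
    flux U Y L k0 k1 = 0 := by
  unfold flux
  refine sum_eq_zero fun k hk => ?_
  obtain ⟨a, b⟩ := mem_Ico.1 hk
  by_contra hn
  have h1 : 0 < ((out U Y k (k + 1)).filter L).card := by omega
  have h2 : 0 < ((out U Y (k + 1) k).filter fun p => ¬ L p).card := by omega
  obtain ⟨p, hp⟩ := card_pos.1 h1
  obtain ⟨q, hq⟩ := card_pos.1 h2
  obtain ⟨hp, e⟩ := mem_filter.1 hp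
  obtain ⟨hq, e'⟩ := mem_filter.1 hq
  obtain ⟨hp, x, y⟩ := mem_out.1 hp
  obtain ⟨hq, x', y'⟩ := mem_out.1 hq
  exact hL p hp q hq (hT k (k + 1) a (Nat.lt_succ_self k) b p hp q hq x y x' y') e' e

section consecutive

variable {κ : ℕ → ℕ}

/-- drivers are additive along consecutive windows -/
theorem sum_Dr_consec (hκ : Monotone κ) {i j : ℕ} (h : i ≤ j) :
    ∑ n ∈ Ico i j, Dr U Y (κ n) (κ (n + 1)) = Dr U Y (κ i) (κ j) := by
  induction j, h using Nat.le_induction with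
  | base => simp [Dr]
  | succ n hn ih => rw [sum_Ico_succ_top hn, ih, Dr_add (hκ hn) (hκ (Nat.le_succ n))]

theorem sum_flux_consec (hκ : Monotone κ) {i j : ℕ} (h : i ≤ j) :
    ∑ n ∈ Ico i j, flux U Y L (κ n) (κ (n + 1)) = flux U Y L (κ i) (κ j) := by
  induction j, h using Nat.le_induction with
  | base => simp [flux]
  | succ n hn ih => rw [sum_Ico_succ_top hn, ih, flux_add (hκ hn) (hκ (Nat.le_succ n))]

end consecutive

section disjoint

variable {W : Type*} {s : Finset W} {lo hi : W → ℕ}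

theorem sum_Ico_le_of_disjoint (f : ℕ → ℕ)
    (hin : ∀ w ∈ s, k0 ≤ lo w ∧ hi w ≤ k1)
    (hd : ∀ w ∈ s, ∀ w' ∈ s, w ≠ w' → hi w ≤ lo w' ∨ hi w' ≤ lo w) :
    ∑ w ∈ s, ∑ k ∈ Ico (lo w) (hi w), f k ≤ ∑ k ∈ Ico k0 k1, f k := by
  rw [← sum_biUnion]
  · refine sum_le_sum_of_subset (biUnion_subset.2 fun w hw => ?_)
    exact Ico_subset_Ico (hin w hw).1 (hin w hw).2
  · intro w hw w' hw' hne
    refine disjoint_left.2 fun k h1 h2 => ?_
    have := hd w hw w' hw' hne
    have := mem_Ico.1 h1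
    have := mem_Ico.1 h2
    omega

/-- drivers of non overlapping windows inside `[k0, k1]` -/
theorem sum_Dr_le (hin : ∀ w ∈ s, k0 ≤ lo w ∧ hi w ≤ k1)
    (hd : ∀ w ∈ s, ∀ w' ∈ s, w ≠ w' → hi w ≤ lo w' ∨ hi w' ≤ lo w) :
    ∑ w ∈ s, Dr U Y (lo w) (hi w) ≤ Dr U Y k0 k1 := sum_Ico_le_of_disjoint _ hin hd

/-- flux of non overlapping windows inside `[k0, k1]` -/
theorem sum_flux_le (hin : ∀ w ∈ s, k0 ≤ lo w ∧ hi w ≤ k1)
    (hd : ∀ w ∈ s, ∀ w' ∈ s, w ≠ w' → hi w ≤ lo w' ∨ hi w' ≤ lo w) :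
    ∑ w ∈ s, flux U Y L (lo w) (hi w) ≤ flux U Y L k0 k1 := sum_Ico_le_of_disjoint _ hin hd

end disjoint

/-- product of two labellings: unite the families -/
theorem sep_prod {Λ Λ' ι ι' : Type*} {π : I → Λ} {π' : I → Λ'} {s : Finset ι} {s' : Finset ι'}
    {L : ι → I → Prop} {L' : ι' → I → Prop}
    (h : ∀ p ∈ Y, ∀ q ∈ Y, R p q → π p ≠ π q → ∃ i ∈ s, L i p ∧ ¬ L i q)
    (h' : ∀ p ∈ Y, ∀ q ∈ Y, R p q → π' p ≠ π' q → ∃ i ∈ s', L' i p ∧ ¬ L' i q) :
    ∀ p ∈ Y, ∀ q ∈ Y, R p q → (π p, π' p) ≠ (π q, π' q) →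
      ∃ i ∈ s.disjSum s', Sum.elim L L' i p ∧ ¬ Sum.elim L L' i q := by
  intro p hp q hq hR hne
  by_cases e : π p = π q
  · obtain ⟨i, hi, x⟩ := h' p hp q hq hR fun e' => hne (by rw [e, e'])
    exact ⟨Sum.inr i, inr_mem_disjSum.2 hi, x⟩
  · obtain ⟨i, hi, x⟩ := h p hp q hq hR e
    exact ⟨Sum.inl i, inl_mem_disjSum.2 hi, x⟩

/-- the labelling by membership in a family of down sets is separated by the family itself -/
theorem sep_down {ι : Type*} {s : Finset ι} {L : ι → I → Prop} (hL : ∀ i ∈ s, Down Y R (L i)) :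
    ∀ p ∈ Y, ∀ q ∈ Y, R p q → (s.filter fun i => L i p) ≠ (s.filter fun i => L i q) →
      ∃ i ∈ s, L i p ∧ ¬ L i q := by
  intro p hp q hq hR hne
  by_contra hn
  push Not at hn
  refine hne (filter_congr fun i hi => ⟨hn i hi, hL i hi p hp q hq hR⟩)

/-- a nested family of sets (a chain) cuts into at most `#s + 1` cells -/
theorem card_cells_chain {ι : Type*} {s : Finset ι} {L : ι → I → Prop}
    (hc : ∀ i ∈ s, ∀ j ∈ s, (∀ p ∈ Y, L i p → L j p) ∨ ∀ p ∈ Y, L j p → L i p) :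
    (Y.image fun p => s.filter fun i => L i p).card ≤ s.card + 1 := by
  have inj : Set.InjOn Finset.card
      ((Y.image fun p => s.filter fun i => L i p : Finset (Finset ι)) : Set (Finset ι)) := by
    intro A hA B hB hAB
    obtain ⟨p, hp, rfl⟩ := mem_image.1 (mem_coe.1 hA)
    obtain ⟨q, hq, rfl⟩ := mem_image.1 (mem_coe.1 hB)
    by_cases e : (s.filter fun i => L i p) ⊆ s.filter fun i => L i q
    · exact eq_of_subset_of_card_le e hAB.ge
    · obtain ⟨i, hi, hi'⟩ := not_subset.1 e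
      refine (eq_of_subset_of_card_le (fun j hj => ?_) hAB.le).symm
      obtain ⟨hi, x⟩ := mem_filter.1 hi
      obtain ⟨hj, y⟩ := mem_filter.1 hj
      rcases hc i hi j hj with c | c
      · exact mem_filter.2 ⟨hj, c p hp x⟩
      · exact absurd (mem_filter.2 ⟨hi, c q hq y⟩) hi'
  rw [← card_range (s.card + 1)]
  refine card_le_card_of_injOn Finset.card (fun A hA => ?_) inj
  obtain ⟨p, -, rfl⟩ := mem_image.1 (mem_coe.1 hA)
  exact mem_coe.2 (mem_range.2 (Nat.lt_succ_of_le (card_filter_le _ _)))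

end Pool.Agent.Lib.MP_d308c3_co.Cut
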