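import Mathlib

set_option autoImplicit false

namespace Pool.Agent.Lib.MP_d308c3_co.Ex

open Finset

/-- every partition of a window into `M ≥ 1` consecutive windows costs at most `C M^g` -/
def PW (F : ℕ → ℕ → ℝ) (g C : ℝ) : Prop :=
  ∀ (M : ℕ) (s : ℕ → ℕ), 1 ≤ M → Monotone s →
    ∑ j ∈ range M, F (s j) (s (j + 1)) ≤ C * (M : ℝ) ^ g * F (s 0) (s M)

/-- `J` indexes pairwise disjoint nondegenerate windows `[l j, r j]` inside `[lo, hi]` -/
structure Dis {ι : Type} (J : Finset ι) (l r : ι → ℕ) (lo hi : ℕ) : Prop where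
  lt : ∀ j ∈ J, l j < r j
  lo_le : ∀ j ∈ J, lo ≤ l j
  le_hi : ∀ j ∈ J, r j ≤ hi
  dis : ∀ j ∈ J, ∀ k ∈ J, j ≠ k → r j ≤ l k ∨ r k ≤ l j

theorem Dis.mono {ι : Type} {J K : Finset ι} {l r : ι → ℕ} {lo hi : ℕ} (h : Dis J l r lo hi)
    (hK : K ⊆ J) : Dis K l r lo hi :=
  ⟨fun j hj => h.lt j (hK hj), fun j hj => h.lo_le j (hK hj), fun j hj => h.le_hi j (hK hj),
    fun j hj k hk => h.dis j (hK hj) k (hK hk)⟩

theorem PW.comp {F : ℕ → ℕ → ℝ} {g C : ℝ} (h : PW F g C) {τ : ℕ → ℕ} (hτ : Monotone τ) :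
    PW (fun i j => F (τ i) (τ j)) g C :=
  fun M s hM hs => h M (fun i => τ (s i)) hM (hτ.comp hs)

theorem PW.mono {F : ℕ → ℕ → ℝ} {g g' C C' : ℝ} (h : PW F g C) (hF : ∀ i j, 0 ≤ F i j)
    (hg : g ≤ g') (hC : C ≤ C') (hC' : 0 ≤ C') : PW F g' C' := by
  intro M s hM hs
  refine (h M s hM hs).trans (mul_le_mul_of_nonneg_right ?_ (hF _ _))
  have h1 : (1 : ℝ) ≤ M := by exact_mod_cast hM
  have h2 : (M : ℝ) ^ g ≤ (M : ℝ) ^ g' := Real.rpow_le_rpow_of_exponent_le h1 hg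
  have h3 : 0 ≤ (M : ℝ) ^ g := Real.rpow_nonneg (by linarith) _
  calc C * (M : ℝ) ^ g ≤ C' * (M : ℝ) ^ g := mul_le_mul_of_nonneg_right hC h3
    _ ≤ C' * (M : ℝ) ^ g' := mul_le_mul_of_nonneg_left h2 hC'

/-- the lengths of disjoint windows add up to at most the length of the big window -/
theorem Dis.sum_len {ι : Type} {J : Finset ι} {l r : ι → ℕ} {lo hi : ℕ} (h : Dis J l r lo hi) :
    ∑ j ∈ J, (r j - l j) ≤ hi - lo := by
  classical
  have h1 : ∑ j ∈ J, (r j - l j) = (J.biUnion fun j => Ico (l j) (r j)).card := by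
    rw [card_biUnion]
    · simp
    · intro j hj k hk hjk
      refine disjoint_left.2 fun x hx hy => ?_
      rw [mem_Ico] at hx hy
      rcases h.dis j hj k hk hjk with h2 | h2 <;> omega
  rw [h1, ← Nat.card_Ico]
  refine card_le_card fun x hx => ?_
  obtain ⟨j, hj, hx⟩ := mem_biUnion.1 hx
  rw [mem_Ico] at hx ⊢
  have := h.lo_le j hj
  have := h.le_hi j hj
  omega

/-- `k` disjoint windows and their gaps form a partition into at most `2k+1` windows -/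
theorem PW.few0 {F : ℕ → ℕ → ℝ} {g C : ℝ} (h : PW F g C) (hF : ∀ i j, 0 ≤ F i j) (hg : 0 ≤ g)
    (hC : 0 ≤ C) {ι : Type} {J : Finset ι} {l r : ι → ℕ} {lo hi : ℕ} (hD : Dis J l r lo hi) :
    ∑ j ∈ J, F (l j) (r j) ≤ C * (2 * (J.card : ℝ) + 1) ^ g * F lo hi := by
  classical
  rcases J.eq_empty_or_nonempty with rfl | ⟨j0, hj0⟩
  · simp only [sum_empty]
    exact mul_nonneg (mul_nonneg hC (Real.rpow_nonneg (by positivity) _)) (hF _ _)
  have hlh : lo < hi := by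
    have := hD.lt j0 hj0
    have := hD.lo_le j0 hj0
    have := hD.le_hi j0 hj0
    omega
  let p : ℕ → Prop := fun n => n = lo ∨ n ∈ J.image l ∨ n ∈ J.image r ∨ hi ≤ n
  have hinf : {n | p n}.Infinite := by
    refine Set.infinite_of_not_bddAbove ?_
    rintro ⟨b, hb⟩
    have : max hi (b + 1) ≤ b := hb (Or.inr (Or.inr (Or.inr (le_max_left _ _))))
    omega
  have hmono : Monotone (Nat.nth p) := Nat.nth_monotone hinf
  have hlo : Nat.count p lo = 0 := by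
    rw [Nat.count_eq_card_filter_range, card_eq_zero, filter_eq_empty_iff]
    intro x hx
    rw [mem_range] at hx
    rintro (h1 | h1 | h1 | h1)
    · omega
    · obtain ⟨j, hj, rfl⟩ := mem_image.1 h1
      have := hD.lo_le j hj
      omega
    · obtain ⟨j, hj, rfl⟩ := mem_image.1 h1
      have := hD.lo_le j hj
      have := hD.lt j hj
      omega
    · omega
  have h0 : Nat.nth p 0 = lo := by
    rw [← hlo]; exact Nat.nth_count (Or.inl rfl)
  have hM : Nat.nth p (Nat.count p hi) = hi := Nat.nth_count (Or.inr (Or.inr (Or.inr le_rfl)))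
  have hM1 : 1 ≤ Nat.count p hi := by
    rw [Nat.count_eq_card_filter_range]
    exact card_pos.2 ⟨lo, mem_filter.2 ⟨mem_range.2 hlh, Or.inl rfl⟩⟩
  have hM2 : Nat.count p hi ≤ 2 * J.card + 1 := by
    rw [Nat.count_eq_card_filter_range]
    have h3 := card_insert_le lo (J.image l ∪ J.image r)
    have h4 := card_union_le (J.image l) (J.image r)
    have h5 : (J.image l).card ≤ J.card := card_image_le
    have h6 : (J.image r).card ≤ J.card := card_image_le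
    refine le_trans (card_le_card (t := insert lo (J.image l ∪ J.image r)) ?_) (by omega)
    intro x hx
    obtain ⟨hx1, hx2⟩ := mem_filter.1 hx
    rw [mem_range] at hx1
    rcases hx2 with h1 | h1 | h1 | h1
    · exact mem_insert.2 (Or.inl h1)
    · exact mem_insert.2 (Or.inr (mem_union.2 (Or.inl h1)))
    · exact mem_insert.2 (Or.inr (mem_union.2 (Or.inr h1)))
    · omega
  have hl : ∀ j ∈ J, Nat.nth p (Nat.count p (l j)) = l j := fun j hj =>
    Nat.nth_count (Or.inr (Or.inl (mem_image_of_mem l hj)))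
  have hcr : ∀ j ∈ J, Nat.count p (r j) = Nat.count p (l j) + 1 := by
    intro j hj
    rw [Nat.count_eq_card_filter_range, Nat.count_eq_card_filter_range]
    have : filter p (range (r j)) = insert (l j) (filter p (range (l j))) := by
      ext x
      simp only [mem_filter, mem_range, mem_insert]
      have h1 := hD.lt j hj
      have h2 := hD.lo_le j hj
      have h3 := hD.le_hi j hj
      constructor
      · rintro ⟨hx1, hx2⟩
        by_cases hx : x < l j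
        · exact Or.inr ⟨hx, hx2⟩
        left
        rcases hx2 with h4 | h4 | h4 | h4
        · omega
        · obtain ⟨k, hk, rfl⟩ := mem_image.1 h4
          by_cases hjk : j = k
          · rw [hjk]
          · have := hD.lt k hk
            rcases hD.dis j hj k hk hjk with h5 | h5 <;> omega
        · obtain ⟨k, hk, rfl⟩ := mem_image.1 h4
          by_cases hjk : j = k
          · subst hjk; omega
          · have := hD.lt k hk
            rcases hD.dis j hj k hk hjk with h5 | h5 <;> omega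
        · omega
      · rintro (rfl | ⟨hx1, hx2⟩)
        · exact ⟨h1, Or.inr (Or.inl (mem_image_of_mem l hj))⟩
        · exact ⟨by omega, hx2⟩
    rw [this, card_insert_of_notMem (by simp)]
  have hr : ∀ j ∈ J, Nat.nth p (Nat.count p (l j) + 1) = r j := fun j hj => by
    rw [← hcr j hj]; exact Nat.nth_count (Or.inr (Or.inr (Or.inl (mem_image_of_mem r hj))))
  have hinj : Set.InjOn (fun j => Nat.count p (l j)) J := by
    intro j hj k hk hjk
    have h1 : l j = l k := by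
      rw [← hl j hj, ← hl k hk]; exact congrArg _ hjk
    by_contra hne
    have := hD.lt j hj
    have := hD.lt k hk
    rcases hD.dis j hj k hk hne with h5 | h5 <;> omega
  have key := h (Nat.count p hi) (Nat.nth p) hM1 hmono
  rw [h0, hM] at key
  have e1 : ∑ j ∈ J, F (l j) (r j) =
      ∑ i ∈ J.image (fun j => Nat.count p (l j)), F (Nat.nth p i) (Nat.nth p (i + 1)) := by
    rw [sum_image hinj]
    exact sum_congr rfl fun j hj => by rw [hl j hj, hr j hj]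
  have e2 : J.image (fun j => Nat.count p (l j)) ⊆ range (Nat.count p hi) := by
    intro i hi'
    obtain ⟨j, hj, rfl⟩ := mem_image.1 hi'
    have h1 : Nat.count p (r j) ≤ Nat.count p hi := Nat.count_monotone p (hD.le_hi j hj)
    have := hcr j hj
    exact mem_range.2 (by omega)
  rw [e1]
  refine (sum_le_sum_of_subset_of_nonneg e2 fun i _ _ => hF _ _).trans (key.trans ?_)
  refine mul_le_mul_of_nonneg_right (mul_le_mul_of_nonneg_left ?_ hC) (hF _ _)
  refine Real.rpow_le_rpow (Nat.cast_nonneg _) ?_ hg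
  exact_mod_cast hM2

/-- FEW -/
theorem PW.few {F : ℕ → ℕ → ℝ} {g C : ℝ} (h : PW F g C) (hF : ∀ i j, 0 ≤ F i j) (hg : 0 ≤ g)
    (hC : 0 ≤ C) {ι : Type} {J : Finset ι} {l r : ι → ℕ} {lo hi : ℕ} (hD : Dis J l r lo hi)
    (N : ι → ℝ) {th g' : ℝ} (hg' : 0 ≤ g') (hth : 0 ≤ th) (hN : ∀ j ∈ J, 0 ≤ N j)
    (hN' : ∀ j ∈ J, N j ≤ th) :
    ∑ j ∈ J, F (l j) (r j) * N j ^ g' ≤ C * (2 * (J.card : ℝ) + 1) ^ g * F lo hi * th ^ g' := by
  have h1 : ∑ j ∈ J, F (l j) (r j) * N j ^ g' ≤ ∑ j ∈ J, F (l j) (r j) * th ^ g' :=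
    sum_le_sum fun j hj =>
      mul_le_mul_of_nonneg_left (Real.rpow_le_rpow (hN j hj) (hN' j hj) hg') (hF _ _)
  rw [← sum_mul] at h1
  exact h1.trans (mul_le_mul_of_nonneg_right (h.few0 hF hg hC hD) (Real.rpow_nonneg hth _))

/-- LY -/
theorem PW.ly {F : ℕ → ℕ → ℝ} {g C : ℝ} (h : PW F g C) (hF : ∀ i j, 0 ≤ F i j) (hg : 0 ≤ g)
    (hC : 0 ≤ C) {ι : Type} {J : Finset ι} {l r : ι → ℕ} {lo hi : ℕ} (hD : Dis J l r lo hi)
    (N : ι → ℝ) {n ε : ℝ} (hε : 0 < ε) (hN : ∀ j ∈ J, 0 < N j) (hn : ∑ j ∈ J, N j ≤ n) :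
    ∑ j ∈ J, F (l j) (r j) * N j ^ (g + ε) ≤
      C * 8 ^ g / (1 - 2 ^ (-ε)) * F lo hi * n ^ (g + ε) := by
  classical
  have hq0 : (0 : ℝ) < 2 ^ (-ε) := Real.rpow_pos_of_pos (by norm_num) _
  have hq1 : (2 : ℝ) ^ (-ε) < 1 := Real.rpow_lt_one_of_one_lt_of_neg (by norm_num) (by linarith)
  have hn0 : 0 ≤ n := (sum_nonneg fun j hj => (hN j hj).le).trans hn
  have hle : ∀ j ∈ J, N j ≤ n := fun j hj =>
    (single_le_sum (fun k hk => (hN k hk).le) hj).trans hn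
  have hex : ∀ j, ∃ c : ℕ, j ∈ J → n / 2 ^ (c + 1) < N j ∧ N j ≤ n / 2 ^ c := by
    intro j
    by_cases hj : j ∈ J
    · have h1 : 1 ≤ n / N j := (one_le_div (hN j hj)).2 (hle j hj)
      obtain ⟨c, hc1, hc2⟩ := exists_nat_pow_near h1 (one_lt_two (α := ℝ))
      refine ⟨c, fun _ => ⟨?_, ?_⟩⟩
      · rw [div_lt_iff₀ (hN j hj)] at hc2
        rw [div_lt_iff₀ (by positivity)]
        linarith
      · rw [le_div_iff₀ (hN j hj)] at hc1
        rw [le_div_iff₀ (by positivity)]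
        linarith
    · exact ⟨0, fun h => absurd h hj⟩
  choose c hc using hex
  set K := C * 8 ^ g * F lo hi * n ^ (g + ε) with hK
  have hK0 : 0 ≤ K := by
    have := hF lo hi
    have := Real.rpow_nonneg hn0 (g + ε)
    positivity
  have hcl : ∀ a : ℕ, ∑ j ∈ J.filter (fun j => c j = a), F (l j) (r j) * N j ^ (g + ε) ≤
      K * ((2 : ℝ) ^ (-ε)) ^ a := by
    intro a
    set Ja := J.filter (fun j => c j = a) with hJa
    have hsub : Ja ⊆ J := filter_subset _ _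
    have h2a : (0 : ℝ) < 2 ^ a := by positivity
    have hcard : (Ja.card : ℝ) ≤ 2 ^ (a + 1) := by
      rcases Ja.eq_empty_or_nonempty with h0 | ⟨j0, hj0⟩
      · rw [h0]; simp
      have hnp : 0 < n := (hN j0 (hsub hj0)).trans_le (hle j0 (hsub hj0))
      have h1 : ∑ _j ∈ Ja, n / 2 ^ (a + 1) ≤ ∑ j ∈ Ja, N j := sum_le_sum fun j hj => by
        have := (hc j (hsub hj)).1
        rw [(mem_filter.1 hj).2] at this
        exact this.le
      have h2 : ∑ j ∈ Ja, N j ≤ n :=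
        (sum_le_sum_of_subset_of_nonneg hsub fun k hk _ => (hN k hk).le).trans hn
      rw [sum_const, nsmul_eq_mul] at h1
      have h3 : (Ja.card : ℝ) * (n / 2 ^ (a + 1)) ≤ n := h1.trans h2
      rw [← mul_div_assoc, div_le_iff₀ (by positivity)] at h3
      nlinarith
    have h1 := h.few hF hg hC (hD.mono hsub) N (th := n / 2 ^ a) (g' := g + ε) (by linarith)
      (by positivity) (fun j hj => (hN j (hsub hj)).le) (fun j hj => by
        have := (hc j (hsub hj)).2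
        rwa [(mem_filter.1 hj).2] at this)
    refine h1.trans ?_
    have h1a : (1 : ℝ) ≤ 2 ^ a := one_le_pow₀ (by norm_num)
    have h2 : (2 * (Ja.card : ℝ) + 1) ^ g ≤ 8 ^ g * ((2 : ℝ) ^ a) ^ g := by
      rw [← Real.mul_rpow (by norm_num) h2a.le]
      refine Real.rpow_le_rpow (by positivity) ?_ hg
      rw [pow_succ] at hcard
      linarith
    have h3 : (n / 2 ^ a) ^ (g + ε) * ((2 : ℝ) ^ a) ^ g = n ^ (g + ε) * ((2 : ℝ) ^ (-ε)) ^ a := by
      have e1 : ((2 : ℝ) ^ (-ε)) ^ a = (((2 : ℝ) ^ a) ^ ε)⁻¹ := by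
        rw [← Real.rpow_natCast, ← Real.rpow_mul (by norm_num), ← Real.rpow_natCast 2 a,
          ← Real.rpow_mul (by norm_num), ← Real.rpow_neg (by norm_num)]
        congr 1; ring
      have e2 : (0 : ℝ) < ((2 : ℝ) ^ a) ^ g := Real.rpow_pos_of_pos h2a _
      have e3 : (0 : ℝ) < ((2 : ℝ) ^ a) ^ ε := Real.rpow_pos_of_pos h2a _
      rw [Real.div_rpow hn0 h2a.le, e1, Real.rpow_add h2a]
      field_simp
    have h4 : 0 ≤ (n / 2 ^ a) ^ (g + ε) := Real.rpow_nonneg (by positivity) _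
    calc C * (2 * (Ja.card : ℝ) + 1) ^ g * F lo hi * (n / 2 ^ a) ^ (g + ε)
        ≤ C * (8 ^ g * ((2 : ℝ) ^ a) ^ g) * F lo hi * (n / 2 ^ a) ^ (g + ε) :=
          mul_le_mul_of_nonneg_right (mul_le_mul_of_nonneg_right
            (mul_le_mul_of_nonneg_left h2 hC) (hF _ _)) h4
      _ = C * 8 ^ g * F lo hi * ((n / 2 ^ a) ^ (g + ε) * ((2 : ℝ) ^ a) ^ g) := by ring
      _ = K * ((2 : ℝ) ^ (-ε)) ^ a := by rw [h3, hK]; ring
  rw [← sum_fiberwise_of_maps_to (s := J) (t := J.image c) (g := c)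
    (fun j hj => mem_image_of_mem c hj)]
  have h5 : ∑ a ∈ J.image c, ((2 : ℝ) ^ (-ε)) ^ a ≤ (1 - 2 ^ (-ε))⁻¹ := by
    rw [← tsum_geometric_of_lt_one hq0.le hq1]
    exact (summable_geometric_of_lt_one hq0.le hq1).sum_le_tsum _ fun a _ => by positivity
  calc _ ≤ ∑ a ∈ J.image c, K * ((2 : ℝ) ^ (-ε)) ^ a := sum_le_sum fun a _ => hcl a
    _ = K * ∑ a ∈ J.image c, ((2 : ℝ) ^ (-ε)) ^ a := by rw [mul_sum]
    _ ≤ K * (1 - 2 ^ (-ε))⁻¹ := mul_le_mul_of_nonneg_left h5 hK0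
    _ = _ := by rw [hK, div_eq_mul_inv]; ring

/-- LY with the lengths of the windows as weights -/
theorem PW.ly_len {F : ℕ → ℕ → ℝ} {g C : ℝ} (h : PW F g C) (hF : ∀ i j, 0 ≤ F i j) (hg : 0 ≤ g)
    (hC : 0 ≤ C) {ι : Type} {J : Finset ι} {l r : ι → ℕ} {lo hi : ℕ} (hD : Dis J l r lo hi)
    {ε : ℝ} (hε : 0 < ε) :
    ∑ j ∈ J, F (l j) (r j) * ((r j - l j : ℕ) : ℝ) ^ (g + ε) ≤
      C * 8 ^ g / (1 - 2 ^ (-ε)) * F lo hi * ((hi - lo : ℕ) : ℝ) ^ (g + ε) := by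
  refine h.ly hF hg hC hD (fun j => ((r j - l j : ℕ) : ℝ)) hε (fun j hj => ?_) ?_
  · have := hD.lt j hj
    exact_mod_cast Nat.sub_pos_of_lt this
  · exact_mod_cast hD.sum_len

/-- LY for the atoms of a window -/
theorem PW.ly_atoms {F : ℕ → ℕ → ℝ} {g C : ℝ} (h : PW F g C) (hF : ∀ i j, 0 ≤ F i j)
    (hg : 0 ≤ g) (hC : 0 ≤ C) (lo hi : ℕ) {ε : ℝ} (hε : 0 < ε) :
    ∑ i ∈ Ico lo hi, F i (i + 1) ≤
      C * 8 ^ g / (1 - 2 ^ (-ε)) * F lo hi * ((hi - lo : ℕ) : ℝ) ^ (g + ε) := by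
  have hD : Dis (Ico lo hi) (fun i => i) (fun i => i + 1) lo hi :=
    ⟨fun j _ => Nat.lt_succ_self j, fun j hj => (mem_Ico.1 hj).1, fun j hj => (mem_Ico.1 hj).2,
      fun j _ k _ hjk => by omega⟩
  have := h.ly_len hF hg hC hD hε
  simpa using this

/-- the exponent `g` works for the whole class -/
def PP {ι : Type} (Fam : ι → ℕ → ℕ → ℝ) (g : ℝ) : Prop := ∃ C, 0 ≤ C ∧ ∀ x, PW (Fam x) g C

theorem PP.mono {ι : Type} {Fam : ι → ℕ → ℕ → ℝ} (hF : ∀ x i j, 0 ≤ Fam x i j) {g g' : ℝ}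
    (h : PP Fam g) (hg : g ≤ g') : PP Fam g' := by
  obtain ⟨C, hC, h⟩ := h
  exact ⟨C, hC, fun x => (h x).mono (hF x) hg le_rfl hC⟩

/-- the critical exponent -/
theorem exists_gam {ι : Type} {Fam : ι → ℕ → ℕ → ℝ} (hF : ∀ x i j, 0 ≤ Fam x i j)
    (h1 : PP Fam 1) (h : ¬ ∀ g, 0 < g → PP Fam g) :
    ∃ γ : ℝ, 0 < γ ∧ γ ≤ 1 ∧ ∀ ε, 0 < ε → PP Fam (γ + ε) ∧ ¬ PP Fam (γ - ε) := by
  push Not at h
  obtain ⟨g0, hg0, hn⟩ := h
  let S : Set ℝ := {g | PP Fam g}
  have hlb : g0 ∈ lowerBounds S := fun g hg => by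
    by_contra hlt
    exact hn (PP.mono hF hg (le_of_lt (not_le.1 hlt)))
  have hne : S.Nonempty := ⟨1, h1⟩
  refine ⟨sInf S, hg0.trans_le (le_csInf hne hlb), csInf_le ⟨g0, hlb⟩ h1, fun ε hε => ⟨?_, ?_⟩⟩
  · obtain ⟨g, hg, hlt⟩ := exists_lt_of_csInf_lt hne (lt_add_of_pos_right (sInf S) hε)
    exact PP.mono hF hg hlt.le
  · intro hp
    have := csInf_le ⟨g0, hlb⟩ (show sInf S - ε ∈ S from hp)
    linarith

/-- failure of an exponent is witnessed with arbitrarily many windows -/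
theorem exists_big {ι : Type} {Fam : ι → ℕ → ℕ → ℝ} (hF : ∀ x i j, 0 ≤ Fam x i j)
    (h1 : ∀ x, PW (Fam x) 1 1) {g : ℝ} (hg : 0 ≤ g) (h : ¬ PP Fam g) (C : ℝ) (M0 : ℕ) :
    ∃ (x : ι) (M : ℕ) (s : ℕ → ℕ), M0 ≤ M ∧ 1 ≤ M ∧ Monotone s ∧ 0 < Fam x (s 0) (s M) ∧
      C * (M : ℝ) ^ g * Fam x (s 0) (s M) < ∑ j ∈ range M, Fam x (s j) (s (j + 1)) := by
  unfold PP PW at h
  push Not at h
  obtain ⟨x, M, s, hM, hs, hlt⟩ := h (max C M0) (le_max_of_le_right (Nat.cast_nonneg _))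
  have h2 := h1 x M s hM hs
  rw [Real.rpow_one, one_mul] at h2
  have hM1 : (1 : ℝ) ≤ M := by exact_mod_cast hM
  have h3 : (1 : ℝ) ≤ (M : ℝ) ^ g := Real.one_le_rpow hM1 hg
  have h4 := hF x (s 0) (s M)
  have h5 : 0 < Fam x (s 0) (s M) := by
    rcases h4.eq_or_lt with h0 | h0
    · rw [← h0] at hlt h2
      simp only [mul_zero] at hlt h2
      linarith
    · exact h0
  refine ⟨x, M, s, ?_, hM, hs, h5, lt_of_le_of_lt ?_ hlt⟩
  · have h6 : max C M0 * (M : ℝ) ^ g < M := lt_of_mul_lt_mul_right (hlt.trans_le h2) h4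
    have h7 : (M0 : ℝ) ≤ max C M0 := le_max_right _ _
    have h8 : (0 : ℝ) ≤ M0 := Nat.cast_nonneg _
    have : (M0 : ℝ) < M := by nlinarith
    exact_mod_cast this.le
  · exact mul_le_mul_of_nonneg_right
      (mul_le_mul_of_nonneg_right (le_max_left _ _) (by linarith)) h4

end Pool.Agent.Lib.MP_d308c3_co.Ex
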