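import Pool.Agent.Lib.MP_108739_an.F.Ent2

/-! Gains of a nested pair of partitions on an event, and rows that are not marked. -/

set_option autoImplicit false

namespace Pool.Agent.Lib.MP_d308c3_co.Gain

open Finset Pool.Agent.Lib.MP_108739_an.F
open Classical

variable {Ω α α' β ι : Type} [Fintype Ω] {w : Ω → ℝ}

theorem gain_nonneg (hw : Nn w) (f : Ω → α) (g : Ω → β) {o : Ω} (ho : 0 < w o) :
    0 ≤ lg (ms w g o / ms w (pr f g) o) :=
  lg_nonneg ((one_le_div (ms_pos hw _ ho)).2 (ms_mono hw Det.snd o))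

/-- gain on an event against a kernel -/
theorem gain_le (hw : Nn w) (A : Ω → Prop) (f : Ω → α) (g : Ω → β) (Q : α → Ω → ℝ)
    (hQ : ∀ v, Det g (Q v)) (h0 : ∀ v o, 0 ≤ Q v o) (hp : ∀ o, 0 < w o → A o → 0 < Q (f o) o)
    (h1 : ∀ o, 0 < w o → ∑ v ∈ vals w f g o, Q v o ≤ 1) :
    E (res w A) (fun o => lg (ms w g o / ms w (pr f g) o)) ≤
      E (res w A) (fun o => - lg (Q (f o) o)) + tot w := by
  have a1 := ls_one hw _ (fun o => div_nonneg (mul_nonneg (h0 (f o) o) (ms_nonneg hw g o))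
    (ms_nonneg hw (pr f g) o)) (E_ker' hw f g Q hQ h1)
  have a2 := E_res_le hw A (F := fun o => max 0 (lg (Q (f o) o * ms w g o / ms w (pr f g) o)))
    fun o _ => le_max_left _ _
  have a3 : E (res w A) (fun o => lg (ms w g o / ms w (pr f g) o)) ≤
      E (res w A) fun o => - lg (Q (f o) o) +
        max 0 (lg (Q (f o) o * ms w g o / ms w (pr f g) o)) := by
    refine E_mono (hw.res A) fun o ho => ?_
    obtain ⟨a, p⟩ := res_pos ho
    have e := lg_mul (hp o p a) (div_pos (ms_pos hw g p) (ms_pos hw (pr f g) p))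
    rw [← mul_div_assoc] at e
    have := le_max_right 0 (lg (Q (f o) o * ms w g o / ms w (pr f g) o))
    linarith
  rw [E_add] at a3
  linarith

/-- the gain between two partitions of the atoms, on any event, against a weight `u` on atoms -/
theorem gain_atoms [Fintype ι] (hw : Nn w) {u : ι → ℝ} (hu : Nn u) (A : Ω → Prop) (x : Ω → ι)
    (hx : ∀ o, 0 < w o → 0 < u (x o)) {W : ι → α} {W' : ι → α'} (hD : Det W' W) (p : Ω → β) :
    E (res w A) (fun o => lg (ms w (pr (fun o => W (x o)) p) o /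
        ms w (pr (fun o => W' (x o)) p) o)) ≤
      E (res w A) (fun o => lg (ms u W (x o) / ms u W' (x o))) + tot w := by
  have e0 : ms w (pr (fun o => W' (x o)) p) =
      ms w (pr (fun o => W' (x o)) (pr (fun o => W (x o)) p)) :=
    ms_congr (Det.fst.pr (Det.pr (fun o o' h => hD _ _ (congrArg Prod.fst h)) Det.snd))
      (Det.fst.pr (Det.snd.trans Det.snd))
  have e1 : ∀ o, tot (res u fun y => W' y = W' (x o) ∧ W y = W (x o)) = ms u W' (x o) := fun o =>
    congrArg tot (res_congr fun y => ⟨fun h => h.1, fun h => ⟨h, hD _ _ h⟩⟩)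
  have a := gain_le hw A (fun o => W' (x o)) (pr (fun o => W (x o)) p)
    (fun v o => tot (res u fun y => W' y = v ∧ W y = W (x o)) / ms u W (x o))
    (fun v o o' h => by
      have h' : W (x o) = W (x o') := congrArg Prod.fst h
      simp only [h', ms_det W _ _ h'])
    (fun v o => div_nonneg (tot_nonneg (hu.res _)) (ms_nonneg hu _ _))
    (fun o ho _ => by
      rw [e1]; exact div_pos (ms_pos hu _ (hx o ho)) (ms_pos hu _ (hx o ho)))
    (fun o ho => by
      rw [← sum_div, div_le_one (ms_pos hu _ (hx o ho))]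
      exact sum_mass_le hu W' W _ (x o))
  rw [e0]
  refine a.trans (add_le_add_left (le_of_eq (E_congr (hw.res A) fun o ho => ?_)) _)
  have p1 := ms_pos hu W (hx o (res_pos ho).2)
  have p2 := ms_pos hu W' (hx o (res_pos ho).2)
  rw [e1, lg_div p2 p1, lg_div p1 p2]
  ring

/-- the step is clean, the child is not rare and another good child is not rare -/
def Marked (w : Ω → ℝ) (f : Ω → α) (g : Ω → β) (Cl Gd : Ω → Prop) (θ : ℝ) (o : Ω) : Prop :=
  Cl o ∧ θ * ms w g o ≤ ms w (pr f g) o ∧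
    ∃ o', g o' = g o ∧ Gd o' ∧ f o' ≠ f o ∧ θ * ms w g o ≤ ms w (pr f g) o'

theorem E_res_three (hw : Nn w) {A B C D : Ω → Prop} {F : Ω → ℝ} (hF : ∀ o, 0 < w o → 0 ≤ F o)
    (h : ∀ o, A o → B o ∨ C o ∨ D o) :
    E (res w A) F ≤ E (res w B) F + E (res w C) F + E (res w D) F := by
  unfold E
  rw [← sum_add_distrib, ← sum_add_distrib]
  refine sum_le_sum fun o _ => ?_
  rcases (hw o).eq_or_lt with e | e
  · simp [res, ← e]
  have k : ∀ X : Ω → Prop, 0 ≤ res w X o * F o := fun X => mul_nonneg (hw.res X o) (hF o e)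
  by_cases a : A o
  · have e1 : ∀ X : Ω → Prop, X o → res w X o = res w A o := fun X hX => by simp [res, a, hX]
    rcases h o a with b | b | b
    · linarith [k C, k D, congrArg (· * F o) (e1 B b)]
    · linarith [k B, k D, congrArg (· * F o) (e1 C b)]
    · linarith [k B, k C, congrArg (· * F o) (e1 D b)]
  · have : res w A o = 0 := by simp [res, a]
    rw [this, zero_mul]
    linarith [k B, k C, k D]

/-- the gain on rows that are not marked, beyond the unclean steps -/
theorem unmarked (hw : Nn w) (f : Ω → α) (g : Ω → β) (Cl Gd : Ω → Prop) {θ K : ℝ} (hθ : 0 ≤ θ)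
    (hK : 1 ≤ K) (hc : ∀ o, Cl o → Gd o)
    (hn : ∀ o, (#((univ.filter fun o' => g o' = g o ∧ Gd o').image f) : ℝ) ≤ K) :
    E (res w fun o => ¬ Marked w f g Cl Gd θ o) (fun o => lg (ms w g o / ms w (pr f g) o)) ≤
      E (res w fun o => ¬ Cl o) (fun o => lg (ms w g o / ms w (pr f g) o)) +
        (2 + θ * K * lg K) * tot w := by
  have hK0 : 0 < K := by linarith
  set A2 : Ω → Prop := fun o => Cl o ∧ ms w (pr f g) o < θ * ms w g o with hA2
  set A3 : Ω → Prop := fun o => Cl o ∧ θ * ms w g o ≤ ms w (pr f g) o ∧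
    ¬ ∃ o', g o' = g o ∧ Gd o' ∧ f o' ≠ f o ∧ θ * ms w g o ≤ ms w (pr f g) o' with hA3
  have s := E_res_three hw (A := fun o => ¬ Marked w f g Cl Gd θ o) (B := fun o => ¬ Cl o)
    (C := A2) (D := A3) (fun o ho => gain_nonneg hw f g ho) fun o h => by
      by_cases c : Cl o
      · by_cases d : θ * ms w g o ≤ ms w (pr f g) o
        · exact Or.inr (Or.inr ⟨c, d, fun e => h ⟨c, d, e⟩⟩)
        · exact Or.inr (Or.inl ⟨c, not_le.1 d⟩)
      · exact Or.inl c
  set Q2 : α → Ω → ℝ := fun v o => if ∃ o', g o' = g o ∧ Gd o' ∧ f o' = v then K⁻¹ else 0 with hQ2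
  have d2 : ∀ v, Det g (Q2 v) := fun v o o' h => by simp only [hQ2, h]
  have q2 : ∀ o, Cl o → Q2 (f o) o = K⁻¹ := fun o c => if_pos ⟨o, rfl, hc o c, rfl⟩
  have n2 : ∀ v o, 0 ≤ Q2 v o := fun v o => by
    simp only [hQ2]; split_ifs; exacts [inv_nonneg.2 hK0.le, le_rfl]
  have m2 : ∀ o, 0 < w o → ∑ v ∈ vals w f g o, Q2 v o ≤ 1 := fun o _ => by
    simp only [hQ2]
    rw [← sum_filter, sum_const, nsmul_eq_mul, mul_inv_le_iff₀ hK0, one_mul]
    refine le_trans (Nat.cast_le.2 (card_le_card fun v hv => ?_)) (hn o)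
    obtain ⟨o', e1, e2, e3⟩ := (mem_filter.1 hv).2
    exact mem_image.2 ⟨o', mem_filter.2 ⟨mem_univ _, e1, e2⟩, e3⟩
  have b2 := gain_le hw A2 f g Q2 d2 n2 (fun o _ a => by rw [q2 o a.1]; exact inv_pos.2 hK0) m2
  have c2 : E (res w A2) (fun o => - lg (Q2 (f o) o)) = lg K * tot (res w A2) := by
    rw [← E_const]
    refine E_congr (hw.res _) fun o ho => ?_
    rw [q2 o (res_pos ho).1.1, ← one_div, lg_div one_pos hK0, lg_one]
    ring
  have t2 : tot (res w A2) ≤ θ * K * tot w := by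
    refine le_trans ?_ (mul_le_mul_of_nonneg_left (E_ker' hw f g Q2 d2 m2)
      (mul_nonneg hθ hK0.le))
    rw [← E_mul, ← E_ind]
    refine E_mono hw fun o ho => ?_
    have p := ms_pos hw (pr f g) ho
    split_ifs with a
    · rw [q2 o a.1, ← mul_div_assoc, le_div_iff₀ p, one_mul, mul_assoc, ← mul_assoc K,
        mul_inv_cancel₀ hK0.ne', one_mul]
      exact a.2.le
    · exact mul_nonneg (mul_nonneg hθ hK0.le)
        (div_nonneg (mul_nonneg (n2 _ _) (ms_nonneg hw _ _)) p.le)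
  set Q3 : α → Ω → ℝ := fun v o => if ∃ o', g o' = g o ∧ A3 o' ∧ f o' = v then 1 else 0 with hQ3
  have q3 : ∀ o, A3 o → Q3 (f o) o = 1 := fun o c => if_pos ⟨o, rfl, c, rfl⟩
  have b3 := gain_le hw A3 f g Q3 (fun v o o' h => by simp only [hQ3, h])
    (fun v o => by simp only [hQ3]; split_ifs; exacts [zero_le_one, le_rfl])
    (fun o _ a => by rw [q3 o a]; exact one_pos) fun o _ => by
      simp only [hQ3]
      rw [← sum_filter, sum_const, nsmul_eq_mul, mul_one, Nat.cast_le_one, card_le_one]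
      intro v hv v' hv'
      obtain ⟨o1, e1, e2, e3⟩ := (mem_filter.1 hv).2
      obtain ⟨o2, k1, k2, k3⟩ := (mem_filter.1 hv').2
      by_contra hne
      refine e2.2.2 ⟨o2, k1.trans e1.symm, hc _ k2.1, by rw [e3, k3]; exact Ne.symm hne, ?_⟩
      rw [ms_det g o1 o2 (e1.trans k1.symm)]
      exact k2.2.1
  have c3 : E (res w A3) (fun o => - lg (Q3 (f o) o)) = 0 := by
    rw [← zero_mul (tot (res w A3)), ← E_const]
    refine E_congr (hw.res _) fun o ho => ?_
    rw [q3 o (res_pos ho).1, lg_one, neg_zero]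
  have := mul_le_mul_of_nonneg_left t2 (lg_nonneg hK)
  linarith

end Pool.Agent.Lib.MP_d308c3_co.Gain
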