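import Pool.Agent.Lib.MP_108739_an.F.Ent2

/-! Two nested dyadic grids on the line, branching cells and columns. -/

open Finset

namespace Pool.Agent.Lib.MP_d308c3_co.Grid
open Pool.Agent.Lib.MP_108739_an.F

noncomputable section
open Classical

/-- offset of the grid `G` at scale `2^k` -/
def off (G : Bool) (k : ℤ) : ℝ := if G then (if Even k then 1 / 3 else -1 / 3) else 0

/-- index of the cell of scale `2^k` that contains `x` -/
def cell (G : Bool) (k : ℤ) (x : ℝ) : ℤ := ⌊x / 2 ^ k - off G k⌋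

/-- left end of the cell with index `z` -/
def lft (G : Bool) (k z : ℤ) : ℝ := (z + off G k) * 2 ^ k

lemma cell_eq_iff {G : Bool} {k z : ℤ} {x : ℝ} :
    cell G k x = z ↔ lft G k z ≤ x ∧ x < lft G k z + 2 ^ k := by
  have h : (0 : ℝ) < 2 ^ k := by positivity
  unfold cell lft
  rw [Int.floor_eq_iff, le_sub_iff_add_le, sub_lt_iff_lt_add, le_div_iff₀ h, div_lt_iff₀ h]
  constructor <;> rintro ⟨a, b⟩ <;> exact ⟨a, by linarith⟩

lemma lft_le (G : Bool) (k : ℤ) (x : ℝ) : lft G k (cell G k x) ≤ x := (cell_eq_iff.1 rfl).1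
lemma lt_lft (G : Bool) (k : ℤ) (x : ℝ) : x < lft G k (cell G k x) + 2 ^ k := (cell_eq_iff.1 rfl).2

lemma abs_lt_of_cell {G : Bool} {k : ℤ} {x y : ℝ} (h : cell G k x = cell G k y) :
    |x - y| < 2 ^ k := by
  have a := lft_le G k x; have b := lt_lft G k x
  have c := lft_le G k y; have d := lt_lft G k y
  rw [h] at a b
  rw [abs_lt]; constructor <;> linarith

lemma off_succ (G : Bool) (k : ℤ) : ∃ e : ℤ, off G k - 2 * off G (k + 1) = e := by
  unfold off
  cases G
  · exact ⟨0, by simp⟩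
  · by_cases h : Even k
    · have h' : ¬ Even (k + 1) := by rw [Int.even_add_one]; exact not_not.2 h
      exact ⟨1, by rw [if_pos rfl, if_pos rfl, if_pos h, if_neg h']; norm_num⟩
    · have h' : Even (k + 1) := by rw [Int.even_add_one]; exact h
      exact ⟨-1, by rw [if_pos rfl, if_pos rfl, if_neg h, if_pos h']; norm_num⟩

lemma cell_succ {G : Bool} {k : ℤ} {x y : ℝ} (h : cell G k x = cell G k y) :
    cell G (k + 1) x = cell G (k + 1) y := by
  obtain ⟨e, he⟩ := off_succ G k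
  have p : (0 : ℝ) < 2 ^ k := by positivity
  have key : ∀ x : ℝ, cell G (k + 1) x = (cell G k x + e) / 2 := fun x => by
    have a := lft_le G k x; have b := lt_lft G k x
    set z := cell G k x
    have z1 : 2 * ((z + e) / 2) ≤ z + e := by omega
    have z2 : z + e ≤ 2 * ((z + e) / 2) + 1 := by omega
    have z1' : (2 : ℝ) * (((z + e) / 2 : ℤ) : ℝ) ≤ z + e := by exact_mod_cast z1
    have z2' : (z : ℝ) + e ≤ 2 * (((z + e) / 2 : ℤ) : ℝ) + 1 := by exact_mod_cast z2
    rw [cell_eq_iff]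
    unfold lft at a b ⊢
    rw [zpow_add_one₀ two_ne_zero]
    constructor <;> nlinarith
  rw [key, key, h]

lemma cell_mono {G : Bool} {k k' : ℤ} {x y : ℝ} (hk : k ≤ k') (h : cell G k x = cell G k y) :
    cell G k' x = cell G k' y := by
  induction k', hk using Int.leInduction with
  | base => exact h
  | succ n _ ih => exact cell_succ ih

lemma cell_near {G : Bool} {k : ℤ} {x y : ℝ} (h : |x - y| ≤ 2 ^ k) :
    cell G k y - 1 ≤ cell G k x ∧ cell G k x < cell G k y - 1 + 3 := by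
  have p : (0 : ℝ) < 2 ^ k := by positivity
  have a := lft_le G k x; have b := lt_lft G k x
  have c := lft_le G k y; have d := lt_lft G k y
  rw [abs_le] at h
  unfold lft at a b c d
  have h1 : ((cell G k y : ℤ) : ℝ) - 2 < cell G k x := by
    by_contra q; push Not at q; nlinarith [h.1, h.2]
  have h2 : ((cell G k x : ℤ) : ℝ) - 2 < cell G k y := by
    by_contra q; push Not at q; nlinarith [h.1, h.2]
  have h1' : cell G k y - 2 < cell G k x := by exact_mod_cast h1
  have h2' : cell G k x - 2 < cell G k y := by exact_mod_cast h2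
  omega

lemma ex_bdry {s X Y : ℝ} (h : ⌊X - s⌋ ≠ ⌊Y - s⌋) :
    ∃ n : ℤ, min X Y ≤ n + s ∧ n + s ≤ max X Y := by
  rcases lt_or_gt_of_ne h with q | q
  · refine ⟨⌊Y - s⌋, ?_, ?_⟩
    · have := Int.floor_lt.1 q
      exact (min_le_left _ _).trans (by linarith)
    · have := Int.floor_le (Y - s)
      exact le_trans (by linarith) (le_max_right _ _)
  · refine ⟨⌊X - s⌋, ?_, ?_⟩
    · have := Int.floor_lt.1 q
      exact (min_le_right _ _).trans (by linarith)
    · have := Int.floor_le (X - s)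
      exact le_trans (by linarith) (le_max_left _ _)

/-- the one third trick -/
lemma third {q : ℤ} {x y z : ℝ} (h1 : |x - y| ≤ 40 * 2 ^ q) (h2 : |x - z| ≤ 40 * 2 ^ q)
    (h3 : |y - z| ≤ 40 * 2 ^ q) :
    cell false (q + 7) y = cell false (q + 7) x ∨ cell true (q + 7) z = cell true (q + 7) x := by
  by_contra h
  push Not at h
  obtain ⟨n, a1, a2⟩ := ex_bdry h.1
  obtain ⟨n', b1, b2⟩ := ex_bdry h.2
  have p : (0 : ℝ) < 2 ^ q := by positivity
  have e : (2 : ℝ) ^ (q + 7) = 2 ^ q * 128 := by rw [zpow_add₀ two_ne_zero]; norm_num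
  have sc : ∀ u v : ℝ, |u - v| ≤ 40 * 2 ^ q →
      u / 2 ^ (q + 7) - v / 2 ^ (q + 7) ≤ 5 / 16 ∧ v / 2 ^ (q + 7) - u / 2 ^ (q + 7) ≤ 5 / 16 :=
    fun u v h => by
      rw [abs_le] at h
      rw [← sub_div, ← sub_div, e, div_le_iff₀ (by positivity), div_le_iff₀ (by positivity)]
      constructor <;> linarith [h.1, h.2]
  obtain ⟨c1, c2⟩ := sc _ _ h1
  obtain ⟨c3, c4⟩ := sc _ _ h2
  obtain ⟨c5, c6⟩ := sc _ _ h3
  generalize x / 2 ^ (q + 7) = X at *
  generalize y / 2 ^ (q + 7) = Y at *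
  generalize z / 2 ^ (q + 7) = Z at *
  have o0 : off false (q + 7) = 0 := by simp [off]
  rw [o0] at a1 a2
  have k1 : (n : ℝ) - (n' + off true (q + 7)) ≤ 5 / 16 := by
    rcases le_max_iff.1 a2 with s | s <;> rcases min_le_iff.1 b1 with t | t <;> linarith
  have k2 : (n' + off true (q + 7)) - (n : ℝ) ≤ 5 / 16 := by
    rcases le_max_iff.1 b2 with s | s <;> rcases min_le_iff.1 a1 with t | t <;> linarith
  unfold off at k1 k2
  by_cases ev : Even (q + 7)
  · simp only [ev, if_true] at k1 k2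
    have u1 : (n' : ℝ) < n := by linarith
    have u2 : (n : ℝ) < n' + 1 := by linarith
    have u1' : n' < n := by exact_mod_cast u1
    have u2' : n < n' + 1 := by exact_mod_cast u2
    omega
  · simp only [ev, if_true, if_false] at k1 k2
    have u1 : (n : ℝ) < n' := by linarith
    have u2 : (n' : ℝ) < n + 1 := by linarith
    have u1' : n < n' := by exact_mod_cast u1
    have u2' : n' < n + 1 := by exact_mod_cast u2
    omega

lemma tele_one {f : ℤ → ℝ} (hf : Antitone f) (h0 : ∀ k, 0 ≤ f k) (B : Finset ℤ) (k0 : ℤ)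
    (hB : ∀ k ∈ B, k0 ≤ k) : ∑ k ∈ B, (f k - f (k + 1)) ≤ f k0 := by
  obtain ⟨N, hN⟩ : ∃ N : ℕ, ∀ k ∈ B, k < k0 + N := by
    obtain ⟨b, hb⟩ := B.bddAbove
    refine ⟨(b + 1 - k0).toNat, fun k hk => ?_⟩
    have := hb hk
    omega
  have t : ∀ N : ℕ, ∑ k ∈ Ico k0 (k0 + N), (f k - f (k + 1)) = f k0 - f (k0 + N) := fun N => by
    induction N with
    | zero => simp
    | succ n ih =>
      have e : Ico k0 (k0 + ((n + 1 : ℕ) : ℤ)) = insert (k0 + n) (Ico k0 (k0 + n)) := by
        ext x; simp only [mem_Ico, mem_insert]; omega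
      rw [e, sum_insert (by simp), ih]
      push_cast
      rw [add_assoc]; ring
  refine le_trans (sum_le_sum_of_subset_of_nonneg (t := Ico k0 (k0 + N))
    (fun k hk => mem_Ico.2 ⟨hB k hk, hN k hk⟩) fun k _ _ => sub_nonneg.2 (hf (by omega))) ?_
  rw [t]; linarith [h0 (k0 + N)]

lemma tele {f : ℤ → ℝ} (hf : Antitone f) (h0 : ∀ k, 0 ≤ f k) (A : Finset ℤ) (k0 : ℤ) (r : ℕ)
    (hA : ∀ k ∈ A, k0 + r ≤ k) : ∑ k ∈ A, (f (k - r) - f k) ≤ r * f k0 := by
  induction r with
  | zero => simp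
  | succ r ih =>
    have a := ih fun k hk => by have := hA k hk; push_cast at this; omega
    have b := tele_one hf h0 (A.image fun k => k - (r + 1)) k0 fun k hk => by
      obtain ⟨j, hj, rfl⟩ := mem_image.1 hk
      have := hA j hj; push_cast at this; omega
    rw [sum_image fun x _ y _ h => by simpa using h] at b
    have e : ∀ k : ℤ, f (k - ((r + 1 : ℕ) : ℤ)) - f k =
        (f (k - (r + 1)) - f (k - (r + 1) + 1)) + (f (k - r) - f k) := fun k => by
      have : k - (r + 1) + 1 = k - r := by ring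
      rw [this]; push_cast; ring
    simp only [e, sum_add_distrib]
    push_cast
    linarith

section col
variable {Ω β : Type} [Fintype Ω] (w : Ω → ℝ) (n0 : Ω → β) (a : Ω → ℝ) (θ : ℝ) (S : Finset ℤ)

/-- root and cell of scale `k` -/
def ce (G : Bool) (k : ℤ) : Ω → ℤ × β := pr (fun o => cell G k (a o)) n0

/-- no interval of length `2^(k-8)` carries more than the share `1 - θ` of the cell -/
def Brn (G : Bool) (k : ℤ) (o : Ω) : Prop :=
  ∀ α : ℝ, tot (res w fun o' => ce n0 a G k o' = ce n0 a G k o ∧ α ≤ a o' ∧ a o' ≤ α + 2 ^ (k - 8))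
    ≤ (1 - θ) * ms w (ce n0 a G k) o

/-- number of branching scales above `k` -/
def rk (G : Bool) (k : ℤ) (o : Ω) : ℕ := #(S.filter fun k' => k < k' ∧ Brn w n0 a θ G k' o)

/-- the column number `κ` (counted from `0`): scale and index of the branching cell -/
def col (G : Bool) (κ : ℕ) (o : Ω) : Option (ℤ × ℤ) :=
  if h : ∃ k ∈ S, Brn w n0 a θ G k o ∧ rk w n0 a θ S G k o = κ then
    some (h.choose, cell G h.choose (a o)) else none

variable {w n0 a θ S}

omit [Fintype Ω] in
lemma ce_det {G : Bool} {k k' : ℤ} (h : k ≤ k') : Det (ce n0 a G k) (ce n0 a G k') :=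
  fun _ _ e => by
    obtain ⟨e1, e2⟩ := Prod.mk.inj e
    exact Prod.ext (cell_mono h e1) e2

omit [Fintype Ω] in
lemma ce_root (G : Bool) (k : ℤ) : Det (ce n0 a G k) n0 := Det.snd

lemma brn_det {G : Bool} {k : ℤ} {o o' : Ω} (e : ce n0 a G k o = ce n0 a G k o') :
    Brn w n0 a θ G k o ↔ Brn w n0 a θ G k o' := by
  unfold Brn; rw [e, ms_det _ o o' e]

lemma rk_det {G : Bool} {k : ℤ} {o o' : Ω} (e : ce n0 a G k o = ce n0 a G k o') :
    rk w n0 a θ S G k o = rk w n0 a θ S G k o' := by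
  unfold rk
  congr 1
  exact filter_congr fun k' _ => and_congr_right fun h => brn_det (ce_det h.le _ _ e)

lemma rk_lt {G : Bool} {k k' : ℤ} {o : Ω} (h : k < k') (hS : k' ∈ S) (hb : Brn w n0 a θ G k' o) :
    rk w n0 a θ S G k' o < rk w n0 a θ S G k o := by
  refine card_lt_card ⟨fun x hx => ?_, fun q => ?_⟩
  · rw [mem_filter] at hx ⊢; exact ⟨hx.1, h.trans hx.2.1, hx.2.2⟩
  · have := mem_filter.1 (q (mem_filter.2 ⟨hS, h, hb⟩)); exact lt_irrefl _ this.2.1

lemma col_eq_some {G : Bool} {κ : ℕ} {o : Ω} {k z : ℤ} :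
    col w n0 a θ S G κ o = some (k, z) ↔
      k ∈ S ∧ Brn w n0 a θ G k o ∧ rk w n0 a θ S G k o = κ ∧ z = cell G k (a o) := by
  unfold col
  constructor
  · intro h
    split_ifs at h with e
    obtain ⟨e1, e2⟩ := Prod.mk.inj (Option.some.inj h)
    have := e.choose_spec
    rw [e1] at this e2
    exact ⟨this.1, this.2.1, this.2.2, e2.symm⟩
  · rintro ⟨h1, h2, h3, rfl⟩
    have e : ∃ k ∈ S, Brn w n0 a θ G k o ∧ rk w n0 a θ S G k o = κ := ⟨k, h1, h2, h3⟩
    have s := e.choose_spec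
    have : e.choose = k := by
      rcases lt_trichotomy e.choose k with q | q | q
      · have := rk_lt q h1 h2; omega
      · exact q
      · have := rk_lt q s.1 s.2.1; omega
    rw [dif_pos e, this]

/-- a column is read off the root and its cell -/
lemma col_det {G : Bool} {κ : ℕ} {o o' : Ω} {k z : ℤ} (h : col w n0 a θ S G κ o = some (k, z))
    (e0 : n0 o' = n0 o) (e : cell G k (a o') = cell G k (a o)) :
    col w n0 a θ S G κ o' = some (k, z) := by
  have c : ce n0 a G k o' = ce n0 a G k o := Prod.ext e e0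
  obtain ⟨h1, h2, h3, h4⟩ := col_eq_some.1 h
  exact col_eq_some.2 ⟨h1, (brn_det c).2 h2, (rk_det c).trans h3, h4.trans e.symm⟩

lemma col_pred {G : Bool} {κ : ℕ} {o : Ω} {k z : ℤ}
    (h : col w n0 a θ S G (κ + 1) o = some (k, z)) :
    ∃ k', col w n0 a θ S G κ o = some (k', cell G k' (a o)) ∧ k < k' := by
  obtain ⟨h1, h2, h3, -⟩ := col_eq_some.1 h
  have ne : (S.filter fun k' => k < k' ∧ Brn w n0 a θ G k' o).Nonempty := by
    rw [← card_pos]; unfold rk at h3; omega
  have m := mem_filter.1 (min'_mem _ ne)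
  refine ⟨_, col_eq_some.2 ⟨m.1, m.2.2, ?_, rfl⟩, m.2.1⟩
  have : (S.filter fun k' => min' _ ne < k' ∧ Brn w n0 a θ G k' o) =
      (S.filter fun k' => k < k' ∧ Brn w n0 a θ G k' o).erase (min' _ ne) := by
    ext x
    rw [mem_erase]
    constructor
    · intro hx
      have hx := mem_filter.1 hx
      exact ⟨hx.2.1.ne', mem_filter.2 ⟨hx.1, m.2.1.trans hx.2.1, hx.2.2⟩⟩
    · rintro ⟨q, hx⟩
      exact mem_filter.2 ⟨(mem_filter.1 hx).1, lt_of_le_of_ne (min'_le _ _ hx) q.symm,
        (mem_filter.1 hx).2.2⟩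
  unfold rk at h3 ⊢
  rw [this, card_erase_of_mem (min'_mem _ ne), h3]; rfl

/-- a live column has all earlier columns, at scales that are larger by the gap in the number -/
lemma col_step {G : Bool} {κ : ℕ} (s : ℕ) {o : Ω} {k z : ℤ}
    (h : col w n0 a θ S G (κ + s) o = some (k, z)) :
    ∃ k', col w n0 a θ S G κ o = some (k', cell G k' (a o)) ∧ k + s ≤ k' := by
  induction s generalizing k z with
  | zero => exact ⟨k, by rw [← (col_eq_some.1 h).2.2.2]; exact h, by simp⟩
  | succ s ih =>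
    obtain ⟨k1, h1, l1⟩ := col_pred (κ := κ + s) h
    obtain ⟨k2, h2, l2⟩ := ih h1
    exact ⟨k2, h2, by push_cast; omega⟩

/-- a live later column determines the earlier one -/
lemma col_back {G : Bool} {κ : ℕ} (s : ℕ) {o o' : Ω} {k z : ℤ}
    (h : col w n0 a θ S G (κ + s) o = some (k, z)) (h' : col w n0 a θ S G (κ + s) o' = some (k, z))
    (e0 : n0 o' = n0 o) : col w n0 a θ S G κ o' = col w n0 a θ S G κ o := by
  obtain ⟨k1, h1, l1⟩ := col_step s h
  have e : cell G k (a o') = cell G k (a o) :=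
    (col_eq_some.1 h').2.2.2.symm.trans (col_eq_some.1 h).2.2.2
  rw [h1]
  exact col_det h1 e0 (cell_mono (by omega) e)

end col

end
end Pool.Agent.Lib.MP_d308c3_co.Grid
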