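import Pool.Agent.Lib.MP_d308c3_co.Grid

/-! Active labels along nested nodes give columns: the two counting bounds. -/

open Finset

namespace Pool.Agent.Lib.MP_d308c3_co.Grid
open Pool.Agent.Lib.MP_108739_an.F

noncomputable section
open Classical

/-- nodes `nd c` of the steps `c ≤ m`; an active item `o` of step `c` has a scale `q c o` and two
sets `X1 c o`, `X2 c o` -/
structure Lab (Ω β γ : Type) where
  m : ℕ
  n0 : Ω → β
  nd : ℕ → Ω → γ
  a : Ω → ℝ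
  Act : ℕ → Ω → Prop
  q : ℕ → Ω → ℤ
  X1 : ℕ → Ω → Ω → Prop
  X2 : ℕ → Ω → Ω → Prop

namespace Lab
variable {Ω β γ : Type} [Fintype Ω] (L : Lab Ω β γ) (w : Ω → ℝ)

omit [Fintype Ω] in
/-- items in one of the two sets -/
def X (_w : Ω → ℝ) (c : ℕ) (o o' : Ω) : Prop := L.X1 c o o' ∨ L.X2 c o o'

/-- the values of `a` on the node of step `c` through `o` differ by at most `2^k` -/
def Pin (c : ℕ) (k : ℤ) (o : Ω) : Prop :=
  ∀ o1 o2, 0 < w o1 → 0 < w o2 → L.nd c o1 = L.nd c o → L.nd c o2 = L.nd c o →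
    |L.a o1 - L.a o2| ≤ 2 ^ k

structure Ok (η : ℝ) : Prop where
  root : Det (L.nd 0) L.n0
  nest : ∀ c < L.m, Det (L.nd (c + 1)) (L.nd c)
  self : ∀ c < L.m, ∀ o, 0 < w o → L.Act c o → L.X1 c o o
  node : ∀ c < L.m, ∀ o, 0 < w o → L.Act c o → ∀ o', L.X w c o o' → L.nd c o' = L.nd c o
  mass1 : ∀ c < L.m, ∀ o, 0 < w o → L.Act c o → η * ms w (L.nd c) o ≤ tot (res w (L.X1 c o))
  mass2 : ∀ c < L.m, ∀ o, 0 < w o → L.Act c o → η * ms w (L.nd c) o ≤ tot (res w (L.X2 c o))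
  sep : ∀ c < L.m, ∀ o, 0 < w o → L.Act c o → ∀ o1 o2, L.X1 c o o1 → L.X2 c o o2 →
    2 ^ L.q c o ≤ |L.a o1 - L.a o2|
  rng : ∀ c < L.m, ∀ o, 0 < w o → L.Act c o → ∀ o1 o2, L.X w c o o1 → L.X w c o o2 →
    |L.a o1 - L.a o2| ≤ 40 * 2 ^ L.q c o
  pin : ∀ c < L.m, ∀ o, 0 < w o → L.Act c o → ∀ o', L.X w c o o' →
    L.Pin w (c + 1) (L.q c o - 1) o'

/-- the scales of the labels -/
def S : Finset ℤ := (range L.m ×ˢ univ).image fun x : ℕ × Ω => L.q x.1 x.2 + 7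

/-- both sets lie in the cell of `o` -/
def Fit (G : Bool) (c : ℕ) (o : Ω) : Prop :=
  ∀ o', L.X w c o o' → cell G (L.q c o + 7) (L.a o') = cell G (L.q c o + 7) (L.a o)

/-- the grid used by an active item -/
def Gam (c : ℕ) (o : Ω) : Bool := if L.Fit w false c o then false else true

/-- column number `κ` of the grid `G` -/
def cl (θ : ℝ) (G : Bool) (κ : ℕ) (o : Ω) : Option (ℤ × ℤ) := col w L.n0 L.a θ L.S G κ o

/-- the column `(G,κ)` is the cell of an active label of the item -/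
def Sel (θ : ℝ) (G : Bool) (κ : ℕ) (o : Ω) : Prop :=
  ∃ c < L.m, L.Act c o ∧ L.Gam w c o = G ∧
    L.cl w θ G κ o = some (L.q c o + 7, cell G (L.q c o + 7) (L.a o))

def nSel (θ : ℝ) (K : ℕ) (o : Ω) : ℕ :=
  #((univ ×ˢ range K).filter fun x : Bool × ℕ => L.Sel w θ x.1 x.2 o)

def nAct (o : Ω) : ℕ := #((range L.m).filter fun c => L.Act c o)

variable {L w} {η θ : ℝ}

lemma mem_S {c : ℕ} (hc : c < L.m) (o : Ω) : L.q c o + 7 ∈ L.S :=
  mem_image.2 ⟨(c, o), by simp [hc], rfl⟩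

lemma nSel_le (K : ℕ) (o : Ω) : L.nSel w θ K o ≤ L.m := by
  unfold nSel
  conv_rhs => rw [← card_range L.m]
  let f : Bool × ℕ → ℕ := fun x => if h : L.Sel w θ x.1 x.2 o then h.choose else 0
  have hf : ∀ x : Bool × ℕ, L.Sel w θ x.1 x.2 o → f x < L.m ∧ L.Gam w (f x) o = x.1 ∧
      L.cl w θ x.1 x.2 o = some (L.q (f x) o + 7, cell x.1 (L.q (f x) o + 7) (L.a o)) :=
    fun x h => by
      simp only [f, dif_pos h]
      exact ⟨h.choose_spec.1, h.choose_spec.2.2⟩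
  refine card_le_card_of_injOn f (fun x hx => ?_) fun x hx y hy e => ?_
  · exact mem_coe.2 (mem_range.2 (hf x (mem_filter.1 hx).2).1)
  · obtain ⟨-, a1, a2⟩ := hf x (mem_filter.1 hx).2
    obtain ⟨-, b1, b2⟩ := hf y (mem_filter.1 hy).2
    have e1 : x.1 = y.1 := by rw [← a1, ← b1, e]
    rw [← e, ← e1] at b2
    exact Prod.ext e1 ((col_eq_some.1 a2).2.2.1.symm.trans (col_eq_some.1 b2).2.2.1)

namespace Ok
variable (h : L.Ok w η)
include h

lemma det_le {c c' : ℕ} (h1 : c ≤ c') (h2 : c' ≤ L.m) : Det (L.nd c') (L.nd c) := by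
  induction c', h1 using Nat.le_induction with
  | base => exact Det.rfl
  | succ n _ ih => exact (h.nest n h2).trans (ih (by omega))

lemma det_root {c : ℕ} (hc : c ≤ L.m) : Det (L.nd c) L.n0 :=
  (h.det_le (Nat.zero_le c) hc).trans h.root

lemma pin_le {c c' : ℕ} {k : ℤ} {o : Ω} (h1 : c ≤ c') (h2 : c' ≤ L.m) (p : L.Pin w c k o) :
    L.Pin w c' k o := fun o1 o2 p1 p2 e1 e2 =>
  p o1 o2 p1 p2 (h.det_le h1 h2 _ _ e1) (h.det_le h1 h2 _ _ e2)

lemma xself {c : ℕ} (hc : c < L.m) {o : Ω} (p : 0 < w o) (ha : L.Act c o) : L.X w c o o :=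
  Or.inl (h.self c hc o p ha)

lemma fit {c : ℕ} (hc : c < L.m) {o : Ω} (p : 0 < w o) (ha : L.Act c o) :
    L.Fit w (L.Gam w c o) c o := by
  unfold Gam
  split_ifs with e
  · exact e
  · unfold Fit at e
    push Not at e
    obtain ⟨y, hy, ny⟩ := e
    intro z hz
    have s := h.xself hc p ha
    exact (third (h.rng c hc o p ha o y s hy) (h.rng c hc o p ha o z s hz)
      (h.rng c hc o p ha y z hy hz)).resolve_left ny

/-- what a selected column gives -/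
lemma sel_spec {G : Bool} {κ : ℕ} {o : Ω} (p : 0 < w o) (s : L.Sel w θ G κ o) :
    ∃ c < L.m, L.Act c o ∧ L.cl w θ G κ o = some (L.q c o + 7, cell G (L.q c o + 7) (L.a o)) ∧
      ∀ o', L.X w c o o' → cell G (L.q c o + 7) (L.a o') = cell G (L.q c o + 7) (L.a o) ∧
        L.cl w θ G κ o' = L.cl w θ G κ o := by
  obtain ⟨c, hc, ha, hG, e⟩ := s
  refine ⟨c, hc, ha, e, fun o' x => ?_⟩
  have f := h.fit hc p ha o' x
  rw [hG] at f
  refine ⟨f, ?_⟩
  rw [e]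
  exact col_det e (h.det_root hc.le _ _ (h.node c hc o p ha o' x)) f

/-- the node of an active item has two items that are `2^q` apart -/
lemma wide (hw : Nn w) (hη : 0 < η) {c : ℕ} (hc : c < L.m) {o : Ω} (p : 0 < w o)
    (ha : L.Act c o) : ∃ o2, 0 < w o2 ∧ L.X w c o o2 ∧ 2 ^ L.q c o ≤ |L.a o - L.a o2| := by
  have m2 := h.mass2 c hc o p ha
  have pos : 0 < tot (res w (L.X2 c o)) := (mul_pos hη (ms_pos hw _ p)).trans_le m2
  obtain ⟨o2, -, h2⟩ := exists_ne_zero_of_sum_ne_zero pos.ne'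
  obtain ⟨x2, p2⟩ := res_pos (lt_of_le_of_ne (hw.res _ o2) h2.symm)
  exact ⟨o2, p2, Or.inr x2, h.sep c hc o p ha o o2 (h.self c hc o p ha) x2⟩

/-- an item lies in the sets of a label of a given scale at one step only -/
lemma q_lt (hw : Nn w) (hη : 0 < η) {c c' : ℕ} (hcc : c < c') (hc : c' < L.m) {o1 o2 o : Ω}
    (p1 : 0 < w o1) (a1 : L.Act c o1) (x1 : L.X w c o1 o) (p2 : 0 < w o2) (a2 : L.Act c' o2)
    (x2 : L.X w c' o2 o) : L.q c' o2 ≤ L.q c o1 - 1 := by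
  have pn := h.pin_le (c' := c') hcc hc.le (h.pin c (hcc.trans hc) o1 p1 a1 o x1)
  obtain ⟨o3, p3, x3, d⟩ := h.wide hw hη hc p2 a2
  have e := h.node c' hc o2 p2 a2 o x2
  have := d.trans (pn o2 o3 p2 p3 e.symm ((h.node c' hc o2 p2 a2 o3 x3).trans e.symm))
  exact (zpow_le_zpow_iff_right₀ one_lt_two).1 this

/-- one of the two sets stays away from a short interval -/
lemma away {c : ℕ} (hc : c < L.m) {o : Ω} (p : 0 < w o) (ha : L.Act c o) (α : ℝ) :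
    ∃ F : Ω → Prop, η * ms w (L.nd c) o ≤ tot (res w F) ∧ ∀ o', 0 < w o' → F o' →
      L.X w c o o' ∧ (L.a o' + 2 ^ (L.q c o - 2) ≤ α ∨
        α + 2 ^ (L.q c o - 1) + 2 ^ (L.q c o - 2) ≤ L.a o') := by
  have e1 : (2 : ℝ) ^ (L.q c o - 1) = 2 * 2 ^ (L.q c o - 2) := by
    rw [show L.q c o - 1 = L.q c o - 2 + 1 by ring, zpow_add_one₀ two_ne_zero]; ring
  have e2 : (2 : ℝ) ^ L.q c o = 4 * 2 ^ (L.q c o - 2) := by
    rw [zpow_sub₀ two_ne_zero]; norm_num; ring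
  by_cases q : ∀ o', L.X1 c o o' → (L.a o' + 2 ^ (L.q c o - 2) ≤ α ∨
      α + 2 ^ (L.q c o - 1) + 2 ^ (L.q c o - 2) ≤ L.a o')
  · exact ⟨_, h.mass1 c hc o p ha, fun o' _ x' => ⟨Or.inl x', q o' x'⟩⟩
  · push Not at q
    obtain ⟨o1, x1, n1, n2⟩ := q
    refine ⟨_, h.mass2 c hc o p ha, fun o' _ x' => ⟨Or.inr x', ?_⟩⟩
    by_contra n
    push Not at n
    rcases le_abs.1 (h.sep c hc o p ha o1 o' x1 x') with g | g <;> linarith [n.1, n.2]

end Ok
end Lab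

/-- an event whose items see a share `η` of `B` in their fibre -/
lemma fib_share {Ω α : Type} [Fintype Ω] {w : Ω → ℝ} (hw : Nn w) (g : Ω → α) (A B : Ω → Prop)
    {η : ℝ} (h : ∀ o, 0 < w o → A o →
      η * ms w g o ≤ tot (res w fun o' => g o' = g o ∧ B o')) :
    η * tot (res w A) ≤ tot (res w B) := by
  rw [← E_ind (w := w) B, ← E_fib hw g, ← E_ind, ← E_mul]
  refine E_mono hw fun o p => ?_
  rw [E_ind, res_res]
  split_ifs with a
  · rw [mul_one, le_div_iff₀ (ms_pos hw g p)]; exact h o p a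
  · rw [mul_zero]; exact div_nonneg (tot_nonneg (hw.res _)) (ms_nonneg hw _ _)

end
end Pool.Agent.Lib.MP_d308c3_co.Grid
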