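import Pool.Agent.Lib.MP_d308c3_co.Grid2

/-! Most active steps give a column with a small number; activity of the selected column. -/

open Finset

namespace Pool.Agent.Lib.MP_d308c3_co.Grid
open Pool.Agent.Lib.MP_108739_an.F

noncomputable section
open Classical

lemma cell_near2 {G : Bool} {k : ℤ} {x y : ℝ} (h : |x - y| ≤ 2 ^ (k + 1)) :
    cell G k y - 2 ≤ cell G k x ∧ cell G k x < cell G k y - 2 + 5 := by
  rw [zpow_add_one₀ two_ne_zero, abs_le] at h
  have a := cell_near (G := G) (k := k) (x := x) (y := (x + y) / 2)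
    (abs_le.2 ⟨by linarith [h.1], by linarith [h.2]⟩)
  have b := cell_near (G := G) (k := k) (x := (x + y) / 2) (y := y)
    (abs_le.2 ⟨by linarith [h.1], by linarith [h.2]⟩)
  omega

namespace Lab
variable {Ω β γ : Type} [Fintype Ω] (L : Lab Ω β γ) (w : Ω → ℝ)

def PS (o : Ω) : Finset ℤ := L.S.filter fun k => L.Pin w L.m (k - 8) o

def phi (G : Bool) (o : Ω) : ℤ :=
  if h : (L.PS w o).Nonempty then cell G ((L.PS w o).min' h - 9) (L.a o) else 0

def Lg (G : Bool) (o : Ω) : ℝ := lg (ms w L.n0 o / ms w (pr (L.nd L.m) (L.phi w G)) o)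

def inf (G : Bool) (o : Ω) (k : ℤ) : ℝ := lg (ms w L.n0 o / ms w (ce L.n0 L.a G k) o)

variable {L w} {η θ : ℝ}

lemma PS_det : Det (L.nd L.m) (L.PS w) := fun o o' e => by unfold PS Pin; rw [e]

lemma inf_anti (hw : Nn w) (G : Bool) {o : Ω} (p : 0 < w o) : Antitone (L.inf w G o) :=
  fun _ _ hk => lg_mono (div_pos (ms_pos hw _ p) (ms_pos hw _ p))
    (div_le_div_of_nonneg_left (ms_nonneg hw _ _) (ms_pos hw _ p) (ms_mono hw (ce_det hk) o))

lemma inf_nonneg (hw : Nn w) (G : Bool) {o : Ω} (p : 0 < w o) (k : ℤ) : 0 ≤ L.inf w G o k :=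
  lg_nonneg ((one_le_div (ms_pos hw _ p)).2 (ms_mono hw (ce_root G k) o))

lemma inf_jump (hw : Nn w) (G : Bool) {o : Ω} (p : 0 < w o) {k k' : ℤ} {x : ℝ} (hx : 0 < x)
    (h : ms w (ce L.n0 L.a G k') o ≤ x * ms w (ce L.n0 L.a G k) o) :
    lg x⁻¹ ≤ L.inf w G o k' - L.inf w G o k := by
  unfold inf
  have a := ms_pos hw (ce L.n0 L.a G k') p
  have b := ms_pos hw (ce L.n0 L.a G k) p
  have c := ms_pos hw L.n0 p
  rw [lg_div c a, lg_div c b]
  have : lg x⁻¹ ≤ lg (ms w (ce L.n0 L.a G k) o / ms w (ce L.n0 L.a G k') o) :=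
    lg_mono (inv_pos.2 hx) (by rw [le_div_iff₀ a, inv_mul_le_iff₀ hx]; exact h)
  rw [lg_div b a] at this
  linarith

lemma le_lg_inv {θ : ℝ} (h0 : 0 ≤ θ) (h1 : θ < 1) : θ ≤ lg (1 - θ)⁻¹ := by
  have a : 0 < 1 - θ := by linarith
  have b := lg_le_sub a
  have l2 : 0 < Real.log 2 := Real.log_pos one_lt_two
  have l1 : Real.log 2 ≤ 1 := by have := Real.log_two_lt_d9; linarith
  have c : (1 - θ - 1) / Real.log 2 ≤ -θ := by
    rw [div_le_iff₀ l2]; nlinarith
  rw [← one_div, lg_div one_pos a, lg_one]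
  linarith

namespace Ok
variable (h : L.Ok w η)
include h

lemma Lg_nonneg (hw : Nn w) (G : Bool) {o : Ω} (p : 0 < w o) : 0 ≤ L.Lg w G o :=
  lg_nonneg ((one_le_div (ms_pos hw _ p)).2 (ms_mono hw (Det.fst.trans (h.det_root le_rfl)) o))

lemma E_Lg (hw : Nn w) (G : Bool) : E w (L.Lg w G) ≤ H w (L.nd L.m) L.n0 + 3 * tot w := by
  have e : E w (L.Lg w G) = H w (pr (L.nd L.m) (L.phi w G)) L.n0 := by
    unfold H Lg
    rw [ms_congr (g := pr (pr (L.nd L.m) (L.phi w G)) L.n0) (f := pr (L.nd L.m) (L.phi w G))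
      Det.fst (Det.rfl.pr (Det.fst.trans (h.det_root le_rfl)))]
  rw [e, H_chain hw]
  let r : γ → ℝ := fun v => if q : ∃ o1, 0 < w o1 ∧ L.nd L.m o1 = v then L.a q.choose else 0
  let g : Ω → ℤ := fun o =>
    if q : (L.PS w o).Nonempty then cell G ((L.PS w o).min' q - 9) (r (L.nd L.m o)) - 2 else 0
  have b := H_le_int hw (F := L.phi w G) (G := g) (g := pr (L.nd L.m) L.n0) (K := 5) (by norm_num)
    (fun o o' e => by
      have e1 : L.nd L.m o = L.nd L.m o' := congrArg Prod.fst e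
      simp only [g, PS_det o o' e1, e1])
    fun o p => by
      unfold phi
      simp only [g]
      split_ifs with q
      · have ex : ∃ o1, 0 < w o1 ∧ L.nd L.m o1 = L.nd L.m o := ⟨o, p, rfl⟩
        have pn := (mem_filter.1 (min'_mem _ q)).2
        have := pn o ex.choose p ex.choose_spec.1 rfl ex.choose_spec.2
        simp only [r, dif_pos ex]
        exact_mod_cast cell_near2 (by rwa [show ∀ k : ℤ, k - 9 + 1 = k - 8 from fun k => by ring])
      · norm_num
  have l3 : lg ((5 : ℕ) : ℝ) ≤ 3 := by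
    have := lg_mono (x := ((5 : ℕ) : ℝ)) (y := 2 ^ 3) (by norm_num) (by norm_num)
    rwa [lg_two_pow] at this
  nlinarith [tot_nonneg hw]

lemma inf_le_Lg (hw : Nn w) (G : Bool) {o : Ω} (p : 0 < w o) {k : ℤ} (hk : k ∈ L.PS w o) :
    L.inf w G o (k - 9) ≤ L.Lg w G o := by
  refine lg_mono (div_pos (ms_pos hw _ p) (ms_pos hw _ p))
    (div_le_div_of_nonneg_left (ms_nonneg hw _ _) (ms_pos hw _ p) ?_)
  rw [ms_eq_tot, ms_eq_tot]
  refine tot_res_mono hw fun o' _ e => ?_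
  obtain ⟨e1, e2⟩ := Prod.mk.inj e
  have ne : (L.PS w o).Nonempty := ⟨k, hk⟩
  have e3 := PS_det (w := w) o' o e1
  unfold phi at e2
  simp only [e3, dif_pos ne] at e2
  exact Prod.ext (cell_mono (by have := min'_le _ _ hk; omega) e2) (h.det_root le_rfl _ _ e1)

lemma mem_PS {c : ℕ} (hc : c < L.m) {o o' : Ω} (p : 0 < w o) (ha : L.Act c o)
    (x : L.X w c o o') : L.q c o + 7 ∈ L.PS w o' :=
  mem_filter.2 ⟨mem_S hc o, by
    rw [show L.q c o + 7 - 8 = L.q c o - 1 by ring]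
    exact h.pin_le (c := c + 1) hc le_rfl (h.pin c hc o p ha o' x)⟩

/-- scales at which the item lands in a light cell -/
lemma light_card (hw : Nn w) (h0 : 0 < θ) (G : Bool) {o : Ω} (p : 0 < w o) :
    (#((L.PS w o).filter fun k => ms w (ce L.n0 L.a G (k - 9)) o ≤
      θ * ms w (ce L.n0 L.a G k) o) : ℝ) * lg θ⁻¹ ≤ 9 * L.Lg w G o := by
  by_cases ne : (L.PS w o).Nonempty
  · have t := tele (inf_anti (L := L) hw G p) (inf_nonneg hw G p)
      ((L.PS w o).filter fun k => ms w (ce L.n0 L.a G (k - 9)) o ≤ θ * ms w (ce L.n0 L.a G k) o)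
      ((L.PS w o).min' ne - 9) 9 fun k hk => by
        have := min'_le _ _ (mem_filter.1 hk).1; push_cast; omega
    have u := h.inf_le_Lg hw G p (min'_mem _ ne)
    have v := card_nsmul_le_sum _ (fun k => L.inf w G o (k - ((9 : ℕ) : ℤ)) - L.inf w G o k)
      (lg θ⁻¹) fun k (hk : k ∈ (L.PS w o).filter fun k => ms w (ce L.n0 L.a G (k - 9)) o ≤
        θ * ms w (ce L.n0 L.a G k) o) => inf_jump hw G p h0 (mem_filter.1 hk).2
    rw [nsmul_eq_mul] at v
    push_cast at t v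
    linarith
  · rw [not_nonempty_iff_eq_empty.1 ne]
    simpa using h.Lg_nonneg hw G p

/-- many branching scales above a label cost information -/
lemma rk_le (hw : Nn w) (h0 : 0 < θ) (h1 : θ < 1) (G : Bool) {o : Ω} (p : 0 < w o) {k : ℤ}
    (hk : k ∈ L.PS w o) : (rk w L.n0 L.a θ L.S G k o : ℝ) * θ ≤ 8 * L.Lg w G o := by
  have t := tele (inf_anti (L := L) hw G p) (inf_nonneg hw G p)
    (L.S.filter fun k' => k < k' ∧ Brn w L.n0 L.a θ G k' o) (k - 9) 8 fun k' hk' => by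
      have := (mem_filter.1 hk').2.1; push_cast; omega
  have u := h.inf_le_Lg hw G p hk
  have v := card_nsmul_le_sum _ (fun k => L.inf w G o (k - ((8 : ℕ) : ℤ)) - L.inf w G o k) θ
    fun k' (hk' : k' ∈ L.S.filter fun k' => k < k' ∧ Brn w L.n0 L.a θ G k' o) => by
      refine (le_lg_inv h0.le h1).trans (inf_jump hw G p (by linarith) ?_)
      refine le_trans ?_ ((mem_filter.1 hk').2.2 (lft G (k' - 8) (cell G (k' - 8) (L.a o))))
      rw [ms_eq_tot]
      refine tot_res_mono hw fun o' _ e => ⟨ce_det (by push_cast; omega) _ _ e, ?_⟩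
      have e1 : cell G (k' - 8) (L.a o') = cell G (k' - 8) (L.a o) := congrArg Prod.fst e
      rw [← e1]
      exact ⟨lft_le _ _ _, (lt_lft _ _ _).le⟩
  rw [nsmul_eq_mul] at v
  unfold rk
  push_cast at t v
  linarith

end Ok
end Lab

end
end Pool.Agent.Lib.MP_d308c3_co.Grid
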