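import Pool.Agent.Lib.MP_d308c3_co.Grid3

/-! The number of selected columns, and the activity of a selected column. -/

open Finset

namespace Pool.Agent.Lib.MP_d308c3_co.Grid
open Pool.Agent.Lib.MP_108739_an.F

noncomputable section
open Classical

lemma E_card {Ω ι : Type} [Fintype Ω] (w : Ω → ℝ) (s : Finset ι) (P : ι → Ω → Prop)
    [∀ o, DecidablePred fun i => P i o] :
    E w (fun o => (#(s.filter fun i => P i o) : ℝ)) = ∑ i ∈ s, tot (res w (P i)) := by
  simp only [card_filter, Nat.cast_sum, Nat.cast_ite, Nat.cast_one, Nat.cast_zero]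
  rw [E_sum]
  refine sum_congr rfl fun i _ => ?_
  rw [← E_ind]
  congr 1
  funext o
  split_ifs <;> rfl

namespace Lab
variable {Ω β γ δ : Type} [Fintype Ω] {L : Lab Ω β γ} {w : Ω → ℝ} {η θ : ℝ}

variable (L w θ) in
def LL (G : Bool) (c : ℕ) (o' : Ω) : Prop :=
  ∃ o, 0 < w o ∧ L.Act c o ∧ L.X w c o o' ∧
    ms w (ce L.n0 L.a G (L.q c o + 7 - 9)) o' ≤ θ * ms w (ce L.n0 L.a G (L.q c o + 7)) o'

namespace Ok
variable (h : L.Ok w η)
include h

lemma LL_card (hw : Nn w) (hη : 0 < η) (h0 : 0 < θ) (h1 : θ < 1) (G : Bool) {o : Ω}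
    (p : 0 < w o) :
    (#((range L.m).filter fun c => L.LL w θ G c o) : ℝ) * lg θ⁻¹ ≤ 9 * L.Lg w G o := by
  refine le_trans (mul_le_mul_of_nonneg_right ?_ (lg_nonneg ((one_le_inv₀ h0).2 h1.le)))
    (h.light_card hw h0 G p)
  let f : ℕ → ℤ := fun c => if q : L.LL w θ G c o then L.q c q.choose + 7 else 0
  have key : ∀ c c', c < c' → c' < L.m → L.LL w θ G c o → L.LL w θ G c' o → f c' < f c :=
    fun c c' l l' q q' => by
      simp only [f, dif_pos q, dif_pos q']
      have := h.q_lt hw hη l l' q.choose_spec.1 q.choose_spec.2.1 q.choose_spec.2.2.1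
        q'.choose_spec.1 q'.choose_spec.2.1 q'.choose_spec.2.2.1
      omega
  refine Nat.cast_le.2 (card_le_card_of_injOn f (fun c hc => ?_) fun c hc c' hc' e => ?_)
  · obtain ⟨l, q⟩ := mem_filter.1 (mem_coe.1 hc)
    simp only [f, dif_pos q]
    exact mem_coe.2 (mem_filter.2 ⟨h.mem_PS (mem_range.1 l) q.choose_spec.1 q.choose_spec.2.1
      q.choose_spec.2.2.1, q.choose_spec.2.2.2⟩)
  · obtain ⟨l, q⟩ := mem_filter.1 (mem_coe.1 hc)
    obtain ⟨l', q'⟩ := mem_filter.1 (mem_coe.1 hc')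
    rcases lt_trichotomy c c' with t | t | t
    · exact absurd e (key c c' t (mem_range.1 l') q q').ne'
    · exact t
    · exact absurd e (key c' c t (mem_range.1 l) q' q).ne

lemma nobr_share (hw : Nn w) {c : ℕ} (hc : c < L.m) :
    η * tot (res w fun o => L.Act c o ∧ ¬ Brn w L.n0 L.a θ (L.Gam w c o) (L.q c o + 7) o) ≤
      tot (res w (L.LL w θ false c)) + tot (res w (L.LL w θ true c)) := by
  refine le_trans (fib_share hw (L.nd c) _ _ fun o p ⟨ha, nb⟩ => ?_) (tot_res_or hw _ _)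
  unfold Brn at nb
  push Not at nb
  obtain ⟨α, hα⟩ := nb
  obtain ⟨F, mF, hF⟩ := h.away hc p ha α
  refine mF.trans (tot_res_mono hw fun o' p' f' => ?_)
  obtain ⟨x, far⟩ := hF o' p' f'
  have nd := h.node c hc o p ha o' x
  have ec : ce L.n0 L.a (L.Gam w c o) (L.q c o + 7) o' =
      ce L.n0 L.a (L.Gam w c o) (L.q c o + 7) o :=
    Prod.ext (h.fit hc p ha o' x) (h.det_root hc.le _ _ nd)
  have key : L.LL w θ (L.Gam w c o) c o' := by
    refine ⟨o, p, ha, x, ?_⟩
    rw [ms_det _ o' o ec]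
    have s := tot_res_add (w := res w fun o2 => ce L.n0 L.a (L.Gam w c o) (L.q c o + 7) o2 =
      ce L.n0 L.a (L.Gam w c o) (L.q c o + 7) o)
      fun o2 => α ≤ L.a o2 ∧ L.a o2 ≤ α + 2 ^ (L.q c o + 7 - 8)
    rw [res_res, res_res, ← ms_eq_tot] at s
    have t : ms w (ce L.n0 L.a (L.Gam w c o) (L.q c o + 7 - 9)) o' ≤
        tot (res w fun o2 => ce L.n0 L.a (L.Gam w c o) (L.q c o + 7) o2 =
          ce L.n0 L.a (L.Gam w c o) (L.q c o + 7) o ∧
          ¬ (α ≤ L.a o2 ∧ L.a o2 ≤ α + 2 ^ (L.q c o + 7 - 8))) := by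
      rw [ms_eq_tot]
      refine tot_res_mono hw fun o2 _ e => ⟨(ce_det (by omega) _ _ e).trans ec, fun i => ?_⟩
      have d := abs_lt.1 (abs_lt_of_cell (congrArg Prod.fst e))
      rw [show L.q c o + 7 - 9 = L.q c o - 2 by ring] at d
      rw [show L.q c o + 7 - 8 = L.q c o - 1 by ring] at i
      rcases far with g | g <;> linarith [d.1, d.2, i.1, i.2]
    linarith
  refine ⟨nd, ?_⟩
  cases e : L.Gam w c o
  · exact Or.inl (e ▸ key)
  · exact Or.inr (e ▸ key)

lemma nAct_le (hw : Nn w) (hη : 0 < η) (h0 : 0 < θ) (h1 : θ < 1) {K : ℕ} (hK : 0 < K) {o : Ω}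
    (p : 0 < w o) : (L.nAct o : ℝ) ≤ L.nSel w θ K o +
      #((range L.m).filter fun c => L.Act c o ∧
        ¬ Brn w L.n0 L.a θ (L.Gam w c o) (L.q c o + 7) o) +
      8 * L.m / (K * θ) * (L.Lg w false o + L.Lg w true o) := by
  have f0 := h.Lg_nonneg hw false p
  have f1 := h.Lg_nonneg hw true p
  have kp : (0 : ℝ) < K * θ := by positivity
  by_cases big : ∃ c < L.m, L.Act c o ∧ K ≤ rk w L.n0 L.a θ L.S (L.Gam w c o) (L.q c o + 7) o
  · obtain ⟨c, hc, ha, hk⟩ := big
    have a := h.rk_le hw h0 h1 (L.Gam w c o) p (h.mem_PS hc p ha (h.xself hc p ha))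
    have b : (K : ℝ) * θ ≤ 8 * (L.Lg w false o + L.Lg w true o) := by
      have : (K : ℝ) ≤ rk w L.n0 L.a θ L.S (L.Gam w c o) (L.q c o + 7) o := by exact_mod_cast hk
      have : L.Lg w (L.Gam w c o) o ≤ L.Lg w false o + L.Lg w true o := by
        cases L.Gam w c o <;> linarith
      nlinarith
    have c1 : (L.nAct o : ℝ) ≤ L.m := by
      exact_mod_cast (card_filter_le _ _).trans_eq (card_range _)
    have c2 : (L.m : ℝ) ≤ 8 * L.m / (K * θ) * (L.Lg w false o + L.Lg w true o) := by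
      rw [div_mul_eq_mul_div, le_div_iff₀ kp]
      nlinarith [Nat.cast_nonneg (α := ℝ) L.m]
    have : (0 : ℝ) ≤ L.nSel w θ K o := Nat.cast_nonneg _
    have : (0 : ℝ) ≤ #((range L.m).filter fun c => L.Act c o ∧
        ¬ Brn w L.n0 L.a θ (L.Gam w c o) (L.q c o + 7) o) := Nat.cast_nonneg _
    linarith
  · push Not at big
    have a : #((range L.m).filter fun c => L.Act c o ∧
        Brn w L.n0 L.a θ (L.Gam w c o) (L.q c o + 7) o) ≤ L.nSel w θ K o := by
      refine card_le_card_of_injOn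
        (fun c => (L.Gam w c o, rk w L.n0 L.a θ L.S (L.Gam w c o) (L.q c o + 7) o))
        (fun c hc => ?_) fun c hc c' hc' e => ?_
      · obtain ⟨l, ha, hb⟩ := mem_filter.1 (mem_coe.1 hc)
        have l := mem_range.1 l
        exact mem_coe.2 (mem_filter.2 ⟨mem_product.2 ⟨mem_univ _, mem_range.2 (big c l ha)⟩,
          c, l, ha, rfl, col_eq_some.2 ⟨mem_S l o, hb, rfl, rfl⟩⟩)
      · obtain ⟨l, ha, hb⟩ := mem_filter.1 (mem_coe.1 hc)
        obtain ⟨l', ha', hb'⟩ := mem_filter.1 (mem_coe.1 hc')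
        have l := mem_range.1 l
        have l' := mem_range.1 l'
        obtain ⟨e1, e2⟩ := Prod.mk.inj e
        rcases lt_trichotomy c c' with t | t | t
        · have := h.q_lt hw hη t l' p ha (h.xself l p ha) p ha' (h.xself l' p ha')
          have := rk_lt (k := L.q c' o + 7) (by omega) (mem_S l o) hb
          rw [← e1] at e2; omega
        · exact t
        · have := h.q_lt hw hη t l p ha' (h.xself l' p ha') p ha (h.xself l p ha)
          have := rk_lt (k := L.q c o + 7) (by omega) (mem_S l' o) hb'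
          rw [e1] at e2; omega
    have b : L.nAct o = #((range L.m).filter fun c => L.Act c o ∧
        Brn w L.n0 L.a θ (L.Gam w c o) (L.q c o + 7) o) + #((range L.m).filter fun c => L.Act c o ∧
        ¬ Brn w L.n0 L.a θ (L.Gam w c o) (L.q c o + 7) o) := by
      unfold nAct
      rw [← filter_filter, ← filter_filter, card_filter_add_card_filter_not]
    have c : (L.nAct o : ℝ) ≤ L.nSel w θ K o + #((range L.m).filter fun c => L.Act c o ∧
        ¬ Brn w L.n0 L.a θ (L.Gam w c o) (L.q c o + 7) o) := by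
      rw [b]; exact_mod_cast Nat.add_le_add_right a _
    have : 0 ≤ 8 * L.m / (K * θ) * (L.Lg w false o + L.Lg w true o) := by positivity
    linarith

/-- all but few of the active steps give a column with number below `K` -/
theorem sel (hw : Nn w) (hη : 0 < η) (h0 : 0 < θ) (h1 : θ < 1) {K : ℕ} (hK : 0 < K) :
    E w (fun o => (L.nAct o : ℝ)) ≤ E w (fun o => (L.nSel w θ K o : ℝ)) +
      (18 / (η * lg θ⁻¹) + 16 * L.m / (K * θ)) * (H w (L.nd L.m) L.n0 + 3 * tot w) := by
  have a := E_mono hw fun o p => h.nAct_le hw hη h0 h1 hK p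
  rw [E_add, E_add, E_mul, E_add, E_card] at a
  have e0 := h.E_Lg hw false
  have e1 := h.E_Lg hw true
  have lp : 0 < lg θ⁻¹ := Real.logb_pos one_lt_two ((one_lt_inv₀ h0).2 h1)
  have b : ∀ G, (∑ c ∈ range L.m, tot (res w (L.LL w θ G c))) * lg θ⁻¹ ≤
      9 * (H w (L.nd L.m) L.n0 + 3 * tot w) := fun G => by
    have := E_mono hw fun o p => (mul_comm _ _).trans_le (h.LL_card hw hη h0 h1 G p)
    rw [E_mul, E_mul, E_card] at this
    linarith [h.E_Lg hw G]
  have c := sum_le_sum fun c (hc : c ∈ range L.m) => h.nobr_share (θ := θ) hw (mem_range.1 hc)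
  rw [← mul_sum, sum_add_distrib] at c
  set X := H w (L.nd L.m) L.n0 + 3 * tot w
  have d : ∑ c ∈ range L.m, tot (res w fun o => L.Act c o ∧
      ¬ Brn w L.n0 L.a θ (L.Gam w c o) (L.q c o + 7) o) ≤ 18 / (η * lg θ⁻¹) * X := by
    rw [div_mul_eq_mul_div, le_div_iff₀ (mul_pos hη lp)]
    nlinarith [b false, b true, mul_le_mul_of_nonneg_right c lp.le]
  have e : 8 * L.m / (K * θ) * (E w (L.Lg w false) + E w (L.Lg w true)) ≤
      16 * L.m / (K * θ) * X := by
    have : (0 : ℝ) ≤ 8 * L.m / (K * θ) := by positivity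
    calc _ ≤ 8 * L.m / (K * θ) * (2 * X) := mul_le_mul_of_nonneg_left (by linarith) this
      _ = _ := by ring
  linarith

/-- a selected column is rarely inactive given a finer condition `O` that contains both sets -/
theorem xact (hw : Nn w) (hη : 0 < η) (G : Bool) (κ : ℕ) (O : Ω → δ)
    (hO : Det O (L.cl w θ G κ)) (Gd : Ω → Prop)
    (hG : ∀ o, 0 < w o → Gd o → ∀ c < L.m, L.Act c o →
      L.cl w θ G κ o = some (L.q c o + 7, cell G (L.q c o + 7) (L.a o)) →
      (∀ o', L.X w c o o' → L.cl w θ G κ o' = L.cl w θ G κ o) → ∀ o', L.X w c o o' → O o' = O o)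
    {ε : ℝ} (hε : 0 ≤ ε) :
    η * tot (res w fun o => L.Sel w θ G κ o ∧ Gd o ∧ ∃ k z, L.cl w θ G κ o = some (k, z) ∧
      tot (res w fun o' => O o' = O o ∧ 2 ^ (k - 9) ≤ |L.a o' - L.a o|) ≤ ε * ms w O o) ≤
      ε * tot w := by
  let Ina : Ω → Prop := fun o => ∃ k z, L.cl w θ G κ o = some (k, z) ∧
    tot (res w fun o' => O o' = O o ∧ 2 ^ (k - 9) ≤ |L.a o' - L.a o|) ≤ ε * ms w O o
  let rep : δ → Option Ω := fun v => if q : ∃ o, O o = v ∧ Ina o then some q.choose else none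
  have hrep : ∀ v o, rep v = some o → O o = v ∧ Ina o := fun v o e => by
    simp only [rep] at e
    split_ifs at e with q
    rw [← Option.some.inj e]; exact q.choose_spec
  let B : Ω → Prop := fun o' => ∃ o1 k z, rep (O o') = some o1 ∧ L.cl w θ G κ o' = some (k, z) ∧
    2 ^ (k - 9) ≤ |L.a o' - L.a o1|
  have hB : tot (res w B) ≤ ε * tot w := by
    rw [← E_ind, ← E_fib hw O]
    refine E_le_const hw fun o p => ?_
    rw [E_ind, res_res, div_le_iff₀ (ms_pos hw O p)]
    cases e : rep (O o) with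
    | none =>
      refine le_trans (tot_res_mono hw (B := fun _ => False) fun o' _ ⟨e1, o1, _, _, e2, _⟩ => ?_) ?_
      · rw [e1, e] at e2; cases e2
      · have : tot (res w fun _ => False) = 0 := by simp [tot, res]
        rw [this]; exact mul_nonneg hε (ms_nonneg hw _ _)
    | some o1 =>
      obtain ⟨e1, k, z, e2, e3⟩ := hrep _ _ e
      rw [← ms_det O o1 o e1]
      refine le_trans (tot_res_mono hw fun o' _ ⟨f1, o2, k', z', f2, f3, f4⟩ => ?_) e3
      rw [f1, e] at f2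
      rw [← Option.some.inj f2] at f4
      rw [hO o' o1 (f1.trans e1.symm), e2] at f3
      rw [(Prod.mk.inj (Option.some.inj f3)).1]
      exact ⟨f1.trans e1.symm, f4⟩
  let A : ℕ → Ω → Prop := fun c o => L.Act c o ∧
    L.cl w θ G κ o = some (L.q c o + 7, cell G (L.q c o + 7) (L.a o)) ∧
    (∀ o', L.X w c o o' → L.cl w θ G κ o' = L.cl w θ G κ o) ∧ Gd o ∧ Ina o
  let C : ℕ → Ω → Prop := fun c o' => B o' ∧ ∃ o z, 0 < w o ∧ L.Act c o ∧ L.X w c o o' ∧
    L.cl w θ G κ o' = some (L.q c o + 7, z)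
  have hA : ∀ c ∈ range L.m, η * tot (res w (A c)) ≤ tot (res w (C c)) := fun c hc => by
    have hc := mem_range.1 hc
    refine fib_share hw (L.nd c) _ _ fun o p ⟨ha, e, ex, gd, ina⟩ => ?_
    have q : ∃ o1, O o1 = O o ∧ Ina o1 := ⟨o, rfl, ina⟩
    have r : rep (O o) = some q.choose := by simp only [rep, dif_pos q]
    obtain ⟨F, mF, hF⟩ := h.away hc p ha (L.a q.choose - 2 ^ (L.q c o - 2))
    refine mF.trans (tot_res_mono hw fun o' p' f' => ?_)
    obtain ⟨x, far⟩ := hF o' p' f'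
    have e' := (ex o' x).trans e
    refine ⟨h.node c hc o p ha o' x, ⟨q.choose, _, _, ?_, e', ?_⟩, o, _, p, ha, x, e'⟩
    · rw [hG o p gd c hc ha e ex o' x, r]
    · have e1 : (2 : ℝ) ^ (L.q c o - 1) = 2 * 2 ^ (L.q c o - 2) := by
        rw [show L.q c o - 1 = L.q c o - 2 + 1 by ring, zpow_add_one₀ two_ne_zero]; ring
      have pp : (0 : ℝ) < 2 ^ (L.q c o - 2) := by positivity
      rw [show L.q c o + 7 - 9 = L.q c o - 2 by ring, le_abs]
      rcases far with g | g
      · right; linarith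
      · left; linarith
  have hC : ∑ c ∈ range L.m, tot (res w (C c)) ≤ tot (res w B) := by
    rw [← E_card, ← E_ind]
    refine E_mono hw fun o' _ => ?_
    split_ifs with b
    · norm_cast
      refine card_le_one.2 fun c hc c' hc' => ?_
      obtain ⟨l, -, o1, z1, p1, a1, x1, e1⟩ := mem_filter.1 hc
      obtain ⟨l', -, o2, z2, p2, a2, x2, e2⟩ := mem_filter.1 hc'
      have e := (Prod.mk.inj (Option.some.inj (e1.symm.trans e2))).1
      rcases lt_trichotomy c c' with t | t | t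
      · have := h.q_lt hw hη t (mem_range.1 l') p1 a1 x1 p2 a2 x2; omega
      · exact t
      · have := h.q_lt hw hη t (mem_range.1 l) p2 a2 x2 p1 a1 x1; omega
    · rw [filter_false_of_mem fun c _ hc => b hc.1]; simp
  have hS : tot (res w fun o => L.Sel w θ G κ o ∧ Gd o ∧ Ina o) ≤
      ∑ c ∈ range L.m, tot (res w (A c)) := by
    refine le_trans (tot_res_mono hw fun o p ⟨s, gd, ina⟩ => ?_) (tot_res_exists hw _ A)
    obtain ⟨c, hc, ha, e, ex⟩ := h.sel_spec p s
    exact ⟨c, mem_range.2 hc, ha, e, fun o' x => (ex o' x).2, gd, ina⟩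
  have := sum_le_sum hA
  rw [← mul_sum] at this
  exact (mul_le_mul_of_nonneg_left hS hη.le).trans (this.trans (hC.trans hB))

end Ok
end Lab

end
end Pool.Agent.Lib.MP_d308c3_co.Grid
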