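import Pool.Agent.Lib.MP_d308c3_co.Rect2

set_option autoImplicit false

/-! The rectangle argument for one cell when only the live items carry geometry. -/

namespace Pool.Agent.Lib.MP_d308c3_co.Rect

open Finset Pool.Agent.Lib.MP_108739_an.F Pool.Agent.Lib.MP_d308c3_co.Dens
open Classical

variable {Ω α β γ : Type} [Fintype Ω] {w : Ω → ℝ}

theorem rect_live (hw : Nn w) (O : Ω → α) (A : Ω → β) (B : Ω → γ) (L : Ω → Prop) (hL : Det O L)
    (a b t0 lam x0 U tA xB : Ω → ℝ)
    (h0 : ∀ o o', L o → O o = O o' → t0 o = t0 o' ∧ lam o = lam o' ∧ x0 o = x0 o' ∧ U o = U o')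
    (htA : ∀ o o', L o → O o = O o' → A o = A o' → tA o = tA o')
    (hxB : ∀ o o', L o → O o = O o' → B o = B o' → xB o = xB o')
    {P δ Λ σ τ η : ℝ} {Jb : ℕ} (hJ : 1 ≤ Jb)
    (hΛ : 0 < Λ) (hP : 4096 * Λ ≤ P) (hδ : δ ≤ 1 / 1024) (hδ0 : 0 ≤ δ) (hPδ : P * δ ≤ 1)
    (hpos : ∀ o, 0 < w o → L o → 0 < lam o ∧ 0 < U o)
    (ht : ∀ o, 0 < w o → L o → t0 o ≤ tA o ∧ tA o ≤ t0 o + lam o)
    (hb : ∀ o, 0 < w o → L o →
      x0 o ≤ xB o ∧ xB o ≤ x0 o + U o ∧ xB o ≤ a o ∧ a o ≤ xB o + δ * U o)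
    (R2 : Ω → Ω → Prop)
    (hR : ∀ p q, 0 < w p → 0 < w q → L p → O q = O p → R2 p q → lam p / Λ ≤ |tA p - tA q|)
    (Yp Yl : Ω → ℤ)
    (hYp : ∀ o, 0 < w o → L o → Yp o = ⌊(b o + t0 o * (a o - x0 o)) / (lam o * U o / P) + σ⌋)
    (hYl : ∀ o, 0 < w o → L o → Yl o = ⌊(b o + tA o * (a o - x0 o)) / (lam o * U o / P) + σ⌋)
    (hdead : ∀ o, 0 < w o → ¬ L o → Yl o = Yp o) (hτ : 0 ≤ τ) (hη : 0 ≤ η) :
    τ * η * η * tot (res w fun p => L p ∧
      η * ms w O p ≤ tot (res w fun o => O o = O p ∧ U p / 512 ≤ |a o - a p|) ∧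
      η * ms w O p ≤ tot (res w fun o => O o = O p ∧ R2 p o) ∧
      ¬ Col.Sat w (pr O (pr A B)) Yp Jb P (2048 * Λ) τ p) ≤ 24 * √(tot w * I w A (pr B Yp) O) +
      8 * √(tot w * I w B (pr A Yl) O) + 16 / Jb * tot w := by
  have hP0 : 0 < P := by linarith
  have hLL : ∀ {o o'}, O o = O o' → L o → L o' := fun e l => hL _ _ e ▸ l
  have det : ∀ {κ : Type} (g : Ω → κ) (f : Ω → ℝ) (c : ℝ), Det g O →
      (∀ o o', L o → g o = g o' → f o = f o') → Det g fun o => if L o then f o else c := by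
    intro κ g f c hg hf o o' e
    by_cases l : L o
    · simp only [if_pos l, if_pos (hLL (hg _ _ e) l), hf o o' l e]
    · simp only [if_neg l, if_neg fun l' => l (hLL (hg _ _ e).symm l')]
  have dead : ∀ o, ((Yp o : ℝ) - σ) / P / (1 / P) + σ = Yp o := by
    intro o
    field_simp
    ring
  refine le_trans (mul_le_mul_of_nonneg_left (tot_res_mono hw fun p hp h => ?_) (by positivity))
    (rect_cell hw O A B (fun o => if L o then a o else 0)
      (fun o => if L o then b o else ((Yp o : ℝ) - σ) / P) (fun o => if L o then t0 o else 0)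
      (fun o => if L o then lam o else 1) (fun o => if L o then x0 o else 0)
      (fun o => if L o then U o else 1) (fun o => if L o then tA o else 0)
      (fun o => if L o then xB o else 0)
      (det O _ _ Det.rfl fun o o' l e => (h0 o o' l e).1)
      (det O _ _ Det.rfl fun o o' l e => (h0 o o' l e).2.1)
      (det O _ _ Det.rfl fun o o' l e => (h0 o o' l e).2.2.1)
      (det O _ _ Det.rfl fun o o' l e => (h0 o o' l e).2.2.2)
      (det _ _ _ Det.fst fun o o' l e => htA o o' l (congrArg Prod.fst e) (congrArg Prod.snd e))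
      (det _ _ _ Det.fst fun o o' l e => hxB o o' l (congrArg Prod.fst e) (congrArg Prod.snd e))
      (σ := σ) hJ hΛ hP hδ hPδ (fun o ho => ?_) (fun o ho => ?_) (fun o ho => ?_)
      (fun p q => L p ∧ R2 p q) (fun p q hp hq e r => ?_) Yp Yl (fun o ho => ?_) (fun o ho => ?_)
      hτ hη)
  · obtain ⟨l, h1, h2, h3⟩ := h
    refine ⟨h1.trans (tot_res_mono hw fun o _ ho => ⟨ho.1, ?_⟩),
      h2.trans (tot_res_mono hw fun o _ ho => ⟨ho.1, l, ho.2⟩), h3⟩
    simp only [if_pos l, if_pos (hLL ho.1.symm l)]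
    exact ho.2
  · by_cases l : L o
    · simp only [if_pos l]
      exact hpos o ho l
    · simp only [if_neg l]
      exact ⟨one_pos, one_pos⟩
  · by_cases l : L o
    · simp only [if_pos l]
      exact ht o ho l
    · simp only [if_neg l]
      norm_num
  · by_cases l : L o
    · simp only [if_pos l]
      exact hb o ho l
    · simp only [if_neg l]
      norm_num
      exact hδ0
  · simp only [if_pos r.1, if_pos (hLL e.symm r.1)]
    exact hR p q hp hq r.1 e r.2
  · by_cases l : L o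
    · simp only [if_pos l]
      exact hYp o ho l
    · simp only [if_neg l, zero_mul, add_zero, one_mul]
      rw [dead, Int.floor_intCast]
  · by_cases l : L o
    · simp only [if_pos l]
      exact hYl o ho l
    · simp only [if_neg l, zero_mul, add_zero, one_mul]
      rw [dead, Int.floor_intCast, hdead o ho l]

end Pool.Agent.Lib.MP_d308c3_co.Rect
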