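import Pool.Agent.Lib.MP_108739_an.F.Ent1

set_option autoImplicit false

/-! Telescoping of informations (TEL) and straddling of a grid with an offset (STRADDLE). -/

namespace Pool.Agent.Lib.MP_d308c3_co.Tel

open Finset Pool.Agent.Lib.MP_108739_an.F
open Classical

variable {Ω α β γ ι : Type} [Fintype Ω] {w : Ω → ℝ}

/-- subadditivity -/
theorem H_pr_le (hw : Nn w) (f : Ω → α) (g : Ω → β) (k : Ω → γ) :
    H w (pr f g) k ≤ H w f k + H w g k := by
  rw [H_chain hw]
  have : H w g (pr f k) ≤ H w g k := H_mono hw Det.fst Det.snd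
  linarith

/-- one step of the telescope -/
theorem tel_step (hw : Nn w) {δ : Type} (X : Ω → α) (O : Ω → β) (P : Ω → γ) (O' : Ω → δ) :
    I w X P O ≤ H w X O - H w X O' + H w (pr O P) O' := by
  have h1 := H_tri hw X (pr O P) O'
  have h2 : H w X (pr (pr O P) O') ≤ H w X (pr P O) :=
    H_mono hw Det.fst ((Det.fst.trans Det.snd).pr (Det.fst.trans Det.fst))
  unfold I
  linarith

theorem sum_shift (h : ℕ → ℝ) (h0 : ∀ n, 0 ≤ h n) (s N : ℕ) :
    ∑ n ∈ range N, (h n - h (n + s)) ≤ ∑ n ∈ range s, h n := by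
  have a1 := sum_range_add h N s
  have a2 := sum_range_add h s N
  have a3 : 0 ≤ ∑ n ∈ range s, h (N + n) := sum_nonneg fun _ _ => h0 _
  have a4 : ∑ n ∈ range N, h (n + s) = ∑ n ∈ range N, h (s + n) :=
    sum_congr rfl fun n _ => by rw [add_comm]
  rw [sum_sub_distrib, a4]
  rw [add_comm s N] at a2
  linarith

/-- (TEL) with step `s` -/
theorem tel (hw : Nn w) (X : Ω → α) (O : ℕ → Ω → β) (P : ℕ → Ω → γ) (s N : ℕ) :
    ∑ n ∈ range N, I w X (P n) (O n) ≤
      ∑ n ∈ range s, H w X (O n) + ∑ n ∈ range N, H w (pr (O n) (P n)) (O (n + s)) := by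
  have h1 := sum_shift (fun n => H w X (O n)) (fun n => H_nonneg hw _ _) s N
  have h2 : ∑ n ∈ range N, I w X (P n) (O n) ≤ ∑ n ∈ range N,
      ((H w X (O n) - H w X (O (n + s))) + H w (pr (O n) (P n)) (O (n + s))) :=
    sum_le_sum fun n _ => tel_step hw X (O n) (P n) (O (n + s))
  rw [sum_add_distrib] at h2
  linarith

/-- (TEL) when every starting entropy is at most `c` -/
theorem tel_le (hw : Nn w) (X : Ω → α) (O : ℕ → Ω → β) (P : ℕ → Ω → γ) (s N : ℕ) {c : ℝ}
    (hc : ∀ n, H w X (O n) ≤ c) : ∑ n ∈ range N, I w X (P n) (O n) ≤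
      s * c + ∑ n ∈ range N, H w (pr (O n) (P n)) (O (n + s)) := by
  have h1 := tel hw X O P s N
  have h2 := sum_le_card_nsmul (range s) _ c fun n _ => hc n
  rw [card_range, nsmul_eq_mul] at h2
  linarith

/-- restriction to an event does not increase the entropy -/
theorem H_res_le (hw : Nn w) (L : Ω → Prop) (f : Ω → α) (g : Ω → β) :
    H (res w L) f g ≤ H w f g := by
  have h1 := H_res_add_le hw L f g
  have h2 := H_nonneg (hw.res fun o => ¬ L o) f g
  linarith

theorem H_res_mono (hw : Nn w) {L L' : Ω → Prop} (h : ∀ o, L' o → L o) (f : Ω → α) (g : Ω → β) :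
    H (res w L') f g ≤ H (res w L) f g := by
  have e : res w L' = res (res w L) L' := by
    rw [res_res]
    exact res_congr fun o => ⟨fun a => ⟨h o a, a⟩, fun a => a.2⟩
  rw [e]
  exact H_res_le (hw.res L) L' f g

/-- (TEL) for shrinking events `L n` (live rows, live columns) -/
theorem tel_res (hw : Nn w) (X : Ω → α) (O : ℕ → Ω → β) (P : ℕ → Ω → γ) (L : ℕ → Ω → Prop)
    (s N : ℕ) (hL : ∀ n o, L (n + s) o → L n o) :
    ∑ n ∈ range N, I (res w (L n)) X (P n) (O n) ≤ ∑ n ∈ range s, H (res w (L n)) X (O n) +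
      ∑ n ∈ range N, H (res w (L (n + s))) (pr (O n) (P n)) (O (n + s)) := by
  have h1 := sum_shift (fun n => H (res w (L n)) X (O n)) (fun n => H_nonneg (hw.res _) _ _) s N
  have h2 : ∑ n ∈ range N, I (res w (L n)) X (P n) (O n) ≤ ∑ n ∈ range N,
      ((H (res w (L n)) X (O n) - H (res w (L (n + s))) X (O (n + s))) +
        H (res w (L (n + s))) (pr (O n) (P n)) (O (n + s))) := by
    refine sum_le_sum fun n _ => ?_
    have a1 := tel_step (hw.res (L (n + s))) X (O n) (P n) (O (n + s))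
    have a2 := H_res_mono hw (hL n) X (pr (P n) (O n))
    unfold I at a1 ⊢
    linarith
  rw [sum_add_distrib] at h2
  linarith

/-- overlapping chains: `c r` is a nested sequence, `A r` is read `g` steps ahead -/
theorem ahead (hw : Nn w) (c : ℕ → Ω → α) (hc : ∀ n, Det (c (n + 1)) (c n)) (g N : ℕ)
    (Z : Ω → β) (hZ : ∀ n, Det Z (c n)) :
    ∑ r ∈ range N, H w (c (r + g)) (c r) ≤ g * H w Z (c 0) := by
  have hm : ∀ n k, Det (c (n + k)) (c n) := by
    intro n k
    induction k with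
    | zero => exact Det.rfl
    | succ k ih => exact (hc (n + k)).trans ih
  have h1 : ∀ r, H w (c (r + g)) (c r) = H w Z (c r) - H w Z (c (r + g)) := by
    intro r
    have a1 := H_chain hw (c (r + g)) Z (c r)
    have a2 : H w (pr (c (r + g)) Z) (c r) = H w Z (c r) :=
      H_congr (Det.fst.trans Det.snd) (Det.fst.trans ((hZ _).pr Det.rfl)) Det.rfl Det.rfl
    have a3 : H w Z (pr (c (r + g)) (c r)) = H w Z (c (r + g)) :=
      H_congr Det.fst Det.fst Det.fst (Det.rfl.pr (hm r g))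
    linarith
  simp only [h1]
  refine (sum_shift (fun n => H w Z (c n)) (fun n => H_nonneg hw _ _) g N).trans ?_
  have h2 := sum_le_card_nsmul (range g) (fun n => H w Z (c n)) (H w Z (c 0)) fun n _ =>
    H_mono hw Det.fst (by simpa using hm 0 n)
  rwa [card_range, nsmul_eq_mul] at h2

/-- `x` is within `r` of an integer -/
def St (r x : ℝ) : Prop := ∃ m : ℤ, |x - m| ≤ r

/-- two reals at distance at most `r` with different integer parts -/
theorem st_of_ne {r x y z : ℝ} (h1 : |x - y| ≤ r) (h2 : |x - z| ≤ r) (h : ⌊y⌋ ≠ ⌊z⌋) : St r x := by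
  have key : ∀ y z : ℝ, |x - y| ≤ r → |x - z| ≤ r → ⌊y⌋ < ⌊z⌋ → St r x := by
    intro y z h1 h2 h
    refine ⟨⌊z⌋, ?_⟩
    have a1 := Int.floor_le z
    have a2 := Int.lt_floor_add_one y
    have a3 : ((⌊y⌋ : ℤ) : ℝ) + 1 ≤ (⌊z⌋ : ℤ) := by exact_mod_cast h
    have a4 := abs_le.1 h1
    have a5 := abs_le.1 h2
    rw [abs_le]
    constructor <;> linarith
  rcases lt_or_gt_of_ne h with h | h
  · exact key y z h1 h2 h
  · exact key z y h2 h1 h

theorem floor_eq_of_not_st {r x y : ℝ} (h : ¬ St r x) (h1 : |x - y| ≤ r) : ⌊y⌋ = ⌊x⌋ := by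
  by_contra hn
  exact h (st_of_ne h1 (by simpa using (abs_nonneg _).trans h1) hn)

/-- (STRADDLE) if `g` confines `U` to an interval of length `r ≤ 1`, the integer part of `U` costs
one bit on the straddling items only -/
theorem straddle (hw : Nn w) (U : Ω → ℝ) (g : Ω → β) {r : ℝ} (hr : r ≤ 1)
    (h : ∀ o o', 0 < w o → 0 < w o' → g o = g o' → |U o - U o'| ≤ r) :
    H w (fun o => ⌊U o⌋) g ≤ tot (res w fun o => St r (U o)) := by
  set C : Ω → Prop := fun o => ∀ o' o'', 0 < w o' → 0 < w o'' → g o' = g o → g o'' = g o →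
    ⌊U o'⌋ = ⌊U o''⌋ with hC
  have h1 := gibbs' hw (fun o => ⌊U o⌋) g (fun _ o => if C o then 1 else 1 / 2)
    (fun _ o o' e => by simp only [hC, e]) (fun o _ => by split_ifs <;> norm_num) fun o ho => by
      rw [sum_const, nsmul_eq_mul]
      by_cases c : C o
      · rw [if_pos c, mul_one]
        have : vals w (fun o => ⌊U o⌋) g o ⊆ {⌊U o⌋} := by
          intro v hv
          obtain ⟨o', p, e, rfl⟩ := mem_vals.1 hv
          exact mem_singleton.2 (c o' o p ho e rfl)
        exact_mod_cast card_le_card this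
      · rw [if_neg c]
        obtain ⟨o1, ho1, hmin⟩ := exists_min_image (univ.filter fun o' => 0 < w o' ∧ g o' = g o)
          (fun o' => U o') ⟨o, by simp [ho]⟩
        have ho1' := (mem_filter.1 ho1).2
        have : vals w (fun o => ⌊U o⌋) g o ⊆ {⌊U o1⌋, ⌊U o1⌋ + 1} := by
          intro v hv
          obtain ⟨o', p, e, rfl⟩ := mem_vals.1 hv
          have a1 : U o1 ≤ U o' := hmin o' (by simp [p, e])
          have a2 := (abs_le.1 (h o' o1 p ho1'.1 (e.trans ho1'.2.symm))).2
          have a3 : ⌊U o1⌋ ≤ ⌊U o'⌋ := Int.floor_le_floor a1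
          have a4 : ⌊U o'⌋ ≤ ⌊U o1 + 1⌋ := Int.floor_le_floor (by linarith)
          rw [Int.floor_add_one] at a4
          simp only [mem_insert, mem_singleton]
          omega
        have a5 : (#(vals w (fun o => ⌊U o⌋) g o) : ℝ) ≤ 2 := by
          exact_mod_cast (card_le_card this).trans card_le_two
        linarith
  refine h1.trans ?_
  rw [← E_ind]
  refine E_mono hw fun o ho => ?_
  by_cases c : C o
  · rw [if_pos c, lg_one]
    split_ifs <;> norm_num
  · rw [if_neg c, lg_div one_pos two_pos, lg_one, lg_two]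
    have : St r (U o) := by
      simp only [hC, not_forall] at c
      obtain ⟨o', o'', p', p'', e', e'', hne⟩ := c
      exact st_of_ne (h o o' ho p' e'.symm) (h o o'' ho p'' e''.symm) hne
    rw [if_pos this]
    norm_num

/-- few offsets straddle -/
theorem card_st {K : ℕ} (hK : 1 ≤ K) {r : ℝ} (hr : 0 ≤ r) (x : ℝ) :
    (#((range K).filter fun j : ℕ => St r (x + j / K)) : ℝ) ≤ 2 * r * K + 1 := by
  have hK' : (0 : ℝ) < K := by exact_mod_cast hK
  have hK2 : (0 : ℤ) < K := by exact_mod_cast hK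
  set a : ℤ := ⌈-(K * (x + r))⌉ with ha
  set b : ℤ := ⌊K * (r - x)⌋ with hb
  have h1 : (range K).filter (fun j : ℕ => St r (x + j / K)) ⊆
      (Icc a b).image fun z : ℤ => (z % K).toNat := by
    intro j hj
    obtain ⟨hj1, m, hm⟩ := mem_filter.1 hj
    have hj2 : j < K := mem_range.1 hj1
    have a1 := abs_le.1 hm
    have a2 : (K : ℝ) * (x + j / K - m) = K * x + j - K * m := by field_simp
    have a3 := mul_le_mul_of_nonneg_left a1.1 hK'.le
    have a4 := mul_le_mul_of_nonneg_left a1.2 hK'.le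
    refine mem_image.2 ⟨j - K * m, mem_Icc.2 ⟨Int.ceil_le.2 ?_, Int.le_floor.2 ?_⟩, ?_⟩
    · push_cast; nlinarith
    · push_cast; nlinarith
    · rw [Int.sub_mul_emod_self_left, Int.emod_eq_of_lt (by omega) (by omega), Int.toNat_natCast]
  have h2 := (card_le_card h1).trans card_image_le
  rw [Int.card_Icc] at h2
  have h3 : (((b + 1 - a).toNat : ℕ) : ℝ) ≤ 2 * r * K + 1 := by
    rcases le_total 0 (b + 1 - a) with h | h
    · have a1 : (((b + 1 - a).toNat : ℕ) : ℝ) = ((b + 1 - a : ℤ) : ℝ) := by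
        rw [← Int.cast_natCast, Int.toNat_of_nonneg h]
      have a2 := Int.le_ceil (-(K * (x + r)) : ℝ)
      have a3 := Int.floor_le (K * (r - x) : ℝ)
      rw [a1]
      push_cast
      nlinarith
    · rw [Int.toNat_of_nonpos h, Nat.cast_zero]
      positivity
  exact le_trans (by exact_mod_cast h2) h3

/-- one offset that is good for a whole family of variables -/
theorem ex_offset (s : Finset ι) (u : ι → Ω → ℝ) (hu : ∀ i ∈ s, Nn (u i)) (U : ι → Ω → ℝ) {K : ℕ}
    (hK : 1 ≤ K) {r : ℝ} (hr : 0 ≤ r) : ∃ j < K,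
      ∑ i ∈ s, tot (res (u i) fun o => St r (U i o + j / K)) ≤
        (2 * r + 1 / K) * ∑ i ∈ s, tot (u i) := by
  have hK' : (0 : ℝ) < K := by exact_mod_cast hK
  have h1 : ∑ j ∈ range K, ∑ i ∈ s, tot (res (u i) fun o => St r (U i o + j / K)) ≤
      ∑ _j ∈ range K, (2 * r + 1 / K) * ∑ i ∈ s, tot (u i) := by
    rw [sum_comm, sum_const, card_range, nsmul_eq_mul, ← mul_assoc, mul_sum]
    refine sum_le_sum fun i hi => ?_
    simp only [← E_ind]
    rw [← E_sum]
    refine E_le_const (hu i hi) fun o _ => ?_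
    have a1 := card_st hK hr (U i o)
    have a2 : (K : ℝ) * (2 * r + 1 / K) = 2 * r * K + 1 := by field_simp
    rw [a2, sum_boole]
    exact a1
  obtain ⟨j, hj, h2⟩ := exists_le_of_sum_le (s := range K) ⟨0, mem_range.2 hK⟩ h1
  exact ⟨j, mem_range.1 hj, h2⟩

end Pool.Agent.Lib.MP_d308c3_co.Tel
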