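import Pool.Agent.Lib.MP_d308c3_co.Red2
import Pool.Agent.Lib.MP_d308c3_co.Expo
import Pool.Agent.Lib.MP_d308c3_co.Cut2

/-! The halving line bound follows once a positive critical exponent is excluded. -/

set_option autoImplicit false

namespace Pool.Agent.Lib.MP_d308c3_co.Top

open Finset Cut Ex
open scoped Classical

/-- empty atoms can be dropped -/
theorem strictify (F : ℕ → ℕ → ℝ) (hF : ∀ i, F i i = 0) {s : ℕ → ℕ} (hs : Monotone s) (M : ℕ) :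
    ∃ (M' : ℕ) (s' : ℕ → ℕ), M' ≤ M ∧ StrictMono s' ∧ s' 0 = s 0 ∧ s' M' = s M ∧
      ∑ j ∈ range M', F (s' j) (s' (j + 1)) = ∑ j ∈ range M, F (s j) (s (j + 1)) := by
  induction M with
  | zero => exact ⟨0, fun n => s 0 + n, le_rfl, fun _ _ h => Nat.add_lt_add_left h _, rfl, rfl, rfl⟩
  | succ M ih =>
    obtain ⟨M', s', h1, h2, h3, h4, h5⟩ := ih
    rcases (hs (Nat.le_succ M)).eq_or_lt with e | e
    · refine ⟨M', s', h1.trans (Nat.le_succ M), h2, h3, h4.trans e, ?_⟩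
      rw [sum_range_succ, h5, ← e, hF, add_zero]
    · refine ⟨M' + 1, fun n => if n ≤ M' then s' n else s (M + 1) + (n - (M' + 1)),
        Nat.succ_le_succ h1, strictMono_nat_of_lt_succ fun n => ?_, ?_, ?_, ?_⟩
      · by_cases a : n + 1 ≤ M'
        · rw [if_pos a, if_pos (by omega)]
          exact h2 (Nat.lt_succ_self n)
        · rw [if_neg a]
          by_cases b : n ≤ M'
          · rw [if_pos b]
            have : n = M' := by omega
            rw [this, h4]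
            exact e.trans_le (Nat.le_add_right _ _)
          · rw [if_neg b]
            omega
      · simp [h3]
      · simp
      · rw [sum_range_succ, sum_range_succ, ← h5]
        congr 1
        · refine sum_congr rfl fun j hj => ?_
          have := mem_range.1 hj
          simp only [if_pos (show j ≤ M' by omega), if_pos (show j + 1 ≤ M' by omega)]
        · simp [h4]

/-- runs in general position -/
def Gen (x : Finset (ℝ × ℝ) × (ℕ → ℝ) × (ℕ → ℝ)) : Prop :=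
  StrictMono x.2.1 ∧ Set.InjOn Prod.fst (x.1 : Set (ℝ × ℝ)) ∧ Set.InjOn Prod.snd (x.1 : Set (ℝ × ℝ)) ∧
    ∀ k, ∀ p ∈ x.1, x.2.2 k ≠ p.2 + x.2.1 k * p.1

/-- the window function of a run -/
noncomputable def Fam (x : {x // Gen x}) (i j : ℕ) : ℝ :=
  (Phi (St Prod.fst Prod.snd x.1.2.1 x.1.2.2) x.1.1 i j : ℝ)

theorem pw_one {I : Type*} (U : ℕ → I → Prop) (Y : Finset I) :
    PW (fun i j => (Phi U Y i j : ℝ)) 1 1 := by
  intro M s _ hs
  rw [Real.rpow_one, one_mul]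
  calc ∑ j ∈ range M, (Phi U Y (s j) (s (j + 1)) : ℝ)
      ≤ ∑ _j ∈ range M, (Phi U Y (s 0) (s M) : ℝ) := sum_le_sum fun j hj => by
        exact_mod_cast Phi_mono (hs (Nat.zero_le j)) (hs (mem_range.1 hj))
    _ = M * (Phi U Y (s 0) (s M) : ℝ) := by simp

theorem Phi_self {I : Type*} (U : ℕ → I → Prop) (Y : Finset I) (i : ℕ) : Phi U Y i i = 0 := by
  have : Ch U Y i i = ∅ := by
    refine eq_empty_of_forall_notMem fun p hp => ?_
    obtain ⟨-, k, l, a, b, c, d, e, f⟩ := mem_Ch.1 hp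
    have : k = l := by omega
    exact f (this ▸ e)
  simp [Phi, Dr, this]

theorem of_pp {g : ℝ} (hg : 0 < g) (h : PP Fam g) :
    ∃ C : ℝ, ∀ (X : Finset (ℝ × ℝ)) (K : ℕ) (t m : ℕ → ℝ),
      StrictMono t → Set.InjOn Prod.fst (X : Set (ℝ × ℝ)) → Set.InjOn Prod.snd (X : Set (ℝ × ℝ)) →
      (∀ k ≤ K, ∀ p ∈ X, p.2 + t k * p.1 ≠ m k) →
      (∀ k ≤ K, (Red.U X (t k) (m k)).card = (Red.U X (t 0) (m 0)).card) →
      ((∑ k ∈ range K,
        (symmDiff (Red.U X (t k) (m k)) (Red.U X (t (k + 1)) (m (k + 1)))).card : ℕ) : ℝ) ≤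
        C * (K : ℝ) ^ g * X.card := by
  obtain ⟨C, hC, h⟩ := h
  refine ⟨C, fun X K t m ht h1 h2 h3 h4 => ?_⟩
  rcases Nat.eq_zero_or_pos K with rfl | hK
  · simp [Real.zero_rpow hg.ne']
  have hex : ∀ k, ∃ c : ℝ, c ∉ X.image fun p => p.2 + t k * p.1 := fun k => Infinite.exists_notMem_finset _
  choose c hc using hex
  let m' : ℕ → ℝ := fun k => if k ≤ K then m k else c k
  have hm : ∀ k ≤ K, m' k = m k := fun k hk => if_pos hk
  have hG : Gen (X, t, m') := by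
    refine ⟨ht, h1, h2, fun k p hp => ?_⟩
    by_cases hk : k ≤ K
    · exact fun e => h3 k hk p hp ((hm k hk).symm.trans e).symm
    · have : m' k = c k := if_neg hk
      exact fun e => hc k (mem_image.2 ⟨p, hp, (this.symm.trans e).symm⟩)
  have h5 := h ⟨_, hG⟩ K id hK monotone_id
  simp only [Fam, id] at h5
  set U := St Prod.fst Prod.snd t m' with hU
  have hmem : ∀ k ≤ K, ∀ p, p ∈ Red.U X (t k) (m k) ↔ p ∈ X ∧ U k p := by
    intro k hk p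
    simp only [Red.U, mem_filter, hU, St, hm k hk]
  have hcnt : ∀ k ≤ K, cnt U X k = (Red.U X (t 0) (m 0)).card := by
    intro k hk
    rw [← h4 k hk]
    unfold cnt
    congr 1
    ext p
    rw [hmem k hk, mem_filter]
  have hD : Dr U X 0 K = 0 := by
    refine sum_eq_zero fun k hk => ?_
    have := (mem_Ico.1 hk).2
    rw [hcnt k this.le, hcnt (k + 1) this, sub_self, Int.natAbs_zero]
  have h6 : (Phi U X 0 K : ℝ) ≤ X.card := by
    unfold Phi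
    rw [hD, add_zero]
    exact_mod_cast card_le_card Ch_subset
  refine le_trans ?_ (h5.trans (mul_le_mul_of_nonneg_left h6 (by positivity)))
  push_cast
  refine sum_le_sum fun k hk => ?_
  have hk' := mem_range.1 hk
  have : symmDiff (Red.U X (t k) (m k)) (Red.U X (t (k + 1)) (m (k + 1))) ⊆ Ch U X k (k + 1) := by
    intro p hp
    rw [mem_symmDiff, hmem k hk'.le, hmem (k + 1) hk'] at hp
    rcases hp with ⟨⟨a, b⟩, d⟩ | ⟨⟨a, b⟩, d⟩
    · exact mem_Ch.2 ⟨a, k, k + 1, le_rfl, Nat.le_succ k, Nat.le_succ k, le_rfl, b, fun e => d ⟨a, e⟩⟩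
    · exact mem_Ch.2 ⟨a, k + 1, k, Nat.le_succ k, le_rfl, le_rfl, Nat.le_succ k, b, fun e => d ⟨a, e⟩⟩
  exact_mod_cast (card_le_card this).trans (Nat.le_add_right _ _)

/-- the data of a positive critical exponent -/
theorem data (h : ¬ ∀ g, 0 < g → PP Fam g) :
    ∃ γ : ℝ, 0 < γ ∧ γ ≤ 1 ∧ ∀ ε : ℝ, 0 < ε → ∃ C0 : ℝ, 1 ≤ C0 ∧ ∀ M0 : ℕ,
      ∃ (Z : Finset (ℝ × ℝ)) (t m : ℕ → ℝ) (s : ℕ → ℕ) (M : ℕ), M0 ≤ M ∧ StrictMono t ∧
        Set.InjOn Prod.fst (Z : Set (ℝ × ℝ)) ∧ Set.InjOn Prod.snd (Z : Set (ℝ × ℝ)) ∧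
        (∀ k, ∀ p ∈ Z, m k ≠ p.2 + t k * p.1) ∧ StrictMono s ∧
        (∀ Y ⊆ Z, PW (fun i j => (Phi (St Prod.fst Prod.snd t m) Y i j : ℝ)) (γ + ε) C0) ∧
        0 < Phi (St Prod.fst Prod.snd t m) Z (s 0) (s M) ∧
        (M : ℝ) ^ (γ - ε) * (Phi (St Prod.fst Prod.snd t m) Z (s 0) (s M) : ℝ) ≤
          ((∑ i ∈ range M, (Ch (St Prod.fst Prod.snd t m) Z (s i) (s (i + 1))).card : ℕ) : ℝ) := by
  have hF : ∀ x i j, 0 ≤ Fam x i j := fun _ _ _ => Nat.cast_nonneg _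
  have h1 : ∀ x, PW (Fam x) 1 1 := fun x => pw_one _ _
  obtain ⟨γ, g0, g1, hγ⟩ := exists_gam hF ⟨1, zero_le_one, h1⟩ h
  refine ⟨γ, g0, g1, fun ε hε => ?_⟩
  obtain ⟨C, -, hC⟩ := (hγ ε hε).1
  refine ⟨max C 1, le_max_right _ _, fun M0 => ?_⟩
  have hg : 0 ≤ γ - min ε γ := sub_nonneg.2 (min_le_right _ _)
  obtain ⟨x, M, s, -, hM, hs, hp, hlt⟩ :=
    exists_big hF h1 hg (hγ _ (lt_min hε g0)).2 (M0 + 2) 0
  obtain ⟨M', s', a1, a2, a3, a4, a5⟩ :=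
    strictify (Fam x) (fun i => by simp [Fam, Phi_self]) hs M
  obtain ⟨⟨Z, t, m⟩, ht, b1, b2, b3⟩ := x
  rw [← a5, ← a3, ← a4] at hlt
  rw [← a3, ← a4] at hp
  simp only [Fam] at hlt hp
  set U := St Prod.fst Prod.snd t m with hU
  set F : ℝ := (Phi U Z (s' 0) (s' M') : ℝ) with hFd
  have hM1 : (1 : ℝ) ≤ M := by exact_mod_cast hM
  have e1 : (1 : ℝ) ≤ (M : ℝ) ^ (γ - min ε γ) := Real.one_le_rpow hM1 hg
  have hM0 : (0 : ℝ) ≤ M0 := Nat.cast_nonneg _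
  have hM' : 1 ≤ M' := by
    rcases Nat.eq_zero_or_pos M' with e | e
    · subst e
      rw [sum_range_zero] at hlt
      exact absurd hlt (not_lt.2 (by positivity))
    · exact e
  have e2 := pw_one U Z M' s' hM' a2.monotone
  simp only [Real.rpow_one, one_mul] at e2
  have e3 : (M0 : ℝ) ≤ M' := by
    have := lt_of_mul_lt_mul_right (hlt.trans_le e2) hp.le
    nlinarith
  refine ⟨Z, t, m, s', M', by exact_mod_cast e3, ht, b1, b2, b3, a2, fun Y hY => ?_,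
    Nat.cast_pos.1 (hFd ▸ hp), ?_⟩
  · exact (hC ⟨(Y, t, m), ht, b1.mono hY, b2.mono hY, fun k p hp => b3 k p (hY hp)⟩).mono
      (hF _) le_rfl (le_max_left _ _) (zero_le_one.trans (le_max_right _ _))
  · have d1 := sum_Dr_consec (U := U) (Y := Z) a2.monotone (Nat.zero_le M')
    rw [← range_eq_Ico] at d1
    have d2 : ∑ j ∈ range M', (Phi U Z (s' j) (s' (j + 1)) : ℝ)
        = ((∑ i ∈ range M', (Ch U Z (s' i) (s' (i + 1))).card : ℕ) : ℝ) + Dr U Z (s' 0) (s' M') := by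
      rw [← d1]
      simp only [Phi]
      push_cast
      rw [sum_add_distrib]
    have d3 : (Dr U Z (s' 0) (s' M') : ℝ) ≤ F := by
      rw [hFd]
      exact_mod_cast Nat.le_add_left _ _
    have hM1' : (1 : ℝ) ≤ M' := by exact_mod_cast hM'
    have d4 : (M' : ℝ) ^ (γ - ε) ≤ (M : ℝ) ^ (γ - min ε γ) :=
      (Real.rpow_le_rpow_of_exponent_le hM1' (by linarith [min_le_left ε γ])).trans
        (Real.rpow_le_rpow (by linarith) (by exact_mod_cast a1) hg)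
    rw [d2] at hlt
    have d5 := mul_le_mul_of_nonneg_right d4 hp.le
    have d6 := mul_le_mul_of_nonneg_right e1 hp.le
    have d7 : 0 ≤ (M0 : ℝ) * ((M : ℝ) ^ (γ - min ε γ) * F) := by positivity
    nlinarith

theorem top (H : ∀ γ : ℝ, 0 < γ → γ ≤ 1 → ∃ ε : ℝ, 0 < ε ∧ ∀ C0 : ℝ, 1 ≤ C0 → ∃ M0 : ℕ,
      ∀ (Z : Finset (ℝ × ℝ)) (t m : ℕ → ℝ) (s : ℕ → ℕ) (M : ℕ), M0 ≤ M → StrictMono t →
        Set.InjOn Prod.fst (Z : Set (ℝ × ℝ)) → Set.InjOn Prod.snd (Z : Set (ℝ × ℝ)) →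
        (∀ k, ∀ p ∈ Z, m k ≠ p.2 + t k * p.1) → StrictMono s →
        (∀ Y ⊆ Z, PW (fun i j => (Phi (St Prod.fst Prod.snd t m) Y i j : ℝ)) (γ + ε) C0) →
        0 < Phi (St Prod.fst Prod.snd t m) Z (s 0) (s M) →
        (M : ℝ) ^ (γ - ε) * (Phi (St Prod.fst Prod.snd t m) Z (s 0) (s M) : ℝ) ≤
          ((∑ i ∈ range M, (Ch (St Prod.fst Prod.snd t m) Z (s i) (s (i + 1))).card : ℕ) : ℝ) →
        False) :
    ∀ ε : ℝ, 0 < ε → ∀ δ : ℝ, 0 < δ → ∃ N : ℕ, ∀ S : Finset (ℝ × ℝ),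
      N ≤ S.card →
      (∀ p ∈ S, ∀ q ∈ S, ∀ r ∈ S, p ≠ q → p ≠ r → q ≠ r →
        (q.1 - p.1) * (r.2 - p.2) - (q.2 - p.2) * (r.1 - p.1) ≠ 0) →
      (((S ×ˢ S).filter (fun x => x.1 ≠ x.2 ∧
          (S.filter (fun r => 0 < (x.2.1 - x.1.1) * (r.2 - x.1.2)
              - (x.2.2 - x.1.2) * (r.1 - x.1.1))).card * 2 + 2 = S.card)).card : ℝ)
        ≤ δ * (S.card : ℝ) ^ (1 + ε) := by
  have key : ∀ g, 0 < g → PP Fam g := by
    by_contra h
    obtain ⟨γ, g0, g1, hγ⟩ := data h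
    obtain ⟨ε, hε, h2⟩ := H γ g0 g1
    obtain ⟨C0, hC, h3⟩ := hγ ε hε
    obtain ⟨M0, h4⟩ := h2 C0 hC
    obtain ⟨Z, t, m, s, M, a, b, c, d, e, f, g, i, j⟩ := h3 M0
    exact h4 Z t m s M a b c d e f g i j
  convert Red.red2 fun g hg => of_pp hg (key g hg)

end Pool.Agent.Lib.MP_d308c3_co.Top
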