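import Pool.Agent.Lib.MP_108739_an.F.Ent1

/-! Tower of block lengths and the final sum over windows. -/

set_option autoImplicit false

namespace Pool.Agent.Lib.MP_d308c3_co.Tow

open Finset Pool.Agent.Lib.MP_108739_an.F

open Classical

noncomputable section

/-- the block of length `g` with number `j` has a marked level -/
def Hit (Mk : ℕ → Prop) (g j : ℕ) : Prop := ∃ i, i / g = j ∧ Mk i

/-- number of levels below `L` whose block of length `g` has a marked level -/
def cov (Mk : ℕ → Prop) (g L : ℕ) : ℕ := #((range L).filter fun i => Hit Mk g (i / g))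

theorem cov_le (Mk : ℕ → Prop) (g L : ℕ) : cov Mk g L ≤ L :=
  (card_filter_le _ _).trans_eq (card_range L)

theorem Hit.up {Mk : ℕ → Prop} {g G i : ℕ} (h : g ∣ G) (H : Hit Mk g (i / g)) :
    Hit Mk G (i / G) := by
  obtain ⟨c, rfl⟩ := h
  obtain ⟨i', e, m⟩ := H
  exact ⟨i', by rw [← Nat.div_div_eq_div_mul, ← Nat.div_div_eq_div_mul, e], m⟩

/-- number of blocks of length `g` without a mark among the blocks `j0 ≤ j < j0 + nb` -/
def unm (Mk : ℕ → Prop) (g j0 nb : ℕ) : ℕ := #((range nb).filter fun j => ¬ Hit Mk g (j0 + j))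

variable {Ω : Type} [Fintype Ω] {w : Ω → ℝ}

/-- pigeonhole along a tower -/
theorem tower (hw : Nn w) (Mk : ℕ → Ω → Prop) (gs : ℕ → ℕ) (L k : ℕ) (hk : 0 < k) :
    ∃ n < k, E w (fun o => (cov (fun i => Mk i o) (gs (n + 1)) L : ℝ) -
      cov (fun i => Mk i o) (gs n) L) ≤ L * tot w / k := by
  set f : ℕ → ℝ := fun n => E w fun o => (cov (fun i => Mk i o) (gs n) L : ℝ) with hf
  have h1 : ∑ n ∈ range k, (f (n + 1) - f n) ≤ ∑ _n ∈ range k, L * tot w / k := by
    rw [sum_range_sub, sum_const, card_range, nsmul_eq_mul,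
      mul_div_cancel₀ _ (by exact_mod_cast hk.ne')]
    have a : f k ≤ L * tot w := E_le_const hw fun o _ => by exact_mod_cast cov_le _ _ _
    have b : 0 ≤ f 0 := E_nonneg hw fun o _ => Nat.cast_nonneg _
    linarith
  obtain ⟨n, hn, h⟩ := exists_le_of_sum_le ⟨0, mem_range.2 hk⟩ h1
  exact ⟨n, mem_range.1 hn, by rw [E_sub]; exact h⟩

/-- unmarked short blocks inside marked long blocks -/
theorem unm_sum (Mk : ℕ → Prop) {g c d : ℕ} (hg : 0 < g) (hd : d ≤ c) (n : ℕ) :
    (g : ℝ) * ∑ t ∈ range n, (if Hit Mk (g * c) t then (unm Mk g (t * c + d) (c - d) : ℝ) else 0) ≤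
      (cov Mk (g * c) (n * (g * c)) : ℝ) - cov Mk g (n * (g * c)) := by
  rcases Nat.eq_zero_or_pos c with rfl | hc
  · have : d = 0 := by omega
    subst this
    simp [unm, cov]
  have key : (cov Mk (g * c) (n * (g * c)) : ℝ) - cov Mk g (n * (g * c)) =
      #((range (n * (g * c))).filter fun i => Hit Mk (g * c) (i / (g * c)) ∧ ¬ Hit Mk g (i / g)) := by
    have := card_filter_add_card_filter_not (s := (range (n * (g * c))).filter fun i =>
      Hit Mk (g * c) (i / (g * c))) (fun i => Hit Mk g (i / g))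
    rw [filter_filter, filter_filter] at this
    have e : (range (n * (g * c))).filter (fun i => Hit Mk (g * c) (i / (g * c)) ∧ Hit Mk g (i / g))
        = (range (n * (g * c))).filter fun i => Hit Mk g (i / g) :=
      filter_congr fun i _ => ⟨fun h => h.2, fun h => ⟨h.up (dvd_mul_right g c), h⟩⟩
    rw [e] at this
    unfold cov
    rw [← this]
    push_cast
    ring
  rw [key]
  let S : Finset ((_ : ℕ) × ℕ × ℕ) := ((range n).filter fun t => Hit Mk (g * c) t).sigma fun t =>
    ((range (c - d)).filter fun j => ¬ Hit Mk g (t * c + d + j)) ×ˢ range g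
  have hS : (#S : ℝ) = (g : ℝ) * ∑ t ∈ range n,
      (if Hit Mk (g * c) t then (unm Mk g (t * c + d) (c - d) : ℝ) else 0) := by
    rw [card_sigma, ← sum_filter, mul_sum]
    push_cast
    refine sum_congr rfl fun t _ => ?_
    rw [card_product, card_range]
    unfold unm
    push_cast
    ring
  rw [← hS]
  have dv : ∀ a r : ℕ, r < g → (a * g + r) / g = a := fun a r hr => by
    rw [add_comm, Nat.add_mul_div_right _ _ hg, Nat.div_eq_of_lt hr, zero_add]
  have dc : ∀ t j : ℕ, j < c - d → (t * c + d + j) / c = t := fun t j hj => by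
    rw [add_assoc, add_comm, Nat.add_mul_div_right _ _ hc, Nat.div_eq_of_lt (by omega), zero_add]
  refine Nat.cast_le.2 (card_le_card_of_injOn
    (fun x => (x.1 * c + d + x.2.1) * g + x.2.2) ?_ ?_)
  · rintro ⟨t, j, r⟩ hx
    simp only [S, coe_sigma, Set.mem_sigma_iff, coe_filter, mem_range, Set.mem_ofPred_eq,
      mem_coe, mem_product, mem_filter] at hx
    obtain ⟨⟨ht, hH⟩, ⟨hj, hn⟩, hr⟩ := hx
    simp only [coe_filter, mem_range, Set.mem_ofPred_eq]
    refine ⟨?_, ?_, ?_⟩
    · have a1 : t * c + d + j + 1 ≤ n * c := by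
        have : (t + 1) * c ≤ n * c := Nat.mul_le_mul_right c ht
        have e : (t + 1) * c = t * c + c := by ring
        omega
      have a2 : (t * c + d + j + 1) * g ≤ n * c * g := Nat.mul_le_mul_right g a1
      have e1 : (t * c + d + j + 1) * g = (t * c + d + j) * g + g := by ring
      have e2 : n * (g * c) = n * c * g := by ring
      omega
    · rw [← Nat.div_div_eq_div_mul, dv _ _ hr, dc _ _ hj]; exact hH
    · rw [dv _ _ hr]; exact hn
  · rintro ⟨t, j, r⟩ hx ⟨t', j', r'⟩ hx' e
    simp only [S, coe_sigma, Set.mem_sigma_iff, coe_filter, mem_range, Set.mem_ofPred_eq,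
      mem_coe, mem_product, mem_filter] at hx hx'
    obtain ⟨-, ⟨hj, -⟩, hr⟩ := hx
    obtain ⟨-, ⟨hj', -⟩, hr'⟩ := hx'
    simp only at e
    have e1 : t * c + d + j = t' * c + d + j' := by rw [← dv (t * c + d + j) _ hr, e, dv _ _ hr']
    have e2 : t = t' := by rw [← dc t _ hj, e1, dc _ _ hj']
    subst e2
    have e3 : j = j' := by omega
    subst e3
    have e4 : r = r' := by omega
    subst e4
    rfl

theorem sum_blocks (f : ℕ → ℝ) (G n : ℕ) :
    ∑ i ∈ range (n * G), f i = ∑ t ∈ range n, ∑ i ∈ range G, f (t * G + i) := by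
  induction n with
  | zero => simp
  | succ n ih => rw [sum_range_succ, ← ih, add_mul, one_mul, sum_range_add]

/-- pointwise splitting of the gain: heads of the long blocks, levels without a mark,
positive parts on the windows, unmarked short blocks in marked long blocks -/
theorem split (Mk : ℕ → Prop) (f : ℕ → ℝ) (hf : ∀ i, 0 ≤ f i) {β : ℝ} (hβ : 0 ≤ β) {g c d : ℕ}
    (hg : 0 < g) (hd : d ≤ c) (n : ℕ) :
    ∑ i ∈ range (n * (g * c)), f i ≤
      ∑ t ∈ range n, ∑ i ∈ range (g * d), f (t * (g * c) + i) +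
      ∑ i ∈ range (n * (g * c)), (if Mk i then 0 else f i) +
      ∑ t ∈ range n, max 0 (∑ i ∈ range (g * (c - d)), f (t * (g * c) + g * d + i) -
        β * unm Mk g (t * c + d) (c - d)) +
      β / g * ((cov Mk (g * c) (n * (g * c)) : ℝ) - cov Mk g (n * (g * c))) := by
  have hg' : (0 : ℝ) < g := by exact_mod_cast hg
  have h1 := unm_sum Mk hg hd n
  have h2 : β * ∑ t ∈ range n,
      (if Hit Mk (g * c) t then (unm Mk g (t * c + d) (c - d) : ℝ) else 0) ≤
      β / g * ((cov Mk (g * c) (n * (g * c)) : ℝ) - cov Mk g (n * (g * c))) := by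
    refine le_trans (le_of_eq ?_) (mul_le_mul_of_nonneg_left h1 (div_nonneg hβ hg'.le))
    field_simp
  refine le_trans ?_ (add_le_add_right h2 _)
  rw [sum_blocks, sum_blocks (fun i => if Mk i then 0 else f i), mul_sum, ← sum_add_distrib,
    ← sum_add_distrib, ← sum_add_distrib]
  refine sum_le_sum fun t _ => ?_
  have e : g * c = g * d + g * (c - d) := by rw [← mul_add, Nat.add_sub_cancel' hd]
  have h0 : 0 ≤ ∑ i ∈ range (g * c), (if Mk (t * (g * c) + i) then 0 else f (t * (g * c) + i)) :=
    sum_nonneg fun i _ => by split_ifs; exacts [le_rfl, hf _]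
  have h3 : 0 ≤ ∑ i ∈ range (g * d), f (t * (g * c) + i) := sum_nonneg fun i _ => hf _
  by_cases hH : Hit Mk (g * c) t
  · rw [if_pos hH]
    have h4 : ∑ i ∈ range (g * c), f (t * (g * c) + i) = ∑ i ∈ range (g * d), f (t * (g * c) + i) +
        ∑ i ∈ range (g * (c - d)), f (t * (g * c) + g * d + i) := by
      conv_lhs => rw [show range (g * c) = range (g * d + g * (c - d)) by rw [← e]]
      rw [sum_range_add]
      simp only [add_assoc]
    have h5 := le_max_right 0 (∑ i ∈ range (g * (c - d)), f (t * (g * c) + g * d + i) -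
        β * unm Mk g (t * c + d) (c - d))
    linarith
  · rw [if_neg hH]
    have h4 : ∑ i ∈ range (g * c), f (t * (g * c) + i) =
        ∑ i ∈ range (g * c), (if Mk (t * (g * c) + i) then 0 else f (t * (g * c) + i)) := by
      refine sum_congr rfl fun i hi => ?_
      rw [if_neg]
      intro hm
      refine hH ⟨_, ?_, hm⟩
      have hi' := mem_range.1 hi
      rw [add_comm, Nat.add_mul_div_right _ _ (by omega), Nat.div_eq_of_lt hi', zero_add]
    have h5 := le_max_left 0 (∑ i ∈ range (g * (c - d)), f (t * (g * c) + g * d + i) -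
        β * unm Mk g (t * c + d) (c - d))
    linarith

end

end Pool.Agent.Lib.MP_d308c3_co.Tow
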