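import Pool.Agent.Lib.MP_d308c3_co.Expo

/-! Rows of a family of clean windows in a time tree: the geometric input of the annulus lemma. -/

set_option autoImplicit false

namespace Pool.Agent.Lib.MP_d308c3_co.LxT

open Finset Ex
open scoped Classical

variable {W : Type}

/-- the level `n` ancestor of `j` -/
def win (lo hi : ℕ → W → ℕ) (n : ℕ) (j : W) : ℕ × ℕ := (lo n j, hi n j)

/-- `J` is a family of level `u` windows below `[k0, k1]`, clean at all levels `1 .. u` -/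
structure Anc (J : Finset W) (lo hi : ℕ → W → ℕ) (τ : ℕ → ℝ) (u β : ℕ) (Λ : ℝ) (k0 k1 : ℕ) : Prop where
  mono : StrictMono τ
  root : ∀ j ∈ J, lo 0 j = k0 ∧ hi 0 j = k1
  lt : ∀ j ∈ J, lo u j < hi u j
  inj : ∀ j ∈ J, ∀ j' ∈ J, win lo hi u j = win lo hi u j' → j = j'
  nest : ∀ n < u, ∀ j ∈ J, lo n j ≤ lo (n + 1) j ∧ hi (n + 1) j ≤ hi n j
  det : ∀ n < u, ∀ j ∈ J, ∀ j' ∈ J,
    win lo hi (n + 1) j = win lo hi (n + 1) j' → win lo hi n j = win lo hi n j'
  half : ∀ n < u, ∀ j ∈ J, 2 * (τ (hi (n + 1) j) - τ (lo (n + 1) j)) ≤ τ (hi n j) - τ (lo n j)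
  sep : ∀ n < u, ∀ j ∈ J, ∀ j' ∈ J, win lo hi n j = win lo hi n j' →
    win lo hi (n + 1) j ≠ win lo hi (n + 1) j' → lo (n + 1) j ≤ lo (n + 1) j' →
    hi (n + 1) j ≤ lo (n + 1) j' ∧
      τ (hi (n + 1) j') - τ (lo (n + 1) j) ≤ Λ * (τ (lo (n + 1) j') - τ (hi (n + 1) j))
  br : ∀ n < u, ∀ j ∈ J,
    ((J.filter fun j' => win lo hi n j' = win lo hi n j).image (win lo hi (n + 1))).card ≤ β

/-- length of the hull of two windows -/
noncomputable def hull (τ : ℕ → ℝ) (x y : ℕ × ℕ) : ℝ := τ (max x.2 y.2) - τ (min x.1 y.1)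

theorem hull_comm (τ : ℕ → ℝ) (x y : ℕ × ℕ) : hull τ x y = hull τ y x := by
  rw [hull, hull, max_comm, min_comm]

/-- rows seen from one window -/
noncomputable def rowsJ (J : Finset W) (lo hi : ℕ → W → ℕ) (τ : ℕ → ℝ) (l1 : ℕ) (j : W) : Finset ℝ :=
  (range l1).biUnion fun n =>
    ((J.filter fun j' => win lo hi n j' = win lo hi n j).image (win lo hi (n + 1))).image
      (hull τ (win lo hi (n + 1) j))

/-- rows of a level `l2` window -/
noncomputable def rows (J : Finset W) (lo hi : ℕ → W → ℕ) (τ : ℕ → ℝ) (l1 l2 : ℕ) (d : ℕ × ℕ) :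
    Finset ℝ :=
  if h : ∃ j ∈ J, win lo hi l2 j = d then rowsJ J lo hi τ l1 h.choose else ∅

variable {J : Finset W} {lo hi : ℕ → W → ℕ} {τ : ℕ → ℝ} {u β : ℕ} {Λ : ℝ} {k0 k1 : ℕ}

namespace Anc

theorem nest_le (h : Anc J lo hi τ u β Λ k0 k1) {n m : ℕ} (hn : n ≤ m) (hm : m ≤ u) {j : W}
    (hj : j ∈ J) : lo n j ≤ lo m j ∧ hi m j ≤ hi n j := by
  induction m, hn using Nat.le_induction with
  | base => exact ⟨le_rfl, le_rfl⟩
  | succ m _ ih =>
    have h1 := ih (by omega)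
    have h2 := h.nest m hm j hj
    exact ⟨h1.1.trans h2.1, h2.2.trans h1.2⟩

theorem lt_at (h : Anc J lo hi τ u β Λ k0 k1) {n : ℕ} (hn : n ≤ u) {j : W} (hj : j ∈ J) :
    lo n j < hi n j := by
  have h1 := h.nest_le hn le_rfl hj
  have h2 := h.lt j hj
  omega

theorem det_le (h : Anc J lo hi τ u β Λ k0 k1) {n m : ℕ} (hn : n ≤ m) (hm : m ≤ u) {j j' : W}
    (hj : j ∈ J) (hj' : j' ∈ J) (e : win lo hi m j = win lo hi m j') :
    win lo hi n j = win lo hi n j' := by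
  induction m, hn using Nat.le_induction with
  | base => exact e
  | succ m _ ih => exact ih (by omega) (h.det m hm j hj j' hj' e)

theorem half_le (h : Anc J lo hi τ u β Λ k0 k1) (n g : ℕ) (hm : n + g ≤ u) {j : W} (hj : j ∈ J) :
    2 ^ g * (τ (hi (n + g) j) - τ (lo (n + g) j)) ≤ τ (hi n j) - τ (lo n j) := by
  induction g with
  | zero => simp
  | succ g ih =>
    have h1 := ih (by omega)
    have h2 := h.half (n + g) (by omega) j hj
    have h3 : (0 : ℝ) < 2 ^ g := by positivity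
    rw [pow_succ, mul_assoc]
    exact (mul_le_mul_of_nonneg_left h2 h3.le).trans h1

/-- the level at which two windows part -/
theorem ex_split (h : Anc J lo hi τ u β Λ k0 k1) {j j' : W} (hj : j ∈ J) (hj' : j' ∈ J) {m : ℕ}
    (e : win lo hi m j ≠ win lo hi m j') :
    ∃ n < m, win lo hi n j = win lo hi n j' ∧ win lo hi (n + 1) j ≠ win lo hi (n + 1) j' := by
  induction m with
  | zero =>
    exact absurd (Prod.ext ((h.root j hj).1.trans (h.root j' hj').1.symm)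
      ((h.root j hj).2.trans (h.root j' hj').2.symm)) e
  | succ m ih =>
    by_cases e' : win lo hi m j = win lo hi m j'
    · exact ⟨m, Nat.lt_succ_self m, e', e⟩
    · obtain ⟨n, a, b⟩ := ih e'
      exact ⟨n, a.trans (Nat.lt_succ_self m), b⟩

theorem dis_at (h : Anc J lo hi τ u β Λ k0 k1) {m : ℕ} (hm : m ≤ u) {j j' : W} (hj : j ∈ J)
    (hj' : j' ∈ J) (e : win lo hi m j ≠ win lo hi m j') : hi m j ≤ lo m j' ∨ hi m j' ≤ lo m j := by
  obtain ⟨n, a, b, c⟩ := h.ex_split hj hj' e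
  have h1 := h.nest_le (Nat.succ_le_of_lt a) hm hj
  have h2 := h.nest_le (Nat.succ_le_of_lt a) hm hj'
  rcases le_total (lo (n + 1) j) (lo (n + 1) j') with d | d
  · exact Or.inl (h1.2.trans ((h.sep n (by omega) j hj j' hj' b c d).1.trans h2.1))
  · exact Or.inr (h2.2.trans ((h.sep n (by omega) j' hj' j hj b.symm c.symm d).1.trans h1.1))

/-- the leaves are disjoint windows -/
theorem dis (h : Anc J lo hi τ u β Λ k0 k1) : Dis J (lo u) (hi u) k0 k1 :=
  ⟨h.lt, fun j hj => (h.root j hj).1 ▸ (h.nest_le (Nat.zero_le u) le_rfl hj).1,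
    fun j hj => (h.root j hj).2 ▸ (h.nest_le (Nat.zero_le u) le_rfl hj).2,
    fun j hj j' hj' e => h.dis_at le_rfl hj hj' fun e' => e (h.inj j hj j' hj' e')⟩

/-- the ancestors of one level are disjoint windows -/
theorem dis_image (h : Anc J lo hi τ u β Λ k0 k1) {m : ℕ} (hm : m ≤ u) :
    Dis (J.image (win lo hi m)) Prod.fst Prod.snd k0 k1 := by
  refine ⟨fun d hd => ?_, fun d hd => ?_, fun d hd => ?_, fun d hd d' hd' e => ?_⟩
  · obtain ⟨j, hj, rfl⟩ := mem_image.1 hd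
    exact h.lt_at hm hj
  · obtain ⟨j, hj, rfl⟩ := mem_image.1 hd
    exact (h.root j hj).1 ▸ (h.nest_le (Nat.zero_le m) hm hj).1
  · obtain ⟨j, hj, rfl⟩ := mem_image.1 hd
    exact (h.root j hj).2 ▸ (h.nest_le (Nat.zero_le m) hm hj).2
  · obtain ⟨j, hj, rfl⟩ := mem_image.1 hd
    obtain ⟨j', hj', rfl⟩ := mem_image.1 hd'
    exact h.dis_at hm hj hj' e

theorem card_desc (h : Anc J lo hi τ u β Λ k0 k1) (n : ℕ) (d : ℕ × ℕ) (m : ℕ) (hm : n + m ≤ u) :
    ((J.filter fun j => win lo hi n j = d).image (win lo hi (n + m))).card ≤ β ^ m := by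
  induction m with
  | zero =>
    rw [pow_zero]
    refine card_le_one.2 fun x hx y hy => ?_
    obtain ⟨j, hj, rfl⟩ := mem_image.1 hx
    obtain ⟨j', hj', rfl⟩ := mem_image.1 hy
    exact (mem_filter.1 hj).2.trans (mem_filter.1 hj').2.symm
  | succ m ih =>
    have h1 : (J.filter fun j => win lo hi n j = d).image (win lo hi (n + (m + 1))) ⊆
        ((J.filter fun j => win lo hi n j = d).image (win lo hi (n + m))).biUnion fun e =>
          (J.filter fun j => win lo hi (n + m) j = e).image (win lo hi (n + m + 1)) := by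
      intro x hx
      obtain ⟨j, hj, rfl⟩ := mem_image.1 hx
      exact mem_biUnion.2 ⟨_, mem_image_of_mem _ hj,
        mem_image.2 ⟨j, mem_filter.2 ⟨(mem_filter.1 hj).1, rfl⟩, rfl⟩⟩
    refine (card_le_card h1).trans ((card_biUnion_le_card_mul _ _ β fun e he => ?_).trans ?_)
    · obtain ⟨j, hj, rfl⟩ := mem_image.1 he
      exact h.br (n + m) (by omega) j (mem_filter.1 hj).1
    · rw [pow_succ]
      exact Nat.mul_le_mul_right _ (ih (by omega))

/-- at most `β ^ m` leaves below a window `m` levels up -/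
theorem card_fib (h : Anc J lo hi τ u β Λ k0 k1) {n m : ℕ} (hm : n + m = u) (d : ℕ × ℕ) :
    (J.filter fun j => win lo hi n j = d).card ≤ β ^ m := by
  refine le_trans (le_of_eq (card_image_of_injOn ?_).symm) (h.card_desc n d m hm.le)
  intro j hj j' hj' e
  exact h.inj j (mem_filter.1 hj).1 j' (mem_filter.1 hj').1 (hm ▸ e)

theorem card_le (h : Anc J lo hi τ u β Λ k0 k1) : J.card ≤ β ^ u := by
  have := h.card_fib (Nat.zero_add u) (k0, k1)
  rwa [filter_true_of_mem fun j hj => Prod.ext (h.root j hj).1 (h.root j hj).2] at this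

theorem rows_eq (h : Anc J lo hi τ u β Λ k0 k1) {l1 l2 : ℕ} (h1 : l1 ≤ l2) (h2 : l2 ≤ u) {j : W}
    (hj : j ∈ J) : rows J lo hi τ l1 l2 (win lo hi l2 j) = rowsJ J lo hi τ l1 j := by
  have he : ∃ j' ∈ J, win lo hi l2 j' = win lo hi l2 j := ⟨j, hj, rfl⟩
  rw [rows, dif_pos he]
  obtain ⟨a, b⟩ := he.choose_spec
  refine biUnion_congr rfl fun n hn => ?_
  have := mem_range.1 hn
  rw [h.det_le (show n ≤ l2 by omega) h2 a hj b, h.det_le (show n + 1 ≤ l2 by omega) h2 a hj b]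

theorem card_rows (h : Anc J lo hi τ u β Λ k0 k1) {l1 : ℕ} (h1 : l1 ≤ u) (l2 : ℕ) (d : ℕ × ℕ) :
    (rows J lo hi τ l1 l2 d).card ≤ l1 * β := by
  unfold rows
  split_ifs with he
  · refine (card_biUnion_le_card_mul _ _ β fun n hn => card_image_le.trans ?_).trans_eq
      (by rw [card_range])
    exact h.br n ((mem_range.1 hn).trans_le h1) _ he.choose_spec.1
  · simp

theorem rows_big (h : Anc J lo hi τ u β Λ k0 k1) {l1 g1 : ℕ} (h2 : l1 + g1 ≤ u)
    (hg : 64 * Λ ≤ 2 ^ g1) {j : W} (hj : j ∈ J) {lam : ℝ}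
    (hl : lam ∈ rows J lo hi τ l1 (l1 + g1) (win lo hi (l1 + g1) j)) :
    0 < lam ∧ 64 * Λ * (τ (hi (l1 + g1) j) - τ (lo (l1 + g1) j)) ≤ lam := by
  rw [h.rows_eq (Nat.le_add_right _ _) h2 hj] at hl
  obtain ⟨n, hn, hl⟩ := mem_biUnion.1 hl
  obtain ⟨x, -, rfl⟩ := mem_image.1 hl
  have hn' := mem_range.1 hn
  have a1 := h.nest_le (show n + 1 ≤ l1 by omega) (by omega) hj
  have a2 : τ (hi l1 j) ≤ τ (max (hi (n + 1) j) x.2) := h.mono.monotone (a1.2.trans (le_max_left _ _))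
  have a3 : τ (min (lo (n + 1) j) x.1) ≤ τ (lo l1 j) := h.mono.monotone ((min_le_left _ _).trans a1.1)
  have a4 := h.half_le l1 g1 h2 hj
  have a5 := sub_pos.2 (h.mono (h.lt_at h2 hj))
  have a6 := sub_pos.2 (h.mono (h.lt_at (show l1 ≤ u by omega) hj))
  have a7 := mul_le_mul_of_nonneg_right hg a5.le
  simp only [hull, win]
  exact ⟨by linarith, by linarith⟩

theorem rows_sep (h : Anc J lo hi τ u β Λ k0 k1) (hΛ : 0 ≤ Λ) {l1 l2 : ℕ} (h1 : l1 ≤ l2) (h2 : l2 ≤ u)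
    {j j' : W} (hj : j ∈ J) (hj' : j' ∈ J) (e : win lo hi l1 j ≠ win lo hi l1 j') :
    ∃ lam, lam ∈ rows J lo hi τ l1 l2 (win lo hi l2 j) ∧ lam ∈ rows J lo hi τ l1 l2 (win lo hi l2 j') ∧
      lam ≤ Λ * |τ (lo u j) - τ (lo u j')| ∧ |τ (lo u j) - τ (lo u j')| ≤ lam := by
  obtain ⟨n, a, b, c⟩ := h.ex_split hj hj' e
  rw [h.rows_eq h1 h2 hj, h.rows_eq h1 h2 hj']
  refine ⟨hull τ (win lo hi (n + 1) j) (win lo hi (n + 1) j'), ?_, ?_, ?_⟩
  · exact mem_biUnion.2 ⟨n, mem_range.2 a,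
      mem_image_of_mem _ (mem_image_of_mem _ (mem_filter.2 ⟨hj', b.symm⟩))⟩
  · rw [hull_comm]
    exact mem_biUnion.2 ⟨n, mem_range.2 a,
      mem_image_of_mem _ (mem_image_of_mem _ (mem_filter.2 ⟨hj, b⟩))⟩
  have key : ∀ j ∈ J, ∀ j' ∈ J, win lo hi n j = win lo hi n j' →
      win lo hi (n + 1) j ≠ win lo hi (n + 1) j' → lo (n + 1) j ≤ lo (n + 1) j' →
      hull τ (win lo hi (n + 1) j) (win lo hi (n + 1) j') ≤ Λ * |τ (lo u j) - τ (lo u j')| ∧
        |τ (lo u j) - τ (lo u j')| ≤ hull τ (win lo hi (n + 1) j) (win lo hi (n + 1) j') := by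
    intro j hj j' hj' b c d
    have hn : n + 1 ≤ u := by omega
    obtain ⟨s1, s2⟩ := h.sep n hn j hj j' hj' b c d
    have n1 := h.nest_le hn le_rfl hj
    have n2 := h.nest_le hn le_rfl hj'
    have n3 := h.lt j hj
    have n4 := h.lt j' hj'
    have m1 : τ (lo (n + 1) j) ≤ τ (lo u j) := h.mono.monotone n1.1
    have m2 : τ (lo u j) ≤ τ (hi (n + 1) j) := h.mono.monotone (by omega)
    have m3 : τ (hi (n + 1) j) ≤ τ (lo (n + 1) j') := h.mono.monotone s1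
    have m4 : τ (lo (n + 1) j') ≤ τ (lo u j') := h.mono.monotone n2.1
    have m5 : τ (lo u j') ≤ τ (hi (n + 1) j') := h.mono.monotone (by omega)
    simp only [hull, win]
    rw [max_eq_right (by omega), min_eq_left d, abs_sub_comm, abs_of_nonneg (by linarith)]
    exact ⟨s2.trans (mul_le_mul_of_nonneg_left (by linarith) hΛ), by linarith⟩
  rcases le_total (lo (n + 1) j) (lo (n + 1) j') with d | d
  · exact key j hj j' hj' b c d
  · rw [hull_comm, abs_sub_comm]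
    exact key j' hj' j hj b.symm c.symm d

/-- (LY) over the ancestors of one level -/
theorem sum_anc (h : Anc J lo hi τ u β Λ k0 k1) {m : ℕ} (hm : m ≤ u) {F : ℕ → ℕ → ℝ} {g C ε n0 : ℝ}
    (hP : PW F g C) (hF : ∀ i j, 0 ≤ F i j) (hg : 0 ≤ g) (hC : 0 ≤ C) (hε : 0 < ε) (hn : 0 < n0)
    (hN : ∀ j ∈ J, n0 ≤ ((hi m j - lo m j : ℕ) : ℝ)) :
    ∑ d ∈ J.image (win lo hi m), F d.1 d.2 ≤
      C * 8 ^ g / (1 - 2 ^ (-ε)) * (((k1 - k0 : ℕ) : ℝ) / n0) ^ (g + ε) * F k0 k1 := by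
  have h1 := hP.ly_len hF hg hC (h.dis_image hm) hε
  have h2 : (0 : ℝ) < n0 ^ (g + ε) := Real.rpow_pos_of_pos hn _
  have h3 : (∑ d ∈ J.image (win lo hi m), F d.1 d.2) * n0 ^ (g + ε) ≤
      ∑ d ∈ J.image (win lo hi m), F d.1 d.2 * ((d.2 - d.1 : ℕ) : ℝ) ^ (g + ε) := by
    rw [sum_mul]
    refine sum_le_sum fun d hd => mul_le_mul_of_nonneg_left ?_ (hF _ _)
    obtain ⟨j, hj, rfl⟩ := mem_image.1 hd
    exact Real.rpow_le_rpow hn.le (hN j hj) (by linarith)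
  rw [Real.div_rpow (Nat.cast_nonneg _) hn.le, ← mul_div_assoc, div_mul_eq_mul_div, le_div_iff₀ h2]
  exact (h3.trans h1).trans_eq (by ring)

end Anc

end Pool.Agent.Lib.MP_d308c3_co.LxT
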