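import Mathlib

set_option autoImplicit false

namespace Pool.Agent.Lib.MP_d308c3_co.Wl

open Finset

open Classical

variable {Ω κ π : Type}

/-- the fibre of `f` through `o` inside `S` -/
noncomputable def fib (S : Finset Ω) (f : Ω → κ) (o : Ω) : Finset Ω := S.filter fun o' => f o' = f o

theorem mem_fib {S : Finset Ω} {f : Ω → κ} {o o' : Ω} : o' ∈ fib S f o ↔ o' ∈ S ∧ f o' = f o :=
  mem_filter

theorem fib_pos {S : Finset Ω} (f : Ω → κ) {o : Ω} (ho : o ∈ S) : (0 : ℝ) < (fib S f o).card := by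
  exact_mod_cast card_pos.2 ⟨o, mem_fib.2 ⟨ho, rfl⟩⟩

/-- a sum over nodes written as a sum over items -/
theorem sum_div_fib (S : Finset Ω) (f : Ω → κ) (G : κ → ℝ) :
    ∑ o ∈ S, G (f o) / (fib S f o).card = ∑ v ∈ S.image f, G v := by
  rw [← sum_fiberwise_of_maps_to (s := S) (t := S.image f) (g := f)
    (fun o ho => mem_image_of_mem f ho)]
  refine sum_congr rfl fun v hv => ?_
  obtain ⟨o0, ho0, rfl⟩ := mem_image.1 hv
  have h1 : ∀ o ∈ S.filter (fun o => f o = f o0),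
      G (f o) / (fib S f o).card = G (f o0) / (fib S f o0).card := by
    intro o ho
    have h2 := (mem_filter.1 ho).2
    unfold fib
    rw [h2]
  rw [sum_congr rfl h1, sum_const, nsmul_eq_mul]
  have h3 := fib_pos f ho0
  change ((fib S f o0).card : ℝ) * _ = _
  field_simp

/-- Jensen for the logarithm -/
theorem sum_log_le (S : Finset Ω) (X : Ω → ℝ) (hX : ∀ o ∈ S, 0 < X o) {B : ℝ}
    (hB : ∑ o ∈ S, X o ≤ B) : ∑ o ∈ S, Real.log (X o) ≤ S.card * Real.log (B / S.card) := by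
  rcases S.eq_empty_or_nonempty with rfl | hS
  · simp
  have hn : (0 : ℝ) < S.card := by exact_mod_cast card_pos.2 hS
  have hB0 : 0 < B := (sum_pos hX hS).trans_le hB
  have hm : 0 < B / S.card := div_pos hB0 hn
  have h1 : ∀ o ∈ S, Real.log (X o) ≤ Real.log (B / S.card) + (X o / (B / S.card) - 1) := by
    intro o ho
    have h2 := Real.log_le_sub_one_of_pos (div_pos (hX o ho) hm)
    rw [Real.log_div (hX o ho).ne' hm.ne'] at h2
    linarith
  refine (sum_le_sum h1).trans ?_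
  rw [sum_add_distrib, sum_sub_distrib, ← sum_div]
  simp only [sum_const, nsmul_eq_mul, mul_one]
  have h3 : (∑ o ∈ S, X o) / (B / S.card) ≤ S.card := by
    rw [div_le_iff₀ hm, mul_div_cancel₀ _ hn.ne']
    exact hB
  linarith

/-- Markov -/
theorem card_gt_le (S : Finset Ω) (X : Ω → ℝ) (hX : ∀ o ∈ S, 0 ≤ X o) {B lam : ℝ}
    (hB : ∑ o ∈ S, X o ≤ B) : ((S.filter fun o => lam ≤ X o).card : ℝ) * lam ≤ B := by
  have h1 : ∑ _o ∈ S.filter (fun o => lam ≤ X o), lam ≤ ∑ o ∈ S.filter (fun o => lam ≤ X o), X o :=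
    sum_le_sum fun o ho => (mem_filter.1 ho).2
  rw [sum_const, nsmul_eq_mul] at h1
  exact h1.trans ((sum_le_sum_of_subset_of_nonneg (filter_subset _ _)
    fun o ho _ => hX o ho).trans hB)

/-- nested partitions of `S` into nodes `nd i`, a value `Ψ` on nodes and factors `kap` on children
whose weighted values add up to at most the value of the parent -/
structure Tree (S : Finset Ω) (nd : ℕ → Ω → κ) (Ψ kap : ℕ → κ → ℝ) (L : ℕ) : Prop where
  root : ∀ o ∈ S, ∀ o' ∈ S, nd 0 o = nd 0 o'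
  nest : ∀ i < L, ∀ o ∈ S, ∀ o' ∈ S, nd (i + 1) o = nd (i + 1) o' → nd i o = nd i o'
  kap_nn : ∀ i < L, ∀ o ∈ S, 0 ≤ kap (i + 1) (nd (i + 1) o)
  share : ∀ i < L, ∀ o ∈ S,
    ∑ c ∈ (fib S (nd i) o).image (nd (i + 1)), kap (i + 1) c * Ψ (i + 1) c ≤ Ψ i (nd i o)

/-- product of the factors along the path of `o` down to level `i` -/
noncomputable def Wt (nd : ℕ → Ω → κ) (kap : ℕ → κ → ℝ) (i : ℕ) (o : Ω) : ℝ :=
  ∏ k ∈ range i, kap (k + 1) (nd (k + 1) o)

variable {S : Finset Ω} {nd : ℕ → Ω → κ} {Ψ kap : ℕ → κ → ℝ} {L : ℕ}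

theorem Tree.mono (h : Tree S nd Ψ kap L) {L' : ℕ} (hL : L' ≤ L) : Tree S nd Ψ kap L' :=
  ⟨h.root, fun i hi => h.nest i (by omega), fun i hi => h.kap_nn i (by omega),
    fun i hi => h.share i (by omega)⟩

theorem Tree.nest_le (h : Tree S nd Ψ kap L) {i k : ℕ} (hi : i ≤ L) (hk : k ≤ i) {o o' : Ω}
    (ho : o ∈ S) (ho' : o' ∈ S) (e : nd i o = nd i o') : nd k o = nd k o' := by
  induction i with
  | zero => rw [Nat.le_zero.1 hk]; exact e
  | succ i ih =>
    rcases Nat.eq_or_lt_of_le hk with rfl | hlt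
    · exact e
    · exact ih (by omega) (by omega) (h.nest i (by omega) o ho o' ho' e)

theorem Tree.wt_nn (h : Tree S nd Ψ kap L) {i : ℕ} (hi : i ≤ L) {o : Ω} (ho : o ∈ S) :
    0 ≤ Wt nd kap i o :=
  prod_nonneg fun k hk => h.kap_nn k (by have := mem_range.1 hk; omega) o ho

theorem Tree.wt_congr (h : Tree S nd Ψ kap L) {i : ℕ} (hi : i ≤ L) {o o' : Ω} (ho : o ∈ S)
    (ho' : o' ∈ S) (e : nd i o = nd i o') : Wt nd kap i o = Wt nd kap i o' :=
  prod_congr rfl fun k hk => by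
    rw [h.nest_le hi (Nat.succ_le_of_lt (mem_range.1 hk)) ho ho' e]

theorem Tree.step (h : Tree S nd Ψ kap L) {i : ℕ} (hi : i < L) :
    ∑ o ∈ S, Wt nd kap (i + 1) o * Ψ (i + 1) (nd (i + 1) o) / (fib S (nd (i + 1)) o).card ≤
      ∑ o ∈ S, Wt nd kap i o * Ψ i (nd i o) / (fib S (nd i) o).card := by
  rw [← sum_fiberwise_of_maps_to (s := S) (t := S.image (nd i)) (g := nd i)
      (fun o ho => mem_image_of_mem _ ho),
    ← sum_fiberwise_of_maps_to (s := S) (t := S.image (nd i)) (g := nd i)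
      (fun o ho => mem_image_of_mem _ ho)]
  refine sum_le_sum fun v hv => ?_
  obtain ⟨o0, ho0, rfl⟩ := mem_image.1 hv
  change ∑ o ∈ fib S (nd i) o0, _ ≤ ∑ o ∈ fib S (nd i) o0, _
  have e1 : ∀ o ∈ fib S (nd i) o0,
      Wt nd kap (i + 1) o * Ψ (i + 1) (nd (i + 1) o) / (fib S (nd (i + 1)) o).card =
        Wt nd kap i o0 * ((fun c => kap (i + 1) c * Ψ (i + 1) c) (nd (i + 1) o) /
          (fib (fib S (nd i) o0) (nd (i + 1)) o).card) := by
    intro o ho
    obtain ⟨h1, h2⟩ := mem_fib.1 ho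
    have e2 : fib (fib S (nd i) o0) (nd (i + 1)) o = fib S (nd (i + 1)) o := by
      ext x
      simp only [mem_fib]
      exact ⟨fun hx => ⟨hx.1.1, hx.2⟩,
        fun hx => ⟨⟨hx.1, (h.nest i hi x hx.1 o h1 hx.2).trans h2⟩, hx.2⟩⟩
    rw [e2, ← h.wt_congr hi.le h1 ho0 h2]
    unfold Wt
    rw [prod_range_succ]
    ring
  have e3 : ∀ o ∈ fib S (nd i) o0, Wt nd kap i o * Ψ i (nd i o) / (fib S (nd i) o).card =
      Wt nd kap i o0 * Ψ i (nd i o0) / (fib S (nd i) o0).card := by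
    intro o ho
    obtain ⟨h1, h2⟩ := mem_fib.1 ho
    rw [h.wt_congr hi.le h1 ho0 h2]
    unfold fib
    rw [h2]
  rw [sum_congr rfl e1, sum_congr rfl e3, ← mul_sum,
    sum_div_fib _ (nd (i + 1)) (fun c => kap (i + 1) c * Ψ (i + 1) c), sum_const, nsmul_eq_mul]
  have h3 := fib_pos (nd i) ho0
  rw [mul_div_cancel₀ _ h3.ne']
  exact mul_le_mul_of_nonneg_left (h.share i hi o0 ho0) (h.wt_nn hi.le ho0)

/-- the potential never exceeds the value of the root -/
theorem Tree.pot (h : Tree S nd Ψ kap L) {o0 : Ω} (ho0 : o0 ∈ S) {i : ℕ} (hi : i ≤ L) :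
    ∑ o ∈ S, Wt nd kap i o * Ψ i (nd i o) / (fib S (nd i) o).card ≤ Ψ 0 (nd 0 o0) := by
  induction i with
  | zero =>
    have e1 : ∀ o ∈ S, Wt nd kap 0 o * Ψ 0 (nd 0 o) / (fib S (nd 0) o).card =
        Ψ 0 (nd 0 o0) / S.card := by
      intro o ho
      have : fib S (nd 0) o = S := filter_true_of_mem fun x hx => h.root x hx o ho
      rw [this, h.root o ho o0 ho0]
      simp [Wt]
    have hn : (0 : ℝ) < S.card := by exact_mod_cast card_pos.2 ⟨o0, ho0⟩
    rw [sum_congr rfl e1, sum_const, nsmul_eq_mul, mul_div_cancel₀ _ hn.ne']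
  | succ i ih => exact (h.step (by omega)).trans (ih (by omega))

/-- WL: the weights have a small sum -/
theorem Tree.wl (h : Tree S nd Ψ kap L) {o0 : Ω} (ho0 : o0 ∈ S) {C1 : ℝ} (hC : 0 ≤ C1)
    (hL : ∀ o ∈ S, ((fib S (nd L) o).card : ℝ) ≤ C1 * Ψ L (nd L o)) :
    ∑ o ∈ S, Wt nd kap L o ≤ C1 * Ψ 0 (nd 0 o0) := by
  refine le_trans ?_ (mul_le_mul_of_nonneg_left (h.pot ho0 le_rfl) hC)
  rw [mul_sum]
  refine sum_le_sum fun o ho => ?_
  have h3 := fib_pos (nd L) ho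
  rw [← mul_div_assoc, le_div_iff₀ h3]
  have := mul_le_mul_of_nonneg_left (hL o ho) (h.wt_nn le_rfl ho)
  linarith

/-- WL, Markov form -/
theorem Tree.wl_markov (h : Tree S nd Ψ kap L) {o0 : Ω} (ho0 : o0 ∈ S) {C1 : ℝ} (hC : 0 ≤ C1)
    (hL : ∀ o ∈ S, ((fib S (nd L) o).card : ℝ) ≤ C1 * Ψ L (nd L o)) (lam : ℝ) :
    ((S.filter fun o => lam ≤ Wt nd kap L o).card : ℝ) * lam ≤ C1 * Ψ 0 (nd 0 o0) :=
  card_gt_le S _ (fun _ ho => h.wt_nn le_rfl ho) (h.wl ho0 hC hL)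

theorem log_wt (hk : ∀ i < L, ∀ o ∈ S, 0 < kap (i + 1) (nd (i + 1) o)) {o : Ω} (ho : o ∈ S) :
    Real.log (Wt nd kap L o) = ∑ k ∈ range L, Real.log (kap (k + 1) (nd (k + 1) o)) :=
  Real.log_prod fun k hk' => (hk k (mem_range.1 hk') o ho).ne'

theorem wt_pos (hk : ∀ i < L, ∀ o ∈ S, 0 < kap (i + 1) (nd (i + 1) o)) {o : Ω} (ho : o ∈ S) :
    0 < Wt nd kap L o :=
  prod_pos fun k hk' => hk k (mem_range.1 hk') o ho

/-- WL, Jensen form -/
theorem Tree.wl_log (h : Tree S nd Ψ kap L) {o0 : Ω} (ho0 : o0 ∈ S) {C1 : ℝ} (hC : 0 ≤ C1)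
    (hL : ∀ o ∈ S, ((fib S (nd L) o).card : ℝ) ≤ C1 * Ψ L (nd L o))
    (hk : ∀ i < L, ∀ o ∈ S, 0 < kap (i + 1) (nd (i + 1) o)) :
    ∑ o ∈ S, ∑ k ∈ range L, Real.log (kap (k + 1) (nd (k + 1) o)) ≤
      S.card * Real.log (C1 * Ψ 0 (nd 0 o0) / S.card) := by
  rw [← sum_congr rfl fun o ho => log_wt hk ho]
  exact sum_log_le S _ (fun o ho => wt_pos hk ho) (h.wl ho0 hC hL)

/-- WL, Markov form for the sum of the logarithms -/
theorem Tree.wl_log_markov (h : Tree S nd Ψ kap L) {o0 : Ω} (ho0 : o0 ∈ S) {C1 : ℝ} (hC : 0 ≤ C1)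
    (hL : ∀ o ∈ S, ((fib S (nd L) o).card : ℝ) ≤ C1 * Ψ L (nd L o))
    (hk : ∀ i < L, ∀ o ∈ S, 0 < kap (i + 1) (nd (i + 1) o)) (a : ℝ) :
    ((S.filter fun o => a ≤ ∑ k ∈ range L, Real.log (kap (k + 1) (nd (k + 1) o))).card : ℝ) *
      Real.exp a ≤ C1 * Ψ 0 (nd 0 o0) := by
  refine le_trans (mul_le_mul_of_nonneg_right ?_ (Real.exp_pos a).le)
    (h.wl_markov ho0 hC hL (Real.exp a))
  refine Nat.cast_le.2 (card_le_card fun o ho => ?_)
  obtain ⟨h1, h2⟩ := mem_filter.1 ho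
  rw [← log_wt hk h1] at h2
  exact mem_filter.2 ⟨h1, (Real.le_log_iff_exp_le (wt_pos hk h1)).1 h2⟩

/-- the nodes of the last level are on average as efficient as the root -/
theorem Tree.eff (h : Tree S nd Ψ kap L) {o0 : Ω} (ho0 : o0 ∈ S)
    (hΨ : ∀ o ∈ S, 0 < Ψ L (nd L o)) (hk : ∀ i < L, ∀ o ∈ S, 0 < kap (i + 1) (nd (i + 1) o)) :
    ∑ o ∈ S, (∑ k ∈ range L, Real.log (kap (k + 1) (nd (k + 1) o)) +
        Real.log (Ψ L (nd L o)) - Real.log (fib S (nd L) o).card) ≤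
      S.card * Real.log (Ψ 0 (nd 0 o0) / S.card) := by
  refine le_trans (le_of_eq (sum_congr rfl fun o ho => ?_)) (sum_log_le S _
    (fun o ho => div_pos (mul_pos (wt_pos hk ho) (hΨ o ho)) (fib_pos (nd L) ho))
    (h.pot ho0 le_rfl))
  rw [Real.log_div (mul_pos (wt_pos hk ho) (hΨ o ho)).ne' (fib_pos (nd L) ho).ne',
    Real.log_mul (wt_pos hk ho).ne' (hΨ o ho).ne', log_wt hk ho]

/-- GAIN (Gibbs): if `g` takes at most `K v` values on the node `v` of `f`, the fibres of the pair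
are on average at least the fibres of `f` divided by `K` -/
theorem gain (S : Finset Ω) (f : Ω → κ) (g : Ω → π) (K : κ → ℝ)
    (hK : ∀ o ∈ S, (((fib S f o).image g).card : ℝ) ≤ K (f o)) :
    ∑ o ∈ S, (Real.log (fib S f o).card - Real.log (K (f o))) ≤
      ∑ o ∈ S, Real.log (fib S (fun x => (f x, g x)) o).card := by
  have hK0 : ∀ o ∈ S, 0 < K (f o) := fun o ho => lt_of_lt_of_le
    (by exact_mod_cast card_pos.2 ⟨g o, mem_image_of_mem g (mem_fib.2 ⟨ho, rfl⟩)⟩) (hK o ho)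
  have hB : ∑ o ∈ S, ((fib S f o).card : ℝ) / K (f o) / (fib S (fun x => (f x, g x)) o).card ≤
      S.card := by
    rw [← sum_fiberwise_of_maps_to (s := S) (t := S.image f) (g := f)
      (fun o ho => mem_image_of_mem _ ho), card_eq_sum_card_image f S, Nat.cast_sum]
    refine sum_le_sum fun v hv => ?_
    obtain ⟨o0, ho0, rfl⟩ := mem_image.1 hv
    change ∑ o ∈ fib S f o0, _ ≤ ((fib S f o0).card : ℝ)
    have e1 : ∀ o ∈ fib S f o0,
        ((fib S f o).card : ℝ) / K (f o) / (fib S (fun x => (f x, g x)) o).card =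
          (fun _ => ((fib S f o0).card : ℝ) / K (f o0)) (g o) / (fib (fib S f o0) g o).card := by
      intro o ho
      obtain ⟨h1, h2⟩ := mem_fib.1 ho
      have e2 : fib (fib S f o0) g o = fib S (fun x => (f x, g x)) o := by
        ext x
        simp only [mem_fib, Prod.mk.injEq, h2, and_assoc]
      have e3 : fib S f o = fib S f o0 := by unfold fib; rw [h2]
      rw [e2, e3, h2]
    rw [sum_congr rfl e1, sum_div_fib _ g (fun _ => ((fib S f o0).card : ℝ) / K (f o0)), sum_const,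
      nsmul_eq_mul, ← mul_div_assoc,
      div_le_iff₀ (hK0 o0 ho0)]
    have := mul_le_mul_of_nonneg_right (hK o0 ho0) (fib_pos f ho0).le
    linarith
  have h1 := sum_log_le S _ (fun o ho => div_pos (div_pos (fib_pos f ho) (hK0 o ho))
    (fib_pos (fun x => (f x, g x)) ho)) hB
  have h2 : (S.card : ℝ) * Real.log (S.card / S.card) = 0 := by
    rcases eq_or_ne (S.card : ℝ) 0 with h0 | h0
    · rw [h0, zero_mul]
    · rw [div_self h0, Real.log_one, mul_zero]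
  rw [h2, sum_congr rfl fun o ho => by
    rw [Real.log_div (div_pos (fib_pos f ho) (hK0 o ho)).ne' (fib_pos _ ho).ne',
      Real.log_div (fib_pos f ho).ne' (hK0 o ho).ne'], sum_sub_distrib] at h1
  linarith

/-- Gibbs at the root -/
theorem gain0 (S : Finset Ω) (g : Ω → π) {K : ℝ} (hK : ((S.image g).card : ℝ) ≤ K) :
    S.card * (Real.log S.card - Real.log K) ≤ ∑ o ∈ S, Real.log (fib S g o).card := by
  have e1 : ∀ o, fib S (fun _ => ()) o = S := fun o => by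
    ext x; simp [mem_fib]
  have h := gain S (fun _ => ()) g (fun _ => K) (fun o _ => by rw [e1]; exact hK)
  have e2 : ∀ o, fib S (fun x => ((), g x)) o = fib S g o := fun o => by
    ext x; simp [mem_fib]
  simpa only [e1, e2, sum_const, nsmul_eq_mul] using h

end Pool.Agent.Lib.MP_d308c3_co.Wl
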