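import Pool.Agent.Lib.MP_d308c3_co.K.S.TT
import Pool.Agent.Lib.MP_d308c3_co.K.S.NG
import Pool.Agent.Lib.MP_d308c3_co.K.S.G3
import Pool.Agent.Lib.MP_d308c3_co.K.S.G1
import Pool.Agent.Lib.MP_d308c3_co.K.S.Step
import Pool.Agent.Lib.MP_d308c3_co.K.S.Mac
import Pool.Agent.Lib.MP_d308c3_co.K.S.Row
import Pool.Agent.Lib.MP_d308c3_co.K.S.Uniq
import Pool.Agent.Lib.MP_d308c3_co.K.S.Hnd
import Pool.Agent.Lib.MP_d308c3_co.K.S.Col
import Pool.Agent.Lib.MP_d308c3_co.K.S.Tel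
import Pool.Agent.Lib.MP_d308c3_co.K.S.ActT
import Pool.Agent.Lib.MP_d308c3_co.K.S.ActX
import Pool.Agent.Lib.MP_d308c3_co.K.S.Rect
import Pool.Agent.Lib.MP_d308c3_co.K.S.Path
import Pool.Agent.Lib.MP_d308c3_co.K.S.Loc
import Pool.Agent.Lib.MP_d308c3_co.K.S.LocG
import Pool.Agent.Lib.MP_d308c3_co.K.S.En
import Pool.Agent.Lib.MP_d308c3_co.K.S.Top

/-! The bound for edges with `k` points on one side, for every `k`. -/

set_option autoImplicit false

namespace Pool.Agent.Lib.MP_d308c3_co.KE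

open Finset Red
open scoped Classical

theorem hp : K.HP :=
  K.top K.tt (K.mac K.step K.ng) (K.en K.g3 (K.g1 K.ng K.g3) (K.locG (K.loc K.g3 (K.hnd K.g3) K.row
    (K.col K.uq) K.t1 K.t1b K.t2 K.aT (K.aX K.uq) K.rect (K.path K.g3 (K.hnd K.g3)))))

theorem pp : ∀ g, 0 < g → Ex.PP Top.Fam g := by
  by_contra h
  obtain ⟨γ, g0, g1, hγ⟩ := Top.data h
  obtain ⟨ε, hε, h2⟩ := hp γ g0 g1
  obtain ⟨C0, hC, h3⟩ := hγ ε hε
  obtain ⟨M0, h4⟩ := h2 C0 hC
  obtain ⟨Z, t, m, s, M, a, b, c, d, e, f, g, i, j⟩ := h3 M0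
  exact h4 Z t m s M a b c d e f g i j

/-- the bound for runs at a constant level -/
theorem run {g : ℝ} (hg : 0 < g) : ∃ C : ℝ, ∀ (X : Finset (ℝ × ℝ)) (K : ℕ) (t m : ℕ → ℝ),
    StrictMono t → (∀ k ≤ K, (U X (t k) (m k)).card = (U X (t 0) (m 0)).card) →
    ((∑ k ∈ range K, (symmDiff (U X (t k) (m k)) (U X (t (k + 1)) (m (k + 1)))).card : ℕ) : ℝ) ≤
      C * (K : ℝ) ^ g * X.card := by
  refine (Top.of_pp hg (pp g hg)).imp fun C hC X K t m ht hc => ?_
  obtain ⟨a, b, m', h1, h2, h3⟩ := perturb X Prod.fst Prod.snd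
    (fun _ _ _ _ => Prod.ext) K t m
  let f : ℝ × ℝ → ℝ × ℝ := fun p => (a p, b p)
  have fi : Set.InjOn f X := fun p hp q hq e => h1 hp hq (congrArg Prod.fst e)
  have eU : ∀ k ≤ K, U (X.image f) (t k) (m' k) = (U X (t k) (m k)).image f := fun k hk => by
    rw [U, U, filter_image]
    exact congrArg _ (filter_congr fun p hp => (h3 k hk p hp).1)
  have sU : ∀ k, U X (t k) (m k) ⊆ X := fun k => filter_subset _ _
  have cU : ∀ k ≤ K, (U (X.image f) (t k) (m' k)).card = (U X (t k) (m k)).card := fun k hk => by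
    rw [eU k hk, card_image_of_injOn (fi.mono (coe_subset.2 (sU k)))]
  have := hC (X.image f) K t m' ht ?_ ?_ ?_ fun k hk => by rw [cU k hk, cU 0 K.zero_le, hc k hk]
  · rw [card_image_of_injOn fi] at this
    refine le_trans (Nat.cast_le.2 (sum_le_sum fun k hk => ?_)) this
    have hk := mem_range.1 hk
    rw [eU k hk.le, eU (k + 1) hk]
    refine card_le_card_of_injOn f (fun p hp => ?_) (fi.mono fun p hp => ?_)
    · rcases mem_symmDiff.1 (mem_coe.1 hp) with ⟨c1, c2⟩ | ⟨c1, c2⟩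
      · refine mem_coe.2 (mem_symmDiff.2 (Or.inl ⟨mem_image_of_mem f c1, fun d => c2 ?_⟩))
        obtain ⟨q, hq, e⟩ := mem_image.1 d
        exact fi (sU _ hq) (sU _ c1) e ▸ hq
      · refine mem_coe.2 (mem_symmDiff.2 (Or.inr ⟨mem_image_of_mem f c1, fun d => c2 ?_⟩))
        obtain ⟨q, hq, e⟩ := mem_image.1 d
        exact fi (sU _ hq) (sU _ c1) e ▸ hq
    · rcases mem_symmDiff.1 (mem_coe.1 hp) with ⟨c1, -⟩ | ⟨c1, -⟩ <;> exact sU _ c1
  · intro p hp q hq e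
    obtain ⟨p, p1, rfl⟩ := mem_image.1 hp
    obtain ⟨q, q1, rfl⟩ := mem_image.1 hq
    rw [h1 p1 q1 e]
  · intro p hp q hq e
    obtain ⟨p, p1, rfl⟩ := mem_image.1 hp
    obtain ⟨q, q1, rfl⟩ := mem_image.1 hq
    rw [h2 p1 q1 e]
  · intro k hk p hp
    obtain ⟨p, p1, rfl⟩ := mem_image.1 hp
    exact (h3 k hk p p1).2

/-- pairs with different abscissae and `h - 1` points above their line -/
noncomputable def Up (S : Finset (ℝ × ℝ)) (h : ℕ) : Finset ((ℝ × ℝ) × (ℝ × ℝ)) :=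
  (S ×ˢ S).filter fun x => x.1.1 ≠ x.2.1 ∧ (S.filter fun r =>
    x.1.2 + tau x.1 x.2 * x.1.1 < r.2 + tau x.1 x.2 * r.1).card + 1 = h

theorem det_eq {p q : ℝ × ℝ} (hx : p.1 ≠ q.1) (r : ℝ × ℝ) :
    (q.1 - p.1) * (r.2 - p.2) - (q.2 - p.2) * (r.1 - p.1) =
      (q.1 - p.1) * (r.2 + tau p q * r.1 - (p.2 + tau p q * p.1)) := by
  have := tau_eq hx (tau p q)
  rw [sub_self, zero_mul] at this
  linear_combination (-(r.1 - p.1)) * this

theorem cover {S : Finset (ℝ × ℝ)}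
    (hg : ∀ p ∈ S, ∀ q ∈ S, ∀ r ∈ S, p ≠ q → p ≠ r → q ≠ r →
      (q.1 - p.1) * (r.2 - p.2) - (q.2 - p.2) * (r.1 - p.1) ≠ 0) {p q : ℝ × ℝ} (hp : p ∈ S)
    (hq : q ∈ S) (hx : p.1 ≠ q.1) : ∀ r ∈ S, r = p ∨ r = q ∨
      r ∈ S.filter (fun r => p.2 + tau p q * p.1 < r.2 + tau p q * r.1) ∨
      r ∈ S.filter (fun r => r.2 + tau p q * r.1 < p.2 + tau p q * p.1) := fun r hr => by
  by_cases r1 : r = p
  · exact Or.inl r1
  by_cases r2 : r = q
  · exact Or.inr (Or.inl r2)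
  have := hg p hp q hq r hr (fun e => hx (congrArg _ e)) (Ne.symm r1) (Ne.symm r2)
  rw [det_eq hx] at this
  rcases lt_or_gt_of_ne (sub_ne_zero.1 (right_ne_zero_of_mul this)) with d | d
  · exact Or.inr (Or.inr (Or.inr (mem_filter.2 ⟨hr, d⟩)))
  · exact Or.inr (Or.inr (Or.inl (mem_filter.2 ⟨hr, d⟩)))

theorem count (S : Finset (ℝ × ℝ))
    (hg : ∀ p ∈ S, ∀ q ∈ S, ∀ r ∈ S, p ≠ q → p ≠ r → q ≠ r →
      (q.1 - p.1) * (r.2 - p.2) - (q.2 - p.2) * (r.1 - p.1) ≠ 0) {h : ℕ} (hh : h ≤ S.card) :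
    ∃ (K : ℕ) (t m : ℕ → ℝ), K ≤ S.card ^ 2 ∧ StrictMono t ∧
      (∀ k ≤ K, (U S (t k) (m k)).card = (U S (t 0) (m 0)).card) ∧ (Up S h).card ≤
        ∑ k ∈ range K, (symmDiff (U S (t k) (m k)) (U S (t (k + 1)) (m (k + 1)))).card := by
  obtain ⟨s, s1, s2, s3⟩ := ex_times (crit S)
  have h0 : ∀ k : ℕ, ∃ m, k ≤ (crit S).card → (U S (s k) m).card = h := fun k => by
    by_cases h' : k ≤ (crit S).card
    · exact (ex_med S (s2 k h') hh).imp fun _ h' _ => h'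
    · exact ⟨0, fun h'' => absurd h'' h'⟩
  choose m hm using h0
  refine ⟨_, s, m, ?_, s1, fun k hk => (hm k hk).trans (hm 0 (Nat.zero_le _)).symm, ?_⟩
  · exact card_image_le.trans ((card_filter_le _ _).trans_eq (by rw [card_product, sq]))
  have key : ∀ x ∈ Up S h, ∃ k < (crit S).card,
      (∀ c' ∈ crit S, s k < c' → c' < s (k + 1) → c' = tau x.1 x.2) ∧
      s k < tau x.1 x.2 ∧ tau x.1 x.2 < s (k + 1) ∧
      x.1 ∈ symmDiff (U S (s k) (m k)) (U S (s (k + 1)) (m (k + 1))) := by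
    rintro ⟨p, q⟩ hx
    simp only [Up, mem_filter, mem_product] at hx
    obtain ⟨⟨hp, hq⟩, hx, cA⟩ := hx
    obtain ⟨k, k1, k2, k3, k4⟩ := s3 _ (tau_mem hp hq hx)
    refine ⟨k, k1, k4, k2, k3, ?_⟩
    have hS := cover hg hp hq hx
    set c := tau p q with hc0
    have e0 : q.2 + c * q.1 = p.2 + c * p.1 := by
      have := tau_eq hx c
      rw [← hc0, sub_self, zero_mul] at this
      linarith
    have st := fun a ha b hb => stay (p := a) (r := b) ha hb (s2 k k1.le) (s2 (k + 1) k1) k2 k3 k4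
    have f1 := tau_eq hx (s k)
    have f2 := tau_eq hx (s (k + 1))
    rw [← hc0] at f1 f2
    have ne : q.1 - p.1 ≠ 0 := sub_ne_zero.2 (Ne.symm hx)
    have i1 := mem_iff hp hq (filter_subset _ _) hS cA (hm k k1.le)
      (fun r hr => (st p hp r (mem_filter.1 hr).1 (mem_filter.1 hr).2).1)
      (fun r hr => (st q hq r (mem_filter.1 hr).1 (e0 ▸ (mem_filter.1 hr).2)).1)
      (fun r hr => (st r (mem_filter.1 hr).1 p hp (mem_filter.1 hr).2).1)
      (sub_ne_zero.1 (f1 ▸ mul_ne_zero (sub_ne_zero.2 k2.ne) ne))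
    have i2 := mem_iff hp hq (filter_subset _ _) hS cA (hm (k + 1) k1)
      (fun r hr => (st p hp r (mem_filter.1 hr).1 (mem_filter.1 hr).2).2)
      (fun r hr => (st q hq r (mem_filter.1 hr).1 (e0 ▸ (mem_filter.1 hr).2)).2)
      (fun r hr => (st r (mem_filter.1 hr).1 p hp (mem_filter.1 hr).2).2)
      (sub_ne_zero.1 (f2 ▸ mul_ne_zero (sub_ne_zero.2 k3.ne') ne))
    rw [mem_symmDiff, i1, i2]
    rcases lt_or_gt_of_ne ne with d | d
    · exact Or.inr ⟨by nlinarith, not_lt.2 (by nlinarith)⟩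
    · exact Or.inl ⟨by nlinarith, not_lt.2 (by nlinarith)⟩
  choose! κ hκ using key
  rw [← card_sigma]
  refine card_le_card_of_injOn (fun x => ⟨κ x, x.1⟩) (fun x hx => ?_) fun x hx y hy e => ?_
  · have := hκ x hx
    exact mem_coe.2 (mem_sigma.2 ⟨mem_range.2 this.1, this.2.2.2.2⟩)
  · have a := hκ x hx
    have b := hκ y hy
    obtain ⟨e1, e2⟩ := Sigma.mk.inj_iff.1 e
    have e2 := eq_of_heq e2
    simp only [Up, coe_filter, mem_product, Set.mem_ofPred_eq] at hx hy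
    rw [← e1] at b
    have e3 := a.2.1 _ (tau_mem hy.1.1 hy.1.2 hy.2.1) b.2.2.1 b.2.2.2.1
    refine Prod.ext e2 ?_
    by_contra d
    refine hg x.1 hx.1.1 x.2 hx.1.2 y.2 hy.1.2 (fun e => hx.2.1 (congrArg _ e))
      (fun e => hy.2.1 (congrArg _ (e2.symm.trans e))) d ?_
    have f1 := tau_eq hx.2.1 (tau x.1 x.2)
    have f2 := tau_eq hy.2.1 (tau y.1 y.2)
    rw [sub_self, zero_mul] at f1 f2
    rw [e3, ← e2] at f2
    linear_combination (x.2.1 - x.1.1) * f2 - (y.2.1 - x.1.1) * f1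

theorem up_le {ε : ℝ} (hε : 0 < ε) : ∃ C : ℝ, 0 ≤ C ∧ ∀ (S : Finset (ℝ × ℝ)) (h : ℕ),
    (∀ p ∈ S, ∀ q ∈ S, ∀ r ∈ S, p ≠ q → p ≠ r → q ≠ r →
      (q.1 - p.1) * (r.2 - p.2) - (q.2 - p.2) * (r.1 - p.1) ≠ 0) →
    ((Up S h).card : ℝ) ≤ C * (S.card : ℝ) ^ (1 + ε) := by
  obtain ⟨C, hC⟩ := run (half_pos hε)
  refine ⟨|C|, abs_nonneg _, fun S h hg => ?_⟩
  by_cases hh : h ≤ S.card
  · obtain ⟨K, t, m, k1, k2, k3, k4⟩ := count S hg hh
    have n0 : (0 : ℝ) ≤ S.card := Nat.cast_nonneg _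
    have a2 : (K : ℝ) ^ (ε / 2) ≤ (S.card : ℝ) ^ ε := by
      calc _ ≤ ((S.card : ℝ) ^ (2 : ℝ)) ^ (ε / 2) :=
            Real.rpow_le_rpow K.cast_nonneg (by exact_mod_cast k1) (by linarith)
        _ = _ := by rw [← Real.rpow_mul n0]; congr 1; ring
    refine (Nat.cast_le.2 k4).trans ((hC S K t m k2 k3).trans ?_)
    rw [Real.rpow_add' n0 (by linarith), Real.rpow_one, mul_comm (S.card : ℝ), ← mul_assoc]
    exact mul_le_mul_of_nonneg_right
      (mul_le_mul (le_abs_self C) a2 (by positivity) (abs_nonneg C)) n0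
  · have : Up S h = ∅ := eq_empty_of_forall_notMem fun x hx => by
      obtain ⟨h1, -, h2⟩ := mem_filter.1 hx
      have : (S.filter fun r => x.1.2 + tau x.1 x.2 * x.1.1 < r.2 + tau x.1 x.2 * r.1).card <
          S.card := card_lt_card (filter_ssubset.2 ⟨x.1, (mem_product.1 h1).1, lt_irrefl _⟩)
      omega
    rw [this, card_empty, Nat.cast_zero]
    positivity

theorem split (S : Finset (ℝ × ℝ)) (k : ℕ)
    (hg : ∀ p ∈ S, ∀ q ∈ S, ∀ r ∈ S, p ≠ q → p ≠ r → q ≠ r →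
      (q.1 - p.1) * (r.2 - p.2) - (q.2 - p.2) * (r.1 - p.1) ≠ 0)
    (E : Finset ((ℝ × ℝ) × (ℝ × ℝ))) (hE : ∀ x ∈ E, x.1 ∈ S ∧ x.2 ∈ S ∧ x.1 ≠ x.2 ∧
      (S.filter fun r => (x.2.1 - x.1.1) * (r.2 - x.1.2) - (x.2.2 - x.1.2) * (r.1 - x.1.1) < 0).card
        = k) : E.card ≤ S.card + ((Up S (k + 1)).card + (Up S (S.card - 1 - k)).card) := by
  rw [← card_filter_add_card_filter_not (s := E) (fun x => x.1.1 = x.2.1)]
  refine add_le_add ?_ (le_trans (card_le_card ?_) (card_union_le _ _))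
  · refine card_le_card_of_injOn Prod.fst (fun x hx => (hE x (mem_filter.1 hx).1).1)
      fun x hx y hy e => ?_
    obtain ⟨x1, x2⟩ := mem_filter.1 hx
    obtain ⟨y1, y2⟩ := mem_filter.1 hy
    refine Prod.ext e ?_
    by_contra d
    refine hg x.1 (hE x x1).1 x.2 (hE x x1).2.1 y.2 (hE y y1).2.1 (hE x x1).2.2.1
      (e ▸ (hE y y1).2.2.1) d ?_
    rw [← x2, ← y2, ← e]
    ring
  · rintro ⟨p, q⟩ hx
    obtain ⟨x1, hx⟩ := mem_filter.1 hx
    obtain ⟨hp, hq, hne, hc⟩ := hE _ x1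
    change ¬ p.1 = q.1 at hx
    simp only [det_eq hx] at hc hp hq hne
    rw [mem_union]
    rcases lt_or_gt_of_ne hx with d | d
    · refine Or.inr (mem_filter.2 ⟨mem_product.2 ⟨hp, hq⟩, hx, ?_⟩)
      have hS := cover hg hp hq hx
      have e0 := tau_eq hx (tau p q)
      rw [sub_self, zero_mul, sub_eq_zero] at e0
      change (S.filter fun r => p.2 + tau p q * p.1 < r.2 + tau p q * r.1).card + 1 = _
      set A := S.filter fun r => p.2 + tau p q * p.1 < r.2 + tau p q * r.1 with hA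
      set B := S.filter fun r => r.2 + tau p q * r.1 < p.2 + tau p q * p.1 with hB
      have hAB : A.card + B.card + 2 = S.card := by
        have d1 : Disjoint A B := disjoint_filter.2 fun r _ a b => lt_asymm a b
        have n1 : p ∉ A ∪ B := by simp [hA, hB]
        have n2 : q ∉ insert p (A ∪ B) := by simp [hA, hB, e0, Ne.symm hne]
        have : S = insert q (insert p (A ∪ B)) := by
          refine Subset.antisymm (fun r hr => ?_) (insert_subset hq (insert_subset hp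
            (union_subset (filter_subset _ _) (filter_subset _ _))))
          simp only [mem_insert, mem_union]
          have := hS r hr
          tauto
        conv_rhs => rw [this, card_insert_of_notMem n2, card_insert_of_notMem n1,
          card_union_of_disjoint d1]
      have : B.card = k := by
        rw [← hc]
        exact congrArg card (filter_congr fun r _ => by
          rw [← neg_pos (a := _ * _), ← mul_neg, mul_pos_iff_of_pos_left (sub_pos.2 d), neg_pos,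
            sub_neg])
      omega
    · refine Or.inl (mem_filter.2 ⟨mem_product.2 ⟨hp, hq⟩, hx, congrArg (· + 1) ?_⟩)
      rw [← hc]
      exact congrArg card (filter_congr fun r _ => by
        rw [← neg_pos (a := _ * _), ← neg_mul, mul_pos_iff_of_pos_left (by linarith), sub_pos])

end Pool.Agent.Lib.MP_d308c3_co.KE
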