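import Pool.Agent.Lib.MP_d308c3_co.Plain

namespace Pool.Agent.Lib.MP_d308c3_co

open Finset

variable {L τ σ : Type}

theorem sum_shift {H : ℕ} (h₀ : Fin H) {e : ℝ} (he : |e| < 1) :
    ∑ h : Fin H, sg (((h₀ : ℕ) : ℝ) - (h : ℕ) + e) = sg e + 2 * (h₀ : ℕ) - H + 1 := by
  obtain ⟨he1, he2⟩ := abs_lt.1 he
  have h1 : ∀ h : Fin H, sg (((h₀ : ℕ) : ℝ) - (h : ℕ) + e) =
      (if (h : ℕ) < h₀ then 1 else -1) + (if h = h₀ then sg e + 1 else 0) := fun h => by
    rcases lt_trichotomy (h : ℕ) h₀ with h2 | h2 | h2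
    · have : ((h : ℕ) : ℝ) + 1 ≤ (h₀ : ℕ) := by exact_mod_cast h2
      rw [sg_pos (by linarith), if_pos h2, if_neg (fun e => by rw [e] at h2; omega)]; rfl
    · rw [Fin.ext h2]; simp
    · have : ((h₀ : ℕ) : ℝ) + 1 ≤ (h : ℕ) := by exact_mod_cast h2
      rw [sg_neg (by linarith), if_neg (by omega), if_neg (fun e => by rw [e] at h2; omega)]; rfl
  simp only [h1, sum_add_distrib, sum_ite_eq', mem_univ, if_true, sum_lt_ite _ _ h₀.2.le]
  ring

def hh {Q K a : ℕ} (j : ℕ) (k : Fin K) (d : Fin a) : Fin (a + Q * K) :=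
  ⟨d + Q * K - j * k, by have := d.2; omega⟩

theorem hh_val {Q K a j : ℕ} (hj : j ≤ Q) (k : Fin K) (d : Fin a) :
    (hh (Q := Q) j k d : ℕ) + j * k = d + Q * K := by
  have := Nat.mul_le_mul hj k.2.le
  simp only [hh]; omega

noncomputable def latCfg (G : Cfg L τ σ) (j : L → ℕ) (M Q K a l x : ℕ) (ν η : ℝ) :
    Cfg ((L × Fin (a + Q * K)) ⊕ Fin l) (Fin K × Fin a × τ) (Fin K × σ) where
  s := Sum.elim (fun p => -(1 + j p.1 * ν) / (1 + 2 * j p.1 * ν)) (fun _ => 1)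
  c := Sum.elim (fun p => ν * ((p.2 : ℕ) - Q * K + η * M * G.c p.1) / (K * (1 + 2 * j p.1 * ν)))
    (fun i => if (i : ℕ) < x then -3 else 3)
  col := Sum.elim (fun p => G.col p.1) (fun _ => false)
  z u := (((u.1 : ℕ) + η * (G.z u.2.2).1 +
      2 * ν * ((u.2.1 : ℕ) + η * M * ((G.z u.2.2).2 + 3 * (G.z u.2.2).1))) / K,
    -((u.1 : ℕ) + η * (G.z u.2.2).1 +
      ν * ((u.2.1 : ℕ) + η * M * ((G.z u.2.2).2 + 3 * (G.z u.2.2).1))) / K)
  a u := Sum.inl (G.a u.2.2, hh (j (G.a u.2.2)) u.1 u.2.1)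
  b u := Sum.inl (G.b u.2.2, hh (j (G.b u.2.2)) u.1 u.2.1)
  slot u := (u.1, G.slot u.2.2)

noncomputable def latP (L : Type) (K a J : ℕ) (ν : ℝ) (p : Fin K × ((Fin a × L) ⊕ Fin J)) : ℝ :=
  Sum.elim (fun q => -((p.1 : ℕ) + ν * ((q.1 : ℕ) + 1 / 2)) / K) (fun _ => -3) p.2

noncomputable def latQ (L : Type) (K a J : ℕ) (p : Fin K × ((Fin a × L) ⊕ Fin J)) : ℝ :=
  ((p.1 : ℕ) + 3 / 4) / K

theorem lat_gad [Fintype L] {G : Cfg L τ σ} {γ : ℝ} (h : G.Plain 3 γ) (hγ : 0 < γ) (hγ1 : γ ≤ 1)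
    {j : L → ℕ} {M Q K a n' : ℕ} (hM : 1 ≤ M) (hK : 1 ≤ K) (ha : 1 ≤ a) (hQ : Q ≤ a)
    (hj : ∀ g, (j g : ℝ) = M * G.s g + 3 * M) (hjQ : ∀ g, j g ≤ Q)
    (hn : Fintype.card L = 2 * n') :
    (latCfg G j M Q K a (Fintype.card L * (a + Q * K)) (n' * (2 * a - 1)) (1 / (4 * a))
      (1 / (4 * a) / (100 * M))).Gad (latP L K a (∑ g, j g) (1 / (4 * a))) (latQ L K a (∑ g, j g))
      1 (γ / (2400 * a ^ 2 * K)) := by
  classical
  have hM' : (1 : ℝ) ≤ M := by exact_mod_cast hM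
  have hK' : (1 : ℝ) ≤ K := by exact_mod_cast hK
  have ha' : (1 : ℝ) ≤ a := by exact_mod_cast ha
  have hQ' : (Q : ℝ) ≤ a := by exact_mod_cast hQ
  have hK0 : (0 : ℝ) < K := by linarith
  obtain ⟨ν, hν⟩ : ∃ ν : ℝ, ν = 1 / (4 * a) := ⟨_, rfl⟩
  obtain ⟨η, hη⟩ : ∃ η : ℝ, η = ν / (100 * M) := ⟨_, rfl⟩
  obtain ⟨m, hm⟩ : ∃ m : ℝ, m = γ / (2400 * a ^ 2 * K) := ⟨_, rfl⟩
  rw [← hν, ← hη, ← hm]
  set S := latCfg G j M Q K a (Fintype.card L * (a + Q * K)) (n' * (2 * a - 1)) ν η with hS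
  have hν0 : 0 < ν := by rw [hν]; positivity
  have hνa : ν * a = 1 / 4 := by rw [hν]; field_simp
  have hν1 : ν ≤ 1 / 4 := by nlinarith
  have hη0 : 0 < η := by rw [hη]; positivity
  have hηM : η * M = ν / 100 := by rw [hη]; field_simp
  have hη1 : η ≤ ν / 100 := by nlinarith
  have hm0 : 0 < m := by rw [hm]; positivity
  have hmK : m * K = ν * (ν / 100 * γ) / (3 / 2) := by rw [hm, hν]; field_simp; ring
  have hνγ : ν * γ ≤ ν := by nlinarith
  have hmK1 : m * K ≤ ν * γ / 600 := by rw [hmK]; nlinarith [mul_pos hν0 hγ]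
  have hm1 : m ≤ ν * γ / 600 := by nlinarith
  have hjν : ∀ g, 0 ≤ (j g : ℝ) * ν ∧ (j g : ℝ) * ν ≤ 1 / 4 := fun g => by
    have : (j g : ℝ) ≤ Q := by exact_mod_cast hjQ g
    exact ⟨by positivity, by nlinarith⟩
  have hA : ∀ g, 0 < 1 + 2 * (j g : ℝ) * ν := fun g => by positivity
  have hk : ∀ k : Fin K, (0 : ℝ) ≤ (k : ℕ) ∧ ((k : ℕ) : ℝ) + 1 ≤ K := fun k =>
    ⟨by positivity, by exact_mod_cast k.2⟩
  have hd : ∀ d : Fin a, (0 : ℝ) ≤ ν * (d : ℕ) ∧ ν * (d : ℕ) + ν ≤ 1 / 4 := fun d => by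
    have : ((d : ℕ) : ℝ) + 1 ≤ a := by exact_mod_cast d.2
    exact ⟨by positivity, by nlinarith⟩
  have he1 : ∀ t, |η * (G.z t).1| ≤ 3 * ν / 100 := fun t => by
    rw [abs_mul, abs_of_pos hη0]; nlinarith [h.z1 t]
  have he2 : ∀ t, |ν * (η * M * ((G.z t).2 + 3 * (G.z t).1))| ≤ 3 * ν / 100 := fun t => by
    have h1 := abs_le.1 (h.z1 t)
    have h2 := abs_le.1 (h.z2 t)
    have h3 : |(G.z t).2 + 3 * (G.z t).1| ≤ 12 := by rw [abs_le]; constructor <;> linarith
    rw [hηM, abs_mul, abs_mul, abs_of_pos hν0, abs_of_pos (by positivity : 0 < ν / 100)]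
    have : ν / 100 * |(G.z t).2 + 3 * (G.z t).1| ≤ 3 / 100 := by nlinarith
    nlinarith
  have he3 : ∀ g t, |η * M * G.f g (G.z t)| ≤ 1 / 2 := fun g t => by
    have h1 := abs_sub ((G.z t).2 - G.s g * (G.z t).1) (G.c g)
    have h2 := abs_sub (G.z t).2 (G.s g * (G.z t).1)
    rw [abs_mul] at h2
    have h3 := mul_le_mul (h.s_le g) (h.z1 t) (abs_nonneg _) (by norm_num)
    have h4 : |G.f g (G.z t)| ≤ 21 := by unfold Cfg.f; linarith [h.z2 t, h.c_le g]
    rw [hηM, abs_mul, abs_of_pos (by positivity : 0 < ν / 100)]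
    nlinarith
  have hhh : ∀ g (k : Fin K) (d : Fin a), ((hh (Q := Q) (j g) k d : ℕ) : ℝ) =
      (d : ℕ) + Q * K - j g * (k : ℕ) := fun g k d => by
    have := congrArg (Nat.cast : ℕ → ℝ) (hh_val (hjQ g) k d)
    push_cast at this; linarith
  have f1 : ∀ g h' u, K * (1 + 2 * j g * ν) * S.f (Sum.inl (g, h')) (S.z u) =
      ν * (((hh (Q := Q) (j g) u.1 u.2.1 : ℕ) : ℝ) - (h' : ℕ) + η * M * G.f g (G.z u.2.2)) :=
    fun g h' u => by
    have h1 := (hA g).ne'
    have h2 := hK0.ne'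
    rw [hhh]
    simp only [hS, latCfg, Cfg.f, Sum.elim_inl]
    field_simp
    linear_combination (-η * ν * (G.z u.2.2).1) * hj g
  have hz1 : ∀ u, |(S.z u).1| ≤ 1 := fun u => by
    have h1 := abs_le.1 (he1 u.2.2)
    have h2 := abs_le.1 (he2 u.2.2)
    simp only [hS, latCfg]
    rw [abs_div, abs_of_pos hK0, div_le_one hK0, abs_le]
    constructor <;> nlinarith [hk u.1, hd u.2.1]
  have hz2 : ∀ u, |(S.z u).2| ≤ 1 := fun u => by
    have h1 := abs_le.1 (he1 u.2.2)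
    have h2 := abs_le.1 (he2 u.2.2)
    simp only [hS, latCfg]
    rw [abs_div, abs_of_pos hK0, div_le_one hK0, abs_le]
    constructor <;> nlinarith [hk u.1, hd u.2.1]
  have f2 : ∀ i u, sg (S.f (Sum.inr i) (S.z u)) = (if (i : ℕ) < n' * (2 * a - 1) then 1 else -1) ∧
      1 ≤ |S.f (Sum.inr i) (S.z u)| := fun i u => by
    have h1 := abs_le.1 (hz1 u)
    have h2 := abs_le.1 (hz2 u)
    have h3 : S.f (Sum.inr i) (S.z u) = (S.z u).2 - (S.z u).1 -
        (if (i : ℕ) < n' * (2 * a - 1) then -3 else 3) := by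
      simp only [Cfg.f]; simp [hS, latCfg]
    rw [h3]
    split_ifs
    · exact ⟨sg_pos (by linarith), le_abs'.2 (Or.inr (by linarith))⟩
    · exact ⟨sg_neg (by linarith), le_abs'.2 (Or.inl (by linarith))⟩
  have cast_lt : ∀ {u v : ℕ}, u < v → (u : ℝ) + 1 ≤ v := fun h => by exact_mod_cast h
  have f3 : ∀ (k' : Fin K) (q : Fin a × L) u,
      sg ((S.z u).2 - latP L K a (∑ g, j g) ν (k', Sum.inl q)) =
        -(if (k' : ℕ) < u.1 then 1 else -1) +
          (if k' = u.1 then -(if (q.1 : ℕ) < u.2.1 then 1 else -1) - 1 else 0) ∧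
      m ≤ |(S.z u).2 - latP L K a (∑ g, j g) ν (k', Sum.inl q)| := fun k' q u => by
    have h1 := abs_le.1 (he1 u.2.2)
    have h2 := abs_le.1 (he2 u.2.2)
    obtain ⟨X, hX⟩ : ∃ X, X = K * ((S.z u).2 - latP L K a (∑ g, j g) ν (k', Sum.inl q)) := ⟨_, rfl⟩
    have h3 : X = ((k' : ℕ) - (u.1 : ℕ)) + (ν * (q.1 : ℕ) - ν * (u.2.1 : ℕ) + ν / 2) -
        η * (G.z u.2.2).1 - ν * (η * M * ((G.z u.2.2).2 + 3 * (G.z u.2.2).1)) := by
      have h2 := hK0.ne'
      rw [hX]; simp only [hS, latCfg, latP, Sum.elim_inl]; field_simp; ring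
    have h4 := hd q.1
    have h5 := hd u.2.1
    rw [sg_of_mul hK0 hX.symm]
    suffices H : _ ∧ ν / 4 ≤ |X| from ⟨H.1, le_abs_of_mul hK0 hX.symm H.2 (by linarith)⟩
    rcases lt_trichotomy (k' : ℕ) u.1 with h6 | h6 | h6
    · have := cast_lt h6
      rw [if_pos h6, if_neg (fun e => by rw [e] at h6; omega)]
      exact ⟨sg_neg (by linarith), le_abs'.2 (Or.inl (by linarith))⟩
    · have h7 : ((k' : ℕ) : ℝ) = (u.1 : ℕ) := by rw [h6]
      rw [if_neg (by omega), if_pos (Fin.ext h6)]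
      rcases lt_or_ge (q.1 : ℕ) u.2.1 with h8 | h8
      · have := mul_le_mul_of_nonneg_left (cast_lt h8) hν0.le
        rw [if_pos h8]
        exact ⟨sg_neg (by linarith), le_abs'.2 (Or.inl (by linarith))⟩
      · have h9 : ((u.2.1 : ℕ) : ℝ) ≤ (q.1 : ℕ) := by exact_mod_cast h8
        have := mul_le_mul_of_nonneg_left h9 hν0.le
        rw [if_neg (by omega)]
        exact ⟨sg_pos (by linarith), le_abs'.2 (Or.inr (by linarith))⟩
    · have := cast_lt h6
      rw [if_neg (by omega), if_neg (fun e => by rw [e] at h6; omega)]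
      exact ⟨sg_pos (by linarith), le_abs'.2 (Or.inr (by linarith))⟩
  have f4 : ∀ (k' : Fin K) (q : Fin (∑ g, j g)) u,
      1 ≤ (S.z u).2 - latP L K a (∑ g, j g) ν (k', Sum.inr q) := fun k' q u => by
    have h2 := abs_le.1 (hz2 u)
    simp only [latP, Sum.elim_inr]; linarith
  have f5 : ∀ p u, sg ((S.z u).1 - latQ L K a (∑ g, j g) p) =
        (if (p.1 : ℕ) < u.1 then 1 else -1) ∧
      m ≤ |(S.z u).1 - latQ L K a (∑ g, j g) p| := fun p u => by
    have h1 := abs_le.1 (he1 u.2.2)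
    have h2 := abs_le.1 (he2 u.2.2)
    obtain ⟨X, hX⟩ : ∃ X, X = K * ((S.z u).1 - latQ L K a (∑ g, j g) p) := ⟨_, rfl⟩
    have h3 : X = ((u.1 : ℕ) - (p.1 : ℕ) - 3 / 4) + 2 * (ν * (u.2.1 : ℕ)) +
        η * (G.z u.2.2).1 + 2 * (ν * (η * M * ((G.z u.2.2).2 + 3 * (G.z u.2.2).1))) := by
      have h2 := hK0.ne'
      rw [hX]; simp only [hS, latCfg, latQ]; field_simp; ring
    have h5 := hd u.2.1
    rw [sg_of_mul hK0 hX.symm]
    suffices H : _ ∧ ν / 4 ≤ |X| from ⟨H.1, le_abs_of_mul hK0 hX.symm H.2 (by linarith)⟩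
    rcases lt_or_ge (p.1 : ℕ) u.1 with h6 | h6
    · have := cast_lt h6
      rw [if_pos h6]
      exact ⟨sg_pos (by linarith), le_abs'.2 (Or.inr (by linarith))⟩
    · have h9 : ((u.1 : ℕ) : ℝ) ≤ (p.1 : ℕ) := by exact_mod_cast h6
      rw [if_neg (by omega)]
      exact ⟨sg_neg (by linarith), le_abs'.2 (Or.inl (by linarith))⟩
  have hs : ∀ p : L × Fin (a + Q * K), -1 ≤ S.s (Sum.inl p) ∧ S.s (Sum.inl p) ≤ -(1 / 2) :=
    fun p => by
    simp only [hS, latCfg, Sum.elim_inl]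
    rw [le_div_iff₀ (hA _), div_le_iff₀ (hA _)]
    constructor <;> linarith [hjν p.1]
  have hjs : ∀ t, γ ≤ |(j (G.a t) : ℝ) - j (G.b t)| := fun t => by
    rw [hj, hj, add_sub_add_right_eq_sub, ← mul_sub, abs_mul, abs_of_pos (by linarith)]
    nlinarith [h.sep t]
  refine
    { s_le := ?_
      c_le := ?_
      z1 := hz1
      z2 := hz2
      fa := fun u => ?_
      fb := fun u => ?_
      sep := fun u => ?_
      ca := fun u => h.ca u.2.2
      cb := fun u => h.cb u.2.2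
      far := ?_
      inj_slot := ?_
      inj_ab := ?_
      ev := by simp
      s_ge := ?_
      s_sum := ?_
      P_le := ?_
      Q_le := fun p => ?_
      P_far := ?_
      Q_far := fun u p => (f5 p u).2
      bal := fun u => ?_ }
  · rintro (p | p)
    · exact abs_le.2 ⟨(hs p).1, by linarith [(hs p).2]⟩
    · simp [hS, latCfg]
  · rintro (p | p)
    · simp only [hS, latCfg, Sum.elim_inl]
      have h1 : ((p.2 : ℕ) : ℝ) ≤ a + Q * K := by exact_mod_cast p.2.2.le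
      have h2 : (0 : ℝ) ≤ (p.2 : ℕ) := by positivity
      have h3 := abs_le.1 (h.c_le p.1)
      have h4 := hjν p.1
      have h5 : ν * (Q * K) ≤ 1 / 4 * K := by
        rw [← mul_assoc]; exact mul_le_mul_of_nonneg_right (by nlinarith) hK0.le
      have h6 : |ν * (ν / 100 * G.c p.1)| ≤ 1 := by
        rw [abs_mul, abs_mul, abs_of_pos hν0, abs_of_pos (by positivity : 0 < ν / 100)]
        have : ν / 100 * |G.c p.1| ≤ 1 := by nlinarith [h.c_le p.1]
        nlinarith [abs_nonneg (G.c p.1)]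
      have h7 := abs_le.1 h6
      have h8 := mul_le_mul_of_nonneg_left h1 hν0.le
      have h9 := mul_nonneg hν0.le h2
      have h10 := mul_nonneg hK0.le h4.1
      rw [hηM, abs_div, abs_of_pos (mul_pos hK0 (hA _)), div_le_iff₀ (mul_pos hK0 (hA _)), abs_le]
      constructor <;> nlinarith
    · simp only [hS, latCfg, Sum.elim_inr]; split_ifs <;> norm_num
  · have := f1 (G.a u.2.2) (hh (j (G.a u.2.2)) u.1 u.2.1) u
    rw [h.fa, sub_self, mul_zero, add_zero, mul_zero] at this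
    exact (mul_eq_zero.1 this).resolve_left (mul_pos hK0 (hA _)).ne'
  · have := f1 (G.b u.2.2) (hh (j (G.b u.2.2)) u.1 u.2.1) u
    rw [h.fb, sub_self, mul_zero, add_zero, mul_zero] at this
    exact (mul_eq_zero.1 this).resolve_left (mul_pos hK0 (hA _)).ne'
  · have h1 : (1 + 2 * j (G.a u.2.2) * ν) * (1 + 2 * j (G.b u.2.2) * ν) *
        (S.s (S.a u) - S.s (S.b u)) = ν * ((j (G.a u.2.2) : ℝ) - j (G.b u.2.2)) := by
      have h1 := (hA (G.a u.2.2)).ne'
      have h2 := (hA (G.b u.2.2)).ne'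
      simp only [hS, latCfg, Sum.elim_inl]; field_simp; ring
    refine le_abs_of_mul (m := ν * γ) (mul_pos (hA _) (hA _)) h1 ?_ ?_
    · rw [abs_mul, abs_of_pos hν0]; exact mul_le_mul_of_nonneg_left (hjs _) hν0.le
    · have h2 : (1 + 2 * j (G.a u.2.2) * ν) * (1 + 2 * j (G.b u.2.2) * ν) ≤ 3 / 2 * (3 / 2) :=
        mul_le_mul (by linarith [hjν (G.a u.2.2)]) (by linarith [hjν (G.b u.2.2)]) (hA _).le
          (by norm_num)
      nlinarith [mul_pos hν0 hγ]
  · rintro u (⟨g, h'⟩ | i) h1 h2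
    · refine le_abs_of_mul (m := ν * (ν / 100 * γ)) (mul_pos hK0 (hA g)) (f1 g h' u) ?_ ?_
      · rw [abs_mul, abs_of_pos hν0]
        refine mul_le_mul_of_nonneg_left ?_ hν0.le
        have h3 := abs_le.1 (he3 g u.2.2)
        rcases lt_trichotomy (h' : ℕ) (hh (Q := Q) (j g) u.1 u.2.1) with h4 | h4 | h4
        · exact le_abs'.2 (Or.inr (by nlinarith [cast_lt h4]))
        · rw [h4, sub_self, zero_add, hηM, abs_mul, abs_of_pos (by positivity : 0 < ν / 100)]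
          refine mul_le_mul_of_nonneg_left (h.far _ _ ?_ ?_) (by positivity)
          · rintro rfl; exact h1 (by rw [Fin.ext h4]; rfl)
          · rintro rfl; exact h2 (by rw [Fin.ext h4]; rfl)
        · exact le_abs'.2 (Or.inl (by nlinarith [cast_lt h4]))
      · rw [← mul_assoc, hmK]
        have h3 : 0 < ν * (ν / 100 * γ) := by positivity
        nlinarith [hjν g]
    · exact le_trans (by linarith) (f2 i u).2
  · rintro ⟨k, d, t⟩ ⟨k', d', t'⟩ h1 h2
    simp only [hS, latCfg, Prod.mk.injEq, Sum.inl.injEq] at h1 h2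
    obtain ⟨rfl, h2⟩ := h2
    obtain rfl := h.inj_slot _ _ h1.1 h2
    have h3 := hh_val (hjQ (G.a t)) k d
    have h4 := hh_val (hjQ (G.a t)) k d'
    rw [h1.2] at h3
    rw [Fin.ext (by omega : (d : ℕ) = d')]
  · rintro ⟨k, d, t⟩ ⟨k', d', t'⟩ h1 h2
    simp only [hS, latCfg, Prod.mk.injEq, Sum.inl.injEq] at h1 h2
    obtain rfl := h.inj_ab _ _ h1.1 h2.1
    have h3 := hhh (G.a t) k d
    have h4 := hhh (G.a t) k' d'
    have h5 := hhh (G.b t) k d
    have h6 := hhh (G.b t) k' d'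
    rw [h1.2] at h3
    rw [h2.2] at h5
    have h7 : (j (G.a t) : ℝ) - j (G.b t) ≠ 0 := fun e => by
      have := hjs t; rw [e, abs_zero] at this; linarith
    have h8 : ((k : ℕ) : ℝ) = (k' : ℕ) := mul_left_cancel₀ h7 (by linarith)
    have h9 : ((d : ℕ) : ℝ) = (d' : ℕ) := by rw [h8] at h3; linarith
    rw [Fin.ext (by exact_mod_cast h8 : (k : ℕ) = k'), Fin.ext (by exact_mod_cast h9 : (d : ℕ) = d')]
  · rintro (p | p)
    · exact le_abs'.2 (Or.inl (by linarith [(hs p).2]))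
    · simp only [hS, latCfg, Sum.elim_inr]; norm_num
  · rw [Fintype.sum_sum_type]
    have h1 : ∀ p, sg (S.s (Sum.inl p)) = -1 := fun p => sg_neg (by linarith [(hs p).2])
    have h2 : ∀ p, sg (S.s (Sum.inr p)) = 1 := fun p => sg_pos one_pos
    simp [h1, h2]
  · rintro ⟨k, q | q⟩
    · simp only [latP, Sum.elim_inl]
      rw [abs_div, abs_of_pos hK0, div_le_iff₀ hK0, abs_le]
      constructor <;> nlinarith [hk k, hd q.1]
    · simp [latP]
  · simp only [latQ]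
    rw [abs_div, abs_of_pos hK0, div_le_iff₀ hK0, abs_le]
    constructor <;> nlinarith [hk p.1]
  · rintro u ⟨k, q | q⟩
    · exact (f3 k q u).2
    · exact le_abs'.2 (Or.inr (by linarith [f4 k q u]))
  · have hx : n' * (2 * a - 1) ≤ Fintype.card L * (a + Q * K) := by
      rw [hn]
      calc n' * (2 * a - 1) ≤ n' * (2 * (a + Q * K)) := Nat.mul_le_mul_left _ (by omega)
        _ = _ := by ring
    have h1 : ∀ g, ∑ h', sg (S.f (Sum.inl (g, h')) (S.z u)) = sg (G.f g (G.z u.2.2)) +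
        (2 * (u.2.1 : ℕ) + Q * K - a + 1) - 2 * (u.1 : ℕ) * (j g : ℤ) := fun g => by
      simp only [sg_of_mul (mul_pos hK0 (hA g)) (f1 g _ u), sg_mul_pos hν0]
      rw [sum_shift _ ((he3 g u.2.2).trans_lt (by norm_num)), sg_mul_pos (by positivity)]
      have := congrArg (Nat.cast : ℕ → ℤ) (hh_val (hjQ g) u.1 u.2.1)
      push_cast at this ⊢
      linear_combination 2 * this
    have h2 : ((n' * (2 * a - 1) : ℕ) : ℤ) = n' * (2 * a - 1) := by
      rw [Nat.cast_mul, Nat.cast_sub (by omega)]; push_cast; ring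
    have h3 : (Fintype.card L : ℤ) = 2 * n' := by exact_mod_cast hn
    have h4 : ∀ k' : Fin K, ∑ q : Fin a × L,
        sg ((S.z u).2 - latP L K a (∑ g, j g) ν (k', Sum.inl q)) =
        (Fintype.card L : ℤ) * (-(a : ℤ) * (if (k' : ℕ) < u.1 then 1 else -1) +
          (if k' = u.1 then -2 * ((u.2.1 : ℕ) : ℤ) else 0)) := fun k' => by
      have f3' : ∀ (d' : Fin a) (g : L),
          sg ((S.z u).2 - latP L K a (∑ g, j g) ν (k', Sum.inl (d', g))) =
          -(if (k' : ℕ) < u.1 then 1 else -1) +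
            (if k' = u.1 then -(if (d' : ℕ) < u.2.1 then 1 else -1) - 1 else 0) :=
        fun d' g => (f3 k' (d', g) u).1
      rw [Fintype.sum_prod_type]
      simp only [f3', sum_const, card_univ, nsmul_eq_mul, ← mul_sum]
      congr 1
      by_cases e : k' = u.1
      · simp only [if_pos e, sum_sub_distrib, sum_neg_distrib, sum_add_distrib,
          sum_lt_ite _ _ u.2.1.2.le, sum_const, card_univ, nsmul_eq_mul, Fintype.card_fin]
        ring
      · simp only [if_neg e, add_zero, sum_const, card_univ, nsmul_eq_mul, Fintype.card_fin]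
        ring
    have h5 : ∀ k' : Fin K, ∑ q, sg ((S.z u).1 - latQ L K a (∑ g, j g) (k', q)) =
        ((a : ℤ) * Fintype.card L + ∑ g, (j g : ℤ)) * (if (k' : ℕ) < u.1 then 1 else -1) :=
      fun k' => by
      have f5' : ∀ q, sg ((S.z u).1 - latQ L K a (∑ g, j g) (k', q)) =
          (if (k' : ℕ) < u.1 then 1 else -1) := fun q => (f5 (k', q) u).1
      simp only [f5', sum_const, card_univ, nsmul_eq_mul, Fintype.card_fin,
        Fintype.card_prod, Fintype.card_sum]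
      push_cast; rfl
    rw [Fintype.sum_sum_type, Fintype.sum_prod_type, Fintype.sum_prod_type, Fintype.sum_prod_type]
    simp only [h5]
    simp only [h1, (f2 _ u).1, sum_lt_ite _ _ hx, Fintype.sum_sum_type, h4,
      sg_pos (lt_of_lt_of_le one_pos (f4 _ _ u)), sum_add_distrib, sum_sub_distrib, ← mul_sum,
      sum_const, card_univ, nsmul_eq_mul, sum_lt_ite _ _ u.1.2.le, sum_ite_eq', mem_univ, if_true,
      h.bal, h2, Fintype.card_fin]
    push_cast
    rw [h3]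
    ring

theorem PlainEx.lat {γ : ℝ} {n m Δ M Q K a : ℕ} (h : PlainEx 2 γ n m Δ) (hγ : 0 < γ)
    (hγ1 : γ ≤ 1) (hM : 100 ≤ γ ^ 2 * M) (hQ : 6 * M ≤ Q) (hK : 1 ≤ K) (ha : Q ≤ a) :
    ∃ J, J ≤ n * Q ∧ GadEx 1 (γ / (4800 * a ^ 2 * K)) (K * (a * n + J)) (2 * (n * (a + Q * K)))
      (K * (a * m)) (K * Δ) := by
  obtain ⟨L, τ, σ, i1, i2, i3, G, hG, rfl, rfl, rfl⟩ := h
  have hM1 : 1 ≤ M := by
    by_contra hc
    have : M = 0 := by omega
    rw [this] at hM; norm_num at hM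
  have hM' : (1 : ℝ) ≤ M := by exact_mod_cast hM1
  have hM0 : (0 : ℝ) < M := by linarith
  have hr : ∀ k, |M * G.s k - round (M * G.s k)| ≤ 1 / 2 := fun k => abs_sub_round _
  obtain ⟨z, hz⟩ := perturb hG hγ hγ1 (fun k => (round (M * G.s k) : ℝ) / M) G.c
    (fun k => by
      have h1 : (round (M * G.s k) : ℝ) / M - G.s k = -(M * G.s k - round (M * G.s k)) / M := by
        field_simp; ring
      rw [h1, abs_div, abs_neg, abs_of_pos hM0, div_le_iff₀ hM0]
      linarith [hr k])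
    (fun k => by simp only [sub_self, abs_zero]; positivity)
  have hb : ∀ k, 0 ≤ round (M * G.s k) + 3 * (M : ℤ) ∧ round (M * G.s k) + 3 * (M : ℤ) ≤ 6 * M :=
    fun k => by
    have h1 := abs_le.1 (hr k)
    have h2 := abs_le.1 (hG.s_le k)
    constructor
    · have : (0 : ℝ) ≤ round (M * G.s k) + 3 * M := by nlinarith
      exact_mod_cast this
    · have : (round (M * G.s k) : ℝ) + 3 * M ≤ 6 * M := by nlinarith
      exact_mod_cast this
  obtain ⟨n', hn⟩ := hG.ev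
  let j : L → ℕ := fun k => (round (M * G.s k) + 3 * (M : ℤ)).toNat
  have hjQ : ∀ k, j k ≤ Q := fun k => by have := hb k; simp only [j]; omega
  have key := lat_gad hz (by positivity) (by linarith) (j := j) (Q := Q) (n' := n') hM1 hK
    (by omega) ha (fun k => by
      have h1 : ((j k : ℕ) : ℤ) = round (M * G.s k) + 3 * (M : ℤ) := Int.toNat_of_nonneg (hb k).1
      have h2 := congrArg (Int.cast : ℤ → ℝ) h1
      push_cast at h2
      rw [h2]; field_simp) hjQ (by omega)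
  refine ⟨∑ g, j g, ?_, _, _, _, _, inferInstance, inferInstance, inferInstance, inferInstance,
    _, _, _, (by ring : γ / 2 / (2400 * a ^ 2 * K) = γ / (4800 * a ^ 2 * K)) ▸ key,
    by simp, by simp; ring, by simp, by simp⟩
  simpa using sum_le_card_nsmul univ j Q fun k _ => hjQ k

end Pool.Agent.Lib.MP_d308c3_co
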