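import Pool.Agent.Lib.MP_d308c3_co.Sub
import Pool.Agent.Lib.MP_d308c3_co.Lat
import Pool.Agent.Lib.MP_d308c3_co.Base

namespace Pool.Agent.Lib.MP_d308c3_co

open Finset

def Fam (ρ : ℝ) (D E : ℕ) : Prop :=
  ∃ n m Δ, PlainEx 2 (1 / 2 ^ E) n m Δ ∧ ρ * n ≤ m ∧ 1 ≤ n ∧ n ≤ 2 ^ E ∧ Δ ≤ 2 ^ D

theorem half_pow_le {E E' : ℕ} (h : E ≤ E') : (1 : ℝ) / 2 ^ E' ≤ 1 / 2 ^ E :=
  one_div_le_one_div_of_le (by positivity) (pow_le_pow_right₀ one_le_two h)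

theorem half_pow_le_one (E : ℕ) : (1 : ℝ) / 2 ^ E ≤ 1 := by
  simpa using half_pow_le (Nat.zero_le E)

theorem Fam.mono {ρ ρ' : ℝ} {D E D' E' : ℕ} (h : Fam ρ D E) (h1 : ρ' ≤ ρ) (h2 : D ≤ D')
    (h3 : E ≤ E') : Fam ρ' D' E' := by
  obtain ⟨n, m, Δ, h4, h5, h6, h7, h8⟩ := h
  exact ⟨n, m, Δ, h4.mono (half_pow_le h3),
    (mul_le_mul_of_nonneg_right h1 (by positivity)).trans h5, h6,
    h7.trans (Nat.pow_le_pow_right two_pos h3), h8.trans (Nat.pow_le_pow_right two_pos h2)⟩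

theorem hM_pow (E : ℕ) : (100 : ℝ) ≤ (1 / 2 ^ E) ^ 2 * ((2 ^ (2 * E + 7) : ℕ) : ℝ) := by
  have : ((1 : ℝ) / 2 ^ E) ^ 2 * ((2 ^ (2 * E + 7) : ℕ) : ℝ) = 128 := by
    push_cast; field_simp; ring
  rw [this]; norm_num

theorem hQ_pow (E : ℕ) : 6 * 2 ^ (2 * E + 7) ≤ 2 ^ (2 * E + 10) := by
  have : 2 ^ (2 * E + 10) = 8 * 2 ^ (2 * E + 7) := by ring
  rw [this]; exact Nat.mul_le_mul_right _ (by norm_num)

theorem Fam.layer {ρ : ℝ} {D E : ℕ} (h : Fam ρ D E) (hρ : 0 ≤ ρ) (κ : ℕ) :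
    ∃ w l m Δ, GadEx 1 (1 / 2 ^ (5 * E + 45 + 3 * κ)) w l m Δ ∧ ρ * (64 / 65) * w ≤ m ∧
      2 ^ κ * l ≤ 3 * w ∧ 1 ≤ w ∧ w ≤ 2 ^ (3 * E + 17 + 2 * κ) ∧ Δ ≤ 2 ^ (κ + D) := by
  obtain ⟨n, m, Δ, h4, h5, h6, h7, h8⟩ := h
  obtain ⟨Q, hQ⟩ : ∃ Q, Q = 2 ^ (2 * E + 10) := ⟨_, rfl⟩
  obtain ⟨K, hK⟩ : ∃ K, K = 2 ^ κ := ⟨_, rfl⟩
  have hK1 : 1 ≤ K := hK ▸ Nat.one_le_two_pow
  have hQ1 : 1 ≤ Q := hQ ▸ Nat.one_le_two_pow
  obtain ⟨J, hJ, hG⟩ := h4.lat (Q := Q) (K := K) (a := 64 * (Q * K)) (by positivity)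
    (half_pow_le_one E) (hM_pow E) (hQ ▸ hQ_pow E) hK1 (by nlinarith)
  have hJ' : J ≤ n * (Q * K) := hJ.trans (Nat.mul_le_mul_left _ (by nlinarith))
  refine ⟨_, _, _, _, hG.mono one_pos le_rfl ?_, ?_, ?_, ?_, ?_, ?_⟩
  · rw [div_div, hQ, hK]
    refine one_div_le_one_div_of_le (by positivity) ?_
    push_cast
    have : (2 : ℝ) ^ E * (4800 * (64 * (2 ^ (2 * E + 10) * 2 ^ κ)) ^ 2 * 2 ^ κ) =
        4800 / 8192 * 2 ^ (5 * E + 45 + 3 * κ) := by ring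
    rw [this]
    have : (0 : ℝ) < 2 ^ (5 * E + 45 + 3 * κ) := by positivity
    linarith
  · have h1 : ((K * (64 * (Q * K) * n + J) : ℕ) : ℝ) ≤ 65 * (K * (Q * K)) * n := by
      have : K * (64 * (Q * K) * n + J) ≤ 65 * (K * (Q * K)) * n := by nlinarith
      exact_mod_cast this
    calc _ ≤ ρ * (64 / 65) * (65 * (K * (Q * K)) * n) := by gcongr
      _ = K * (64 * (Q * K)) * (ρ * n) := by ring
      _ ≤ K * (64 * (Q * K)) * m := by gcongr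
      _ = _ := by push_cast; ring
  · rw [← hK]; nlinarith [Nat.zero_le (K * J), Nat.zero_le (K * (Q * K) * n)]
  · exact Nat.mul_pos hK1 (by positivity)
  · calc K * (64 * (Q * K) * n + J) ≤ K * (128 * (Q * K) * n) := by nlinarith
      _ ≤ K * (128 * (Q * K) * 2 ^ E) := by gcongr
      _ = _ := by rw [hQ, hK]; ring
  · rw [hK, pow_add]; exact Nat.mul_le_mul_left _ h8

theorem Fam.nest {ρ : ℝ} {D E X B : ℕ} (h : Fam ρ D E) (hρ : 0 ≤ ρ)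
    (hB : 15 * E + 9 * X + 153 ≤ B) (t : ℕ) : ∀ κ, κ + t * (D + 6) ≤ X →
    ∃ w l m Δ, GadEx 2 (1 / 2 ^ ((t + 1) * B)) w l m Δ ∧ (ρ * (12 / 13)) ^ (t + 1) * w ≤ m ∧
      2 ^ κ * l ≤ 3 * w ∧ 1 ≤ w ∧ w ≤ 2 ^ ((t + 1) * B) ∧ Δ ≤ 2 ^ (X + D) := by
  induction t with
  | zero =>
    intro κ hκ
    obtain ⟨w, l, m, Δ, h1, h2, h3, h4, h5, h6⟩ := h.layer hρ κ
    refine ⟨w, l, m, Δ, h1.mono one_pos one_le_two (half_pow_le (by omega)), le_trans ?_ h2, h3, h4,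
      h5.trans (Nat.pow_le_pow_right two_pos (by omega)),
      h6.trans (Nat.pow_le_pow_right two_pos (by omega))⟩
    rw [zero_add, pow_one]
    exact mul_le_mul_of_nonneg_right (mul_le_mul_of_nonneg_left (by norm_num) hρ) (by positivity)
  | succ t ih =>
    intro κ hκ
    rw [add_mul, one_mul] at hκ
    obtain ⟨w, l, m, Δ, h1, h2, h3, h4, h5, h6⟩ := h.layer hρ κ
    obtain ⟨w', l', m', Δ', g1, g2, g3, g4, g5, g6⟩ := ih (κ + D + 6) (by omega)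
    have hW : 64 * (w' + Δ * l') ≤ 67 * w' := by
      have := Nat.mul_le_mul_right l' h6
      rw [pow_add _ _ 6] at g3
      nlinarith
    refine ⟨_, _, _, _, (h1.sub g1 (by positivity) (half_pow_le_one _) (by positivity)
      (half_pow_le_one _)).mono two_pos le_rfl ?_, ?_, ?_, ?_, ?_, g6⟩
    · refine le_trans (half_pow_le
        (E := (5 * E + 45 + 3 * κ) * 3 + (t + 1) * B + 18) (by rw [add_mul (t + 1)]; omega)) ?_
      rw [pow_add, pow_add, pow_mul, one_div_pow, div_mul_div_comm, div_div, mul_one]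
      refine one_div_le_one_div_of_le (by positivity) ?_
      gcongr; norm_num
    · have h7 : ((w' + Δ * l' : ℕ) : ℝ) ≤ 67 / 64 * w' := by
        have : (64 : ℝ) * ((w' + Δ * l' : ℕ) : ℝ) ≤ 67 * w' := by exact_mod_cast hW
        linarith
      rw [Nat.cast_mul, Nat.cast_mul m]
      calc _ ≤ (ρ * (12 / 13)) ^ (t + 1 + 1) * (w * (67 / 64 * w')) := by gcongr
        _ = (ρ * (12 / 13 * (67 / 64)) * w) * ((ρ * (12 / 13)) ^ (t + 1) * w') := by ring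
        _ ≤ (ρ * (64 / 65) * w) * ((ρ * (12 / 13)) ^ (t + 1) * w') := by gcongr; norm_num
        _ ≤ _ := by gcongr
    · rw [← mul_assoc, ← mul_assoc]; exact Nat.mul_le_mul_right _ h3
    · exact Nat.mul_pos h4 (by omega)
    · calc w * (w' + Δ * l') ≤ 2 ^ (3 * E + 17 + 2 * κ) * (2 * 2 ^ ((t + 1) * B)) :=
            Nat.mul_le_mul h5 (by omega)
        _ = 2 ^ (3 * E + 17 + 2 * κ + 1 + (t + 1) * B) := by ring
        _ ≤ _ := Nat.pow_le_pow_right two_pos (by rw [add_mul (t + 1)]; omega)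

theorem Fam.up {ρ : ℝ} {D E : ℕ} (h : Fam ρ D E) (hρ : 0 ≤ ρ) {x : ℕ} (hx : 1 ≤ x) :
    Fam ((ρ * (12 / 13)) ^ x / 5) (x * (D + 6)) (x * (15 * E + 9 * (x * (D + 6)) + 153) + 4) := by
  obtain ⟨t, rfl⟩ : ∃ t, x = t + 1 := ⟨x - 1, by omega⟩
  obtain ⟨w, l, m, Δ, h1, h2, h3, h4, h5, h6⟩ := h.nest hρ (X := t * (D + 6))
    (B := 15 * E + 9 * ((t + 1) * (D + 6)) + 153) (by rw [add_mul t]; omega) t 0 (by omega)
  rw [pow_zero, one_mul] at h3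
  refine ⟨_, m, Δ, (h1.plain (by positivity) (half_pow_le_one _) 0).mono ?_, le_trans ?_ h2,
    by omega, ?_, h6.trans (Nat.pow_le_pow_right two_pos (by rw [add_mul t]; omega))⟩
  · rw [pow_add, div_div]
    refine one_div_le_one_div_of_le (by positivity) ?_
    gcongr; norm_num
  · have h7 : ((l + 2 * w + 2 * 0 : ℕ) : ℝ) ≤ 5 * w := by exact_mod_cast (by omega)
    calc _ ≤ (ρ * (12 / 13)) ^ (t + 1) / 5 * (5 * w) := by gcongr
      _ = _ := by ring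
  · rw [pow_add]; omega

theorem fam_base : Fam 16 960 1071364 := by
  have h : Fam (9 / 8) 2 9 := ⟨8, 9, 3, base_ex.mono (by norm_num), by norm_num, by norm_num,
    by norm_num, by norm_num⟩
  exact (h.up (by norm_num) (x := 120) (by norm_num)).mono (by norm_num) (by norm_num)
    (by norm_num)

theorem fam_iter {u : ℕ} (hu : 2 ≤ u) (s : ℕ) :
    Fam (2 ^ (4 * u ^ s)) (1071364 * (4 * u) ^ s) (1071364 * (200 * u) ^ (s + 1)) := by
  induction s with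
  | zero => exact fam_base.mono (by norm_num) (by norm_num) (by simp; omega)
  | succ s ih =>
    have h0 : 1 ≤ u ^ s := Nat.one_le_pow _ _ (by omega)
    have h1 : 1 ≤ (4 * u) ^ s := Nat.one_le_pow _ _ (by omega)
    have h2 : 2 * u * (1071364 * (4 * u) ^ s + 6) ≤ 1071364 * (4 * u) ^ (s + 1) := by
      rw [pow_succ]; nlinarith
    have h3 : (4 * u) ^ (s + 1) ≤ (200 * u) ^ (s + 1) := Nat.pow_le_pow_left (by omega) _
    have h4 : 1 ≤ (200 * u) ^ (s + 1) := Nat.one_le_pow _ _ (by omega)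
    refine (ih.up (by positivity) (x := 2 * u) (by omega)).mono ?_ h2 ?_
    · obtain ⟨L, hL⟩ : ∃ L, 4 * u ^ s = L + 1 := ⟨4 * u ^ s - 1, by omega⟩
      have h5 : 4 * u ^ (s + 1) + 3 ≤ L * (2 * u) := by
        have : 4 * u ^ (s + 1) = (L + 1) * u := by rw [← hL]; ring
        rw [this]; nlinarith [show 3 ≤ L by omega]
      rw [hL, le_div_iff₀ (by norm_num)]
      calc (2 : ℝ) ^ (4 * u ^ (s + 1)) * 5 ≤ 2 ^ (4 * u ^ (s + 1)) * 2 ^ 3 := by gcongr; norm_num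
        _ ≤ 2 ^ (L * (2 * u)) := by rw [← pow_add]; exact pow_le_pow_right₀ one_le_two h5
        _ ≤ _ := by
          rw [pow_mul]
          refine pow_le_pow_left₀ (by positivity) ?_ _
          have : (0 : ℝ) < 2 ^ L := by positivity
          rw [pow_succ]; linarith
    · rw [pow_succ (200 * u) (s + 1)]
      obtain ⟨Y, hY⟩ : ∃ Y, Y = (200 * u) ^ (s + 1) := ⟨_, rfl⟩
      rw [← hY] at h3 h4 ⊢
      have h5 : 15 * (1071364 * Y) + 9 * (2 * u * (1071364 * (4 * u) ^ s + 6)) + 153 ≤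
          25 * (1071364 * Y) := by omega
      have h6 := Nat.mul_le_mul_left (2 * u) h5
      nlinarith

theorem Fam.points {ρ : ℝ} {D E N : ℕ} (h : Fam ρ D E) (hρ : 0 ≤ ρ)
    (hN : 2 ^ (3 * E + 13) ≤ 2 * N) :
    ∃ S : Finset (ℝ × ℝ), S.card = 2 * N ∧
      (∀ p ∈ S, ∀ q ∈ S, ∀ r ∈ S, p ≠ q → p ≠ r → q ≠ r →
        (q.1 - p.1) * (r.2 - p.2) - (q.2 - p.2) * (r.1 - p.1) ≠ 0) ∧
      ρ * N / 8 ≤ ((S ×ˢ S).filter (fun x => x.1 ≠ x.2 ∧
          (S.filter (fun r => 0 < (x.2.1 - x.1.1) * (r.2 - x.1.2)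
              - (x.2.2 - x.1.2) * (r.1 - x.1.1))).card * 2 + 2 = S.card)).card := by
  obtain ⟨n, m, Δ, h4, h5, h6, h7, -⟩ := h
  obtain ⟨Q, hQ⟩ : ∃ Q, Q = 2 ^ (2 * E + 10) := ⟨_, rfl⟩
  have hQ1 : 1 ≤ Q := hQ ▸ Nat.one_le_two_pow
  obtain ⟨a, ha⟩ : ∃ a, a = N / (4 * n) := ⟨_, rfl⟩
  have hQa : Q ≤ a := by
    rw [ha, Nat.le_div_iff_mul_le (by omega)]
    have : 2 ^ (3 * E + 13) = 2 * (Q * (4 * 2 ^ E)) := by rw [hQ]; ring
    nlinarith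
  have h1 : a * (4 * n) ≤ N := ha ▸ Nat.div_mul_le_self _ _
  have h2 : N < (a + 1) * (4 * n) := by
    rw [ha, mul_comm]; exact Nat.lt_mul_div_succ _ (by omega)
  obtain ⟨J, hJ, hG⟩ := h4.lat (Q := Q) (K := 1) (a := a) (by positivity)
    (half_pow_le_one E) (hM_pow E) (hQ ▸ hQ_pow E) le_rfl hQa
  have ha1 : (1 : ℝ) ≤ a := by exact_mod_cast hQ1.trans hQa
  have hγ0 : (0 : ℝ) < 1 / 2 ^ E / (4800 * a ^ 2 * (1 : ℕ)) := by positivity
  have hγ1 : (1 : ℝ) / 2 ^ E / (4800 * a ^ 2 * (1 : ℕ)) ≤ 1 := by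
    rw [div_le_one (by positivity)]
    push_cast
    nlinarith [half_pow_le_one E]
  have h3 : n * (a + Q * 1) + 1 * (a * n + J) ≤ N := by nlinarith
  obtain ⟨S, hS1, hS2, hS3⟩ := ((hG.mono one_pos one_le_two le_rfl).plain hγ0 hγ1
    (N - (n * (a + Q * 1) + 1 * (a * n + J)))).points (by positivity) (by linarith)
  refine ⟨S, by omega, hS2, le_trans ?_ (Nat.cast_le.2 hS3)⟩
  have h8 : (N : ℝ) ≤ 8 * (a * n) := by
    have : N ≤ 8 * (a * n) := by nlinarith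
    exact_mod_cast this
  calc ρ * N / 8 ≤ ρ * (8 * (a * n)) / 8 := by gcongr
    _ = a * (ρ * n) := by ring
    _ ≤ a * m := by gcongr
    _ = _ := by push_cast; ring

open Real Filter in
theorem main : ∀ᶠ n : ℕ in atTop, ∃ S : Finset (ℝ × ℝ), S.card = 2 * n ∧
      (∀ p ∈ S, ∀ q ∈ S, ∀ r ∈ S, p ≠ q → p ≠ r → q ≠ r →
        (q.1 - p.1) * (r.2 - p.2) - (q.2 - p.2) * (r.1 - p.1) ≠ 0) ∧
      2 * (n : ℝ) ^ (1 + exp (-10 * √(log (log n)))) ≤ ((S ×ˢ S).filter (fun x => x.1 ≠ x.2 ∧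
          (S.filter (fun r => 0 < (x.2.1 - x.1.1) * (r.2 - x.1.2)
              - (x.2.2 - x.1.2) * (r.1 - x.1.1))).card * 2 + 2 = S.card)).card := by
  have t1 : Tendsto (fun n : ℕ => log n) atTop atTop :=
    tendsto_log_atTop.comp tendsto_natCast_atTop_atTop
  have t2 : Tendsto (fun n : ℕ => √(log (log n))) atTop atTop :=
    tendsto_sqrt_atTop.comp (tendsto_log_atTop.comp t1)
  filter_upwards [t1.eventually_ge_atTop 1, t2.eventually_ge_atTop 5000000,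
    eventually_ge_atTop 1] with n hn1 hn2 hn3
  obtain ⟨v, hv⟩ : ∃ v, v = √(log (log n)) := ⟨_, rfl⟩
  rw [← hv] at hn2 ⊢
  have hn0 : (0 : ℝ) < n := by exact_mod_cast hn3
  have hlog : log n = exp (v ^ 2) := by
    rw [hv, sq_sqrt (log_nonneg hn1), exp_log (by linarith)]
  obtain ⟨s, hs⟩ : ∃ s, ⌊v⌋₊ = s + 9 := by
    have : 9 ≤ ⌊v⌋₊ := Nat.le_floor (by push_cast; linarith)
    exact ⟨⌊v⌋₊ - 9, by omega⟩
  have hs1 : (s : ℝ) + 9 ≤ v := by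
    have := Nat.floor_le (show 0 ≤ v by linarith); rw [hs] at this; exact_mod_cast this
  have hs2 : v ≤ s + 10 := by
    have := Nat.lt_floor_add_one v; rw [hs] at this; push_cast at this; linarith
  have hev : v + 1 ≤ exp v := add_one_le_exp v
  obtain ⟨u, hu⟩ : ∃ u, u = ⌈exp v⌉₊ := ⟨_, rfl⟩
  have hu1 : exp v ≤ u := hu ▸ Nat.le_ceil _
  have hu2 : (u : ℝ) ≤ 2 * exp v := by
    have := Nat.ceil_lt_add_one (exp_pos v).le; rw [← hu] at this; linarith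
  have hu3 : 2 ≤ u := by
    have : (2 : ℝ) ≤ u := by linarith
    exact_mod_cast this
  have he : (5 / 2 : ℝ) ≤ exp 1 := by linarith [exp_one_gt_d9]
  have he7 : (400 : ℝ) ≤ exp 7 := by
    have := pow_le_pow_left₀ (by norm_num) he 7
    rw [← exp_nat_mul] at this
    norm_num at this ⊢; linarith
  have h1 : ((200 * u : ℕ) : ℝ) ^ (s + 1) ≤ exp (v ^ 2 - v) := by
    calc ((200 * u : ℕ) : ℝ) ^ (s + 1) ≤ exp (v + 7) ^ (s + 1) := by
          refine pow_le_pow_left₀ (by positivity) ?_ _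
          rw [exp_add]; push_cast; nlinarith [exp_pos v]
      _ ≤ _ := by
          rw [← exp_nat_mul, exp_le_exp]; push_cast; nlinarith
  have h2 : 2 ^ (3 * (1071364 * (200 * u) ^ (s + 1)) + 13) ≤ 2 * n := by
    have h3 : ((3 * (1071364 * (200 * u) ^ (s + 1)) + 13 : ℕ) : ℝ) ≤ log n := by
      have h4 : 1 ≤ exp (v ^ 2 - v) := one_le_exp (by nlinarith)
      have h5 : exp (v ^ 2) = exp v * exp (v ^ 2 - v) := by rw [← exp_add]; ring_nf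
      rw [hlog, h5, Nat.cast_add, Nat.cast_mul, Nat.cast_mul, Nat.cast_pow]
      push_cast at h1 ⊢
      nlinarith
    have h4 : (2 : ℝ) ^ (3 * (1071364 * (200 * u) ^ (s + 1)) + 13) ≤ n := by
      calc _ ≤ exp 1 ^ (3 * (1071364 * (200 * u) ^ (s + 1)) + 13) :=
            pow_le_pow_left₀ (by norm_num) (by linarith) _
        _ ≤ exp (log n) := by rw [← exp_nat_mul, mul_one]; exact exp_le_exp.2 h3
        _ = n := exp_log hn0
    have h5 : 2 ^ (3 * (1071364 * (200 * u) ^ (s + 1)) + 13) ≤ n := by exact_mod_cast h4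
    omega
  obtain ⟨S, hS1, hS2, hS3⟩ := (fam_iter hu3 s).points (by positivity) h2
  refine ⟨S, hS1, hS2, le_trans ?_ hS3⟩
  have h3 : log n * exp (-10 * v) ≤ ((u ^ s : ℕ) : ℝ) := by
    rw [hlog, ← exp_add, Nat.cast_pow]
    calc _ ≤ exp v ^ s := by rw [← exp_nat_mul, exp_le_exp]; nlinarith
      _ ≤ _ := pow_le_pow_left₀ (exp_pos v).le hu1 _
  obtain ⟨U, hU⟩ : ∃ U, u ^ s = U + 2 := by
    have h4 : 1 ≤ s := by
      have : (1 : ℝ) ≤ s := by linarith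
      exact_mod_cast this
    have := Nat.pow_le_pow_right (show 0 < u by omega) h4
    exact ⟨u ^ s - 2, by rw [pow_one] at this; omega⟩
  rw [hU] at h3 ⊢
  have h4 : exp (log n * exp (-10 * v)) ≤ 4 ^ (U + 2) := by
    calc _ ≤ exp 1 ^ (U + 2) := by rw [← exp_nat_mul, mul_one]; exact exp_le_exp.2 h3
      _ ≤ _ := pow_le_pow_left₀ (exp_pos 1).le (by linarith [exp_one_lt_d9]) _
  have h5 : (2 : ℝ) ^ (4 * (U + 2)) = 16 * 4 ^ (U + 2) * 4 ^ U := by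
    rw [show (4 : ℝ) = 2 ^ 2 by norm_num, ← pow_mul, ← pow_mul]; ring
  have h6 : (1 : ℝ) ≤ 4 ^ U := one_le_pow₀ (by norm_num)
  rw [rpow_add hn0, rpow_one, rpow_def_of_pos hn0, h5]
  calc 2 * (n * exp (log n * exp (-10 * v))) ≤ 2 * (n * 4 ^ (U + 2)) := by gcongr
    _ = 16 * 4 ^ (U + 2) * 1 * n / 8 := by ring
    _ ≤ _ := by gcongr

end Pool.Agent.Lib.MP_d308c3_co
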