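import Pool.Agent.Lib.MP_d308c3_co.Cut

/-!
FALL, PIN1, PIN2: points with nonnegative (sheared) slope `r`, heights `b p + t * r p` increase in time.
-/

namespace Pool.Agent.Lib.MP_d308c3_co.Cut

open Finset
open scoped Classical

variable {I : Type*} {r b : I → ℝ} {t c : ℕ → ℝ} {X : Finset I} {k0 k1 : ℕ}

/-- shear: states seen from the centre `x` -/
theorem St_shear (a b : I → ℝ) (t m : ℕ → ℝ) (x : ℝ) :
    St a b t m = St (fun p => a p - x) b t fun k => m k - t k * x := by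
  funext k p
  unfold St
  exact propext ⟨fun h => by linarith, fun h => by linarith⟩

/-- time shift: heights measured from time `s` -/
theorem St_shift (a b : I → ℝ) (t m : ℕ → ℝ) (s : ℝ) :
    St a b t m = St a (fun p => b p + s * a p) (fun k => t k - s) m := by
  funext k p
  unfold St
  exact propext ⟨fun h => by linarith, fun h => by linarith⟩

/-- `p` is pinned to the value `v` on the time interval `[s0, s1]` -/
def Pinned (r b : I → ℝ) (s0 s1 v : ℝ) (p : I) : Prop := |b p + s0 * r p - v| ≤ (s1 - s0) * r p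

theorem pinned_of_between {s0 s1 v : ℝ} {p : I} (h0 : b p + s0 * r p ≤ v) (h1 : v ≤ b p + s1 * r p) :
    Pinned r b s0 s1 v p := by
  unfold Pinned
  rw [abs_le]
  constructor <;> nlinarith

/-- (FALL), pointwise -/
theorem fall {k l : ℕ} {p : I} (hr : 0 ≤ r p) (ht : t k ≤ t l) (hc : c l ≤ c k)
    (h : St r b t c k p) : St r b t c l p := by
  unfold St at *
  nlinarith [mul_nonneg (sub_nonneg.2 ht) hr]

/-- (FALL): if the value falls, at most `Dr` points enter -/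
theorem fall_card {k l : ℕ} (hr : ∀ p ∈ X, 0 ≤ r p) (h0 : k0 ≤ k) (h0' : k ≤ k1) (h1 : k0 ≤ l)
    (h1' : l ≤ k1) (ht : t k ≤ t l) (hc : c l ≤ c k) :
    (out (St r b t c) X l k).card ≤ Dr (St r b t c) X k0 k1 := by
  have h := card_out_le (U := St r b t c) (Y := X) h1 h1' h0 h0'
  have e : out (St r b t c) X k l = ∅ := by
    refine eq_empty_of_forall_notMem fun p hp => ?_
    obtain ⟨hp, e1, e2⟩ := mem_out.1 hp
    exact e2 (fall (hr p hp) ht hc e1)
  rw [e, card_empty, zero_add] at h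
  exact h

/-- a point that is out at `k` and in at `l` starts below `c k` and ends above `c l` -/
theorem rise_between {k l : ℕ} {s0 s1 : ℝ} {p : I} (hr : 0 ≤ r p) (h0 : s0 ≤ t k) (h1 : t l ≤ s1)
    (ho : ¬ St r b t c k p) (hi : St r b t c l p) :
    b p + s0 * r p ≤ c k ∧ c l < b p + s1 * r p := by
  unfold St at *
  push Not at ho
  constructor
  · nlinarith [mul_nonneg (sub_nonneg.2 h0) hr]
  · nlinarith [mul_nonneg (sub_nonneg.2 h1) hr]

/-- (PIN1): the entering points are few or all pinned to the start value -/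
theorem pin1 {s0 s1 : ℝ} (hr : ∀ p ∈ X, 0 ≤ r p) (h : k0 ≤ k1) (ht : t k0 ≤ t k1) (h0 : s0 ≤ t k0)
    (h1 : t k1 ≤ s1) :
    (out (St r b t c) X k1 k0).card ≤ Dr (St r b t c) X k0 k1 ∨
      ∀ p ∈ out (St r b t c) X k1 k0, b p + s0 * r p ≤ c k0 ∧ c k0 ≤ b p + s1 * r p := by
  rcases le_total (c k1) (c k0) with hc | hc
  · exact Or.inl (fall_card hr le_rfl h h le_rfl ht hc)
  · refine Or.inr fun p hp => ?_
    obtain ⟨hp, e1, e2⟩ := mem_out.1 hp
    have := rise_between (hr p hp) h0 h1 e2 e1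
    exact ⟨this.1, by linarith [this.2]⟩

theorem pin1' {s0 s1 : ℝ} (hr : ∀ p ∈ X, 0 ≤ r p) (h : k0 ≤ k1) (ht : t k0 ≤ t k1) (h0 : s0 ≤ t k0)
    (h1 : t k1 ≤ s1) :
    (out (St r b t c) X k1 k0).card ≤ Dr (St r b t c) X k0 k1 ∨
      ∀ p ∈ out (St r b t c) X k1 k0, Pinned r b s0 s1 (c k0) p :=
  (pin1 hr h ht h0 h1).imp id fun H p hp => pinned_of_between (H p hp).1 (H p hp).2

/-- (PIN2), sharp form: `i` = state of the least value, `j` = state of the largest value; count the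
changing points whose height range on `[s0, s1]` contains one of the two values -/
theorem pin2_between {s0 s1 : ℝ} (hr : ∀ p ∈ X, 0 ≤ r p)
    (hm : ∀ k l, k0 ≤ k → k ≤ l → l ≤ k1 → t k ≤ t l) (h0 : s0 ≤ t k0) (h1 : t k1 ≤ s1)
    {i j : ℕ} (hi : k0 ≤ i) (hi' : i ≤ k1) (hj : k0 ≤ j) (hj' : j ≤ k1)
    (hmin : ∀ k, k0 ≤ k → k ≤ k1 → c i ≤ c k) (hmax : ∀ k, k0 ≤ k → k ≤ k1 → c k ≤ c j) :
    (Ch (St r b t c) X k0 k1).card ≤
      2 * ((Ch (St r b t c) X k0 k1).filter fun p =>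
        (b p + s0 * r p ≤ c i ∧ c i ≤ b p + s1 * r p) ∨
          (b p + s0 * r p ≤ c j ∧ c j ≤ b p + s1 * r p)).card + Dr (St r b t c) X k0 k1 := by
  suffices H : ∀ (P : I → Prop) [DecidablePred P],
      (∀ p, P p ↔ (b p + s0 * r p ≤ c i ∧ c i ≤ b p + s1 * r p) ∨
        (b p + s0 * r p ≤ c j ∧ c j ≤ b p + s1 * r p)) →
      (Ch (St r b t c) X k0 k1).card ≤
        2 * ((Ch (St r b t c) X k0 k1).filter P).card + Dr (St r b t c) X k0 k1 from
    H _ fun _ => Iff.rfl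
  intro P _ hP
  have lo : ∀ k, k0 ≤ k → k ≤ k1 → s0 ≤ t k := fun k x y => h0.trans (hm k0 k le_rfl x y)
  have up : ∀ k, k0 ≤ k → k ≤ k1 → t k ≤ s1 := fun k x y => (hm k k1 x y le_rfl).trans h1
  have split := card_filter_add_card_filter_not (s := Ch (St r b t c) X k0 k1) P
  have sub : ((Ch (St r b t c) X k0 k1).filter fun p => ¬ P p) ⊆ out (St r b t c) X i j := by
    intro p hp
    obtain ⟨hp, hn⟩ := mem_filter.1 hp
    obtain ⟨hp, k, l, x1, x2, x3, x4, e1, e2⟩ := mem_Ch.1 hp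
    have hrp := hr p hp
    simp only [hP, not_or, not_and, not_le] at hn
    unfold St at e1 e2
    push Not at e2
    have a1 : c i < b p + s1 * r p := by
      nlinarith [hmin k x1 x2, mul_nonneg (sub_nonneg.2 (up k x1 x2)) hrp]
    have a2 : b p + s0 * r p ≤ c j := by
      nlinarith [hmax l x3 x4, mul_nonneg (sub_nonneg.2 (lo l x3 x4)) hrp]
    have a3 : c i < b p + s0 * r p := by
      by_contra h
      exact absurd (hn.1 (not_lt.1 h)) (not_lt.2 a1.le)
    have a4 := hn.2 a2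
    refine mem_out.2 ⟨hp, ?_, ?_⟩
    · unfold St
      nlinarith [mul_nonneg (sub_nonneg.2 (lo i hi hi')) hrp]
    · unfold St
      push Not
      nlinarith [mul_nonneg (sub_nonneg.2 (up j hj hj')) hrp]
  have h2 := card_le_card sub
  rcases le_total j i with hji | hij
  · have h3 := fall_card (b := b) (c := c) hr hj hj' hi hi' (hm j i hj hji hi') (hmin j hj hj')
    omega
  · have h3 := card_out_le (U := St r b t c) (Y := X) hi hi' hj hj'
    have h4 : out (St r b t c) X j i ⊆ (Ch (St r b t c) X k0 k1).filter P := by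
      intro p hp
      refine mem_filter.2 ⟨out_subset_Ch hj hj' hi hi' hp, (hP p).2 (Or.inl ?_)⟩
      obtain ⟨hp, e1, e2⟩ := mem_out.1 hp
      have := rise_between (hr p hp) (lo i hi hi') (up j hj hj') e2 e1
      exact ⟨this.1, by linarith [this.2, hmin j hj hj']⟩
    have h5 := card_le_card h4
    omega

/-- (PIN2) -/
theorem pin2 {s0 s1 : ℝ} (hr : ∀ p ∈ X, 0 ≤ r p)
    (hm : ∀ k l, k0 ≤ k → k ≤ l → l ≤ k1 → t k ≤ t l) (h0 : s0 ≤ t k0) (h1 : t k1 ≤ s1)
    {i j : ℕ} (hi : k0 ≤ i) (hi' : i ≤ k1) (hj : k0 ≤ j) (hj' : j ≤ k1)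
    (hmin : ∀ k, k0 ≤ k → k ≤ k1 → c i ≤ c k) (hmax : ∀ k, k0 ≤ k → k ≤ k1 → c k ≤ c j) :
    (Ch (St r b t c) X k0 k1).card ≤
      2 * ((Ch (St r b t c) X k0 k1).filter fun p =>
        Pinned r b s0 s1 (c i) p ∨ Pinned r b s0 s1 (c j) p).card + Dr (St r b t c) X k0 k1 := by
  refine (pin2_between hr hm h0 h1 hi hi' hj hj' hmin hmax).trans ?_
  refine Nat.add_le_add_right (Nat.mul_le_mul_left _ (card_le_card fun p hp => ?_)) _
  obtain ⟨hp, h⟩ := mem_filter.1 hp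
  exact mem_filter.2 ⟨hp, h.imp (fun h => pinned_of_between h.1 h.2) fun h => pinned_of_between h.1 h.2⟩

/-- states of the least and of the largest value exist -/
theorem ex_min_max (c : ℕ → ℝ) (h : k0 ≤ k1) : ∃ i j, k0 ≤ i ∧ i ≤ k1 ∧ k0 ≤ j ∧ j ≤ k1 ∧
    (∀ k, k0 ≤ k → k ≤ k1 → c i ≤ c k) ∧ ∀ k, k0 ≤ k → k ≤ k1 → c k ≤ c j := by
  obtain ⟨i, hi, h1⟩ := exists_min_image (Icc k0 k1) c ⟨k0, mem_Icc.2 ⟨le_rfl, h⟩⟩
  obtain ⟨j, hj, h2⟩ := exists_max_image (Icc k0 k1) c ⟨k0, mem_Icc.2 ⟨le_rfl, h⟩⟩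
  exact ⟨i, j, (mem_Icc.1 hi).1, (mem_Icc.1 hi).2, (mem_Icc.1 hj).1, (mem_Icc.1 hj).2,
    fun k x y => h1 k (mem_Icc.2 ⟨x, y⟩), fun k x y => h2 k (mem_Icc.2 ⟨x, y⟩)⟩

section mirror

variable {U : ℕ → I → Prop} {Y : Finset I}

/-- complementing all states changes neither `out` (up to the order), `Ch`, `Dr` nor `Phi` -/
theorem out_not (k l : ℕ) : out (fun k p => ¬ U k p) Y k l = out U Y l k := by
  ext p; simp only [mem_out, not_not]; tauto

theorem Ch_not : Ch (fun k p => ¬ U k p) Y k0 k1 = Ch U Y k0 k1 := by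
  ext p
  simp only [mem_Ch, not_not]
  refine and_congr_right fun _ => ⟨?_, ?_⟩
  · rintro ⟨k, l, x1, x2, x3, x4, e1, e2⟩
    exact ⟨l, k, x3, x4, x1, x2, e2, e1⟩
  · rintro ⟨k, l, x1, x2, x3, x4, e1, e2⟩
    exact ⟨l, k, x3, x4, x1, x2, e2, e1⟩

theorem Dr_not : Dr (fun k p => ¬ U k p) Y k0 k1 = Dr U Y k0 k1 := by
  unfold Dr
  refine sum_congr rfl fun k _ => ?_
  rw [cnt_sub, cnt_sub, out_not, out_not]
  omega

theorem Phi_not : Phi (fun k p => ¬ U k p) Y k0 k1 = Phi U Y k0 k1 := by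
  unfold Phi; rw [Ch_not, Dr_not]

theorem flux_not (L : I → Prop) :
    flux (fun k p => ¬ U k p) Y (fun p => ¬ L p) k0 k1 = flux U Y L k0 k1 := by
  unfold flux
  refine sum_congr rfl fun k _ => ?_
  rw [out_not, out_not, min_comm]
  congr 2
  · ext p; simp
  · ext p; simp

/-- only the values of the states on `Y` and on the window matter -/
theorem out_congr {U' : ℕ → I → Prop} {k l : ℕ} (hk : ∀ p ∈ Y, U k p ↔ U' k p)
    (hl : ∀ p ∈ Y, U l p ↔ U' l p) : out U Y k l = out U' Y k l := by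
  ext p
  simp only [mem_out]
  exact and_congr_right fun hp => by rw [hk p hp, hl p hp]

theorem Ch_congr {U' : ℕ → I → Prop} (h : ∀ k, k0 ≤ k → k ≤ k1 → ∀ p ∈ Y, U k p ↔ U' k p) :
    Ch U Y k0 k1 = Ch U' Y k0 k1 := by
  ext p
  simp only [mem_Ch]
  refine and_congr_right fun hp => ⟨?_, ?_⟩
  · rintro ⟨k, l, x1, x2, x3, x4, e1, e2⟩
    exact ⟨k, l, x1, x2, x3, x4, (h k x1 x2 p hp).1 e1, fun e => e2 ((h l x3 x4 p hp).2 e)⟩
  · rintro ⟨k, l, x1, x2, x3, x4, e1, e2⟩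
    exact ⟨k, l, x1, x2, x3, x4, (h k x1 x2 p hp).2 e1, fun e => e2 ((h l x3 x4 p hp).1 e)⟩

theorem Dr_congr {U' : ℕ → I → Prop} (h : ∀ k, k0 ≤ k → k ≤ k1 → ∀ p ∈ Y, U k p ↔ U' k p) :
    Dr U Y k0 k1 = Dr U' Y k0 k1 := by
  unfold Dr
  refine sum_congr rfl fun k hk => ?_
  obtain ⟨x, y⟩ := mem_Ico.1 hk
  have a1 := h k x y.le
  have a2 := h (k + 1) (by omega) y
  rw [cnt_sub, cnt_sub, out_congr a1 a2, out_congr a2 a1]

theorem Phi_congr {U' : ℕ → I → Prop} (h : ∀ k, k0 ≤ k → k ≤ k1 → ∀ p ∈ Y, U k p ↔ U' k p) :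
    Phi U Y k0 k1 = Phi U' Y k0 k1 := by
  unfold Phi; rw [Ch_congr h, Dr_congr h]

theorem flux_congr {U' : ℕ → I → Prop} (L : I → Prop)
    (h : ∀ k, k0 ≤ k → k ≤ k1 → ∀ p ∈ Y, U k p ↔ U' k p) :
    flux U Y L k0 k1 = flux U' Y L k0 k1 := by
  unfold flux
  refine sum_congr rfl fun k hk => ?_
  obtain ⟨x, y⟩ := mem_Ico.1 hk
  have a1 := h k x y.le
  have a2 := h (k + 1) (by omega) y
  rw [out_congr a1 a2, out_congr a2 a1]

/-- mirror image: with no point on a state line the complement of a run is the run of the negated data -/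
theorem St_neg {a b : I → ℝ} {t m : ℕ → ℝ} {k : ℕ} {p : I} (h : m k ≠ b p + t k * a p) :
    St (fun p => - a p) (fun p => - b p) t (fun k => - m k) k p ↔ ¬ St a b t m k p := by
  unfold St
  constructor
  · intro e e'; linarith
  · intro e
    have := lt_of_le_of_ne (not_lt.1 e) (Ne.symm h)
    linarith

/-- flux in `Y` against flux in the part of `Y` outside `L0 ⊆ L` -/
theorem flux_le_add {L L0 : I → Prop} [DecidablePred L0] (h : ∀ p ∈ Y, L0 p → L p) :
    flux U Y L k0 k1 ≤ flux U (Y.filter fun p => ¬ L0 p) L k0 k1 + flux U Y L0 k0 k1 := by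
  unfold flux
  rw [← sum_add_distrib]
  refine sum_le_sum fun k _ => ?_
  rw [out_filter, out_filter]
  set O := out U Y k (k + 1) with hO
  set N := out U Y (k + 1) k with hN
  have a1 : (O.filter L).card ≤ ((O.filter fun p => ¬ L0 p).filter L).card + (O.filter L0).card := by
    refine le_trans (card_le_card ?_) (card_union_le _ _)
    intro p hp
    by_cases e : L0 p <;> simp_all
  have a2 : ((N.filter fun p => ¬ L0 p).filter fun p => ¬ L p) = N.filter fun p => ¬ L p := by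
    ext p
    simp only [mem_filter]
    refine ⟨fun e => ⟨e.1.1, e.2⟩, fun e => ⟨⟨e.1, fun e' => e.2 (h p (mem_out.1 e.1).1 e')⟩, e.2⟩⟩
  have a3 : (N.filter fun p => ¬ L p).card ≤ (N.filter fun p => ¬ L0 p).card := by
    refine card_le_card fun p hp => ?_
    obtain ⟨e1, e2⟩ := mem_filter.1 hp
    exact mem_filter.2 ⟨e1, fun e' => e2 (h p (mem_out.1 e1).1 e')⟩
  rw [a2]
  have b1 : (filter L0 O).card = (@filter I L0 (fun a => Classical.propDecidable (L0 a)) O).card := by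
    congr
  have b2 : (N.filter fun p => ¬ L0 p).card = (@filter I (fun p => ¬ L0 p)
      (fun a => @instDecidableNot _ (Classical.propDecidable (L0 a))) N).card := by
    congr
  omega

end mirror

end Pool.Agent.Lib.MP_d308c3_co.Cut
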