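import Pool.Agent.Lib.MP_d308c3_co.Basic

namespace Pool.Agent.Lib.MP_d308c3_co

open Finset

variable {L τ σ β : Type}

noncomputable def plainCfg (G : Cfg L τ σ) (P Q : β → ℝ) (r : ℕ) :
    Cfg (L ⊕ (β ⊕ β) ⊕ (Fin r ⊕ Fin r)) τ σ where
  s := Sum.elim (fun k => G.s k / (4 - G.s k)) (Sum.elim (Sum.elim (fun _ => 0) (fun _ => -1))
    (fun _ => 0))
  c := Sum.elim (fun k => G.c k / (8 - 2 * G.s k))
    (Sum.elim (Sum.elim (fun p => P p / 8) (fun p => Q p / 2))
      (Sum.elim (fun _ => 6) (fun _ => -6)))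
  col := Sum.elim G.col (fun _ => false)
  z t := ((G.z t).1 / 2 - (G.z t).2 / 8, (G.z t).2 / 8)
  a t := Sum.inl (G.a t)
  b t := Sum.inl (G.b t)
  slot := G.slot

theorem plain_of_gad [Fintype L] [Fintype β] {G : Cfg L τ σ} {P Q : β → ℝ} {γ : ℝ}
    (h : G.Gad P Q 2 γ) (hγ : 0 < γ) (hγ1 : γ ≤ 1) (r : ℕ) :
    (plainCfg G P Q r).Plain 2 (γ / 12) := by
  set S := plainCfg G P Q r with hS
  have hs : ∀ k, 2 ≤ 4 - G.s k ∧ 4 - G.s k ≤ 6 := fun k => by
    have := abs_le.1 (h.s_le k); constructor <;> linarith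
  have hA : ∀ k, 0 < 8 - 2 * G.s k := fun k => by linarith [(hs k).1]
  have f1 : ∀ k t, (8 - 2 * G.s k) * S.f (Sum.inl k) (S.z t) = G.f k (G.z t) := fun k t => by
    have h1 := (hA k).ne'
    have h2 : 4 - G.s k ≠ 0 := by linarith [(hs k).1]
    have h3 : 8 - 2 * G.s k = 2 * (4 - G.s k) := by ring
    simp only [hS, plainCfg, Cfg.f, Sum.elim_inl, h3]; field_simp; ring
  have f2 : ∀ p t, 8 * S.f (Sum.inr (Sum.inl (Sum.inl p))) (S.z t) = (G.z t).2 - P p :=
    fun k t => by simp only [hS, plainCfg, Cfg.f, Sum.elim_inl, Sum.elim_inr]; ring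
  have f3 : ∀ p t, 2 * S.f (Sum.inr (Sum.inl (Sum.inr p))) (S.z t) = (G.z t).1 - Q p :=
    fun k t => by simp only [hS, plainCfg, Cfg.f, Sum.elim_inl, Sum.elim_inr]; ring
  have f4 : ∀ p t, S.f (Sum.inr (Sum.inr (Sum.inl p))) (S.z t) ≤ -1 := fun k t => by
    have := abs_le.1 (h.z2 t)
    simp only [hS, plainCfg, Cfg.f, Sum.elim_inl, Sum.elim_inr]; linarith
  have f5 : ∀ p t, 1 ≤ S.f (Sum.inr (Sum.inr (Sum.inr p))) (S.z t) := fun k t => by
    have := abs_le.1 (h.z2 t)
    simp only [hS, plainCfg, Cfg.f, Sum.elim_inl, Sum.elim_inr]; linarith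
  refine
    { s_le := ?_
      c_le := ?_
      z1 := fun t => ?_
      z2 := fun t => ?_
      fa := fun t => ?_
      fb := fun t => ?_
      sep := fun t => ?_
      ca := h.ca
      cb := h.cb
      far := ?_
      inj_slot := fun t t' h1 => h.inj_slot t t' (Sum.inl.inj h1)
      inj_ab := fun t t' h1 h2 => h.inj_ab t t' (Sum.inl.inj h1) (Sum.inl.inj h2)
      ev := ?_
      bal := fun t => ?_ }
  · rintro (k | (p | p) | p) <;> simp only [hS, plainCfg, Sum.elim_inl, Sum.elim_inr]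
    · rw [abs_div, abs_of_pos (by linarith [(hs k).1] : 0 < 4 - G.s k),
        div_le_iff₀ (by linarith [(hs k).1])]
      linarith [h.s_le k, (hs k).1]
    all_goals norm_num
  · rintro (k | (p | p) | p | p) <;> simp only [hS, plainCfg, Sum.elim_inl, Sum.elim_inr]
    · rw [abs_div, abs_of_pos (hA k), div_le_iff₀ (hA k)]
      linarith [h.c_le k, (hs k).1]
    · rw [abs_div, abs_of_pos (by norm_num : (0 : ℝ) < 8)]; linarith [h.P_le p]
    · rw [abs_div, abs_of_pos (by norm_num : (0 : ℝ) < 2)]; linarith [h.Q_le p]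
    all_goals norm_num
  · have h1 := abs_le.1 (h.z1 t)
    have h2 := abs_le.1 (h.z2 t)
    simp only [hS, plainCfg]
    rw [abs_le]; constructor <;> linarith
  · have h2 := abs_le.1 (h.z2 t)
    simp only [hS, plainCfg]
    rw [abs_le]; constructor <;> linarith
  · have := f1 (G.a t) t
    rw [h.fa] at this
    exact (mul_eq_zero.1 this).resolve_left (hA _).ne'
  · have := f1 (G.b t) t
    rw [h.fb] at this
    exact (mul_eq_zero.1 this).resolve_left (hA _).ne'
  · have h1 := hs (G.a t)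
    have h2 := hs (G.b t)
    have h3 : (4 - G.s (G.a t)) * (4 - G.s (G.b t)) * (S.s (S.a t) - S.s (S.b t)) =
        4 * (G.s (G.a t) - G.s (G.b t)) := by
      have h4 : 4 - G.s (G.a t) ≠ 0 := by linarith [h1.1]
      have h5 : 4 - G.s (G.b t) ≠ 0 := by linarith [h2.1]
      simp only [hS, plainCfg, Sum.elim_inl]; field_simp; ring
    refine le_abs_of_mul (m := 4 * γ) (mul_pos (by linarith [h1.1]) (by linarith [h2.1])) h3 ?_ ?_
    · rw [abs_mul, abs_of_pos (by norm_num : (0 : ℝ) < 4)]; linarith [h.sep t]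
    · have := mul_le_mul h1.2 h2.2 (by linarith [h2.1]) (by norm_num)
      nlinarith
  · rintro t (k | (p | p) | p | p) h1 h2
    · refine le_abs_of_mul (hA k) (f1 k t) (h.far t k (fun e => h1 (by rw [e]; rfl))
        (fun e => h2 (by rw [e]; rfl))) ?_
      nlinarith [(hs k).2]
    · exact le_abs_of_mul (by norm_num) (f2 p t) (h.P_far t p) (by linarith)
    · exact le_abs_of_mul (by norm_num) (f3 p t) (h.Q_far t p) (by linarith)
    · exact le_abs'.2 (Or.inl (by linarith [f4 p t]))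
    · exact le_abs'.2 (Or.inr (by linarith [f5 p t]))
  · simp only [Fintype.card_sum]
    exact h.ev.add (Even.add ⟨_, rfl⟩ ⟨_, rfl⟩)
  · simp only [Fintype.sum_sum_type, sg_of_mul (hA _) (f1 _ t), sg_of_mul (by norm_num) (f2 _ t),
      sg_of_mul (by norm_num) (f3 _ t), sg_neg (lt_of_le_of_lt (f4 _ t) (by norm_num)),
      sg_pos (lt_of_lt_of_le one_pos (f5 _ t)), sum_neg_distrib]
    linear_combination h.bal t

theorem GadEx.plain {γ : ℝ} {w l m Δ : ℕ} (h : GadEx 2 γ w l m Δ) (hγ : 0 < γ) (hγ1 : γ ≤ 1)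
    (r : ℕ) : PlainEx 2 (γ / 12) (l + 2 * w + 2 * r) m Δ := by
  obtain ⟨L, τ, σ, β, i1, i2, i3, i4, H, P, Q, hH, rfl, rfl, rfl, rfl⟩ := h
  exact ⟨_, _, _, inferInstance, inferInstance, inferInstance, _, plain_of_gad hH hγ hγ1 r,
    by simp; ring, rfl, rfl⟩

/-- stability under small perturbations of the lines -/
theorem perturb [Fintype L] {G : Cfg L τ σ} {γ : ℝ} (h : G.Plain 2 γ) (hγ : 0 < γ) (hγ1 : γ ≤ 1)
    (s c : L → ℝ) (hs : ∀ k, |s k - G.s k| ≤ γ ^ 2 / 200) (hc : ∀ k, |c k - G.c k| ≤ γ ^ 2 / 200) :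
    ∃ z : τ → ℝ × ℝ, Cfg.Plain { G with s := s, c := c, z := z } 3 (γ / 2) := by
  obtain ⟨δ, hδ⟩ : ∃ δ, δ = γ ^ 2 / 200 := ⟨_, rfl⟩
  rw [← hδ] at hs hc
  have hδ0 : 0 < δ := by rw [hδ]; positivity
  have hδ1 : δ ≤ γ / 200 := by rw [hδ]; nlinarith
  let e : L → τ → ℝ := fun k t => (s k - G.s k) * (G.z t).1 + (c k - G.c k)
  have he : ∀ k t, |e k t| ≤ 3 * δ := fun k t => by
    refine (abs_add_le _ _).trans ?_
    rw [abs_mul]
    have := mul_le_mul (hs k) (h.z1 t) (abs_nonneg _) hδ0.le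
    linarith [hc k]
  have hsep : ∀ t, γ / 2 ≤ |s (G.a t) - s (G.b t)| := fun t => by
    have h1 : |s (G.a t) - s (G.b t) - (G.s (G.a t) - G.s (G.b t))| ≤ γ / 2 := by
      have h2 := abs_le.1 (hs (G.a t))
      have h3 := abs_le.1 (hs (G.b t))
      rw [abs_le]; constructor <;> linarith
    have := (close (h.sep t) h1 (by linarith)).2
    linarith
  have hs' : ∀ k, |s k| ≤ 21 / 10 := fun k => by
    have := abs_sub_abs_le_abs_sub (s k) (G.s k)
    linarith [hs k, h.s_le k]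
  let w : τ → ℝ := fun t => (e (G.b t) t - e (G.a t) t) / (s (G.a t) - s (G.b t))
  have hw : ∀ t, |w t| ≤ 6 * γ / 100 := fun t => by
    have h1 : |e (G.b t) t - e (G.a t) t| ≤ 6 * δ := by
      linarith [abs_sub (e (G.b t) t) (e (G.a t) t), he (G.a t) t, he (G.b t) t]
    simp only [w]
    rw [abs_div]
    calc _ ≤ 6 * δ / (γ / 2) := by gcongr; exact hsep t
      _ = _ := by rw [hδ]; field_simp; ring
  have hsw : ∀ k t, |s k * w t| ≤ 21 / 10 * (6 * γ / 100) := fun k t => by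
    rw [abs_mul]; exact mul_le_mul (hs' k) (hw t) (abs_nonneg _) (by norm_num)
  let z : τ → ℝ × ℝ := fun t => ((G.z t).1 + w t, (G.z t).2 + (e (G.a t) t + s (G.a t) * w t))
  refine ⟨z, ?_⟩
  set S : Cfg L τ σ := { G with s := s, c := c, z := z } with hS
  have hf : ∀ k t, S.f k (z t) - G.f k (G.z t) =
      e (G.a t) t + s (G.a t) * w t - s k * w t - e k t := fun k t => by
    simp only [hS, Cfg.f, z, e]; ring
  have hd : ∀ k t, |S.f k (z t) - G.f k (G.z t)| ≤ γ / 2 := fun k t => by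
    have h1 := abs_le.1 (he k t)
    have h2 := abs_le.1 (he (G.a t) t)
    have h3 := abs_le.1 (hsw k t)
    have h4 := abs_le.1 (hsw (G.a t) t)
    rw [hf, abs_le]; constructor <;> linarith
  have hfa : ∀ t, S.f (G.a t) (z t) = 0 := fun t => by
    linear_combination hf (G.a t) t + h.fa t
  have hfb : ∀ t, S.f (G.b t) (z t) = 0 := fun t => by
    have h2 : s (G.a t) - s (G.b t) ≠ 0 := fun e => by
      have := hsep t; rw [e, abs_zero] at this; linarith
    have h3 := mul_div_cancel₀ (e (G.b t) t - e (G.a t) t) h2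
    linear_combination hf (G.b t) t + h.fb t + h3
  have hc' : ∀ t k, k ≠ G.a t → k ≠ G.b t →
      sg (S.f k (z t)) = sg (G.f k (G.z t)) ∧ γ - γ / 2 ≤ |S.f k (z t)| := fun t k h1 h2 =>
    close (h.far t k h1 h2) (hd k t) (by linarith)
  refine
    { s_le := fun k => (hs' k).trans (by norm_num)
      c_le := fun k => ?_
      z1 := fun t => ?_
      z2 := fun t => ?_
      fa := hfa
      fb := hfb
      sep := hsep
      ca := h.ca
      cb := h.cb
      far := fun t k h1 h2 => le_trans (by linarith) (hc' t k h1 h2).2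
      inj_slot := h.inj_slot
      inj_ab := h.inj_ab
      ev := h.ev
      bal := fun t => ?_ }
  · have := abs_sub_abs_le_abs_sub (c k) (G.c k)
    show |c k| ≤ _
    linarith [hc k, h.c_le k]
  · refine (abs_add_le _ _).trans ?_
    linarith [h.z1 t, hw t]
  · refine (abs_add_le _ _).trans ?_
    linarith [h.z2 t, abs_add_le (e (G.a t) t) (s (G.a t) * w t), he (G.a t) t, hsw (G.a t) t]
  · rw [← h.bal t]
    refine sum_congr rfl fun k _ => ?_
    show sg (S.f k (z t)) = _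
    by_cases h1 : k = G.a t
    · rw [h1, hfa, h.fa]
    by_cases h2 : k = G.b t
    · rw [h2, hfb, h.fb]
    exact (hc' t k h1 h2).1

theorem count_of_bal [Fintype L] {g : L → ℝ} {a b : L} (hab : a ≠ b) (ha : g a = 0)
    (hb : g b = 0) (hg : ∀ k, k ≠ a → k ≠ b → g k ≠ 0) (hs : ∑ k, sg (g k) = 0) :
    (univ.filter fun k => 0 < g k).card * 2 + 2 = Fintype.card L := by
  classical
  have h1 : ∀ k, sg (g k) = 2 * (if 0 < g k then 1 else 0) - 1 + (if k = a then 1 else 0) +
      (if k = b then 1 else 0) := fun k => by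
    by_cases h1 : k = a
    · subst h1; simp [ha, hab]
    by_cases h2 : k = b
    · subst h2; simp [hb, h1]
    rcases lt_or_gt_of_ne (hg k h1 h2) with h | h
    · simp [sg_neg h, h1, h2, not_lt.2 h.le]
    · simp [sg_pos h, h1, h2, h]
  simp only [h1, sum_add_distrib, sum_sub_distrib, ← mul_sum, sum_ite_eq', mem_univ,
    if_true, sum_const, card_univ, nsmul_eq_mul, mul_one] at hs
  rw [sum_boole] at hs
  omega

theorem finite_quad {A B C : ℝ} (hA : A ≠ 0) : {t : ℝ | A * t ^ 2 + B * t + C = 0}.Finite := by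
  have hp : (Polynomial.C A * Polynomial.X ^ 2 + Polynomial.C B * Polynomial.X + Polynomial.C C)
      ≠ 0 := fun h => by
    have := Polynomial.degree_quadratic (b := B) (c := C) hA
    rw [h] at this
    simp at this
  refine (Polynomial.finite_setOfPred_isRoot hp).subset fun t ht => ?_
  simpa using ht

theorem PlainEx.points {γ : ℝ} {n m Δ : ℕ} (h : PlainEx 2 γ n m Δ) (hγ : 0 < γ) (hγ1 : γ ≤ 1) :
    ∃ S : Finset (ℝ × ℝ), S.card = n ∧
      (∀ p ∈ S, ∀ q ∈ S, ∀ r ∈ S, p ≠ q → p ≠ r → q ≠ r →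
        (q.1 - p.1) * (r.2 - p.2) - (q.2 - p.2) * (r.1 - p.1) ≠ 0) ∧
      m ≤ ((S ×ˢ S).filter (fun x => x.1 ≠ x.2 ∧
          (S.filter (fun r => 0 < (x.2.1 - x.1.1) * (r.2 - x.1.2)
              - (x.2.2 - x.1.2) * (r.1 - x.1.1))).card * 2 + 2 = S.card)).card := by
  classical
  obtain ⟨L, τ, σ, i1, i2, i3, G, hG, rfl, rfl, rfl⟩ := h
  set n := Fintype.card L with hn
  let ι : L → ℝ := fun k => (((Fintype.equivFin L k : ℕ) : ℝ)) / n
  have hι : ∀ k, 0 ≤ ι k ∧ ι k ≤ 1 := fun k => by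
    refine ⟨by positivity, div_le_one_of_le₀ ?_ (by positivity)⟩
    exact_mod_cast (Fintype.equivFin L k).2.le
  have hinj : ∀ i j, i ≠ j → ι i - ι j ≠ 0 := fun i j hij e => by
    have h0 : (n : ℝ) ≠ 0 := by
      have : 0 < n := Fintype.card_pos_iff.2 ⟨i⟩
      positivity
    have h1 := (div_left_inj' h0).1 (sub_eq_zero.1 e)
    exact hij ((Fintype.equivFin L).injective (Fin.ext (by exact_mod_cast h1)))
  let pp : ℝ → L → ℝ × ℝ := fun t k => (G.s k + t * ι k, G.c k + t * ι k ^ 2)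
  let B : Set ℝ := (⋃ i, ⋃ j, {t | i ≠ j ∧ pp t i = pp t j}) ∪
    ⋃ i, ⋃ j, ⋃ k, {t | i ≠ j ∧ i ≠ k ∧ j ≠ k ∧ ((pp t j).1 - (pp t i).1) *
      ((pp t k).2 - (pp t i).2) - ((pp t j).2 - (pp t i).2) * ((pp t k).1 - (pp t i).1) = 0}
  have hB : B.Finite := by
    refine Set.Finite.union (Set.finite_iUnion fun i => Set.finite_iUnion fun j => ?_)
      (Set.finite_iUnion fun i => Set.finite_iUnion fun j => Set.finite_iUnion fun k => ?_)
    · refine (Set.finite_singleton ((G.s j - G.s i) / (ι i - ι j))).subset ?_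
      rintro t ⟨h1, h2⟩
      have h3 := congrArg Prod.fst h2
      simp only [pp] at h3
      rw [Set.mem_singleton_iff, eq_div_iff (hinj i j h1)]
      linear_combination h3
    · by_cases hd : i ≠ j ∧ i ≠ k ∧ j ≠ k
      · have hA : (ι j - ι i) * (ι k - ι i) * (ι k - ι j) ≠ 0 :=
          mul_ne_zero (mul_ne_zero (hinj _ _ hd.1.symm) (hinj _ _ hd.2.1.symm))
            (hinj _ _ hd.2.2.symm)
        refine (finite_quad (B := (G.s j - G.s i) * (ι k ^ 2 - ι i ^ 2) +
            (ι j - ι i) * (G.c k - G.c i) - (G.c j - G.c i) * (ι k - ι i) -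
            (ι j ^ 2 - ι i ^ 2) * (G.s k - G.s i))
          (C := (G.s j - G.s i) * (G.c k - G.c i) - (G.c j - G.c i) * (G.s k - G.s i))
          hA).subset ?_
        rintro t ⟨-, -, -, h⟩
        simp only [pp, Set.mem_ofPred_eq] at h ⊢
        linear_combination h
      · exact Set.finite_empty.subset fun t ht => hd ⟨ht.1, ht.2.1, ht.2.2.1⟩
  obtain ⟨t, ⟨ht0, ht1⟩, htB⟩ :=
    (Set.Ioo_infinite (show (0 : ℝ) < γ ^ 2 / 200 by positivity)).exists_notMem_finite hB
  simp only [B, Set.mem_union, Set.mem_iUnion, Set.mem_ofPred_eq, not_or, not_exists,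
    not_and] at htB
  obtain ⟨hB1, hB2⟩ := htB
  have hpi : Function.Injective (pp t) := fun i j e => by
    by_contra hne; exact hB1 i j hne e
  obtain ⟨z, hz⟩ := perturb hG hγ hγ1 (fun k => (pp t k).1) (fun k => (pp t k).2)
    (fun k => by
      simp only [pp, add_sub_cancel_left]
      rw [abs_of_nonneg (mul_nonneg ht0.le (hι k).1)]
      nlinarith [hι k])
    (fun k => by
      simp only [pp, add_sub_cancel_left]
      rw [abs_of_nonneg (by positivity)]
      have : ι k ^ 2 ≤ 1 := by nlinarith [hι k]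
      nlinarith)
  set S : Cfg L τ σ := { G with s := fun k => (pp t k).1, c := fun k => (pp t k).2, z := z }
    with hS
  have hcard : (univ.image (pp t)).card = n := by
    rw [card_image_of_injective _ hpi, card_univ]
  refine ⟨univ.image (pp t), hcard, ?_, ?_⟩
  · simp only [mem_image, mem_univ, true_and]
    rintro _ ⟨i, rfl⟩ _ ⟨j, rfl⟩ _ ⟨k, rfl⟩ h1 h2 h3
    exact hB2 i j k (fun e => h1 (by rw [e])) (fun e => h2 (by rw [e])) (fun e => h3 (by rw [e]))
  · rw [← card_univ]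
    refine card_le_card_of_injOn (fun u => (pp t (G.a u), pp t (G.b u))) (fun u _ => ?_) ?_
    · have hne := hG.toGood.ne u u
      simp only [coe_filter, mem_product, mem_image, mem_univ, true_and, Set.mem_ofPred_eq]
      refine ⟨⟨⟨_, rfl⟩, ⟨_, rfl⟩⟩, fun e => hne (hpi e), ?_⟩
      rw [filter_image, card_image_of_injective _ hpi, hcard]
      have hs : S.s (G.a u) - S.s (G.b u) ≠ 0 := fun e => by
        have : γ / 2 ≤ |S.s (G.a u) - S.s (G.b u)| := hz.sep u
        rw [e, abs_zero] at this; linarith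
      have ha : S.f (G.a u) (z u) = 0 := hz.fa u
      have hb : S.f (G.b u) (z u) = 0 := hz.fb u
      have key : ∀ k, ((pp t (G.b u)).1 - (pp t (G.a u)).1) * ((pp t k).2 - (pp t (G.a u)).2) -
          ((pp t (G.b u)).2 - (pp t (G.a u)).2) * ((pp t k).1 - (pp t (G.a u)).1) =
          (S.s (G.a u) - S.s (G.b u)) * S.f k (z u) := fun k => by
        simp only [hS, Cfg.f] at ha hb ⊢
        linear_combination ((pp t (G.b u)).1 - (pp t k).1) * ha +
          ((pp t k).1 - (pp t (G.a u)).1) * hb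
      simp only [key]
      refine count_of_bal hne (by rw [ha, mul_zero]) (by rw [hb, mul_zero])
        (fun k h1 h2 => mul_ne_zero hs fun e => ?_) ?_
      · have : γ / 2 ≤ |S.f k (z u)| := hz.far u k h1 h2
        rw [e, abs_zero] at this; linarith
      · have : ∑ k, sg (S.f k (z u)) = 0 := hz.bal u
        simp only [sg_mul, ← mul_sum, this, mul_zero]
    · intro u _ u' _ e
      simp only [Prod.mk.injEq] at e
      exact hG.inj_ab _ _ (hpi e.1) (hpi e.2)

end Pool.Agent.Lib.MP_d308c3_co
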