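import Pool.Agent.Lib.MP_108739_an.F.AbcRect
import Pool.Agent.Lib.MP_d308c3_co.Dens

set_option autoImplicit false

/-! The rectangle argument with smoothing (RECT) and the density lemma on items. -/

namespace Pool.Agent.Lib.MP_d308c3_co.Rect

open Finset Pool.Agent.Lib.MP_108739_an.F Pool.Agent.Lib.MP_d308c3_co.Dens
open Classical

variable {Ω α β γ : Type} [Fintype Ω] {w : Ω → ℝ}

/-- smoothing of a finitely supported function -/
noncomputable def smF (J : ℕ) (F : ℤ →₀ ℝ) : ℤ →₀ ℝ := (J : ℝ)⁻¹ • ∑ i ∈ range J, sh i F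

theorem smF_coe (J : ℕ) (F : ℤ →₀ ℝ) : ⇑(smF J F) = sm J F := by
  funext z
  simp only [smF, sm, Finsupp.smul_apply, Finsupp.finsetSum_apply, sh_apply, smul_eq_mul]
  rw [div_eq_inv_mul]

theorem sh_coe (d : ℤ) (F : ℤ →₀ ℝ) : ⇑(sh d F) = shift F d := funext fun z => sh_apply d F z

theorem near_iff (F G : ℤ →₀ ℝ) (τ : ℝ) : Near F G τ ↔ n1 (F - G) ≤ τ := by
  constructor
  · intro h
    exact h (F - G).support
  · intro h T
    refine le_trans ?_ h
    rw [n1_eq_sum (F - G) (subset_union_right (s₁ := T))]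
    exact sum_le_sum_of_subset_of_nonneg subset_union_left fun _ _ _ => abs_nonneg _

theorem near_sm_iff (J : ℕ) (F : ℤ →₀ ℝ) (D : ℤ) (τ : ℝ) :
    Near (sm J F) (shift (sm J F) D) τ ↔ n1 (smF J F - sh D (smF J F)) ≤ τ := by
  rw [← near_iff, sh_coe, smF_coe]

theorem n1_smF_sub (J : ℕ) (F G : ℤ →₀ ℝ) : n1 (smF J F - smF J G) ≤ n1 (F - G) := by
  rw [← near_iff, smF_coe, smF_coe]
  exact ((near_iff F G _).2 le_rfl).sm J

theorem n1_smF (J : ℕ) (F : ℤ →₀ ℝ) : n1 (smF J F) ≤ n1 F := by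
  have h := n1_smF_sub J F 0
  have e : smF J 0 = 0 := by
    ext z
    rw [smF_coe]
    simp [sm]
  rwa [e, sub_zero, sub_zero] at h

theorem smF_sh (J : ℕ) (d : ℤ) (F : ℤ →₀ ℝ) : smF J (sh d F) = sh d (smF J F) := by
  apply DFunLike.coe_injective
  show ⇑(smF J (sh d F)) = ⇑(sh d (smF J F))
  rw [smF_coe, sh_coe, sh_coe, smF_coe, sm_shift]

theorem sm_smul (J : ℕ) (c : ℝ) (F : ℤ →₀ ℝ) (z : ℤ) : sm J (⇑(c • F)) z = c * sm J F z := by
  simp only [sm, Finsupp.smul_apply, smul_eq_mul]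
  rw [← mul_sum, mul_div_assoc]

theorem sm_law (J : ℕ) (u : Ω → ℝ) (X : Ω → ℤ) (z : ℤ) :
    sm J (law u X) z = ∑ o, u o * sm J (fun v => if v = X o then 1 else 0) z := by
  simp only [sm, law_apply, tot, res]
  rw [sum_comm, sum_div]
  refine sum_congr rfl fun o _ => ?_
  rw [← mul_div_assoc, mul_sum]
  congr 1
  refine sum_congr rfl fun i _ => ?_
  by_cases h : X o = z - i
  · rw [if_pos h, if_pos h.symm, mul_one]
  · rw [if_neg h, if_neg (Ne.symm h), mul_zero]

/-- a bounded perturbation of the variable moves the smoothed law little -/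
theorem near_law {u : Ω → ℝ} (hu : Nn u) {J : ℕ} (hJ : 1 ≤ J) (X X' : Ω → ℤ) {e : ℝ}
    (h : ∀ o, 0 < u o → |((X' o - X o : ℤ) : ℝ)| ≤ e) :
    Near (sm J (law u X)) (sm J (law u X')) (e * (2 / J) * tot u) := by
  intro T
  have hJ' : (0 : ℝ) < J := by exact_mod_cast hJ
  have h1 : ∀ o, Near (sm J fun v => if v = X o then 1 else 0)
      (sm J fun v => if v = X' o then 1 else 0) (|((X' o - X o : ℤ) : ℝ)| * (2 * 1 / J)) := by
    intro o
    have a1 := near_small (ν := fun v => if v = X o then (1 : ℝ) else 0)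
      (fun z => by split_ifs <;> norm_num) (M := 1) (fun T => by
        rw [sum_ite_eq']
        split_ifs <;> norm_num) hJ (X' o - X o)
    rw [← sm_shift] at a1
    have a2 : shift (fun v => if v = X o then (1 : ℝ) else 0) (X' o - X o) =
        fun v => if v = X' o then 1 else 0 := by
      funext v
      simp only [shift]
      by_cases hv : v = X' o
      · rw [if_pos hv, if_pos (by omega)]
      · rw [if_neg hv, if_neg (by omega)]
    rwa [a2] at a1
  calc ∑ z ∈ T, |sm J (law u X) z - sm J (law u X') z|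
      ≤ ∑ z ∈ T, ∑ o, u o * |sm J (fun v => if v = X o then 1 else 0) z -
          sm J (fun v => if v = X' o then 1 else 0) z| := by
        refine sum_le_sum fun z _ => ?_
        rw [sm_law, sm_law, ← sum_sub_distrib]
        refine (abs_sum_le_sum_abs _ _).trans (le_of_eq (sum_congr rfl fun o _ => ?_))
        rw [← mul_sub, abs_mul, abs_of_nonneg (hu o)]
    _ = E u fun o => ∑ z ∈ T, |sm J (fun v => if v = X o then 1 else 0) z -
          sm J (fun v => if v = X' o then 1 else 0) z| := by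
        rw [sum_comm]
        exact sum_congr rfl fun o _ => (mul_sum _ _ _).symm
    _ ≤ _ := E_le_const hu fun o ho => (h1 o T).trans (by
        rw [mul_one]
        exact mul_le_mul_of_nonneg_right (h o ho) (by positivity))

theorem n1_smF_lw (hw : Nn w) {J : ℕ} (hJ : 1 ≤ J) (X X' : Ω → ℤ) (g : Ω → α) {e : ℝ}
    (he : 0 ≤ e) (h : ∀ o, 0 < w o → |((X' o - X o : ℤ) : ℝ)| ≤ e) (p : Ω) :
    n1 (smF J (lw w X g p) - smF J (lw w X' g p)) ≤ e * (2 / J) := by
  rw [← near_iff, smF_coe, smF_coe]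
  intro T
  have h1 := near_law (hw.res fun o => g o = g p) hJ X X' (fun o ho => h o (res_pos ho).2) T
  rw [← ms_eq_tot] at h1
  have hm := ms_nonneg hw g p
  have h2 : ∀ z, |sm J (lw w X g p) z - sm J (lw w X' g p) z| = (ms w g p)⁻¹ *
      |sm J (law (res w fun o => g o = g p) X) z - sm J (law (res w fun o => g o = g p) X') z| := by
    intro z
    rw [lw, lw, sm_smul, sm_smul, ← mul_sub, abs_mul, abs_of_nonneg (inv_nonneg.2 hm)]
  simp only [h2]
  rw [← mul_sum]
  refine (mul_le_mul_of_nonneg_left h1 (inv_nonneg.2 hm)).trans ?_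
  rw [mul_comm, mul_assoc]
  exact mul_le_of_le_one_right (by positivity) mul_inv_le_one

theorem av_mono (hw : Nn w) (g : Ω → α) (p : Ω) {K L : Ω → ℝ}
    (h : ∀ o, 0 < w o → g o = g p → K o ≤ L o) : rectAv w g p K ≤ rectAv w g p L := by
  unfold rectAv
  exact div_le_div_of_nonneg_right
    (E_mono (hw.res _) fun o ho => h o (res_pos ho).2 (res_pos ho).1) (ms_nonneg hw g p)

theorem av_low (hw : Nn w) (g : Ω → α) {p : Ω} (hp : 0 < w p) {R : Ω → Prop} {K : Ω → ℝ}
    {c η : ℝ} (hc : 0 ≤ c) (hR : η * ms w g p ≤ tot (res w fun o => g o = g p ∧ R o))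
    (h0 : ∀ o, 0 ≤ K o) (h1 : ∀ o, 0 < w o → g o = g p → R o → c ≤ K o) :
    c * η ≤ rectAv w g p K := by
  have hm := ms_pos hw g hp
  have h2 : rectAv w g p (fun o => c * if R o then 1 else 0) ≤ rectAv w g p K := by
    refine av_mono hw g p fun o hw' ho => ?_
    by_cases ha : R o
    · rw [if_pos ha, mul_one]
      exact h1 o hw' ho ha
    · rw [if_neg ha, mul_zero]
      exact h0 o
  refine le_trans ?_ h2
  unfold rectAv
  rw [E_mul, E_ind, res_res, le_div_iff₀ hm]
  nlinarith [mul_le_mul_of_nonneg_left hR hc]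

/-- (RECT), abstract shift `s p q` that reads `(O,B)` of `p` and `(O,A)` of `q` -/
theorem rect (hw : Nn w) (O : Ω → α) (A : Ω → β) (B : Ω → γ) (Yp Yl : Ω → ℤ) (s : Ω → Ω → ℤ)
    (hs1 : ∀ p p' q, O p = O p' → B p = B p' → s p q = s p' q)
    (hs2 : ∀ p q q', O q = O q' → A q = A q' → s p q = s p q')
    {J : ℕ} (hJ : 1 ≤ J) {e0 : ℝ} (he0 : 0 ≤ e0)
    (hY : ∀ o, 0 < w o → |((Yl o - (Yp o + s o o) : ℤ) : ℝ)| ≤ e0)
    (R1 R2 : Ω → Ω → Prop) (Bad : Ω → Prop) {τ η : ℝ} (hτ : 0 ≤ τ) (hη : 0 ≤ η)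
    (hB : ∀ p, Bad p → 0 < w p →
      η * ms w O p ≤ tot (res w fun o => O o = O p ∧ R1 p o) ∧
      η * ms w O p ≤ tot (res w fun o => O o = O p ∧ R2 p o) ∧
      ∀ p' p'', 0 < w p' → 0 < w p'' → O p' = O p → O p'' = O p → R1 p p' → R2 p p'' →
        ¬ Near (sm J (lw w Yp (pr O (pr A B)) p))
          (shift (sm J (lw w Yp (pr O (pr A B)) p)) (s p p - s p' p - s p p'' + s p' p'')) τ) :
    τ * η * η * tot (res w Bad) ≤ 24 * √(tot w * I w A (pr B Yp) O) +
      8 * √(tot w * I w B (pr A Yl) O) + 8 * e0 / J * tot w := by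
  set G : Ω → α × β × γ := pr O (pr A B) with hG
  set al : Ω → ℤ →₀ ℝ := fun p => smF J (lw w Yp (pr B O) p) with hal
  set be : Ω → ℤ →₀ ℝ := fun p => smF J (lw w Yl (pr A O) p) with hbe
  set nu : Ω → ℤ →₀ ℝ := fun p => smF J (lw w Yp G p) with hnu
  set e : Ω → Ω → ℝ := fun p q => n1 (sh (s p q) (al p) - be q) with he
  set d1 := √(tot w * I w A (pr B Yp) O) with hd1
  set d2 := √(tot w * I w B (pr A Yl) O) with hd2
  have e0' : ∀ p q, 0 ≤ e p q := fun _ _ => n1_nonneg _
  have e2 : ∀ p q, e p q ≤ 2 := by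
    intro p q
    have h1 := n1_add_le (sh (s p q) (al p)) (-be q)
    rw [n1_neg, n1_sh, ← sub_eq_add_neg] at h1
    have h2 := (n1_smF J _).trans (n1_lw_le hw Yp (pr B O) p)
    have h3 := (n1_smF J _).trans (n1_lw_le hw Yl (pr A O) q)
    simp only [he]
    linarith
  have gO : Det G O := Det.fst
  have gA : Det G A := Det.snd.trans Det.fst
  have gB : Det G B := Det.snd.trans Det.snd
  have gs : Det G fun o => s o o := fun o o' h =>
    (hs1 o o' o (gO _ _ h) (gB _ _ h)).trans (hs2 o' o o' (gO _ _ h) (gA _ _ h))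
  have mono : ∀ {x y : ℝ}, x ≤ y → √(tot w * x) ≤ √(tot w * y) := fun h =>
    Real.sqrt_le_sqrt (mul_le_mul_of_nonneg_left h (tot_nonneg hw))
  have p1 : E w (fun o => n1 (lw w Yp G o - lw w Yp (pr B O) o)) ≤ 2 * d1 := by
    have h1 := rect_pinsker hw Yp Yp A (pr B O) (g' := G) Det.fst (gA.pr (gB.pr gO))
      ((Det.snd.trans Det.snd).pr (Det.fst.pr (Det.snd.trans Det.fst)))
    have h2 : I w Yp A (pr B O) ≤ I w A (pr B Yp) O := by
      rw [I_chain hw, I_symm hw Yp]
      linarith [I_nonneg hw A B O]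
    linarith [mono h2]
  have p2 : E w (fun o => n1 (lw w Yl G o - lw w Yl (pr A O) o)) ≤ 2 * d2 := by
    have h1 := rect_pinsker hw Yl Yl B (pr A O) (g' := G) Det.fst (gB.pr (gA.pr gO))
      ((Det.snd.trans Det.snd).pr ((Det.snd.trans Det.fst).pr Det.fst))
    have h2 : I w Yl B (pr A O) ≤ I w B (pr A Yl) O := by
      rw [I_chain hw, I_symm hw Yl]
      linarith [I_nonneg hw B A O]
    linarith [mono h2]
  have hd : E w (fun p => e p p) ≤ 2 * d1 + 2 * d2 + e0 * (2 / J) * tot w := by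
    refine le_trans ?_ (add_le_add (add_le_add p1 p2) le_rfl)
    rw [← E_const, ← E_add, ← E_add]
    refine E_mono hw fun p _ => ?_
    have h3 := n1_tri (sh (s p p) (al p)) (sh (s p p) (nu p)) (be p)
    have h4 := n1_tri (sh (s p p) (nu p)) (smF J (lw w Yl G p)) (be p)
    have h5 : n1 (sh (s p p) (al p) - sh (s p p) (nu p)) ≤
        n1 (lw w Yp G p - lw w Yp (pr B O) p) := by
      rw [← sh_sub, n1_sh, n1_sub_comm]
      exact n1_smF_sub _ _ _
    have h6 : n1 (smF J (lw w Yl G p) - be p) ≤ n1 (lw w Yl G p - lw w Yl (pr A O) p) :=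
      n1_smF_sub _ _ _
    have h7 : n1 (sh (s p p) (nu p) - smF J (lw w Yl G p)) ≤ e0 * (2 / J) := by
      have := n1_smF_lw hw hJ (fun o => Yp o + s o o) Yl G he0 hY p
      rwa [lw_add Yp _ gs p, smF_sh] at this
    simp only [he]
    linarith
  have hi : E w (fun p => rectAv w O p fun o => e o p) ≤ E w (fun p => e p p) + 4 * d1 := by
    have df : Det (pr B O) e := by
      intro o o' h
      funext q
      simp only [he, hal]
      rw [hs1 o o' q (Det.snd o o' h) (Det.fst o o' h), lw_det Yp (pr B O) o o' h]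
    have h1 := rect_pinsker hw e B A O (g' := pr O A) df (Det.snd.pr Det.fst)
      (Det.snd.pr Det.fst)
    have h0 : I w B A O ≤ I w A (pr B Yp) O := by
      rw [I_chain hw, I_symm hw B]
      linarith [I_nonneg hw A Yp (pr B O)]
    have h2 : E w (fun p => rectAv w O p fun o => e o p) ≤
        E w fun p => rectAv w (pr O A) p (fun o => e o o) +
          2 * n1 (lw w e (pr O A) p - lw w e O p) := by
      refine E_mono hw fun p _ => ?_
      have h3 := rectAv_sub (w := w) e O (pr O A) p (fun v => min 2 |v p|) (c := 2) (by norm_num)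
        (fun v => by
          rw [abs_of_nonneg (le_min (by norm_num) (abs_nonneg _))]
          exact min_le_left _ _)
      have h4 : (fun o => min 2 |e o p|) = fun o => e o p := funext fun o => by
        rw [abs_of_nonneg (e0' o p)]
        exact min_eq_right (e2 o p)
      rw [h4, n1_sub_comm] at h3
      have h5 : rectAv w (pr O A) p (fun o => e o p) = rectAv w (pr O A) p fun o => e o o := by
        refine rectAv_congr hw _ p fun o ho => ?_
        have h6 : O o = O p := Det.fst o p ho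
        have h7 : A o = A p := Det.snd o p ho
        simp only [he, hbe]
        rw [lw_det Yl (pr A O) o p (Prod.ext h7 h6), hs2 o o p h6 h7]
      linarith
    rw [E_add, E_mul, rectAv_fib hw] at h2
    linarith [mono h0]
  have hi' : E w (fun p => rectAv w O p fun o => e p o) ≤ E w (fun p => e p p) + 4 * d1 := by
    rw [rectAv_symm]
    exact hi
  set X : Ω → ℝ := fun p => rectAv w O p fun p' => rectAv w O p fun p'' =>
    n1 (nu p - sh (s p p - s p' p - s p p'' + s p' p'') (nu p)) with hX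
  have hlow : τ * η * η * tot (res w Bad) ≤ E w X := by
    rw [← E_ind, ← E_mul]
    refine E_mono hw fun p hp => ?_
    by_cases hb : Bad p
    · obtain ⟨h1, h2, h3⟩ := hB p hb hp
      rw [if_pos hb, mul_one]
      refine av_low hw O hp (by positivity) h1
        (fun o => rectAv_nonneg hw O p fun _ => n1_nonneg _) fun p' hp' ho ha => ?_
      refine av_low hw O hp hτ h2 (fun _ => n1_nonneg _) fun p'' hp'' ho' ha' => ?_
      have := h3 p' p'' hp' hp'' ho ho' ha ha'
      rw [near_sm_iff] at this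
      exact (not_le.1 this).le
    · rw [if_neg hb, mul_zero]
      exact rectAv_nonneg hw O p fun _ => rectAv_nonneg hw O p fun _ => n1_nonneg _
  have hup : E w X ≤ E w fun p => (2 * n1 (lw w Yp G p - lw w Yp (pr B O) p) + e p p) +
      (rectAv w O p fun o => e o p) +
      (rectAv w O p fun o => e p o) + rectAv w O p fun p' => rectAv w O p' fun o => e p' o := by
    refine E_mono hw fun p hp => ?_
    have h1 : X p ≤ rectAv w O p fun p' =>
        ((2 * n1 (lw w Yp G p - lw w Yp (pr B O) p) + e p p) + e p' p +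
          rectAv w O p fun o => e p o) + rectAv w O p' fun o => e p' o := by
      refine rectAv_mono hw O p fun p' ho => ?_
      have h2 : (rectAv w O p fun p'' =>
          n1 (nu p - sh (s p p - s p' p - s p p'' + s p' p'') (nu p))) ≤
          rectAv w O p fun p'' => ((2 * n1 (lw w Yp G p - lw w Yp (pr B O) p) + e p p) + e p' p +
            e p p'') + e p' p'' := by
        refine rectAv_mono hw O p fun p'' _ => ?_
        have a1 := rect_four (al p) (al p') (be p) (be p'') (s p p) (s p' p) (s p p'') (s p' p'')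
        set D := s p p - s p' p - s p p'' + s p' p''
        have a2 := n1_tri (nu p) (al p) (sh D (nu p))
        have a3 := n1_tri (al p) (sh D (al p)) (sh D (nu p))
        have a4 : n1 (nu p - al p) ≤ n1 (lw w Yp G p - lw w Yp (pr B O) p) := n1_smF_sub _ _ _
        have a5 : n1 (sh D (al p) - sh D (nu p)) = n1 (nu p - al p) := by
          rw [← sh_sub, n1_sh, n1_sub_comm]
        simp only [he]
        linarith
      rw [rectAv_add, rectAv_add, rectAv_const hw O hp] at h2
      rw [rectAv_base O ho]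
      exact h2
    rw [rectAv_add, rectAv_add, rectAv_add, rectAv_const hw O hp, rectAv_const hw O hp] at h1
    exact h1
  rw [E_add, E_add, E_add, E_add, E_mul, rectAv_fib hw] at hup
  have e8 : 8 * e0 / J * tot w = 4 * (e0 * (2 / J) * tot w) := by ring
  rw [e8]
  linarith

/-- the four floors of a product -/
theorem floor_four (x y z t : ℝ) :
    |((⌊x⌋ - ⌊y⌋ - ⌊z⌋ + ⌊t⌋ : ℤ) : ℝ) - (x - y - z + t)| ≤ 2 := by
  have a1 := Int.floor_le x
  have a2 := Int.floor_le y
  have a3 := Int.floor_le z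
  have a4 := Int.floor_le t
  have b1 := Int.lt_floor_add_one x
  have b2 := Int.lt_floor_add_one y
  have b3 := Int.lt_floor_add_one z
  have b4 := Int.lt_floor_add_one t
  push_cast
  rw [abs_le]
  constructor <;> linarith

/-- saturated: the smoothed law is almost invariant under a translate of size in `[lo,hi]` -/
def Sat (J : ℕ) (lo hi τ : ℝ) (ν : ℤ → ℝ) : Prop :=
  ∃ D : ℤ, lo ≤ |(D : ℝ)| ∧ |(D : ℝ)| ≤ hi ∧ Near (sm J ν) (shift (sm J ν) D) τ

/-- (RECT) for the product shift, activity per item -/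
theorem rect_sat (hw : Nn w) (O : Ω → α) (A : Ω → β) (B : Ω → γ) (Yp Yl : Ω → ℤ) (ta xb : Ω → ℝ)
    (hta : Det (pr O A) ta) (hxb : Det (pr O B) xb) {J : ℕ} (hJ : 1 ≤ J)
    (hY : ∀ o, 0 < w o → |Yl o - (Yp o + ⌊ta o * xb o⌋)| ≤ 2)
    (R1 R2 : Ω → Ω → Prop) {lo hi τ η : ℝ} (hτ : 0 ≤ τ) (hη : 0 ≤ η)
    (hR : ∀ p p' p'', 0 < w p → 0 < w p' → 0 < w p'' → O p' = O p → O p'' = O p → R1 p p' →
      R2 p p'' → lo + 2 ≤ |(ta p - ta p'') * (xb p - xb p')| ∧
        |(ta p - ta p'') * (xb p - xb p')| + 2 ≤ hi) :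
    τ * η * η * tot (res w fun p => η * ms w O p ≤ tot (res w fun o => O o = O p ∧ R1 p o) ∧
      η * ms w O p ≤ tot (res w fun o => O o = O p ∧ R2 p o) ∧
      ¬ Sat J lo hi τ (lw w Yp (pr O (pr A B)) p)) ≤ 24 * √(tot w * I w A (pr B Yp) O) +
      8 * √(tot w * I w B (pr A Yl) O) + 16 / J * tot w := by
  refine le_of_le_of_eq (rect hw O A B Yp Yl (fun p q => ⌊ta q * xb p⌋)
    (fun p p' q h1 h2 => by rw [hxb p p' (Prod.ext h1 h2)])
    (fun p q q' h1 h2 => by rw [hta q q' (Prod.ext h1 h2)]) hJ (e0 := 2) (by norm_num)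
    (fun o ho => by exact_mod_cast hY o ho) R1 R2 _ hτ hη (fun p hb hp => ⟨hb.1, hb.2.1,
        fun p' p'' hp' hp'' ho ho' h1 h2 hn => hb.2.2 ⟨_, ?_, ?_, hn⟩⟩)) (by norm_num)
  · have a1 := floor_four (ta p * xb p) (ta p * xb p') (ta p'' * xb p) (ta p'' * xb p')
    have a2 := (hR p p' p'' hp hp' hp'' ho ho' h1 h2).1
    rw [show ta p * xb p - ta p * xb p' - ta p'' * xb p + ta p'' * xb p' =
      (ta p - ta p'') * (xb p - xb p') by ring, abs_sub_comm] at a1
    have a3 := abs_sub_abs_le_abs_sub ((ta p - ta p'') * (xb p - xb p'))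
      ((⌊ta p * xb p⌋ - ⌊ta p * xb p'⌋ - ⌊ta p'' * xb p⌋ + ⌊ta p'' * xb p'⌋ : ℤ) : ℝ)
    linarith
  · have a1 := floor_four (ta p * xb p) (ta p * xb p') (ta p'' * xb p) (ta p'' * xb p')
    have a2 := (hR p p' p'' hp hp' hp'' ho ho' h1 h2).2
    rw [show ta p * xb p - ta p * xb p' - ta p'' * xb p + ta p'' * xb p' =
      (ta p - ta p'') * (xb p - xb p') by ring] at a1
    have a3 := abs_sub_abs_le_abs_sub
      ((⌊ta p * xb p⌋ - ⌊ta p * xb p'⌋ - ⌊ta p'' * xb p⌋ + ⌊ta p'' * xb p'⌋ : ℤ) : ℝ)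
      ((ta p - ta p'') * (xb p - xb p'))
    linarith

end Pool.Agent.Lib.MP_d308c3_co.Rect
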