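import Pool.Agent.Lib.MP_d308c3_co.Rect
import Pool.Agent.Lib.MP_d308c3_co.ColA

set_option autoImplicit false

/-! The rectangle argument for one cell, with the geometry of the heights. -/

namespace Pool.Agent.Lib.MP_d308c3_co.Rect

open Finset Pool.Agent.Lib.MP_108739_an.F Pool.Agent.Lib.MP_d308c3_co.Dens
open Classical

variable {Ω α β γ : Type} [Fintype Ω] {w : Ω → ℝ}

theorem floor_three (x y z : ℝ) (h0 : 0 ≤ z) (h1 : z ≤ 1) : |⌊x + y + z⌋ - (⌊x⌋ + ⌊y⌋)| ≤ 2 := by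
  have a1 := Int.floor_le x
  have a2 := Int.floor_le y
  have b1 := Int.lt_floor_add_one x
  have b2 := Int.lt_floor_add_one y
  have c1 : ⌊x⌋ + ⌊y⌋ ≤ ⌊x + y + z⌋ := Int.le_floor.2 (by push_cast; linarith)
  have c2 : ⌊x + y + z⌋ < ⌊x⌋ + ⌊y⌋ + 3 := Int.floor_lt.2 (by push_cast; linarith)
  rw [abs_le]
  constructor <;> omega

/-- (RECT) for a cell.  `O` fixes the time `t0`, the time scale `lam`, the left end `x0` and the length `U`
of the column cell; `A` fixes a later time `tA`, `B` the left end `xB` of a subcell of length `δ U`.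
`R2 p q`: the times `tA` are far apart. -/
theorem rect_cell (hw : Nn w) (O : Ω → α) (A : Ω → β) (B : Ω → γ) (a b t0 lam x0 U tA xB : Ω → ℝ)
    (h0 : Det O t0) (hl : Det O lam) (hx : Det O x0) (hU : Det O U)
    (htA : Det (pr O A) tA) (hxB : Det (pr O B) xB) {P δ Λ σ τ η : ℝ} {Jb : ℕ} (hJ : 1 ≤ Jb)
    (hΛ : 0 < Λ) (hP : 4096 * Λ ≤ P) (hδ : δ ≤ 1 / 1024) (hPδ : P * δ ≤ 1)
    (hpos : ∀ o, 0 < w o → 0 < lam o ∧ 0 < U o)
    (ht : ∀ o, 0 < w o → t0 o ≤ tA o ∧ tA o ≤ t0 o + lam o)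
    (hb : ∀ o, 0 < w o → x0 o ≤ xB o ∧ xB o ≤ x0 o + U o ∧ xB o ≤ a o ∧ a o ≤ xB o + δ * U o)
    (R2 : Ω → Ω → Prop)
    (hR : ∀ p q, 0 < w p → 0 < w q → O q = O p → R2 p q → lam p / Λ ≤ |tA p - tA q|)
    (Yp Yl : Ω → ℤ)
    (hYp : ∀ o, 0 < w o → Yp o = ⌊(b o + t0 o * (a o - x0 o)) / (lam o * U o / P) + σ⌋)
    (hYl : ∀ o, 0 < w o → Yl o = ⌊(b o + tA o * (a o - x0 o)) / (lam o * U o / P) + σ⌋)
    (hτ : 0 ≤ τ) (hη : 0 ≤ η) :
    τ * η * η * tot (res w fun p =>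
      η * ms w O p ≤ tot (res w fun o => O o = O p ∧ U p / 512 ≤ |a o - a p|) ∧
      η * ms w O p ≤ tot (res w fun o => O o = O p ∧ R2 p o) ∧
      ¬ Col.Sat w (pr O (pr A B)) Yp Jb P (2048 * Λ) τ p) ≤ 24 * √(tot w * I w A (pr B Yp) O) +
      8 * √(tot w * I w B (pr A Yl) O) + 16 / Jb * tot w := by
  have hP0 : 0 < P := by linarith
  refine rect_sat hw O A B Yp Yl (fun o => (tA o - t0 o) / lam o * P) (fun o => (xB o - x0 o) / U o)
    (fun o o' h => ?_) (fun o o' h => ?_) hJ (fun o ho => ?_) (fun p o => U p / 512 ≤ |a o - a p|) R2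
    (lo := P / (2048 * Λ)) (hi := P + 2) hτ hη fun p p' p'' hp hp' hp'' ho ho' h1 h2 => ?_
  · have e : O o = O o' := Det.fst o o' h
    simp only [htA o o' h, h0 o o' e, hl o o' e]
  · have e : O o = O o' := Det.fst o o' h
    simp only [hxB o o' h, hx o o' e, hU o o' e]
  · obtain ⟨l0, u0⟩ := hpos o ho
    obtain ⟨t1, t2⟩ := ht o ho
    obtain ⟨_, _, x3, x4⟩ := hb o ho
    have e : (b o + tA o * (a o - x0 o)) / (lam o * U o / P) + σ =
        ((b o + t0 o * (a o - x0 o)) / (lam o * U o / P) + σ) +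
          (tA o - t0 o) / lam o * P * ((xB o - x0 o) / U o) +
          (tA o - t0 o) / lam o * (P * ((a o - xB o) / U o)) := by
      field_simp
      ring
    rw [hYl o ho, hYp o ho, e]
    have c1 : 0 ≤ (tA o - t0 o) / lam o := div_nonneg (by linarith) l0.le
    have c2 : (tA o - t0 o) / lam o ≤ 1 := (div_le_one l0).2 (by linarith)
    have c3 : 0 ≤ (a o - xB o) / U o := div_nonneg (by linarith) u0.le
    have c4 : (a o - xB o) / U o ≤ δ := (div_le_iff₀ u0).2 (by linarith)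
    have c5 : P * ((a o - xB o) / U o) ≤ 1 := (mul_le_mul_of_nonneg_left c4 hP0.le).trans hPδ
    exact floor_three _ _ _ (by positivity) (mul_le_one₀ c2 (by positivity) c5)
  · obtain ⟨l0, u0⟩ := hpos p hp
    obtain ⟨t1, t2⟩ := ht p hp
    obtain ⟨t3, t4⟩ := ht p'' hp''
    obtain ⟨x1, x2, x3, x4⟩ := hb p hp
    obtain ⟨y1, y2, y3, y4⟩ := hb p' hp'
    have r := hR p p'' hp hp'' ho' h2
    rw [h0 _ _ ho'] at t3 t4
    rw [hl _ _ ho'] at t4
    rw [hx _ _ ho] at y1 y2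
    rw [hU _ _ ho] at y2 y4
    have e : ((tA p - t0 p) / lam p * P - (tA p'' - t0 p'') / lam p'' * P) *
        ((xB p - x0 p) / U p - (xB p' - x0 p') / U p') =
        P * ((tA p - tA p'') / lam p) * ((xB p - xB p') / U p) := by
      rw [h0 _ _ ho', hl _ _ ho', hx _ _ ho, hU _ _ ho]
      field_simp
      ring
    simp only [e]
    rw [abs_mul, abs_mul, abs_of_pos hP0, abs_div, abs_div, abs_of_pos l0, abs_of_pos u0]
    have c1 : 1 / Λ ≤ |tA p - tA p''| / lam p := by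
      rw [le_div_iff₀ l0]
      rw [div_eq_mul_one_div] at r
      linarith
    have c2 : |tA p - tA p''| / lam p ≤ 1 := (div_le_one l0).2 (abs_le.2 ⟨by linarith, by linarith⟩)
    have c3 : |xB p - xB p'| / U p ≤ 1 := (div_le_one u0).2 (abs_le.2 ⟨by linarith, by linarith⟩)
    have c4 : 1 / 1024 ≤ |xB p - xB p'| / U p := by
      rw [le_div_iff₀ u0]
      have d1 : δ * U p ≤ 1 / 1024 * U p := mul_le_mul_of_nonneg_right hδ u0.le
      rcases le_abs.1 h1 with d2 | d2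
      · exact le_abs.2 (Or.inr (by linarith))
      · exact le_abs.2 (Or.inl (by linarith))
    have c5 : 0 < 1 / Λ := by positivity
    constructor
    · have d1 : P * (1 / Λ) * (1 / 1024) ≤ P * (|tA p - tA p''| / lam p) * (|xB p - xB p'| / U p) := by
        gcongr
      have d2 : P / (2048 * Λ) = P * (1 / Λ) / 2048 := by field_simp
      have d3 : 4096 ≤ P * (1 / Λ) := by
        rw [mul_one_div, le_div_iff₀ hΛ]
        exact hP
      linarith
    · have d1 : P * (|tA p - tA p''| / lam p) * (|xB p - xB p'| / U p) ≤ P * 1 * 1 := by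
        gcongr
      linarith

end Pool.Agent.Lib.MP_d308c3_co.Rect
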