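import Mathlib

/-! Reduction of the halving line bound to a bound for runs of states of constant size. -/

set_option autoImplicit false

namespace Pool.Agent.Lib.MP_d308c3_co.Red

open Finset

theorem ex_thr (C : Finset ℝ) : ∀ j ≤ C.card, ∀ b, (∀ c ∈ C, c < b) →
    ∃ x, x < b ∧ x ∉ C ∧ (C.filter (· < x)).card = j := by
  induction C using Finset.induction_on_max with
  | empty => exact fun j hj b _ => ⟨b - 1, by linarith, by simp, (Nat.le_zero.1 hj).symm⟩
  | insert a C ha ih =>
    intro j hj b hb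
    have ab := hb a (mem_insert_self _ _)
    have na : a ∉ C := fun h => lt_irrefl _ (ha a h)
    rw [card_insert_of_notMem na] at hj
    rcases hj.eq_or_lt with e | e
    · refine ⟨(a + b) / 2, by linarith, fun h => ?_, ?_⟩
      · rcases mem_insert.1 h with h | h
        · linarith
        · linarith [ha _ h]
      · rw [filter_true_of_mem, card_insert_of_notMem na, e]
        intro c hc
        rcases mem_insert.1 hc with h | h
        · linarith
        · linarith [ha _ h]
    · obtain ⟨x, h1, h2, h3⟩ := ih j (by omega) a ha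
      refine ⟨x, h1.trans ab, fun h => ?_, ?_⟩
      · rcases mem_insert.1 h with h | h
        · exact h1.ne h
        · exact h2 h
      · rw [filter_insert, if_neg h1.le.not_gt, h3]

theorem ex_thr' (C : Finset ℝ) {j : ℕ} (hj : j ≤ C.card) :
    ∃ x, x ∉ C ∧ (C.filter (· < x)).card = j := by
  obtain ⟨b, hb⟩ := C.bddAbove
  obtain ⟨x, -, h⟩ := ex_thr C j hj (b + 1) fun c hc => lt_add_of_le_of_pos (hb hc) one_pos
  exact ⟨x, h⟩

theorem ex_times (C : Finset ℝ) : ∃ s : ℕ → ℝ, StrictMono s ∧ (∀ k ≤ C.card, s k ∉ C) ∧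
    ∀ c ∈ C, ∃ k < C.card, s k < c ∧ c < s (k + 1) ∧
      ∀ c' ∈ C, s k < c' → c' < s (k + 1) → c' = c := by
  have h0 : ∀ k : ℕ, ∃ x, k ≤ C.card → x ∉ C ∧ (C.filter (· < x)).card = k := fun k => by
    by_cases h : k ≤ C.card
    · exact (ex_thr' C h).imp fun _ h' _ => h'
    · exact ⟨0, fun h' => absurd h' h⟩
  choose s hs using h0
  have m1 : ∀ x y : ℝ, x ≤ y → (C.filter (· < x)).card ≤ (C.filter (· < y)).card := fun x y h =>
    card_le_card (monotone_filter_right _ fun c _ hc => lt_of_lt_of_le hc h)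
  have m2 : ∀ x ∈ C, ∀ y : ℝ, x < y → (C.filter (· < x)).card < (C.filter (· < y)).card :=
    fun x hx y h => card_lt_card ((ssubset_iff_of_subset
      (monotone_filter_right _ fun c _ hc => lt_trans hc h)).2 ⟨x, by simp [hx, h], by simp⟩)
  refine ⟨fun k => s (min k C.card) + (k - C.card : ℕ), strictMono_nat_of_lt_succ fun k => ?_,
    fun k hk => ?_, fun c hc => ?_⟩
  · by_cases h : k < C.card
    · rw [min_eq_left h.le, min_eq_left h, Nat.sub_eq_zero_of_le h.le, Nat.sub_eq_zero_of_le h]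
      by_contra c
      have := m1 _ _ (show s (k + 1) ≤ s k by simpa using c)
      rw [(hs k h.le).2, (hs (k + 1) h).2] at this
      omega
    · rw [min_eq_right (by omega), min_eq_right (by omega)]
      have : ((k - C.card : ℕ) : ℝ) < (k + 1 - C.card : ℕ) := by exact_mod_cast (by omega)
      linarith
  · simpa [min_eq_left hk, Nat.sub_eq_zero_of_le hk] using (hs k hk).1
  · set k := (C.filter (· < c)).card with hk
    have h : k < C.card := card_lt_card ((ssubset_iff_of_subset (filter_subset _ _)).2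
      ⟨c, hc, by simp⟩)
    refine ⟨k, h, ?_⟩
    simp only [min_eq_left h.le, min_eq_left (show k + 1 ≤ C.card from h), Nat.sub_eq_zero_of_le h.le,
      Nat.sub_eq_zero_of_le (show k + 1 ≤ C.card from h), Nat.cast_zero, add_zero]
    have a1 := hs k h.le
    have a2 := hs (k + 1) h
    refine ⟨?_, ?_, fun c' hc' b1 b2 => ?_⟩
    · by_contra d
      have := m2 c hc _ (lt_of_le_of_ne (not_lt.1 d) fun e => a1.1 (e ▸ hc))
      omega
    · by_contra d
      have := m1 _ _ (not_lt.1 d)
      omega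
    · rcases lt_trichotomy c' c with d | d | d
      · have := m2 c' hc' _ d
        have := m1 _ _ b1.le
        omega
      · exact d
      · have := m2 c hc _ d
        have := m2 c' hc' _ b2
        omega

/-- the points above a state -/
noncomputable def U (X : Finset (ℝ × ℝ)) (t m : ℝ) : Finset (ℝ × ℝ) :=
  X.filter fun p => m < p.2 + t * p.1

/-- the time at which two points have the same value -/
noncomputable def tau (p q : ℝ × ℝ) : ℝ := - (q.2 - p.2) / (q.1 - p.1)

noncomputable def crit (S : Finset (ℝ × ℝ)) : Finset ℝ :=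
  ((S ×ˢ S).filter fun x => x.1.1 ≠ x.2.1).image fun x => tau x.1 x.2

theorem tau_mem {S : Finset (ℝ × ℝ)} {p q : ℝ × ℝ} (hp : p ∈ S) (hq : q ∈ S) (h : p.1 ≠ q.1) :
    tau p q ∈ crit S := mem_image.2 ⟨(p, q), by simp [hp, hq, h], rfl⟩

theorem tau_eq {p q : ℝ × ℝ} (h : p.1 ≠ q.1) (t : ℝ) :
    q.2 + t * q.1 - (p.2 + t * p.1) = (t - tau p q) * (q.1 - p.1) := by
  have : q.1 - p.1 ≠ 0 := sub_ne_zero.2 h.symm
  rw [tau]; field_simp; ring

theorem stay {S : Finset (ℝ × ℝ)} {p r : ℝ × ℝ} (hp : p ∈ S) (hr : r ∈ S) {s s' c : ℝ}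
    (h1 : s ∉ crit S) (h2 : s' ∉ crit S) (h3 : s < c) (h4 : c < s')
    (h5 : ∀ c' ∈ crit S, s < c' → c' < s' → c' = c) (h : p.2 + c * p.1 < r.2 + c * r.1) :
    p.2 + s * p.1 < r.2 + s * r.1 ∧ p.2 + s' * p.1 < r.2 + s' * r.1 := by
  by_cases e : p.1 = r.1
  · rw [e] at h ⊢
    constructor <;> linarith
  have m := tau_mem hp hr e
  have a := tau_eq e c
  have a1 := tau_eq e s
  have a2 := tau_eq e s'
  have n1 : tau p r ≠ s := fun d => h1 (d ▸ m)
  have n2 : tau p r ≠ s' := fun d => h2 (d ▸ m)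
  have n3 : tau p r ≠ c := fun d => by rw [d] at a; linarith
  have k : tau p r < s ∨ s' < tau p r := by
    rcases lt_or_gt_of_ne n1 with d | d
    · exact Or.inl d
    · rcases lt_or_gt_of_ne n2 with d' | d'
      · exact absurd (h5 _ m d d') n3
      · exact Or.inr d'
  rcases k with k | k
  · have : 0 < r.1 - p.1 := by
      by_contra d
      nlinarith [mul_nonneg (show 0 ≤ c - tau p r by linarith) (neg_nonneg.2 (not_lt.1 d))]
    constructor <;> nlinarith
  · have : r.1 - p.1 < 0 := by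
      by_contra d
      nlinarith [mul_nonneg (show 0 ≤ tau p r - c by linarith) (not_lt.1 d)]
    constructor <;> nlinarith

theorem ex_med (S : Finset (ℝ × ℝ)) {s : ℝ} (hs : s ∉ crit S) {h : ℕ} (hh : h ≤ S.card) :
    ∃ m, (U S s m).card = h := by
  have inj : Set.InjOn (fun p : ℝ × ℝ => - (p.2 + s * p.1)) S := fun p hp q hq e => by
    by_cases d : p.1 = q.1
    · refine Prod.ext d ?_
      simp only [d] at e
      linarith
    · have a := tau_eq d s
      have : (s - tau p q) * (q.1 - p.1) = 0 := by simp only at e; linarith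
      rcases mul_eq_zero.1 this with b | b
      · exact absurd (sub_eq_zero.1 b ▸ tau_mem hp hq d) hs
      · exact absurd (sub_eq_zero.1 b).symm d
  obtain ⟨x, -, hx⟩ := ex_thr' (S.image fun p : ℝ × ℝ => - (p.2 + s * p.1)) (j := h)
    (by rwa [card_image_of_injOn inj])
  refine ⟨-x, ?_⟩
  rw [← hx, filter_image, card_image_of_injOn (inj.mono (coe_subset.2 (filter_subset _ _)))]
  exact congrArg _ (filter_congr fun p _ => neg_lt)

/-- position of a point of a halving pair at a time near the crossing -/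
theorem mem_iff {S A B : Finset (ℝ × ℝ)} {p q : ℝ × ℝ} {s m : ℝ} {h : ℕ} (hp : p ∈ S) (hq : q ∈ S)
    (hA : A ⊆ S) (hS : ∀ r ∈ S, r = p ∨ r = q ∨ r ∈ A ∨ r ∈ B) (cA : A.card + 1 = h)
    (cU : (U S s m).card = h) (a1 : ∀ r ∈ A, p.2 + s * p.1 < r.2 + s * r.1)
    (a2 : ∀ r ∈ A, q.2 + s * q.1 < r.2 + s * r.1) (b : ∀ r ∈ B, r.2 + s * r.1 < p.2 + s * p.1)
    (n : q.2 + s * q.1 ≠ p.2 + s * p.1) : p ∈ U S s m ↔ q.2 + s * q.1 < p.2 + s * p.1 := by
  constructor
  · intro h1
    by_contra d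
    have d' := lt_of_le_of_ne (not_lt.1 d) n.symm
    have k := (mem_filter.1 h1).2
    have np : p ∉ A := fun e => lt_irrefl _ (a1 p e)
    have nq : q ∉ insert p A := fun e => by
      rcases mem_insert.1 e with e | e
      · exact n (by rw [e])
      · exact lt_irrefl _ (a2 q e)
    have : insert q (insert p A) ⊆ U S s m := fun r hr => by
      rcases mem_insert.1 hr with rfl | hr
      · exact mem_filter.2 ⟨hq, k.trans d'⟩
      · rcases mem_insert.1 hr with rfl | hr
        · exact h1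
        · exact mem_filter.2 ⟨hA hr, k.trans (a1 r hr)⟩
    have := card_le_card this
    rw [card_insert_of_notMem nq, card_insert_of_notMem np] at this
    omega
  · intro d
    by_contra h1
    have k : p.2 + s * p.1 ≤ m := not_lt.1 fun e => h1 (mem_filter.2 ⟨hp, e⟩)
    have : U S s m ⊆ A := fun r hr => by
      obtain ⟨r1, r2⟩ := mem_filter.1 hr
      rcases hS r r1 with rfl | rfl | e | e
      · exact absurd hr h1
      · linarith
      · exact e
      · linarith [b r e]
    have := card_le_card this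
    omega

theorem count (S : Finset (ℝ × ℝ))
    (hg : ∀ p ∈ S, ∀ q ∈ S, ∀ r ∈ S, p ≠ q → p ≠ r → q ≠ r →
      (q.1 - p.1) * (r.2 - p.2) - (q.2 - p.2) * (r.1 - p.1) ≠ 0) :
    ∃ (K : ℕ) (t m : ℕ → ℝ), K ≤ S.card ^ 2 ∧ StrictMono t ∧
      (∀ k ≤ K, (U S (t k) (m k)).card = (U S (t 0) (m 0)).card) ∧
      ((S ×ˢ S).filter (fun x => x.1 ≠ x.2 ∧
          (S.filter (fun r => 0 < (x.2.1 - x.1.1) * (r.2 - x.1.2)
              - (x.2.2 - x.1.2) * (r.1 - x.1.1))).card * 2 + 2 = S.card)).card ≤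
        S.card + ∑ k ∈ range K, (symmDiff (U S (t k) (m k)) (U S (t (k + 1)) (m (k + 1)))).card := by
  obtain ⟨s, s1, s2, s3⟩ := ex_times (crit S)
  have h0 : ∀ k : ℕ, ∃ m, k ≤ (crit S).card → (U S (s k) m).card = S.card / 2 := fun k => by
    by_cases h : k ≤ (crit S).card
    · exact (ex_med S (s2 k h) (Nat.div_le_self _ 2)).imp fun _ h' _ => h'
    · exact ⟨0, fun h' => absurd h' h⟩
  choose m hm using h0
  refine ⟨_, s, m, ?_, s1, fun k hk => (hm k hk).trans (hm 0 (Nat.zero_le _)).symm, ?_⟩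
  · exact card_image_le.trans ((card_filter_le _ _).trans_eq (by rw [card_product, sq]))
  set Hs := (S ×ˢ S).filter (fun x => x.1 ≠ x.2 ∧
    (S.filter (fun r => 0 < (x.2.1 - x.1.1) * (r.2 - x.1.2)
      - (x.2.2 - x.1.2) * (r.1 - x.1.1))).card * 2 + 2 = S.card) with hH
  rw [← card_filter_add_card_filter_not (s := Hs) (fun x => x.1.1 = x.2.1)]
  refine add_le_add ?_ ?_
  · refine card_le_card_of_injOn Prod.fst (fun x hx => ?_) fun x hx y hy e => ?_
    · simp only [hH, coe_filter, mem_filter, mem_product, Set.mem_ofPred_eq] at hx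
      exact hx.1.1.1
    · simp only [hH, coe_filter, mem_filter, mem_product, Set.mem_ofPred_eq] at hx hy
      refine Prod.ext e ?_
      by_contra d
      refine hg x.1 hx.1.1.1 x.2 hx.1.1.2 y.2 hy.1.1.2 hx.1.2.1 (e ▸ hy.1.2.1) d ?_
      rw [← hx.2, ← hy.2, ← e]
      ring
  · have key : ∀ x ∈ Hs.filter (fun x => ¬ x.1.1 = x.2.1), ∃ k < (crit S).card,
        (∀ c' ∈ crit S, s k < c' → c' < s (k + 1) → c' = tau x.1 x.2) ∧
        s k < tau x.1 x.2 ∧ tau x.1 x.2 < s (k + 1) ∧
        x.1 ∈ symmDiff (U S (s k) (m k)) (U S (s (k + 1)) (m (k + 1))) := by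
      rintro ⟨p, q⟩ hx
      simp only [hH, mem_filter, mem_product] at hx
      obtain ⟨⟨⟨hp, hq⟩, hne, hc⟩, hx⟩ := hx
      obtain ⟨k, k1, k2, k3, k4⟩ := s3 _ (tau_mem hp hq hx)
      refine ⟨k, k1, k4, k2, k3, ?_⟩
      set c := tau p q with hc0
      have e0 : q.2 + c * q.1 = p.2 + c * p.1 := by
        have := tau_eq hx c
        rw [← hc0, sub_self, zero_mul] at this
        linarith
      have det : ∀ r : ℝ × ℝ, (q.1 - p.1) * (r.2 - p.2) - (q.2 - p.2) * (r.1 - p.1) =
          (q.1 - p.1) * (r.2 + c * r.1 - (p.2 + c * p.1)) := fun r => by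
        linear_combination (-(r.1 - p.1)) * e0
      let A := S.filter fun r => p.2 + c * p.1 < r.2 + c * r.1
      let B := S.filter fun r => r.2 + c * r.1 < p.2 + c * p.1
      have hS : ∀ r ∈ S, r = p ∨ r = q ∨ r ∈ A ∨ r ∈ B := fun r hr => by
        by_cases r1 : r = p
        · exact Or.inl r1
        by_cases r2 : r = q
        · exact Or.inr (Or.inl r2)
        have := hg p hp q hq r hr hne (Ne.symm r1) (Ne.symm r2)
        rw [det] at this
        rcases lt_or_gt_of_ne (sub_ne_zero.1 (right_ne_zero_of_mul this)) with d | d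
        · exact Or.inr (Or.inr (Or.inr (mem_filter.2 ⟨hr, d⟩)))
        · exact Or.inr (Or.inr (Or.inl (mem_filter.2 ⟨hr, d⟩)))
      have hAB : A.card + B.card + 2 = S.card := by
        have d1 : Disjoint A B := disjoint_filter.2 fun r _ a b => lt_asymm a b
        have n1 : p ∉ A ∪ B := by simp [A, B]
        have n2 : q ∉ insert p (A ∪ B) := by simp [A, B, e0, Ne.symm hne]
        have : S = insert q (insert p (A ∪ B)) := by
          refine Subset.antisymm (fun r hr => ?_) (insert_subset hq (insert_subset hp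
            (union_subset (filter_subset _ _) (filter_subset _ _))))
          simp only [mem_insert, mem_union]
          have := hS r hr
          tauto
        conv_rhs => rw [this, card_insert_of_notMem n2, card_insert_of_notMem n1,
          card_union_of_disjoint d1]
      have cA : A.card + 1 = S.card / 2 := by
        simp only [det] at hc
        rcases lt_or_gt_of_ne hx with d | d
        · have : S.filter (fun r => 0 < (q.1 - p.1) * (r.2 + c * r.1 - (p.2 + c * p.1))) = A :=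
            filter_congr fun r _ => by rw [mul_pos_iff_of_pos_left (sub_pos.2 d), sub_pos]
          rw [this] at hc
          omega
        · have : S.filter (fun r => 0 < (q.1 - p.1) * (r.2 + c * r.1 - (p.2 + c * p.1))) = B :=
            filter_congr fun r _ => by
              rw [← neg_mul_neg, mul_pos_iff_of_pos_left (by linarith), neg_pos, sub_neg]
          rw [this] at hc
          omega
      have st := fun a ha b hb => stay (p := a) (r := b) ha hb (s2 k k1.le) (s2 (k + 1) k1) k2 k3 k4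
      have f1 := tau_eq hx (s k)
      have f2 := tau_eq hx (s (k + 1))
      rw [← hc0] at f1 f2
      have ne : q.1 - p.1 ≠ 0 := sub_ne_zero.2 (Ne.symm hx)
      have i1 := mem_iff (B := B) hp hq (filter_subset _ _) hS cA (hm k k1.le)
        (fun r hr => (st p hp r (mem_filter.1 hr).1 (mem_filter.1 hr).2).1)
        (fun r hr => (st q hq r (mem_filter.1 hr).1 (e0 ▸ (mem_filter.1 hr).2)).1)
        (fun r hr => (st r (mem_filter.1 hr).1 p hp (mem_filter.1 hr).2).1)
        (sub_ne_zero.1 (f1 ▸ mul_ne_zero (sub_ne_zero.2 k2.ne) ne))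
      have i2 := mem_iff (B := B) hp hq (filter_subset _ _) hS cA (hm (k + 1) k1)
        (fun r hr => (st p hp r (mem_filter.1 hr).1 (mem_filter.1 hr).2).2)
        (fun r hr => (st q hq r (mem_filter.1 hr).1 (e0 ▸ (mem_filter.1 hr).2)).2)
        (fun r hr => (st r (mem_filter.1 hr).1 p hp (mem_filter.1 hr).2).2)
        (sub_ne_zero.1 (f2 ▸ mul_ne_zero (sub_ne_zero.2 k3.ne') ne))
      rw [mem_symmDiff, i1, i2]
      rcases lt_or_gt_of_ne ne with d | d
      · exact Or.inr ⟨by nlinarith, not_lt.2 (by nlinarith)⟩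
      · exact Or.inl ⟨by nlinarith, not_lt.2 (by nlinarith)⟩
    choose! κ hκ using key
    rw [← card_sigma]
    refine card_le_card_of_injOn (fun x => ⟨κ x, x.1⟩) (fun x hx => ?_) fun x hx y hy e => ?_
    · have := hκ x hx
      exact mem_coe.2 (mem_sigma.2 ⟨mem_range.2 this.1, this.2.2.2.2⟩)
    · have a := hκ x hx
      have b := hκ y hy
      obtain ⟨e1, e2⟩ := Sigma.mk.inj_iff.1 e
      have e2 := eq_of_heq e2
      simp only [hH, coe_filter, mem_filter, mem_product, Set.mem_ofPred_eq] at hx hy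
      rw [← e1] at b
      have e3 := a.2.1 _ (tau_mem hy.1.1.1 hy.1.1.2 hy.2) b.2.2.1 b.2.2.2.1
      refine Prod.ext e2 ?_
      by_contra d
      refine hg x.1 hx.1.1.1 x.2 hx.1.1.2 y.2 hy.1.1.2 hx.1.2.1 (e2 ▸ hy.1.2.1) d ?_
      have f1 := tau_eq hx.2 (tau x.1 x.2)
      have f2 := tau_eq hy.2 (tau y.1 y.2)
      rw [sub_self, zero_mul] at f1 f2
      rw [e3, ← e2] at f2
      linear_combination (x.2.1 - x.1.1) * f2 - (y.2.1 - x.1.1) * f1

/-- the bound for runs implies the bound for halving lines -/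
theorem red (H : ∀ g : ℝ, 0 < g → ∃ C : ℝ, ∀ (X : Finset (ℝ × ℝ)) (K : ℕ) (t m : ℕ → ℝ),
      StrictMono t → (∀ k ≤ K, (U X (t k) (m k)).card = (U X (t 0) (m 0)).card) →
      ((∑ k ∈ range K, (symmDiff (U X (t k) (m k)) (U X (t (k + 1)) (m (k + 1)))).card : ℕ) : ℝ) ≤
        C * (K : ℝ) ^ g * X.card) :
    ∀ ε : ℝ, 0 < ε → ∀ δ : ℝ, 0 < δ → ∃ N : ℕ, ∀ S : Finset (ℝ × ℝ),
      N ≤ S.card →
      (∀ p ∈ S, ∀ q ∈ S, ∀ r ∈ S, p ≠ q → p ≠ r → q ≠ r →
        (q.1 - p.1) * (r.2 - p.2) - (q.2 - p.2) * (r.1 - p.1) ≠ 0) →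
      (((S ×ˢ S).filter (fun x => x.1 ≠ x.2 ∧
          (S.filter (fun r => 0 < (x.2.1 - x.1.1) * (r.2 - x.1.2)
              - (x.2.2 - x.1.2) * (r.1 - x.1.1))).card * 2 + 2 = S.card)).card : ℝ)
        ≤ δ * (S.card : ℝ) ^ (1 + ε) := by
  intro ε hε δ hδ
  obtain ⟨C, hC⟩ := H (ε / 4) (by linarith)
  obtain ⟨N, hN⟩ := Filter.eventually_atTop.1 (((tendsto_rpow_atTop (half_pos hε)).comp
    tendsto_natCast_atTop_atTop).eventually_ge_atTop ((1 + |C|) / δ))
  refine ⟨max N 1, fun S hS hg => ?_⟩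
  obtain ⟨K, t, m, k1, k2, k3, k4⟩ := count S hg
  have n1 : (1 : ℝ) ≤ S.card := by exact_mod_cast le_of_max_le_right hS
  have n0 : (0 : ℝ) < S.card := by linarith
  have a1 := hC S K t m k2 k3
  have a2 : (K : ℝ) ^ (ε / 4) ≤ (S.card : ℝ) ^ (ε / 2) := by
    calc _ ≤ ((S.card : ℝ) ^ (2 : ℝ)) ^ (ε / 4) :=
          Real.rpow_le_rpow K.cast_nonneg (by exact_mod_cast k1) (by linarith)
      _ = _ := by rw [← Real.rpow_mul n0.le]; congr 1; ring
  have a3 : (1 : ℝ) ≤ (S.card : ℝ) ^ (ε / 2) := Real.one_le_rpow n1 (by linarith)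
  have a4 : 1 + |C| ≤ δ * (S.card : ℝ) ^ (ε / 2) := by
    have := hN S.card (le_of_max_le_left hS)
    rwa [Function.comp_apply, div_le_iff₀' hδ] at this
  have a5 : (S.card : ℝ) ^ (1 + ε) = (S.card : ℝ) ^ (ε / 2) * (S.card : ℝ) ^ (ε / 2) * S.card := by
    rw [← Real.rpow_add n0, add_halves, add_comm, Real.rpow_add n0, Real.rpow_one]
  have a6 : C * (K : ℝ) ^ (ε / 4) ≤ |C| * (S.card : ℝ) ^ (ε / 2) :=
    mul_le_mul (le_abs_self C) a2 (by positivity) (abs_nonneg C)
  refine (Nat.cast_le.2 k4).trans ?_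
  rw [Nat.cast_add, a5]
  have a7 := mul_le_mul_of_nonneg_right a6 n0.le
  have a8 := mul_le_mul_of_nonneg_right a4 (mul_nonneg (zero_le_one.trans a3) n0.le)
  nlinarith

end Pool.Agent.Lib.MP_d308c3_co.Red
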