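import Pool.Agent.Lib.MP_d308c3_co.Red

/-! Perturbation to general position, and the reduction for runs in general position. -/

set_option autoImplicit false

namespace Pool.Agent.Lib.MP_d308c3_co.Red

open Finset Filter Topology

theorem ev_ne {x y : ℝ} (h : x ≠ 0 ∨ y ≠ 0) : ∀ᶠ η in 𝓝[≠] (0 : ℝ), x + η * y ≠ 0 := by
  by_cases hx : x = 0
  · filter_upwards [self_mem_nhdsWithin] with η hη
    rw [hx, zero_add]
    exact mul_ne_zero hη (h.resolve_left (not_not.2 hx))
  · have c : ContinuousAt (fun η : ℝ => x + η * y) 0 := by fun_prop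
    exact (c.eventually_ne (by simpa using hx)).filter_mono nhdsWithin_le_nhds

theorem ev_pos {x y : ℝ} (h : 0 < x) : ∀ᶠ η in 𝓝[≠] (0 : ℝ), 0 < x + η * y := by
  have c : ContinuousAt (fun η : ℝ => x + η * y) 0 := by fun_prop
  exact (c.eventually (lt_mem_nhds (by simpa using h))).filter_mono nhdsWithin_le_nhds

/-- a threshold may be raised off a finite set of values -/
theorem ex_raise {I : Type*} (X : Finset I) (v : I → ℝ) (m : ℝ) :
    ∃ m', m < m' ∧ ∀ p ∈ X, m < v p → m' < v p := by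
  have : ∀ᶠ x in 𝓝[>] m, ∀ p ∈ X, m < v p → x < v p :=
    (eventually_all_finset X).2 fun p _ => by
      by_cases h : m < v p
      · exact ((gt_mem_nhds h).mono fun _ e _ => e).filter_mono nhdsWithin_le_nhds
      · exact Eventually.of_forall fun _ e => absurd e h
  have h0 : ∀ᶠ x in 𝓝[>] m, m < x := self_mem_nhdsWithin
  exact (h0.and this).exists

/-- general position: both coordinates injective, no point on a state line, same upper sets -/
theorem perturb {I : Type*} (X : Finset I) (a b : I → ℝ)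
    (hX : ∀ p ∈ X, ∀ q ∈ X, a p = a q → b p = b q → p = q) (K : ℕ) (t m : ℕ → ℝ) :
    ∃ (a' b' : I → ℝ) (m' : ℕ → ℝ), Set.InjOn a' X ∧ Set.InjOn b' X ∧ ∀ k ≤ K, ∀ p ∈ X,
      (m' k < b' p + t k * a' p ↔ m k < b p + t k * a p) ∧ b' p + t k * a' p ≠ m' k := by
  choose m' h1 h2 using fun k => ex_raise X (fun p => b p + t k * a p) (m k)
  have e1 : ∀ᶠ η in 𝓝[≠] (0 : ℝ), ∀ p ∈ X, ∀ q ∈ X, p ≠ q →
      (a p - a q) + η * (b p - b q) ≠ 0 ∧ (b p - b q) + η * (a p - a q) ≠ 0 :=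
    (eventually_all_finset X).2 fun p hp => (eventually_all_finset X).2 fun q hq => by
      by_cases h : p = q
      · exact Eventually.of_forall fun _ e => absurd h e
      · have k : a p - a q ≠ 0 ∨ b p - b q ≠ 0 := by
          by_contra c
          push Not at c
          exact h (hX p hp q hq (sub_eq_zero.1 c.1) (sub_eq_zero.1 c.2))
        exact ((ev_ne k).and (ev_ne k.symm)).mono fun _ e _ => e
  have e2 : ∀ᶠ η in 𝓝[≠] (0 : ℝ), ∀ k ∈ range (K + 1), ∀ p ∈ X,
      (m' k < (b p + η * a p) + t k * (a p + η * b p) ↔ m k < b p + t k * a p) ∧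
        (b p + η * a p) + t k * (a p + η * b p) ≠ m' k :=
    (eventually_all_finset _).2 fun k _ => (eventually_all_finset X).2 fun p hp => by
      by_cases h : m k < b p + t k * a p
      · refine (ev_pos (y := a p + t k * b p) (sub_pos.2 (h2 k p hp h))).mono fun η e => ?_
        have : m' k < (b p + η * a p) + t k * (a p + η * b p) := by linarith
        exact ⟨iff_of_true this h, this.ne'⟩
      · refine (ev_pos (y := -(a p + t k * b p))
          (sub_pos.2 ((not_lt.1 h).trans_lt (h1 k)))).mono fun η e => ?_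
        have : (b p + η * a p) + t k * (a p + η * b p) < m' k := by linarith
        exact ⟨iff_of_false this.le.not_gt h, this.ne⟩
  obtain ⟨η, f1, f2⟩ := (e1.and e2).exists
  refine ⟨fun p => a p + η * b p, fun p => b p + η * a p, m', fun p hp q hq e => ?_,
    fun p hp q hq e => ?_, fun k hk => f2 k (mem_range.2 (Nat.lt_succ_of_le hk))⟩
  · by_contra c
    exact (f1 p hp q hq c).1 (by simp only at e; linarith)
  · by_contra c
    exact (f1 p hp q hq c).2 (by simp only at e; linarith)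

/-- the reduction, with runs in general position only -/
theorem red2 (H : ∀ g : ℝ, 0 < g → ∃ C : ℝ, ∀ (X : Finset (ℝ × ℝ)) (K : ℕ) (t m : ℕ → ℝ),
      StrictMono t → Set.InjOn Prod.fst (X : Set (ℝ × ℝ)) → Set.InjOn Prod.snd (X : Set (ℝ × ℝ)) →
      (∀ k ≤ K, ∀ p ∈ X, p.2 + t k * p.1 ≠ m k) →
      (∀ k ≤ K, (U X (t k) (m k)).card = (U X (t 0) (m 0)).card) →
      ((∑ k ∈ range K, (symmDiff (U X (t k) (m k)) (U X (t (k + 1)) (m (k + 1)))).card : ℕ) : ℝ) ≤
        C * (K : ℝ) ^ g * X.card) :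
    ∀ ε : ℝ, 0 < ε → ∀ δ : ℝ, 0 < δ → ∃ N : ℕ, ∀ S : Finset (ℝ × ℝ),
      N ≤ S.card →
      (∀ p ∈ S, ∀ q ∈ S, ∀ r ∈ S, p ≠ q → p ≠ r → q ≠ r →
        (q.1 - p.1) * (r.2 - p.2) - (q.2 - p.2) * (r.1 - p.1) ≠ 0) →
      (((S ×ˢ S).filter (fun x => x.1 ≠ x.2 ∧
          (S.filter (fun r => 0 < (x.2.1 - x.1.1) * (r.2 - x.1.2)
              - (x.2.2 - x.1.2) * (r.1 - x.1.1))).card * 2 + 2 = S.card)).card : ℝ)
        ≤ δ * (S.card : ℝ) ^ (1 + ε) := by
  refine red fun g hg => (H g hg).imp fun C hC X K t m ht hc => ?_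
  obtain ⟨a, b, m', h1, h2, h3⟩ := perturb X Prod.fst Prod.snd
    (fun _ _ _ _ => Prod.ext) K t m
  let f : ℝ × ℝ → ℝ × ℝ := fun p => (a p, b p)
  have fi : Set.InjOn f X := fun p hp q hq e => h1 hp hq (congrArg Prod.fst e)
  have eU : ∀ k ≤ K, U (X.image f) (t k) (m' k) = (U X (t k) (m k)).image f := fun k hk => by
    rw [U, U, filter_image]
    exact congrArg _ (filter_congr fun p hp => (h3 k hk p hp).1)
  have sU : ∀ k, U X (t k) (m k) ⊆ X := fun k => filter_subset _ _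
  have cU : ∀ k ≤ K, (U (X.image f) (t k) (m' k)).card = (U X (t k) (m k)).card := fun k hk => by
    rw [eU k hk, card_image_of_injOn (fi.mono (coe_subset.2 (sU k)))]
  have := hC (X.image f) K t m' ht ?_ ?_ ?_ fun k hk => by rw [cU k hk, cU 0 K.zero_le, hc k hk]
  · rw [card_image_of_injOn fi] at this
    refine le_trans (Nat.cast_le.2 (sum_le_sum fun k hk => ?_)) this
    have hk := mem_range.1 hk
    rw [eU k hk.le, eU (k + 1) hk]
    refine card_le_card_of_injOn f (fun p hp => ?_) (fi.mono fun p hp => ?_)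
    · rcases mem_symmDiff.1 (mem_coe.1 hp) with ⟨c1, c2⟩ | ⟨c1, c2⟩
      · refine mem_coe.2 (mem_symmDiff.2 (Or.inl ⟨mem_image_of_mem f c1, fun d => c2 ?_⟩))
        obtain ⟨q, hq, e⟩ := mem_image.1 d
        exact fi (sU _ hq) (sU _ c1) e ▸ hq
      · refine mem_coe.2 (mem_symmDiff.2 (Or.inr ⟨mem_image_of_mem f c1, fun d => c2 ?_⟩))
        obtain ⟨q, hq, e⟩ := mem_image.1 d
        exact fi (sU _ hq) (sU _ c1) e ▸ hq
    · rcases mem_symmDiff.1 (mem_coe.1 hp) with ⟨c1, -⟩ | ⟨c1, -⟩ <;> exact sU _ c1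
  · intro p hp q hq e
    obtain ⟨p, p1, rfl⟩ := mem_image.1 hp
    obtain ⟨q, q1, rfl⟩ := mem_image.1 hq
    rw [h1 p1 q1 e]
  · intro p hp q hq e
    obtain ⟨p, p1, rfl⟩ := mem_image.1 hp
    obtain ⟨q, q1, rfl⟩ := mem_image.1 hq
    rw [h2 p1 q1 e]
  · intro k hk p hp
    obtain ⟨p, p1, rfl⟩ := mem_image.1 hp
    exact (h3 k hk p p1).2

end Pool.Agent.Lib.MP_d308c3_co.Red
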