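import Pool.Agent.Lib.MP_d308c3_co.Basic

namespace Pool.Agent.Lib.MP_d308c3_co

open Finset

variable {L τ σ β L₂ τ₂ σ₂ β₂ : Type}

def Cfg.occ (H : Cfg L τ σ) (i : L) (u : σ) : Prop := ∃ e, H.a e = i ∧ H.slot e = u

open Classical in
noncomputable def Cfg.pt (H : Cfg L τ σ) (i : L) (u : σ) : L :=
  if h : H.occ i u then H.b h.choose else i

theorem Cfg.pt_eq {H : Cfg L τ σ} {ρ γ : ℝ} (hH : H.Good ρ γ) (e : τ) :
    H.pt (H.a e) (H.slot e) = H.b e := by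
  have h : H.occ (H.a e) (H.slot e) := ⟨e, rfl, rfl⟩
  rw [Cfg.pt, dif_pos h, hH.inj_slot _ e h.choose_spec.1 h.choose_spec.2]

theorem Cfg.pt_not {H : Cfg L τ σ} {i : L} {u : σ} (h : ¬ H.occ i u) : H.pt i u = i := by
  rw [Cfg.pt, dif_neg h]

open Classical in
noncomputable def off (H : Cfg L τ σ) (Γ : Cfg L₂ τ₂ σ₂) (α ε : ℝ) (i : L) (u : σ) (k : L₂) : ℝ :=
  if H.occ i u then ε * α * Γ.c k else 3 * ε * sg (Γ.s k)

noncomputable def subCfg (H : Cfg L τ σ) (Γ : Cfg L₂ τ₂ σ₂) (P₂ Q₂ : β₂ → ℝ) (α ε : ℝ) :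
    Cfg (L × (β₂ ⊕ σ × L₂)) (τ × τ₂) σ₂ where
  s x := match x with
    | (i, Sum.inl _) => H.s i
    | (i, Sum.inr (u, k)) => (H.s i - α * Γ.s k * H.s (H.pt i u)) / (1 - α * Γ.s k)
  c x := match x with
    | (i, Sum.inl p) => H.c i + (if H.col i then ε * α * P₂ p else ε * Q₂ p)
    | (i, Sum.inr (u, k)) =>
      (H.c i - α * Γ.s k * H.c (H.pt i u) + off H Γ α ε i u k) / (1 - α * Γ.s k)
  col x := match x with
    | (_, Sum.inl _) => false
    | (_, Sum.inr (_, k)) => Γ.col k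
  z x :=
    ((H.z x.1).1 + ε * (((Γ.z x.2).1 - α * (Γ.z x.2).2) / (H.s (H.a x.1) - H.s (H.b x.1))),
     (H.z x.1).2 + ε * (α * (Γ.z x.2).2 + H.s (H.a x.1) *
        (((Γ.z x.2).1 - α * (Γ.z x.2).2) / (H.s (H.a x.1) - H.s (H.b x.1)))))
  a x := (H.a x.1, Sum.inr (H.slot x.1, Γ.a x.2))
  b x := (H.a x.1, Sum.inr (H.slot x.1, Γ.b x.2))
  slot x := Γ.slot x.2

theorem sub_gad [Fintype L] [Fintype σ] [Fintype β] [Fintype L₂] [Fintype β₂]
    {H : Cfg L τ σ} {P Q : β → ℝ} {Γ : Cfg L₂ τ₂ σ₂} {P₂ Q₂ : β₂ → ℝ} {γ g : ℝ}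
    (hH : H.Gad P Q 1 γ) (hΓ : Γ.Gad P₂ Q₂ 2 g) (hγ : 0 < γ) (hγ1 : γ ≤ 1) (hg : 0 < g)
    (hg1 : g ≤ 1) :
    (subCfg H Γ P₂ Q₂ (γ / 100) (γ ^ 2 / 1000)).Gad (fun x : β × (β₂ ⊕ σ × L₂) => P x.1)
      (fun x : β × (β₂ ⊕ σ × L₂) => Q x.1) 2 (γ ^ 3 * g / 200000) := by
  classical
  obtain ⟨α, hα⟩ : ∃ α, α = γ / 100 := ⟨_, rfl⟩
  obtain ⟨ε, hε⟩ : ∃ ε, ε = γ ^ 2 / 1000 := ⟨_, rfl⟩
  obtain ⟨m, hm⟩ : ∃ m, m = γ ^ 3 * g / 200000 := ⟨_, rfl⟩
  rw [← hα, ← hε, ← hm]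
  set S := subCfg H Γ P₂ Q₂ α ε with hS
  have hα0 : 0 < α := by rw [hα]; positivity
  have hε0 : 0 < ε := by rw [hε]; positivity
  have hα1 : α ≤ 1 / 100 := by rw [hα]; linarith
  have hε1 : ε ≤ γ / 1000 := by rw [hε]; nlinarith
  have hεα : ε * α ≤ γ / 100000 := by nlinarith
  have hm0 : 0 < m := by rw [hm]; positivity
  have hm1 : 2 * m = ε * α * g := by rw [hm, hε, hα]; ring
  have hm2 : 2 * m ≤ ε * α := by rw [hm1]; nlinarith [mul_pos hε0 hα0]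
  have hm3 : 2 * m ≤ ε / 100 := by nlinarith
  have hm4 : 200 * m ≤ ε * g := by nlinarith [mul_pos hε0 hg]
  have hαs : ∀ k, |α * Γ.s k| ≤ γ / 50 := fun k => by
    rw [abs_mul, abs_of_pos hα0]
    have := hΓ.s_le k
    nlinarith
  have hA1 : ∀ k, 49 / 50 ≤ 1 - α * Γ.s k := fun k => by
    have := (abs_le.1 (hαs k)).2; linarith
  have hA2 : ∀ k, 1 - α * Γ.s k ≤ 51 / 50 := fun k => by
    have := (abs_le.1 (hαs k)).1; linarith
  have hA0 : ∀ k, 0 < 1 - α * Γ.s k := fun k => by linarith [hA1 k]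
  have hmA : ∀ k, m * (1 - α * Γ.s k) ≤ 2 * m := fun k => by nlinarith [hA2 k]
  have hoff : ∀ i u k, |off H Γ α ε i u k| ≤ 3 * ε := fun i u k => by
    unfold off
    split_ifs
    · rw [abs_mul, abs_of_pos (mul_pos hε0 hα0)]
      have := hΓ.c_le k
      nlinarith [mul_pos hε0 hα0]
    · rw [abs_mul, abs_of_pos (by positivity : 0 < 3 * ε)]
      nlinarith [abs_sg_le (Γ.s k)]
  have hbo : ∀ i p, |(if H.col i then ε * α * P₂ p else ε * Q₂ p)| ≤ 6 * ε := fun i p => by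
    split_ifs
    · rw [abs_mul, abs_of_pos (mul_pos hε0 hα0)]
      have := hΓ.P_le p
      nlinarith [mul_pos hε0 hα0]
    · rw [abs_mul, abs_of_pos hε0]
      have := hΓ.Q_le p
      nlinarith
  have fl : ∀ i p Z, S.f (i, Sum.inl p) Z =
      H.f i Z - (if H.col i then ε * α * P₂ p else ε * Q₂ p) := fun i p Z => by
    simp only [hS, Cfg.f, subCfg]; ring
  have fr : ∀ i u k Z, (1 - α * Γ.s k) * S.f (i, Sum.inr (u, k)) Z =
      H.f i Z - α * Γ.s k * H.f (H.pt i u) Z - off H Γ α ε i u k := fun i u k Z => by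
    have := (hA0 k).ne'
    simp only [hS, Cfg.f, subCfg]; field_simp; ring
  have hsn : ∀ x, |S.s x - H.s x.1| ≤ 1 / 20 := by
    rintro ⟨i, p | ⟨u, k⟩⟩
    · simp [hS, subCfg]
    · have h1 : (1 - α * Γ.s k) * (S.s (i, Sum.inr (u, k)) - H.s i) =
          α * Γ.s k * (H.s i - H.s (H.pt i u)) := by
        have := (hA0 k).ne'
        simp only [hS, subCfg]; field_simp; ring
      have h2 : |α * Γ.s k * (H.s i - H.s (H.pt i u))| ≤ γ / 50 * 2 := by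
        rw [abs_mul]
        refine mul_le_mul (hαs k) ?_ (abs_nonneg _) (by positivity)
        have := abs_sub (H.s i) (H.s (H.pt i u))
        linarith [hH.s_le i, hH.s_le (H.pt i u)]
      rw [← h1, abs_mul, abs_of_pos (hA0 k)] at h2
      have := hA1 k
      nlinarith [abs_nonneg (S.s (i, Sum.inr (u, k)) - H.s i)]
  have hsc : ∀ x, sg (S.s x) = sg (H.s x.1) ∧ 1 / 2 - 1 / 20 ≤ |S.s x| := fun x =>
    close (by simpa using hH.s_ge x.1) (hsn x) (by norm_num)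
  -- facts about the new marked points
  have hv : ∀ x : τ × τ₂,
      |ε * (((Γ.z x.2).1 - α * (Γ.z x.2).2) / (H.s (H.a x.1) - H.s (H.b x.1)))| ≤
        3 * γ / 1000 := fun x => by
    have h1 := hH.sep x.1
    have h2 : |(Γ.z x.2).1 - α * (Γ.z x.2).2| ≤ 3 := by
      have := abs_sub (Γ.z x.2).1 (α * (Γ.z x.2).2)
      rw [abs_mul, abs_of_pos hα0] at this
      nlinarith [hΓ.z1 x.2, hΓ.z2 x.2]
    rw [abs_mul, abs_of_pos hε0, abs_div, hε]
    calc _ ≤ γ ^ 2 / 1000 * (3 / γ) := by gcongr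
      _ = _ := by field_simp
  have hz1 : ∀ x : τ × τ₂, |(S.z x).1 - (H.z x.1).1| ≤ 3 * γ / 1000 := fun x => by
    simpa [hS, subCfg] using hv x
  have hz2 : ∀ x : τ × τ₂, |(S.z x).2 - (H.z x.1).2| ≤ 4 * γ / 1000 := fun x => by
    have h1 : (S.z x).2 - (H.z x.1).2 =
        ε * α * (Γ.z x.2).2 + H.s (H.a x.1) * ((S.z x).1 - (H.z x.1).1) := by
      simp only [hS, subCfg]; ring
    rw [h1]
    refine (abs_add_le _ _).trans ?_
    rw [abs_mul, abs_mul (H.s _), abs_of_pos (mul_pos hε0 hα0)]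
    have h2 := mul_le_mul (hH.s_le (H.a x.1)) (hz1 x) (abs_nonneg _) zero_le_one
    nlinarith [hΓ.z2 x.2, mul_pos hε0 hα0]
  have hz1' : ∀ x, |(S.z x).1| ≤ 2 := fun x => by
    have := abs_sub_abs_le_abs_sub (S.z x).1 (H.z x.1).1
    linarith [hz1 x, hH.z1 x.1]
  have hz2' : ∀ x, |(S.z x).2| ≤ 2 := fun x => by
    have := abs_sub_abs_le_abs_sub (S.z x).2 (H.z x.1).2
    linarith [hz2 x, hH.z2 x.1]
  have hfa : ∀ x : τ × τ₂, H.f (H.a x.1) (S.z x) = ε * α * (Γ.z x.2).2 := fun x => by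
    have := hH.fa x.1
    simp only [hS, subCfg, Cfg.f] at this ⊢
    linear_combination this
  have hfb : ∀ x : τ × τ₂, H.f (H.b x.1) (S.z x) = ε * (Γ.z x.2).1 := fun x => by
    have h1 := hH.fb x.1
    have h2 : H.s (H.a x.1) - H.s (H.b x.1) ≠ 0 := fun h => by
      have := hH.sep x.1; rw [h, abs_zero] at this; linarith
    simp only [hS, subCfg, Cfg.f] at h1 ⊢
    have h3 := mul_div_cancel₀ ((Γ.z x.2).1 - α * (Γ.z x.2).2) h2
    linear_combination h1 + ε * h3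
  have hfd : ∀ (x : τ × τ₂) i, |H.f i (S.z x) - H.f i (H.z x.1)| ≤ 7 * γ / 1000 := fun x i => by
    have h1 : H.f i (S.z x) - H.f i (H.z x.1) =
        ((S.z x).2 - (H.z x.1).2) - H.s i * ((S.z x).1 - (H.z x.1).1) := by
      simp only [Cfg.f]; ring
    rw [h1]
    refine (abs_sub _ _).trans ?_
    rw [abs_mul]
    have h2 := mul_le_mul (hH.s_le i) (hz1 x) (abs_nonneg _) zero_le_one
    linarith [hz2 x]
  have hf7 : ∀ (x : τ × τ₂) i, |H.f i (S.z x)| ≤ 7 := fun x i => by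
    have h1 := abs_sub ((S.z x).2 - H.s i * (S.z x).1) (H.c i)
    have h2 := abs_sub (S.z x).2 (H.s i * (S.z x).1)
    rw [abs_mul] at h2
    have h3 := mul_le_mul (hH.s_le i) (hz1' x) (abs_nonneg _) zero_le_one
    unfold Cfg.f
    linarith [hz2' x, hH.c_le i]
  -- lines coming from another line of `H`
  have c1 : ∀ (x : τ × τ₂) i ω, i ≠ H.a x.1 → i ≠ H.b x.1 →
      sg (S.f (i, ω) (S.z x)) = sg (H.f i (H.z x.1)) ∧ m ≤ |S.f (i, ω) (S.z x)| := by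
    rintro x i (p | ⟨u, k⟩) h1 h2
    · have h3 : |S.f (i, Sum.inl p) (S.z x) - H.f i (H.z x.1)| ≤ γ / 2 := by
        rw [fl, sub_right_comm]
        refine (abs_sub _ _).trans ?_
        linarith [hfd x i, hbo i p]
      obtain ⟨h4, h5⟩ := close (hH.far x.1 i h1 h2) h3 (by linarith)
      exact ⟨h4, by linarith⟩
    · have h3 : |H.f i (S.z x) - α * Γ.s k * H.f (H.pt i u) (S.z x) - off H Γ α ε i u k -
          H.f i (H.z x.1)| ≤ γ / 2 := by
        have h4 : |α * Γ.s k * H.f (H.pt i u) (S.z x)| ≤ γ / 50 * 7 := by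
          rw [abs_mul]; exact mul_le_mul (hαs k) (hf7 x _) (abs_nonneg _) (by positivity)
        have h5 := abs_le.1 (hfd x i)
        have h6 := abs_le.1 (hoff i u k)
        have h7 := abs_le.1 h4
        rw [abs_le]; constructor <;> linarith
      obtain ⟨h4, h5⟩ := close (hH.far x.1 i h1 h2) h3 (by linarith)
      exact ⟨(sg_of_mul (hA0 k) (fr i u k _)).trans h4,
        le_abs_of_mul (hA0 k) (fr i u k _) h5 (by linarith [hmA k])⟩
  have hsk : ∀ k, |(sg (Γ.s k) : ℝ)| = 1 ∧ sg (sg (Γ.s k) : ℝ) = sg (Γ.s k) := fun k => by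
    have := hΓ.s_ge k
    rcases lt_trichotomy (Γ.s k) 0 with h | h | h
    · rw [sg_neg h]; exact ⟨by simp, sg_neg (by simp)⟩
    · rw [h, abs_zero] at this; norm_num at this
    · rw [sg_pos h]; exact ⟨by simp, sg_pos (by simp)⟩
  -- empty slots
  have c2 : ∀ (x : τ × τ₂) i u k, |H.f i (S.z x)| ≤ 2 * ε → ¬ H.occ i u →
      sg (S.f (i, Sum.inr (u, k)) (S.z x)) = -1 * sg (Γ.s k) ∧
        m ≤ |S.f (i, Sum.inr (u, k)) (S.z x)| := by
    intro x i u k h1 h2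
    have h3 := fr i u k (S.z x)
    rw [Cfg.pt_not h2, off, if_neg h2] at h3
    have h4 : |H.f i (S.z x) - α * Γ.s k * H.f i (S.z x) - 3 * ε * sg (Γ.s k) -
        (-(3 * ε * sg (Γ.s k)))| ≤ 51 / 50 * (2 * ε) := by
      have : H.f i (S.z x) - α * Γ.s k * H.f i (S.z x) - 3 * ε * sg (Γ.s k) -
        (-(3 * ε * sg (Γ.s k))) = (1 - α * Γ.s k) * H.f i (S.z x) := by ring
      rw [this, abs_mul, abs_of_pos (hA0 k)]
      exact mul_le_mul (hA2 k) h1 (abs_nonneg _) (by norm_num)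
    have h5 : 3 * ε ≤ |-(3 * ε * sg (Γ.s k))| := by
      rw [abs_neg, abs_mul, (hsk k).1, abs_of_pos (by positivity), mul_one]
    obtain ⟨h6, h7⟩ := close h5 h4 (by linarith)
    refine ⟨(sg_of_mul (hA0 k) h3).trans ?_, le_abs_of_mul (hA0 k) h3 h7 (by linarith [hmA k])⟩
    rw [h6, sg_neg_eq, sg_mul_pos (by positivity), (hsk k).2, neg_one_mul]
  have hfa' : ∀ x : τ × τ₂, |H.f (H.a x.1) (S.z x)| ≤ 2 * ε := fun x => by
    rw [hfa, abs_mul, abs_of_pos (mul_pos hε0 hα0)]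
    nlinarith [hΓ.z2 x.2, mul_pos hε0 hα0]
  have hfb' : ∀ x : τ × τ₂, |H.f (H.b x.1) (S.z x)| ≤ 2 * ε := fun x => by
    rw [hfb, abs_mul, abs_of_pos hε0]
    nlinarith [hΓ.z1 x.2]
  have hnb : ∀ (x : τ × τ₂) u, ¬ H.occ (H.b x.1) u := by
    rintro x u ⟨e, h, -⟩
    exact hH.toGood.ne _ _ h
  -- other slots of the first line
  have c3 : ∀ (x : τ × τ₂) u, u ≠ H.slot x.1 → ∃ κ : ℤ, ∀ k,
      sg (S.f (H.a x.1, Sum.inr (u, k)) (S.z x)) = κ * sg (Γ.s k) ∧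
        m ≤ |S.f (H.a x.1, Sum.inr (u, k)) (S.z x)| := by
    intro x u hu
    by_cases h : H.occ (H.a x.1) u
    · obtain ⟨e, h1, h2⟩ := id h
      have h3 : H.pt (H.a x.1) u = H.b e := by rw [← h1, ← h2, Cfg.pt_eq hH.toGood]
      have h4 : H.b e ≠ H.b x.1 := fun h4 => hu (by rw [← h2, hH.inj_ab _ _ h1 h4])
      have h5 := hH.far x.1 (H.b e) (hH.toGood.ne _ _).symm h4
      refine ⟨-sg (H.f (H.b e) (H.z x.1)), fun k => ?_⟩
      have h6 := fr (H.a x.1) u k (S.z x)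
      rw [h3, off, if_pos h, hfa] at h6
      have h7 : α * (γ / 4) ≤ |-(α * (H.f (H.b e) (H.z x.1) * Γ.s k))| := by
        rw [abs_neg, abs_mul, abs_mul, abs_of_pos hα0]
        have := mul_le_mul h5 (hΓ.s_ge k) (by norm_num) (abs_nonneg _)
        exact mul_le_mul_of_nonneg_left (by linarith) hα0.le
      have h8 : |ε * α * (Γ.z x.2).2 - α * Γ.s k * H.f (H.b e) (S.z x) - ε * α * Γ.c k -
          -(α * (H.f (H.b e) (H.z x.1) * Γ.s k))| ≤ α * (γ / 8) := by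
        have : ε * α * (Γ.z x.2).2 - α * Γ.s k * H.f (H.b e) (S.z x) - ε * α * Γ.c k -
          -(α * (H.f (H.b e) (H.z x.1) * Γ.s k)) = α * (ε * ((Γ.z x.2).2 - Γ.c k) -
            Γ.s k * (H.f (H.b e) (S.z x) - H.f (H.b e) (H.z x.1))) := by ring
        rw [this, abs_mul, abs_of_pos hα0]
        refine mul_le_mul_of_nonneg_left ((abs_sub _ _).trans ?_) hα0.le
        rw [abs_mul, abs_mul, abs_of_pos hε0]
        have h9 := mul_le_mul (hΓ.s_le k) (hfd x (H.b e)) (abs_nonneg _) (by norm_num)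
        have h10 := abs_sub (Γ.z x.2).2 (Γ.c k)
        have h11 : |(Γ.z x.2).2 - Γ.c k| ≤ 8 := by linarith [hΓ.z2 x.2, hΓ.c_le k]
        nlinarith
      obtain ⟨h9, h10⟩ := close h7 h8 (by nlinarith)
      refine ⟨(sg_of_mul (hA0 k) h6).trans ?_, le_abs_of_mul (hA0 k) h6 h10 ?_⟩
      · rw [h9, sg_neg_eq, sg_mul_pos hα0, sg_mul, neg_mul]
      · nlinarith [hmA k]
    · exact ⟨-1, fun k => c2 x _ u k (hfa' x) h⟩
  have c4 : ∀ (x : τ × τ₂) k, (1 - α * Γ.s k) * S.f (H.a x.1, Sum.inr (H.slot x.1, k)) (S.z x) =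
      ε * α * Γ.f k (Γ.z x.2) := fun x k => by
    rw [fr, Cfg.pt_eq hH.toGood, off, if_pos ⟨x.1, rfl, rfl⟩, hfa, hfb, Cfg.f]; ring
  have c5 : ∀ (x : τ × τ₂) p, S.f (H.a x.1, Sum.inl p) (S.z x) =
      ε * α * ((Γ.z x.2).2 - P₂ p) := fun x p => by
    rw [fl, hfa, if_pos (hH.ca _)]; ring
  have c6 : ∀ (x : τ × τ₂) p, S.f (H.b x.1, Sum.inl p) (S.z x) =
      ε * ((Γ.z x.2).1 - Q₂ p) := fun x p => by
    rw [fl, hfb, if_neg (by rw [hH.cb]; simp)]; ring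
  have cP : ∀ (x : τ × τ₂) p, sg ((S.z x).2 - P p) = sg ((H.z x.1).2 - P p) ∧
      γ - 4 * γ / 1000 ≤ |(S.z x).2 - P p| := fun x p =>
    close (hH.P_far x.1 p) (by simpa using hz2 x) (by linarith)
  have cQ : ∀ (x : τ × τ₂) p, sg ((S.z x).1 - Q p) = sg ((H.z x.1).1 - Q p) ∧
      γ - 3 * γ / 1000 ≤ |(S.z x).1 - Q p| := fun x p =>
    close (hH.Q_far x.1 p) (by simpa using hz1 x) (by linarith)
  have hcard : ∀ (j : ℤ), ∑ _ω : β₂ ⊕ σ × L₂, j = Fintype.card (β₂ ⊕ σ × L₂) * j := fun j => by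
    simp
  refine
    { s_le := fun x => ?_
      c_le := ?_
      z1 := hz1'
      z2 := hz2'
      fa := fun x => ?_
      fb := fun x => ?_
      sep := fun x => ?_
      ca := fun x => hΓ.ca x.2
      cb := fun x => hΓ.cb x.2
      far := ?_
      inj_slot := ?_
      inj_ab := ?_
      ev := by rw [Fintype.card_prod]; exact hH.ev.mul_right _
      s_ge := fun x => le_trans (by norm_num) (hsc x).2
      s_sum := ?_
      P_le := fun x => (hH.P_le x.1).trans (by norm_num)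
      Q_le := fun x => (hH.Q_le x.1).trans (by norm_num)
      P_far := fun x p => le_trans (by linarith) (cP x p.1).2
      Q_far := fun x p => le_trans (by linarith) (cQ x p.1).2
      bal := fun x => ?_ }
  · have := abs_sub_abs_le_abs_sub (S.s x) (H.s x.1)
    linarith [hsn x, hH.s_le x.1]
  · rintro ⟨i, p | ⟨u, k⟩⟩
    · refine (abs_add_le _ _).trans ?_
      linarith [hH.c_le i, hbo i p]
    · have h1 : (1 - α * Γ.s k) * S.c (i, Sum.inr (u, k)) =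
          H.c i - α * Γ.s k * H.c (H.pt i u) + off H Γ α ε i u k := by
        have := (hA0 k).ne'
        simp only [hS, subCfg]; field_simp
      have h2 : |α * Γ.s k * H.c (H.pt i u)| ≤ γ / 50 * (3 * 1) := by
        rw [abs_mul]; exact mul_le_mul (hαs k) (hH.c_le _) (abs_nonneg _) (by positivity)
      have h3 : |H.c i - α * Γ.s k * H.c (H.pt i u) + off H Γ α ε i u k| ≤ 4 := by
        have h4 := abs_le.1 (hH.c_le i)
        have h5 := abs_le.1 (hoff i u k)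
        have h6 := abs_le.1 h2
        rw [abs_le]; constructor <;> linarith
      rw [← h1, abs_mul, abs_of_pos (hA0 k)] at h3
      nlinarith [hA1 k, abs_nonneg (S.c (i, Sum.inr (u, k)))]
  · have := c4 x (Γ.a x.2)
    rw [hΓ.fa, mul_zero] at this
    exact (mul_eq_zero.1 this).resolve_left (hA0 _).ne'
  · have := c4 x (Γ.b x.2)
    rw [hΓ.fb, mul_zero] at this
    exact (mul_eq_zero.1 this).resolve_left (hA0 _).ne'
  · have h1 : (1 - α * Γ.s (Γ.a x.2)) * (1 - α * Γ.s (Γ.b x.2)) * (S.s (S.a x) - S.s (S.b x)) =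
        α * ((H.s (H.a x.1) - H.s (H.b x.1)) * (Γ.s (Γ.a x.2) - Γ.s (Γ.b x.2))) := by
      have h1 := (hA0 (Γ.a x.2)).ne'
      have h2 := (hA0 (Γ.b x.2)).ne'
      simp only [hS, subCfg, Cfg.pt_eq hH.toGood]; field_simp; ring
    refine le_abs_of_mul (m := α * (γ * g)) (mul_pos (hA0 _) (hA0 _)) h1 ?_ ?_
    · rw [abs_mul, abs_mul, abs_of_pos hα0]
      exact mul_le_mul_of_nonneg_left
        (mul_le_mul (hH.sep _) (hΓ.sep _) hg.le (abs_nonneg _)) hα0.le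
    · have h2 := mul_le_mul (hA2 (Γ.a x.2)) (hA2 (Γ.b x.2)) (hA0 _).le (by norm_num)
      have h3 : ε * α * g ≤ α * (γ * g) := by nlinarith [mul_pos hα0 hg]
      nlinarith
  · rintro x ⟨i, ω⟩ h1 h2
    by_cases hi : i = H.a x.1
    · subst hi
      rcases ω with p | ⟨u, k⟩
      · rw [c5, abs_mul, abs_of_pos (mul_pos hε0 hα0)]
        nlinarith [hΓ.P_far x.2 p, mul_pos hε0 hα0]
      · by_cases hu : u = H.slot x.1
        · subst hu
          have h3 := hΓ.far x.2 k (fun h => h1 (by rw [h]; rfl)) (fun h => h2 (by rw [h]; rfl))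
          refine le_abs_of_mul (m := ε * α * g) (hA0 k) (c4 x k) ?_ (by linarith [hmA k])
          rw [abs_mul, abs_of_pos (mul_pos hε0 hα0)]
          exact mul_le_mul_of_nonneg_left h3 (mul_pos hε0 hα0).le
        · obtain ⟨κ, hκ⟩ := c3 x u hu
          exact (hκ k).2
    by_cases hi' : i = H.b x.1
    · subst hi'
      rcases ω with p | ⟨u, k⟩
      · rw [c6, abs_mul, abs_of_pos hε0]
        nlinarith [hΓ.Q_far x.2 p]
      · exact (c2 x _ u k (hfb' x) (hnb x u)).2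
    · exact (c1 x i ω hi hi').2
  · rintro ⟨e, t⟩ ⟨e', t'⟩ h1 h2
    simp only [hS, subCfg, Prod.mk.injEq, Sum.inr.injEq] at h1 h2
    rw [hH.inj_slot _ _ h1.1 h1.2.1, hΓ.inj_slot _ _ h1.2.2 h2]
  · rintro ⟨e, t⟩ ⟨e', t'⟩ h1 h2
    simp only [hS, subCfg, Prod.mk.injEq, Sum.inr.injEq] at h1 h2
    rw [hH.inj_slot _ _ h1.1 h1.2.1, hΓ.inj_ab _ _ h1.2.2 h2.2.2]
  · rw [Fintype.sum_prod_type]
    simp only [(hsc _).1, hcard, ← mul_sum, hH.s_sum, mul_zero]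
  · have hne := hH.toGood.ne x.1 x.1
    have h1 : ∀ i, ∑ ω, sg (S.f (i, ω) (S.z x)) =
        Fintype.card (β₂ ⊕ σ × L₂) * sg (H.f i (H.z x.1)) +
        (if i = H.a x.1 then ∑ k, sg (Γ.f k (Γ.z x.2)) + ∑ p, sg ((Γ.z x.2).2 - P₂ p) else 0) +
        (if i = H.b x.1 then ∑ p, sg ((Γ.z x.2).1 - Q₂ p) else 0) := fun i => by
      by_cases hi : i = H.a x.1
      · subst hi
        rw [if_pos rfl, if_neg hne, hH.fa, Fintype.sum_sum_type, Fintype.sum_prod_type,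
          sum_eq_single (H.slot x.1)]
        · simp only [c5, sg_mul_pos (mul_pos hε0 hα0), sg_of_mul (hA0 _) (c4 x _), sg_zero]
          ring
        · intro u _ hu
          obtain ⟨κ, hκ⟩ := c3 x u hu
          simp only [(hκ _).1, ← mul_sum, hΓ.s_sum, mul_zero]
        · simp
      by_cases hi' : i = H.b x.1
      · subst hi'
        rw [if_neg hi, if_pos rfl, hH.fb, Fintype.sum_sum_type, Fintype.sum_prod_type]
        simp only [c6, sg_mul_pos hε0, (c2 x _ _ _ (hfb' x) (hnb x _)).1, ← mul_sum, hΓ.s_sum,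
          mul_zero, sum_const_zero, sg_zero, add_zero, zero_add]
      · simp only [(c1 x i _ hi hi').1, hcard, if_neg hi, if_neg hi', add_zero]
    rw [Fintype.sum_prod_type, Fintype.sum_prod_type, Fintype.sum_prod_type]
    simp only [h1, (cP x _).1, (cQ x _).1, hcard, sum_add_distrib, ← mul_sum, sum_ite_eq',
      mem_univ, if_true]
    linear_combination (Fintype.card (β₂ ⊕ σ × L₂) : ℤ) * hH.bal x.1 + hΓ.bal x.2

theorem GadEx.sub {γ g : ℝ} {w l m Δ w₂ l₂ m₂ Δ₂ : ℕ} (h : GadEx 1 γ w l m Δ)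
    (h₂ : GadEx 2 g w₂ l₂ m₂ Δ₂) (hγ : 0 < γ) (hγ1 : γ ≤ 1) (hg : 0 < g) (hg1 : g ≤ 1) :
    GadEx 2 (γ ^ 3 * g / 200000) (w * (w₂ + Δ * l₂)) (l * (w₂ + Δ * l₂)) (m * m₂) Δ₂ := by
  obtain ⟨L, τ, σ, β, i1, i2, i3, i4, H, P, Q, hH, rfl, rfl, rfl, rfl⟩ := h
  obtain ⟨L₂, τ₂, σ₂, β₂, j1, j2, j3, j4, Γ, P₂, Q₂, hΓ, rfl, rfl, rfl, rfl⟩ := h₂
  exact ⟨_, _, _, _, inferInstance, inferInstance, inferInstance, inferInstance, _, _, _,
    sub_gad hH hΓ hγ hγ1 hg hg1, by simp, by simp, by simp, rfl⟩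

end Pool.Agent.Lib.MP_d308c3_co
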